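import Pool.Agent.W_f50700_h3.Defs

/-!
Mb0: basic facts on the distance to the nearest integer and on `e(x)`.
-/

open Complex

namespace Pool.Agent.W_f50700_h13

open Pool.Agent.W_f50700_h3

theorem dist1_nonneg (x : ℝ) : 0 ≤ dist1 x := abs_nonneg _

theorem dist1_le_half (x : ℝ) : dist1 x ≤ 1 / 2 := abs_sub_round x

theorem dist1_le_abs_sub (x : ℝ) (k : ℤ) : dist1 x ≤ |x - k| := round_le x k

theorem dist1_le_abs (x : ℝ) : dist1 x ≤ |x| := by
  have := dist1_le_abs_sub x 0
  simpa using this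

theorem exists_int_dist1 (x : ℝ) : ∃ k : ℤ, |x - k| = dist1 x := ⟨round x, rfl⟩

theorem dist1_eq_abs {x : ℝ} (h : |x| ≤ 1 / 2) : dist1 x = |x| := by
  apply le_antisymm (dist1_le_abs x)
  obtain ⟨k, hk⟩ := exists_int_dist1 x
  rw [← hk]
  rcases eq_or_ne k 0 with rfl | h0
  · simp
  · have h1 : (1 : ℝ) ≤ |(k : ℝ)| := by
      exact_mod_cast Int.one_le_abs h0
    have h2 : |(k : ℝ)| ≤ |x - k| + |x| := by
      have := abs_sub_abs_le_abs_sub (k : ℝ) x
      rw [abs_sub_comm (k : ℝ) x] at this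
      linarith
    linarith

theorem dist1_neg (x : ℝ) : dist1 (-x) = dist1 x := by
  apply le_antisymm
  · obtain ⟨k, hk⟩ := exists_int_dist1 x
    have := dist1_le_abs_sub (-x) (-k)
    rw [← hk]
    calc dist1 (-x) ≤ |-x - ((-k : ℤ) : ℝ)| := this
      _ = |x - k| := by push_cast; rw [← abs_neg]; ring_nf
  · obtain ⟨k, hk⟩ := exists_int_dist1 (-x)
    have := dist1_le_abs_sub x (-k)
    rw [← hk]
    calc dist1 x ≤ |x - ((-k : ℤ) : ℝ)| := this
      _ = |-x - k| := by push_cast; rw [← abs_neg]; ring_nf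

theorem dist1_add_int (x : ℝ) (k : ℤ) : dist1 (x + k) = dist1 x := by
  unfold dist1
  rw [round_add_intCast]
  push_cast
  ring_nf

theorem dist1_sub_int (x : ℝ) (k : ℤ) : dist1 (x - k) = dist1 x := by
  have := dist1_add_int x (-k)
  push_cast at this
  rwa [← sub_eq_add_neg] at this

theorem dist1_add_le (x y : ℝ) : dist1 (x + y) ≤ dist1 x + dist1 y := by
  obtain ⟨k, hk⟩ := exists_int_dist1 x
  obtain ⟨l, hl⟩ := exists_int_dist1 y
  calc dist1 (x + y) ≤ |x + y - ((k + l : ℤ) : ℝ)| := dist1_le_abs_sub _ _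
    _ = |(x - k) + (y - l)| := by push_cast; ring_nf
    _ ≤ |x - k| + |y - l| := abs_add_le _ _
    _ = _ := by rw [hk, hl]

theorem dist1_sub_le (x y : ℝ) : dist1 (x - y) ≤ dist1 x + dist1 y := by
  have := dist1_add_le x (-y)
  rwa [dist1_neg, ← sub_eq_add_neg] at this

theorem dist1_sub_comm (x y : ℝ) : dist1 (x - y) = dist1 (y - x) := by
  rw [← dist1_neg (x - y), neg_sub]

theorem dist1_int_mul_le (k : ℤ) (x : ℝ) : dist1 (k * x) ≤ |(k : ℝ)| * dist1 x := by
  obtain ⟨l, hl⟩ := exists_int_dist1 x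
  calc dist1 (k * x) ≤ |k * x - ((k * l : ℤ) : ℝ)| := dist1_le_abs_sub _ _
    _ = |(k : ℝ) * (x - l)| := by push_cast; ring_nf
    _ = _ := by rw [abs_mul, hl]

theorem dist1_lip (x y : ℝ) : |dist1 x - dist1 y| ≤ |x - y| := by
  rw [abs_sub_le_iff]
  constructor
  · have := dist1_add_le (x - y) y
    rw [sub_add_cancel] at this
    linarith [dist1_le_abs (x - y)]
  · have := dist1_add_le (y - x) x
    rw [sub_add_cancel] at this
    have h := dist1_le_abs (y - x)
    rw [abs_sub_comm] at h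
    linarith

theorem continuous_dist1 : Continuous dist1 := by
  have : LipschitzWith 1 dist1 := by
    apply LipschitzWith.of_dist_le_mul
    intro x y
    simpa [Real.dist_eq] using dist1_lip x y
  exact this.continuous

theorem e_zero : e 0 = 1 := by simp [e]

theorem e_add (x y : ℝ) : e (x + y) = e x * e y := by
  unfold e
  rw [← Complex.exp_add]
  push_cast
  ring_nf

theorem e_int (k : ℤ) : e (k : ℝ) = 1 := by
  unfold e
  rw [Complex.exp_eq_one_iff]
  exact ⟨k, by push_cast; ring⟩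

theorem e_nat (k : ℕ) : e (k : ℝ) = 1 := by
  have := e_int (k : ℤ)
  simpa using this

theorem e_add_int (x : ℝ) (k : ℤ) : e (x + k) = e x := by
  rw [e_add, e_int, mul_one]

theorem norm_e (x : ℝ) : ‖e x‖ = 1 := by
  unfold e
  rw [show 2 * (Real.pi : ℂ) * I * (x : ℂ) = ((2 * Real.pi * x : ℝ) : ℂ) * I by push_cast; ring]
  exact Complex.norm_exp_ofReal_mul_I _

theorem e_ne_zero (x : ℝ) : e x ≠ 0 := Complex.exp_ne_zero _

theorem e_neg (x : ℝ) : e (-x) = (starRingEnd ℂ) (e x) := by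
  unfold e
  rw [← Complex.exp_conj]
  congr 1
  simp only [map_mul, Complex.conj_ofReal, Complex.conj_I, map_ofNat]
  push_cast
  ring

theorem e_mul_e_neg (x : ℝ) : e x * e (-x) = 1 := by
  rw [← e_add, add_neg_cancel, e_zero]

theorem e_sub (x y : ℝ) : e (x - y) = e x * (starRingEnd ℂ) (e y) := by
  rw [sub_eq_add_neg, e_add, e_neg]

theorem continuous_e : Continuous e := by
  unfold e
  fun_prop

theorem e_nsmul (n : ℕ) (x : ℝ) : e (n * x) = e x ^ n := by
  unfold e
  rw [← Complex.exp_nat_mul]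
  push_cast
  ring_nf

/-- orthogonality -/
theorem integral_e_int (k : ℤ) : ∫ t in (0 : ℝ)..1, e (k * t) = if k = 0 then 1 else 0 := by
  split_ifs with h
  · subst h; simp [e_zero]
  · have hc : (2 * Real.pi * I * k : ℂ) ≠ 0 := by
      have h1 : (k : ℂ) ≠ 0 := by exact_mod_cast h
      have h2 : (Real.pi : ℂ) ≠ 0 := by exact_mod_cast Real.pi_ne_zero
      simp [h1, h2]
    have h3 : ∀ t : ℝ, e (k * t) = Complex.exp ((2 * Real.pi * I * k : ℂ) * t) := by
      intro t; unfold e; push_cast; ring_nf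
    simp_rw [h3]
    rw [integral_exp_mul_complex hc]
    have h4 : Complex.exp ((2 * Real.pi * I * k : ℂ) * (1 : ℝ)) = 1 := by
      have := e_int k
      unfold e at this
      rw [← this]; push_cast; ring_nf
    rw [h4]; simp

/-- `|sum_{j<n} e(jt)| ≤ 1 / (2 dist1 t)` -/
theorem norm_geom_le (n : ℕ) {t : ℝ} (ht : 0 < dist1 t) :
    ‖∑ j ∈ Finset.range n, e ((j : ℝ) * t)‖ ≤ 1 / (2 * dist1 t) := by
  have h1 : ∀ j : ℕ, e ((j : ℝ) * t) = e t ^ j := fun j => e_nsmul j t
  simp_rw [h1]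
  -- lower bound for |e t - 1|
  have h2 : 4 * dist1 t ≤ ‖e t - 1‖ := by
    obtain ⟨k, hk⟩ := exists_int_dist1 t
    set x := t - k with hx
    have hex : e t = e x := by
      rw [show t = x + k by rw [hx]; ring, e_add_int]
    have hxa : |x| ≤ 1 / 2 := by rw [hk]; exact dist1_le_half t
    rw [hex, ← hk]
    have h5 : ‖e x - 1‖ = 2 * |Real.sin (Real.pi * x)| := by
      unfold e
      rw [show 2 * (Real.pi : ℂ) * I * (x : ℂ) = I * ((2 * Real.pi * x : ℝ) : ℂ) by push_cast; ring]
      rw [Complex.norm_exp_I_mul_ofReal_sub_one]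
      rw [norm_mul, Real.norm_eq_abs, Real.norm_eq_abs]
      rw [show 2 * Real.pi * x / 2 = Real.pi * x by ring]
      norm_num
    rw [h5]
    have h6 : 2 * |x| ≤ |Real.sin (Real.pi * x)| := by
      have h7 : |Real.sin (Real.pi * x)| = Real.sin (Real.pi * |x|) := by
        rcases le_total 0 x with h | h
        · rw [abs_of_nonneg h, abs_of_nonneg]
          apply Real.sin_nonneg_of_nonneg_of_le_pi (by positivity)
          rw [abs_of_nonneg h] at hxa
          nlinarith [Real.pi_pos]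
        · rw [abs_of_nonpos h, show Real.pi * -x = -(Real.pi * x) by ring, Real.sin_neg,
            abs_of_nonpos]
          rw [abs_of_nonpos h] at hxa
          have := Real.sin_nonneg_of_nonneg_of_le_pi (x := Real.pi * (-x))
            (by nlinarith [Real.pi_pos]) (by nlinarith [Real.pi_pos])
          rw [show Real.pi * -x = -(Real.pi * x) by ring, Real.sin_neg] at this
          linarith
      rw [h7]
      have h8 := Real.mul_le_sin (x := Real.pi * |x|) (by positivity)
        (by nlinarith [Real.pi_pos])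
      calc 2 * |x| = 2 / Real.pi * (Real.pi * |x|) := by
            field_simp
        _ ≤ _ := h8
    linarith
  have h3 : e t ≠ 1 := by
    intro h
    rw [h] at h2
    simp at h2
    linarith
  rw [geom_sum_eq h3, norm_div]
  have h4 : ‖e t ^ n - 1‖ ≤ 2 := by
    calc ‖e t ^ n - 1‖ ≤ ‖e t ^ n‖ + ‖(1 : ℂ)‖ := norm_sub_le _ _
      _ = 2 := by rw [norm_pow, norm_e]; norm_num
  have h5 : 0 < ‖e t - 1‖ := by linarith
  rw [div_le_div_iff₀ h5 (by positivity)]
  nlinarith [norm_nonneg (e t ^ n - 1)]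

end Pool.Agent.W_f50700_h13
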