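import Pool.Agent.W_f50700_h13.MbF1

/-!
MbA1: Dirichlet covering and a measure lemma.
-/

open MeasureTheory

namespace Pool.Agent.W_f50700_h13

open Pool.Agent.W_f50700_h3

/-- `Real.exists_rat_abs_sub_le_and_den_le` with `n = ⌈4 √N⌉` -/
theorem dirichlet_cover {N : ℝ} (hN : 1 ≤ N) {θ : ℝ} (hθ : θ ∈ Set.Icc (0 : ℝ) 1) :
    ∃ q a : ℕ, 1 ≤ q ∧ (q : ℝ) ≤ 5 * √N ∧ a ≤ q ∧ Nat.Coprime a q ∧
      |θ - (a : ℝ) / q| ≤ 1 / (4 * q * √N) := by
  have hs : 1 ≤ √N := by
    rw [show (1 : ℝ) = √1 by simp]
    exact Real.sqrt_le_sqrt hN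
  set n : ℕ := ⌈4 * √N⌉₊ with hn
  have hn1 : (4 * √N : ℝ) ≤ n := Nat.le_ceil _
  have hn2 : (n : ℝ) < 4 * √N + 1 := Nat.ceil_lt_add_one (by positivity)
  have hnpos : 0 < n := by
    have : (0 : ℝ) < n := by linarith
    exact_mod_cast this
  obtain ⟨r, hr1, hr2⟩ := Real.exists_rat_abs_sub_le_and_den_le θ hnpos
  have hden : (0 : ℝ) < r.den := by exact_mod_cast r.den_pos
  have hnr : (0 : ℝ) < (n : ℝ) + 1 := by positivity
  have hrr : ((r : ℚ) : ℝ) = (r.num : ℝ) / r.den := Rat.cast_def r
  -- |θ den - num| < 1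
  have h1 : |θ * r.den - r.num| < 1 := by
    have h2 : θ * r.den - r.num = (θ - (r : ℝ)) * r.den := by
      rw [hrr]; field_simp
    rw [h2, abs_mul, abs_of_pos hden]
    calc |θ - (r : ℝ)| * r.den ≤ 1 / (((n : ℝ) + 1) * r.den) * r.den :=
          mul_le_mul_of_nonneg_right hr1 hden.le
      _ = 1 / ((n : ℝ) + 1) := by field_simp
      _ < 1 := by
          rw [div_lt_one hnr]
          have : (1 : ℝ) ≤ n := by exact_mod_cast hnpos
          linarith
  rw [abs_lt] at h1
  have hnum0 : 0 ≤ r.num := by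
    have h3 : (-1 : ℝ) < r.num := by
      have : 0 ≤ θ * r.den := mul_nonneg hθ.1 hden.le
      linarith
    have h4 : (-1 : ℤ) < r.num := by exact_mod_cast h3
    omega
  have hnumle : r.num ≤ r.den := by
    have h3 : (r.num : ℝ) < r.den + 1 := by
      have : θ * r.den ≤ 1 * r.den := mul_le_mul_of_nonneg_right hθ.2 hden.le
      linarith
    have h4 : r.num < (r.den : ℤ) + 1 := by exact_mod_cast h3
    omega
  refine ⟨r.den, r.num.toNat, r.den_pos, ?_, ?_, ?_, ?_⟩
  · have : (r.den : ℝ) ≤ n := by exact_mod_cast hr2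
    linarith
  · omega
  · have := r.reduced
    rwa [← Int.natAbs_of_nonneg hnum0, Int.toNat_natCast] 
  · have h5 : ((r.num.toNat : ℕ) : ℝ) = (r.num : ℝ) := by
      have : ((r.num.toNat : ℤ) : ℝ) = (r.num : ℝ) := by rw [Int.toNat_of_nonneg hnum0]
      exact_mod_cast this
    rw [h5, ← hrr]
    refine hr1.trans ?_
    apply one_div_le_one_div_of_le (by positivity)
    calc 4 * (r.den : ℝ) * √N = (4 * √N) * r.den := by ring
      _ ≤ ((n : ℝ) + 1) * r.den := by
          apply mul_le_mul_of_nonneg_right _ hden.le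
          linarith

/-- covering inequality for integrals of nonnegative continuous functions -/
theorem setIntegral_le_sum {ι : Type*} {f : ℝ → ℝ} (hf : Continuous f) (hf0 : ∀ x, 0 ≤ f x)
    {S : Set ℝ} (hS : MeasurableSet S) (T : Finset ι) (E : ι → Set ℝ)
    (hE : ∀ i ∈ T, MeasurableSet (E i)) (hEb : ∀ i ∈ T, Bornology.IsBounded (E i))
    (hcov : S ⊆ ⋃ i ∈ T, E i) : ∫ x in S, f x ≤ ∑ i ∈ T, ∫ x in E i, f x := by
  classical
  have hint : ∀ i ∈ T, IntegrableOn f (E i) := by
    intro i hi
    obtain ⟨R, hR⟩ := (hEb i hi).subset_closedBall 0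
    have : IntegrableOn f (Metric.closedBall (0 : ℝ) R) :=
      hf.continuousOn.integrableOn_compact (isCompact_closedBall 0 R)
    exact this.mono_set hR
  have h1 : ∀ i ∈ T, ∫ x in E i, f x = ∫ x, (E i).indicator f x := by
    intro i hi
    rw [integral_indicator (hE i hi)]
  rw [← integral_indicator hS, Finset.sum_congr rfl h1, ← integral_finsetSum]
  · apply integral_mono_of_nonneg
    · exact Filter.Eventually.of_forall (fun x => Set.indicator_nonneg (fun y _ => hf0 y) x)
    · apply integrable_finsetSum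
      intro i hi
      exact (integrable_indicator_iff (hE i hi)).mpr (hint i hi)
    · apply Filter.Eventually.of_forall
      intro x
      simp only
      by_cases hx : x ∈ S
      · rw [Set.indicator_of_mem hx]
        have := hcov hx
        simp only [Set.mem_iUnion] at this
        obtain ⟨i, hi, hxi⟩ := this
        calc f x = (E i).indicator f x := (Set.indicator_of_mem hxi f).symm
          _ ≤ ∑ j ∈ T, (E j).indicator f x :=
              Finset.single_le_sum (f := fun j => (E j).indicator f x)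
                (fun j _ => Set.indicator_nonneg (fun y _ => hf0 y) x) hi
      · rw [Set.indicator_of_notMem hx]
        exact Finset.sum_nonneg (fun j _ => Set.indicator_nonneg (fun y _ => hf0 y) x)
  · intro i hi
    exact (integrable_indicator_iff (hE i hi)).mpr (hint i hi)

end Pool.Agent.W_f50700_h13
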