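import Pool.Agent.W_f50700_h13.MbA1

/-!
MbA1b: the covering of the minor arcs.
-/

open MeasureTheory

namespace Pool.Agent.W_f50700_h13

open Pool.Agent.W_f50700_h3

/-- annulus around `a/q` -/
def arcI (n : ℕ) (H : ℝ) (p : ℕ × ℕ) : Set ℝ :=
  {θ : ℝ | H / (2 * n) ≤ |θ - frac p| ∧ |θ - frac p| ≤ 1 / (4 * p.1 * √(2 * n))}

/-- small arc around `a/q` -/
def arcII (n : ℕ) (H : ℝ) (p : ℕ × ℕ) : Set ℝ :=
  {θ : ℝ | |θ - frac p| ≤ H / (2 * n) ∧ |θ - frac p| ≤ 1 / (4 * p.1 * √(2 * n))}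

theorem measurableSet_arcI (n : ℕ) (H : ℝ) (p : ℕ × ℕ) : MeasurableSet (arcI n H p) := by
  have hc : Continuous (fun θ : ℝ => |θ - frac p|) := by fun_prop
  exact ((isClosed_le continuous_const hc).inter (isClosed_le hc continuous_const)).measurableSet

theorem measurableSet_arcII (n : ℕ) (H : ℝ) (p : ℕ × ℕ) : MeasurableSet (arcII n H p) := by
  have hc : Continuous (fun θ : ℝ => |θ - frac p|) := by fun_prop
  exact ((isClosed_le hc continuous_const).inter (isClosed_le hc continuous_const)).measurableSet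

theorem isBounded_arcI (n : ℕ) (H : ℝ) (p : ℕ × ℕ) : Bornology.IsBounded (arcI n H p) := by
  apply (Metric.isBounded_closedBall (x := frac p) (r := 1 / (4 * p.1 * √(2 * n)))).subset
  intro θ hθ
  rw [Metric.mem_closedBall, Real.dist_eq]
  exact hθ.2

theorem isBounded_arcII (n : ℕ) (H : ℝ) (p : ℕ × ℕ) : Bornology.IsBounded (arcII n H p) := by
  apply (Metric.isBounded_closedBall (x := frac p) (r := 1 / (4 * p.1 * √(2 * n)))).subset
  intro θ hθ
  rw [Metric.mem_closedBall, Real.dist_eq]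
  exact hθ.2

/-- the minor arcs -/
def minorSet (kap : ℝ) (n : ℕ) : Set ℝ :=
  {θ : ℝ | θ ∈ Set.Icc (0 : ℝ) 1 ∧ ∀ q : ℕ, 1 ≤ q → (q : ℝ) ≤ (2 * n : ℝ) ^ kap →
    ∀ a : ℤ, (2 * n : ℝ) ^ (kap - 1) ≤ |θ - (a : ℝ) / q|}

theorem measurableSet_minorSet (kap : ℝ) (n : ℕ) : MeasurableSet (minorSet kap n) := by
  have h : minorSet kap n = Set.Icc (0 : ℝ) 1 ∩ ⋂ q : ℕ, ⋂ _ : 1 ≤ q,
      ⋂ _ : (q : ℝ) ≤ (2 * n : ℝ) ^ kap, ⋂ a : ℤ,
        {θ : ℝ | (2 * n : ℝ) ^ (kap - 1) ≤ |θ - (a : ℝ) / q|} := by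
    ext θ
    simp only [minorSet, Set.mem_ofPred_eq, Set.mem_inter_iff, Set.mem_iInter]
  rw [h]
  apply MeasurableSet.inter measurableSet_Icc
  apply MeasurableSet.iInter; intro q
  apply MeasurableSet.iInter; intro _
  apply MeasurableSet.iInter; intro _
  apply MeasurableSet.iInter; intro a
  exact (isClosed_le continuous_const (by fun_prop)).measurableSet

/-- all pairs `(q, a)` with `1 ≤ q ≤ 5 √N`, `a ≤ q`, coprime -/
noncomputable def allFr (n : ℕ) : Finset (ℕ × ℕ) :=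
  ((Finset.Icc 1 ⌊5 * √(2 * n : ℝ)⌋₊) ×ˢ (Finset.range (⌊5 * √(2 * n : ℝ)⌋₊ + 1))).filter
    (fun p => p.2 ≤ p.1 ∧ Nat.Coprime p.2 p.1)

/-- exponents `j` of the dyadic ranges of denominators, `(2n)^kap < 2^(j+1)`, `2^j ≤ 5 √N` -/
noncomputable def dyad (kap : ℝ) (n : ℕ) : Finset ℕ := by
  classical
  exact (Finset.range (n + 10)).filter
    (fun j => (2 * n : ℝ) ^ kap < 2 ^ (j + 1) ∧ (2 : ℝ) ^ j ≤ 5 * √(2 * n : ℝ))

theorem MbA1b_pow_bound {n j : ℕ} (hn : 1 ≤ n) (h : (2 : ℝ) ^ j ≤ 5 * √(2 * n : ℝ)) :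
    (j : ℝ) * Real.log 2 ≤ Real.log 5 + Real.log (2 * n) / 2 := by
  have hn' : (0 : ℝ) < 2 * n := by
    have : (0 : ℝ) < n := by exact_mod_cast hn
    linarith
  have h1 := Real.log_le_log (by positivity) h
  rw [Real.log_pow, Real.log_mul (by norm_num) (Real.sqrt_pos.mpr hn').ne',
    Real.log_sqrt hn'.le] at h1
  exact h1

theorem mem_dyad {kap : ℝ} {n j : ℕ} (hn : 1 ≤ n) :
    j ∈ dyad kap n ↔ (2 * n : ℝ) ^ kap < 2 ^ (j + 1) ∧ (2 : ℝ) ^ j ≤ 5 * √(2 * n : ℝ) := by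
  classical
  unfold dyad
  rw [Finset.mem_filter, Finset.mem_range]
  constructor
  · exact fun h => h.2
  · intro h
    refine ⟨?_, h⟩
    by_contra hc
    rw [not_lt] at hc
    have h1 : (2 : ℝ) ^ (n + 10) ≤ 5 * √(2 * n : ℝ) :=
      (pow_le_pow_right₀ (by norm_num) hc).trans h.2
    have hn' : (1 : ℝ) ≤ n := by exact_mod_cast hn
    have h2 : √(2 * n : ℝ) ≤ 2 * n := by
      rw [Real.sqrt_le_left (by linarith)]
      nlinarith
    have h3 : (n : ℝ) ≤ 2 ^ n := by exact_mod_cast (Nat.lt_two_pow_self (n := n)).le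
    have h4 : (2 : ℝ) ^ (n + 10) = 1024 * 2 ^ n := by rw [pow_add]; norm_num; ring
    rw [h4] at h1
    nlinarith

/-- at most `C log` dyadic ranges -/
theorem card_dyad_le {kap : ℝ} {n : ℕ} (hn : 1 ≤ n) :
    ((dyad kap n).card : ℝ) ≤ 10 * (1 + Real.log (2 * n)) := by
  have hn' : (1 : ℝ) ≤ n := by exact_mod_cast hn
  have hlog : 0 ≤ Real.log (2 * n : ℝ) := Real.log_nonneg (by linarith)
  have hl2 : (1 / 2 : ℝ) < Real.log 2 := by
    have := Real.log_two_gt_d9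
    linarith
  have hl5 : Real.log 5 ≤ 2 := by
    rw [Real.log_le_iff_le_exp (by norm_num)]
    have h1 := Real.exp_one_gt_d9
    have h2 : Real.exp 2 = Real.exp 1 * Real.exp 1 := by rw [← Real.exp_add]; norm_num
    rw [h2]
    nlinarith
  set K : ℕ := ⌊2 * (2 + Real.log (2 * n : ℝ) / 2)⌋₊ with hK
  have hsub : dyad kap n ⊆ Finset.range (K + 1) := by
    intro j hj
    rw [mem_dyad hn] at hj
    have h1 := MbA1b_pow_bound hn hj.2
    rw [Finset.mem_range, Nat.lt_succ_iff]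
    apply Nat.le_floor
    have h2 : (j : ℝ) * (1 / 2) ≤ j * Real.log 2 :=
      mul_le_mul_of_nonneg_left hl2.le (Nat.cast_nonneg _)
    linarith
  have hcard := Finset.card_le_card hsub
  rw [Finset.card_range] at hcard
  have h3 : (K : ℝ) ≤ 2 * (2 + Real.log (2 * n : ℝ) / 2) := Nat.floor_le (by positivity)
  calc ((dyad kap n).card : ℝ) ≤ ((K + 1 : ℕ) : ℝ) := by exact_mod_cast hcard
    _ = (K : ℝ) + 1 := by push_cast; ring
    _ ≤ 10 * (1 + Real.log (2 * n)) := by linarith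

/-- the covering of the minor arcs: for `θ` in the minor set take `q, a` from `dirichlet_cover`;
if `|θ - a/q| ≥ H/N` it is in `arcI`; otherwise `|θ - a/q| < H/N ≤ N^(kap-1)` so `q > N^kap`,
in particular `q > 1` and `a < q`, and `θ ∈ arcII` for the dyadic range of `q` -/
theorem minor_cover {kap : ℝ} (hk : 0 < kap) {n : ℕ} (hn : 1 ≤ n) {H : ℝ} (hH1 : 1 ≤ H)
    (hH : H ≤ (2 * n : ℝ) ^ kap) :
    minorSet kap n ⊆ (⋃ p ∈ allFr n, arcI n H p) ∪
      (⋃ j ∈ dyad kap n, ⋃ p ∈ farey (2 ^ j), arcII n H p) := by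
  intro θ hθ
  have hn' : (1 : ℝ) ≤ n := by exact_mod_cast hn
  have hN1 : (1 : ℝ) ≤ 2 * n := by linarith
  have hN0 : (0 : ℝ) < 2 * n := by linarith
  obtain ⟨hθ1, hθ2⟩ := hθ
  obtain ⟨q, a, hq, hq5, haq, hcop, hd⟩ := dirichlet_cover hN1 hθ1
  by_cases h : H / (2 * n) ≤ |θ - (a : ℝ) / q|
  · left
    simp only [Set.mem_iUnion]
    refine ⟨(q, a), ?_, ?_⟩
    · unfold allFr
      rw [Finset.mem_filter, Finset.mem_product, Finset.mem_Icc, Finset.mem_range]
      have h1 : q ≤ ⌊5 * √(2 * n : ℝ)⌋₊ := Nat.le_floor hq5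
      exact ⟨⟨⟨hq, h1⟩, by simp only; omega⟩, haq, hcop⟩
    · exact ⟨h, hd⟩
  · right
    rw [not_le] at h
    have h1 : H / (2 * n) ≤ (2 * n : ℝ) ^ (kap - 1) := by
      rw [Real.rpow_sub_one hN0.ne']
      exact div_le_div_of_nonneg_right hH hN0.le
    have h2 : (2 * n : ℝ) ^ kap < q := by
      by_contra hc
      rw [not_lt] at hc
      have := hθ2 q hq hc a
      push_cast at this
      linarith
    have h3 : (1 : ℝ) < q := lt_of_le_of_lt (Real.one_le_rpow hN1 hk.le) h2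
    have hq2 : 1 < q := by exact_mod_cast h3
    have haq' : a < q := by
      rcases lt_or_eq_of_le haq with h4 | h4
      · exact h4
      · rw [h4, Nat.coprime_self] at hcop
        omega
    simp only [Set.mem_iUnion]
    have hq0 : q ≠ 0 := by omega
    have h5 : 2 ^ Nat.log 2 q ≤ q := Nat.pow_log_le_self 2 hq0
    have h6 : q < 2 ^ (Nat.log 2 q + 1) := Nat.lt_pow_succ_log_self (by norm_num) q
    refine ⟨Nat.log 2 q, ?_, (q, a), ?_, ?_⟩
    · rw [mem_dyad hn]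
      constructor
      · refine h2.trans ?_
        exact_mod_cast h6
      · have : ((2 ^ Nat.log 2 q : ℕ) : ℝ) ≤ q := by exact_mod_cast h5
        push_cast at this
        linarith
    · rw [mem_farey]
      refine ⟨h5, ?_, haq', hcop⟩
      rw [pow_succ] at h6
      simp only
      omega
    · exact ⟨h.le, hd⟩

end Pool.Agent.W_f50700_h13
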