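import Pool.Agent.W_f50700_h13.MbB1b

/-!
MbB1c: pointwise bound for the exponential sum.
-/

open MeasureTheory

namespace Pool.Agent.W_f50700_h13

open Pool.Agent.W_f50700_h3

private theorem MbB1c_D {N : ℝ} (hN : 2 ≤ N) {q : ℕ} (hq : 1 ≤ q) (hqN : (q : ℝ) ≤ 10 * √N)
    {β : ℝ} (hβ : |β| ≤ 1 / (4 * q * √N)) : (q : ℝ) * (1 + N * |β|) ≤ 11 * √N := by
  have hq' : (0 : ℝ) < q := by exact_mod_cast hq
  have hN0 : 0 < N := by linarith
  have hs : 0 < √N := Real.sqrt_pos.2 hN0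
  have hsq : √N * √N = N := Real.mul_self_sqrt hN0.le
  rw [le_div_iff₀ (by positivity)] at hβ
  have h1 : (q : ℝ) * (N * |β|) ≤ √N / 4 := by
    have h2 : (q : ℝ) * (N * |β|) = (|β| * (4 * q * √N)) * (√N / 4) := by
      linear_combination (-(q : ℝ) * |β|) * hsq
    rw [h2]
    calc (|β| * (4 * q * √N)) * (√N / 4) ≤ 1 * (√N / 4) :=
          mul_le_mul_of_nonneg_right hβ (by positivity)
      _ = √N / 4 := one_mul _
  calc (q : ℝ) * (1 + N * |β|) = q + q * (N * |β|) := by ring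
    _ ≤ 10 * √N + √N / 4 := add_le_add hqN h1
    _ ≤ 11 * √N := by linarith

private theorem MbB1c_sqrt_rpow {N : ℝ} (hN : 0 ≤ N) (s : ℝ) : √N ^ s = N ^ (s / 2) := by
  rw [Real.sqrt_eq_rpow, ← Real.rpow_mul hN]
  congr 1
  ring

/-- `Ssum_le` with `X = √(2n)`, `so_sup`, `kern2_moment`; `q (1 + N |β|) ≤ 11 √N` -/
theorem sup_bound {A : ℕ} (hA : 2 ≤ A) : ∃ C : ℝ, 0 < C ∧ ∀ n : ℕ, 1 ≤ n → ∀ (a : ℤ) (q : ℕ),
    1 ≤ q → IsCoprime a (q : ℤ) → (q : ℝ) ≤ 10 * √(2 * n) → ∀ β : ℝ,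
    |β| ≤ 1 / (4 * q * √(2 * n)) →
    ‖Ssum A 2 n ((a : ℝ) / q + β)‖ ≤
      C * (2 * n : ℝ) ^ (sexp A / 2 + 1) / (q * (1 + 2 * n * |β|)) := by
  obtain ⟨C0, hC0, h0⟩ := Ssum_le hA
  obtain ⟨C1, hC1, h1⟩ := so_sup (show 1 ≤ A by omega)
  refine ⟨11 * C0 + 16 * C1, by positivity, ?_⟩
  intro n hn a q hq hc hqN β hβ
  have hn' : (1 : ℝ) ≤ n := by exact_mod_cast hn
  have hN2 : (2 : ℝ) ≤ 2 * n := by linarith
  obtain ⟨N, hN⟩ : ∃ N : ℝ, N = 2 * (n : ℝ) := ⟨_, rfl⟩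
  have hS := h0 n hn (√(2 * n)) (by
    rw [Real.lt_sqrt (by norm_num)]
    linarith) ((a : ℝ) / q + β)
  have hkern := kern2_moment hn
  have hcS := continuous_So A (2 * n) (√(2 * n))
  rw [← hN] at hN2 hqN hβ hS hkern hcS ⊢
  have hN0 : 0 < N := by linarith
  have hs1 : 1 ≤ √N := Real.one_le_sqrt.2 (by linarith)
  have hs : 0 < √N := by linarith
  have hsq : √N * √N = N := Real.mul_self_sqrt hN0.le
  have hq' : (0 : ℝ) < q := by exact_mod_cast hq
  have hD := MbB1c_D hN2 hq hqN hβ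
  have hD0 : 0 < (q : ℝ) * (1 + N * |β|) := by positivity
  set D : ℝ := (q : ℝ) * (1 + N * |β|) with hDdef
  have h7 : N ^ (sexp A / 2 + 1) = N ^ (sexp A / 2) * N := by
    rw [Real.rpow_add hN0, Real.rpow_one]
  have hK : 0 < N ^ (sexp A / 2) := Real.rpow_pos_of_pos hN0 _
  -- the integral
  have hint : ∫ t in (0 : ℝ)..1, kern 2 n t * ‖So A N (√N) ((a : ℝ) / q + β - t)‖ ≤
      C1 * N ^ (sexp A / 2 + 1) / D * 16 := by
    have hk := continuous_kern 2 n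
    have hd := continuous_dist1
    have hc1 : Continuous fun t : ℝ => kern 2 n t * ‖So A N (√N) ((a : ℝ) / q + β - t)‖ :=
      hk.mul (hcS.comp (continuous_const.sub continuous_id)).norm
    have hc2 : Continuous fun t : ℝ => C1 * N ^ (sexp A / 2 + 1) / D *
        (kern 2 n t * (1 + N * dist1 t) ^ 2) := by
      fun_prop
    have h2 : ∫ t in (0 : ℝ)..1, kern 2 n t * ‖So A N (√N) ((a : ℝ) / q + β - t)‖ ≤
        ∫ t in (0 : ℝ)..1, C1 * N ^ (sexp A / 2 + 1) / D *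
          (kern 2 n t * (1 + N * dist1 t) ^ 2) := by
      refine intervalIntegral.integral_mono_on (by norm_num) (hc1.intervalIntegrable _ _)
        (hc2.intervalIntegrable _ _) fun t _ => ?_
      have h3 := h1 N hN2 a q hq hc hqN β hβ t
      have h4 := mul_le_mul_of_nonneg_left h3 (kern_nonneg 2 n t)
      refine h4.trans (le_of_eq ?_)
      rw [← hDdef]
      ring
    refine h2.trans ?_
    rw [intervalIntegral.integral_const_mul]
    exact mul_le_mul_of_nonneg_left hkern (by positivity)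
  have hfirst : C0 * √N ^ (sexp A) ≤ 11 * C0 * N ^ (sexp A / 2 + 1) / D := by
    rw [MbB1c_sqrt_rpow hN0.le, le_div_iff₀ hD0, h7]
    calc C0 * N ^ (sexp A / 2) * D ≤ C0 * N ^ (sexp A / 2) * (11 * √N) :=
          mul_le_mul_of_nonneg_left hD (by positivity)
      _ ≤ C0 * N ^ (sexp A / 2) * (11 * (√N * √N)) := by
          have h8 : √N ≤ √N * √N := le_mul_of_one_le_left hs.le hs1
          have h9 : 11 * √N ≤ 11 * (√N * √N) := by linarith
          exact mul_le_mul_of_nonneg_left h9 (by positivity)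
      _ = 11 * C0 * (N ^ (sexp A / 2) * N) := by
          rw [hsq]
          ring
  calc ‖Ssum A 2 n ((a : ℝ) / q + β)‖ ≤ 11 * C0 * N ^ (sexp A / 2 + 1) / D +
        C1 * N ^ (sexp A / 2 + 1) / D * 16 := hS.trans (add_le_add hfirst hint)
    _ = _ := by ring

end Pool.Agent.W_f50700_h13
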