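import Pool.Agent.W_f50700_h13.MbA1b
import Pool.Agent.W_f50700_h13.MbB1c

/-!
MbA2a: region I, one fraction.
-/

open MeasureTheory

namespace Pool.Agent.W_f50700_h13

open Pool.Agent.W_f50700_h3

private theorem MbA2a_deriv (K c t : ℝ) (ht : t - c ≠ 0) :
    HasDerivAt (fun t : ℝ => -K * (t - c)⁻¹) (K / (t - c) ^ 2) t := by
  have h1 := (((hasDerivAt_id t).sub_const c).inv (by simpa using ht)).const_mul (-K)
  refine (h1.congr_deriv ?_)
  simp only [id]
  ring

private theorem MbA2a_cont (K c x y : ℝ) (hc : ∀ t ∈ Set.Icc x y, t - c ≠ 0) :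
    ContinuousOn (fun t : ℝ => K / (t - c) ^ 2) (Set.Icc x y) := by
  refine ContinuousOn.div (by fun_prop) (by fun_prop) fun t ht => ?_
  exact pow_ne_zero 2 (hc t ht)

private theorem MbA2a_int {K c x y : ℝ} (hxy : x ≤ y) (hc : ∀ t ∈ Set.Icc x y, t - c ≠ 0) :
    ∫ t in Set.Icc x y, K / (t - c) ^ 2 = K * (x - c)⁻¹ - K * (y - c)⁻¹ := by
  rw [integral_Icc_eq_integral_Ioc, ← intervalIntegral.integral_of_le hxy]
  have h1 := MbA2a_cont K c x y hc
  rw [← Set.uIcc_of_le hxy] at h1 hc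
  rw [intervalIntegral.integral_eq_sub_of_hasDerivAt
    (fun t ht => MbA2a_deriv K c t (hc t ht)) h1.intervalIntegrable]
  ring

/-- integral of a function bounded by `K / (t - c)^2` over a bounded subset of
`{h ≤ |t - c| ≤ b}` -/
private theorem MbA2a_main {f : ℝ → ℝ} (hf : Continuous f) {K c h b : ℝ} (hK : 0 ≤ K)
    (hh : 0 < h) {S : Set ℝ} (hS : MeasurableSet S)
    (hSb : ∀ t ∈ S, h ≤ |t - c| ∧ |t - c| ≤ b) (hfK : ∀ t ∈ S, f t ≤ K / (t - c) ^ 2) :
    ∫ t in S, f t ≤ 2 * (K / h) := by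
  rcases lt_or_ge b h with hb | hb
  · have hSe : S = ∅ := by
      rw [Set.eq_empty_iff_forall_notMem]
      intro t ht
      obtain ⟨h1, h2⟩ := hSb t ht
      linarith
    rw [hSe, Measure.restrict_empty, integral_zero_measure]
    positivity
  have hne1 : ∀ t ∈ Set.Icc (c - b) (c - h), t - c ≠ 0 := by
    intro t ht h0
    have := ht.2
    linarith
  have hne2 : ∀ t ∈ Set.Icc (c + h) (c + b), t - c ≠ 0 := by
    intro t ht h0
    have := ht.1
    linarith
  have hi1 := (MbA2a_cont K c _ _ hne1).integrableOn_Icc (μ := volume)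
  have hi2 := (MbA2a_cont K c _ _ hne2).integrableOn_Icc (μ := volume)
  have hsub : S ⊆ Set.Icc (c - b) (c - h) ∪ Set.Icc (c + h) (c + b) := by
    intro t ht
    obtain ⟨h1, h2⟩ := hSb t ht
    obtain ⟨h3, h4⟩ := abs_le.1 h2
    rcases le_abs.1 h1 with h5 | h5
    · exact Or.inr ⟨by linarith, by linarith⟩
    · exact Or.inl ⟨by linarith, by linarith⟩
  have hdis : Disjoint (Set.Icc (c - b) (c - h)) (Set.Icc (c + h) (c + b)) := by
    rw [Set.disjoint_left]
    intro t h1 h2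
    have := h1.2
    have := h2.1
    linarith
  have hiu : IntegrableOn (fun t : ℝ => K / (t - c) ^ 2)
      (Set.Icc (c - b) (c - h) ∪ Set.Icc (c + h) (c + b)) := hi1.union hi2
  have hfi : IntegrableOn f S := by
    have h1 : IntegrableOn f (Set.Icc (c - b) (c + b)) := hf.continuousOn.integrableOn_Icc
    refine h1.mono_set fun t ht => ?_
    obtain ⟨-, h2⟩ := hSb t ht
    obtain ⟨h3, h4⟩ := abs_le.1 h2
    exact ⟨by linarith, by linarith⟩
  calc ∫ t in S, f t ≤ ∫ t in S, K / (t - c) ^ 2 :=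
        setIntegral_mono_on hfi (hiu.mono_set hsub) hS hfK
    _ ≤ ∫ t in Set.Icc (c - b) (c - h) ∪ Set.Icc (c + h) (c + b), K / (t - c) ^ 2 := by
        refine setIntegral_mono_set hiu ?_ (Filter.Eventually.of_forall hsub)
        exact Filter.Eventually.of_forall fun t => by positivity
    _ = (∫ t in Set.Icc (c - b) (c - h), K / (t - c) ^ 2) +
        ∫ t in Set.Icc (c + h) (c + b), K / (t - c) ^ 2 :=
        setIntegral_union hdis measurableSet_Icc hi1 hi2
    _ = 2 * (K / h) - 2 * (K / b) := by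
        rw [MbA2a_int (by linarith) hne1, MbA2a_int (by linarith) hne2]
        have e1 : c - b - c = -b := by ring
        have e2 : c - h - c = -h := by ring
        have e3 : c + h - c = h := by ring
        have e4 : c + b - c = b := by ring
        rw [e1, e2, e3, e4, inv_neg, inv_neg]
        ring
    _ ≤ 2 * (K / h) := by
        have : 0 ≤ K / b := div_nonneg hK (by linarith)
        linarith

theorem MbA2a_mem_allFr {n : ℕ} {p : ℕ × ℕ} (hp : p ∈ allFr n) :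
    1 ≤ p.1 ∧ (p.1 : ℝ) ≤ 5 * √(2 * n : ℝ) ∧ p.2 ≤ p.1 ∧ Nat.Coprime p.2 p.1 := by
  unfold allFr at hp
  rw [Finset.mem_filter, Finset.mem_product, Finset.mem_Icc] at hp
  obtain ⟨⟨⟨h1, h2⟩, -⟩, h3, h4⟩ := hp
  refine ⟨h1, ?_, h3, h4⟩
  exact (Nat.le_floor_iff (by positivity)).1 h2

/-- `sup_bound` and `int_{|x| ≥ h} x^(-2) dx = 2/h` -/
theorem regionI {A : ℕ} (hA : 2 ≤ A) : ∃ C : ℝ, 0 < C ∧ ∀ n : ℕ, 1 ≤ n → ∀ H : ℝ, 1 ≤ H →
    ∀ p ∈ allFr n, ∫ θ in arcI n H p, ‖Ssum A 2 n θ‖ ^ 2 ≤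
      C * (2 * n : ℝ) ^ (sexp A + 1) / ((p.1 : ℝ) ^ 2 * H) := by
  obtain ⟨C, hC, hsup⟩ := sup_bound hA
  refine ⟨2 * C ^ 2, by positivity, ?_⟩
  intro n hn H hH p hp
  obtain ⟨hq, hqN, hle, hcop⟩ := MbA2a_mem_allFr hp
  have hn' : (1 : ℝ) ≤ n := by exact_mod_cast hn
  have hq' : (0 : ℝ) < p.1 := by exact_mod_cast hq
  have hc : IsCoprime (p.2 : ℤ) (p.1 : ℤ) := Nat.isCoprime_iff_coprime.2 hcop
  obtain ⟨N, hN⟩ : ∃ N : ℝ, N = 2 * (n : ℝ) := ⟨_, rfl⟩
  have hN0 : 0 < N := by linarith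
  have hs : 0 < √N := Real.sqrt_pos.2 hN0
  have hmain := MbA2a_main (f := fun θ => ‖Ssum A 2 n θ‖ ^ 2)
    ((continuous_Ssum A 2 n).norm.pow 2) (K := C ^ 2 * N ^ (sexp A) / (p.1 : ℝ) ^ 2)
    (c := frac p) (h := H / N) (b := 1 / (4 * p.1 * √N)) (by positivity) (by positivity)
    (measurableSet_arcI n H p) (by
      intro θ hθ
      have h1 : H / (2 * n) ≤ |θ - frac p| ∧ |θ - frac p| ≤ 1 / (4 * p.1 * √(2 * n)) := hθ
      rw [← hN] at h1
      exact h1) (by
      intro θ hθ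
      have h1 : H / (2 * n) ≤ |θ - frac p| ∧ |θ - frac p| ≤ 1 / (4 * p.1 * √(2 * n)) := hθ
      have h2 := hsup n hn (p.2 : ℤ) p.1 hq hc (by linarith [Real.sqrt_nonneg (2 * (n : ℝ))])
        (θ - frac p) h1.2
      have e1 : ((p.2 : ℤ) : ℝ) / (p.1 : ℝ) + (θ - frac p) = θ := by
        unfold frac
        rw [Int.cast_natCast]
        ring
      rw [e1] at h2
      rw [← hN] at h1 h2
      obtain ⟨β, hβ⟩ : ∃ β : ℝ, β = θ - frac p := ⟨_, rfl⟩
      rw [← hβ] at h1 h2 ⊢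
      have hb : 0 < |β| := lt_of_lt_of_le (by positivity) h1.1
      have h3 : ‖Ssum A 2 n θ‖ ≤ C * N ^ (sexp A / 2 + 1) / (p.1 * (N * |β|)) := by
        refine h2.trans ?_
        refine div_le_div_of_nonneg_left (by positivity) (by positivity) ?_
        refine mul_le_mul_of_nonneg_left ?_ hq'.le
        linarith
      show ‖Ssum A 2 n θ‖ ^ 2 ≤ _
      refine (pow_le_pow_left₀ (norm_nonneg _) h3 2).trans (le_of_eq ?_)
      have h5 : (N ^ (sexp A / 2 + 1)) ^ 2 = N ^ (sexp A) * N ^ 2 := by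
        rw [← Real.rpow_natCast (N ^ (sexp A / 2 + 1)) 2, ← Real.rpow_mul hN0.le,
          ← Real.rpow_natCast N 2, ← Real.rpow_add hN0]
        congr 1
        push_cast
        ring
      rw [div_pow, mul_pow, h5, mul_pow, mul_pow, sq_abs]
      field_simp)
  refine hmain.trans (le_of_eq ?_)
  have h6 : N ^ (sexp A + 1) = N ^ (sexp A) * N := by
    rw [Real.rpow_add hN0, Real.rpow_one]
  rw [← hN, h6]
  field_simp

end Pool.Agent.W_f50700_h13
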