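import Pool.Agent.W_f50700_h13.MbA2a

/-!
MbA2b: region I, all fractions.
-/

open MeasureTheory

namespace Pool.Agent.W_f50700_h13

open Pool.Agent.W_f50700_h3

private theorem MbA2b_sum (n : ℕ) :
    ∑ p ∈ allFr n, 1 / (p.1 : ℝ) ^ 2 ≤ 2 * (1 + Real.log ⌊5 * √(2 * n : ℝ)⌋₊) := by
  classical
  set R := ⌊5 * √(2 * n : ℝ)⌋₊ with hR
  have hmaps : ∀ p ∈ allFr n, p.1 ∈ Finset.Icc 1 R := by
    intro p hp
    unfold allFr at hp
    rw [Finset.mem_filter, Finset.mem_product] at hp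
    exact hp.1.1
  rw [← Finset.sum_fiberwise_of_maps_to hmaps]
  have h1 : ∀ q ∈ Finset.Icc 1 R,
      ∑ p ∈ (allFr n).filter (fun p => p.1 = q), 1 / (p.1 : ℝ) ^ 2 ≤ 2 * ((q : ℝ)⁻¹) := by
    intro q hq
    have hq1 := (Finset.mem_Icc.1 hq).1
    have hq' : (1 : ℝ) ≤ q := by exact_mod_cast hq1
    have h2 : ∑ p ∈ (allFr n).filter (fun p => p.1 = q), 1 / (p.1 : ℝ) ^ 2 =
        (((allFr n).filter (fun p => p.1 = q)).card : ℝ) * (1 / (q : ℝ) ^ 2) := by
      rw [← nsmul_eq_mul, ← Finset.sum_const]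
      refine Finset.sum_congr rfl fun p hp => ?_
      rw [(Finset.mem_filter.1 hp).2]
    have h3 : ((allFr n).filter (fun p => p.1 = q)).card ≤ (Finset.range (q + 1)).card := by
      refine Finset.card_le_card_of_injOn (fun p => p.2) ?_ ?_
      · intro p hp
        obtain ⟨h4, h5⟩ := Finset.mem_filter.1 (Finset.mem_coe.1 hp)
        have h6 := (MbA2a_mem_allFr h4).2.2.1
        refine Finset.mem_coe.2 (Finset.mem_range.2 ?_)
        show p.2 < q + 1
        omega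
      · intro p hp p' hp' h
        have h4 := (Finset.mem_filter.1 (Finset.mem_coe.1 hp)).2
        have h5 := (Finset.mem_filter.1 (Finset.mem_coe.1 hp')).2
        exact Prod.ext (h4.trans h5.symm) h
    rw [Finset.card_range] at h3
    have h4 : (((allFr n).filter (fun p => p.1 = q)).card : ℝ) ≤ (q : ℝ) + 1 := by
      exact_mod_cast h3
    rw [h2]
    calc (((allFr n).filter (fun p => p.1 = q)).card : ℝ) * (1 / (q : ℝ) ^ 2) ≤
        (2 * q) * (1 / (q : ℝ) ^ 2) :=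
          mul_le_mul_of_nonneg_right (by linarith) (by positivity)
      _ = 2 * ((q : ℝ)⁻¹) := by
          field_simp
  refine (Finset.sum_le_sum h1).trans ?_
  rw [← Finset.mul_sum]
  have h2 := harmonic_le_one_add_log R
  rw [harmonic_eq_sum_Icc] at h2
  push_cast at h2
  linarith

/-- sum over all fractions: `sum_{q ≤ 5√N} (q+1)/q^2 ≤ C (1 + log N)` -/
theorem regionI_sum {A : ℕ} (hA : 2 ≤ A) : ∃ C : ℝ, 0 < C ∧ ∀ n : ℕ, 1 ≤ n → ∀ H : ℝ, 1 ≤ H →
    ∑ p ∈ allFr n, ∫ θ in arcI n H p, ‖Ssum A 2 n θ‖ ^ 2 ≤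
      C * (2 * n : ℝ) ^ (sexp A + 1) * (1 + Real.log (2 * n)) / H := by
  obtain ⟨C, hC, h⟩ := regionI hA
  refine ⟨6 * C, by positivity, ?_⟩
  intro n hn H hH
  have hn' : (1 : ℝ) ≤ n := by exact_mod_cast hn
  have h0 := MbA2b_sum n
  obtain ⟨N, hN⟩ : ∃ N : ℝ, N = 2 * (n : ℝ) := ⟨_, rfl⟩
  have hN2 : 2 ≤ N := by linarith
  have hN0 : 0 < N := by linarith
  have hs1 : 1 ≤ √N := Real.one_le_sqrt.2 (by linarith)
  have hlog : Real.log ⌊5 * √(2 * n : ℝ)⌋₊ ≤ 2 + Real.log N := by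
    rw [← hN]
    have h1 : (⌊5 * √N⌋₊ : ℝ) ≤ 5 * √N := Nat.floor_le (by positivity)
    have h2 : (1 : ℝ) ≤ (⌊5 * √N⌋₊ : ℝ) := by
      have h3 : 1 ≤ ⌊5 * √N⌋₊ := Nat.le_floor (by push_cast; linarith)
      exact_mod_cast h3
    calc Real.log ⌊5 * √N⌋₊ ≤ Real.log (5 * √N) := Real.log_le_log (by linarith) h1
      _ = Real.log 5 + Real.log N / 2 := by
          rw [Real.log_mul (by norm_num) (by positivity), Real.log_sqrt hN0.le]
      _ ≤ 2 + Real.log N := by
          have h3 : Real.log 5 ≤ 2 := by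
            rw [Real.log_le_iff_le_exp (by norm_num)]
            have h4 : (2.7 : ℝ) ≤ Real.exp 1 := by
              have := Real.exp_one_gt_d9
              linarith
            have h5 : Real.exp 2 = Real.exp 1 * Real.exp 1 := by
              rw [← Real.exp_add]
              norm_num
            rw [h5]
            nlinarith
          have h4 := Real.log_nonneg (show (1 : ℝ) ≤ N by linarith)
          linarith
  have hl0 : 0 ≤ Real.log N := Real.log_nonneg (by linarith)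
  have h1 : ∑ p ∈ allFr n, 1 / (p.1 : ℝ) ^ 2 ≤ 6 * (1 + Real.log N) := by linarith
  have hH0 : 0 < H := by linarith
  have hX : 0 < N ^ (sexp A + 1) := Real.rpow_pos_of_pos hN0 _
  calc ∑ p ∈ allFr n, ∫ θ in arcI n H p, ‖Ssum A 2 n θ‖ ^ 2 ≤
      ∑ p ∈ allFr n, C * N ^ (sexp A + 1) / H * (1 / (p.1 : ℝ) ^ 2) := by
        refine Finset.sum_le_sum fun p hp => (h n hn H hH p hp).trans (le_of_eq ?_)
        rw [← hN]
        have h2 : (0 : ℝ) < p.1 := by exact_mod_cast (MbA2a_mem_allFr hp).1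
        field_simp
    _ = C * N ^ (sexp A + 1) / H * ∑ p ∈ allFr n, 1 / (p.1 : ℝ) ^ 2 := by
        rw [Finset.mul_sum]
    _ ≤ C * N ^ (sexp A + 1) / H * (6 * (1 + Real.log N)) :=
        mul_le_mul_of_nonneg_left h1 (by positivity)
    _ = _ := by
        rw [← hN]
        ring

end Pool.Agent.W_f50700_h13
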