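import Pool.Agent.W_f50700_h13.MbF3b

/-!
MbF3c: mean value of the exponential sum over fractions.
-/

open MeasureTheory

namespace Pool.Agent.W_f50700_h13

open Pool.Agent.W_f50700_h3

/-- `Ssum_le` with `X = (2n)^(1/4)`, `So_add_int` (replace `t` by `t - round t`), `so_mean` with
`H (1 + N dist1 t)` in place of `H`, `kern2_moment` -/
theorem Ssum_mean {A : ℕ} (hA : 2 ≤ A) : ∃ C : ℝ, 0 < C ∧ ∀ n : ℕ, 1 ≤ n → ∀ Q : ℕ, 1 ≤ Q →
    (Q : ℝ) ≤ 5 * √(2 * n) → ∀ H : ℝ, 1 ≤ H → ∀ β : ℝ, |β| ≤ H / (2 * n) →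
    ∑ p ∈ farey Q, ‖Ssum A 2 n (frac p + β)‖ ≤
      C * (2 * n : ℝ) ^ (sexp A / 2 + 1) * √Q * H ^ (3 / 2 : ℝ) := by
  obtain ⟨C1, hC1, h1⟩ := Ssum_le hA
  obtain ⟨C2, hC2, h2⟩ := so_mean hA
  refine ⟨2 * C1 * 5 ^ (3 / 2 : ℝ) + 16 * C2, by positivity, ?_⟩
  intro n hn Q hQ hQN H hH β hβ
  have hn' : (1 : ℝ) ≤ n := by exact_mod_cast hn
  set N : ℝ := 2 * n with hN
  have hN2 : 2 ≤ N := by rw [hN]; linarith
  have hN0 : 0 < N := by linarith
  have hN1 : 1 ≤ N := by linarith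
  have hQr : (1 : ℝ) ≤ Q := by exact_mod_cast hQ
  have hs0 : 0 ≤ sexp A := sexp_nonneg A
  set X : ℝ := N ^ (1 / 4 : ℝ) with hX
  have hX1 : 1 < X := Real.one_lt_rpow (by linarith) (by norm_num)
  set P := N ^ (sexp A / 2 + 1) with hP
  have hP0 : 0 < P := Real.rpow_pos_of_pos hN0 _
  have hH32 : 1 ≤ H ^ (3 / 2 : ℝ) := Real.one_le_rpow hH (by norm_num)
  have hsQ : 0 < √(Q : ℝ) := Real.sqrt_pos.mpr (by linarith)
  -- pointwise in t
  have hpt : ∀ t : ℝ, ∑ p ∈ farey Q, ‖So A N X (frac p + β - t)‖ ≤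
      C2 * P * √Q * H ^ (3 / 2 : ℝ) * (1 + N * dist1 t) ^ 2 := by
    intro t
    set ρ := 1 + N * dist1 t with hρ
    have hρ1 : 1 ≤ ρ := by
      have := mul_nonneg hN0.le (dist1_nonneg t)
      linarith
    have e1 : ∀ p : ℕ × ℕ, So A N X (frac p + β - t) =
        So A N X (frac p + (β - (t - round t))) := by
      intro p
      rw [← So_add_int A N X (frac p + β - t) (round t)]
      congr 1; ring
    simp_rw [e1]
    have hb : |β - (t - round t)| ≤ H * ρ / N := by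
      have h3 : |t - round t| = dist1 t := rfl
      calc |β - (t - round t)| ≤ |β| + |t - round t| := abs_sub _ _
        _ ≤ H / N + dist1 t := by rw [h3]; linarith
        _ ≤ H * ρ / N := by
            rw [div_add' _ _ _ hN0.ne']
            apply div_le_div_of_nonneg_right _ hN0.le
            rw [hρ]
            have := mul_nonneg (by linarith : (0 : ℝ) ≤ H - 1) (mul_nonneg hN0.le (dist1_nonneg t))
            nlinarith
    have h4 := h2 N hN2 Q hQ hQN (H * ρ) (by nlinarith) _ hb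
    refine h4.trans ?_
    have h5 : (H * ρ) ^ (3 / 2 : ℝ) ≤ H ^ (3 / 2 : ℝ) * ρ ^ 2 := by
      rw [Real.mul_rpow (by linarith) (by linarith)]
      apply mul_le_mul_of_nonneg_left _ (by linarith)
      calc ρ ^ (3 / 2 : ℝ) ≤ ρ ^ (2 : ℝ) := Real.rpow_le_rpow_of_exponent_le hρ1 (by norm_num)
        _ = ρ ^ 2 := by norm_num
    calc C2 * N ^ (sexp A / 2 + 1) * √Q * (H * ρ) ^ (3 / 2 : ℝ)
        ≤ C2 * N ^ (sexp A / 2 + 1) * √Q * (H ^ (3 / 2 : ℝ) * ρ ^ 2) :=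
          mul_le_mul_of_nonneg_left h5 (by positivity)
      _ = _ := by rw [hP]; ring
  -- sum of the bounds
  have hcont : ∀ p : ℕ × ℕ, Continuous (fun t : ℝ => kern 2 n t * ‖So A N X (frac p + β - t)‖) := by
    intro p
    exact (continuous_kern 2 n).mul ((continuous_So A N X).comp (by fun_prop)).norm
  have hsum : ∑ p ∈ farey Q, ‖Ssum A 2 n (frac p + β)‖ ≤
      ((farey Q).card : ℝ) * (C1 * X ^ sexp A) +
        ∫ t in (0 : ℝ)..1, ∑ p ∈ farey Q, kern 2 n t * ‖So A N X (frac p + β - t)‖ := by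
    rw [intervalIntegral.integral_finsetSum]
    · calc ∑ p ∈ farey Q, ‖Ssum A 2 n (frac p + β)‖
          ≤ ∑ p ∈ farey Q, (C1 * X ^ sexp A +
            ∫ t in (0 : ℝ)..1, kern 2 n t * ‖So A N X (frac p + β - t)‖) :=
            Finset.sum_le_sum (fun p _ => h1 n hn X hX1 (frac p + β))
        _ = _ := by rw [Finset.sum_add_distrib, Finset.sum_const, nsmul_eq_mul]
    · intro p _
      exact (hcont p).intervalIntegrable _ _
  have hint : (∫ t in (0 : ℝ)..1, ∑ p ∈ farey Q, kern 2 n t * ‖So A N X (frac p + β - t)‖) ≤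
      16 * C2 * P * √Q * H ^ (3 / 2 : ℝ) := by
    have hm := kern2_moment hn
    have hle : (∫ t in (0 : ℝ)..1, ∑ p ∈ farey Q, kern 2 n t * ‖So A N X (frac p + β - t)‖) ≤
        ∫ t in (0 : ℝ)..1, C2 * P * √Q * H ^ (3 / 2 : ℝ) *
          (kern 2 n t * (1 + 2 * n * dist1 t) ^ 2) := by
      apply intervalIntegral.integral_mono_on (by norm_num)
      · apply Continuous.intervalIntegrable
        exact continuous_finsetSum _ (fun p _ => hcont p)
      · apply Continuous.intervalIntegrable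
        have := continuous_dist1
        have := continuous_kern 2 n
        fun_prop
      · intro t _
        rw [← Finset.mul_sum]
        calc kern 2 n t * ∑ p ∈ farey Q, ‖So A N X (frac p + β - t)‖
            ≤ kern 2 n t * (C2 * P * √Q * H ^ (3 / 2 : ℝ) * (1 + N * dist1 t) ^ 2) :=
              mul_le_mul_of_nonneg_left (hpt t) (kern_nonneg 2 n t)
          _ = _ := by rw [hN]; ring
    refine hle.trans ?_
    rw [intervalIntegral.integral_const_mul]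
    calc C2 * P * √Q * H ^ (3 / 2 : ℝ) *
          ∫ t in (0 : ℝ)..1, kern 2 n t * (1 + 2 * n * dist1 t) ^ 2
        ≤ C2 * P * √Q * H ^ (3 / 2 : ℝ) * 16 := mul_le_mul_of_nonneg_left hm (by positivity)
      _ = _ := by ring
  have hfirst : ((farey Q).card : ℝ) * (C1 * X ^ sexp A) ≤
      2 * C1 * 5 ^ (3 / 2 : ℝ) * P * √Q * H ^ (3 / 2 : ℝ) := by
    have hc := card_farey_le Q
    have hXs : X ^ sexp A = N ^ (sexp A / 4) := by
      rw [hX, ← Real.rpow_mul hN0.le]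
      congr 1; ring
    have hQ2 : (Q : ℝ) ^ 2 ≤ √Q * (5 ^ (3 / 2 : ℝ) * N ^ (3 / 4 : ℝ)) := by
      have e2 : (Q : ℝ) ^ 2 = √Q * (Q : ℝ) ^ (3 / 2 : ℝ) := by
        rw [Real.sqrt_eq_rpow, ← Real.rpow_add (by linarith)]
        norm_num
      rw [e2]
      apply mul_le_mul_of_nonneg_left _ hsQ.le
      calc (Q : ℝ) ^ (3 / 2 : ℝ) ≤ (5 * √N) ^ (3 / 2 : ℝ) :=
            Real.rpow_le_rpow (by linarith) hQN (by norm_num)
        _ = 5 ^ (3 / 2 : ℝ) * N ^ (3 / 4 : ℝ) := by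
            rw [Real.mul_rpow (by norm_num) (Real.sqrt_nonneg _), Real.sqrt_eq_rpow,
              ← Real.rpow_mul hN0.le]
            norm_num
    have hNN : N ^ (3 / 4 : ℝ) * N ^ (sexp A / 4) ≤ P := by
      rw [← Real.rpow_add hN0, hP]
      apply Real.rpow_le_rpow_of_exponent_le hN1
      linarith
    have h50 : (0 : ℝ) < 5 ^ (3 / 2 : ℝ) := by positivity
    calc ((farey Q).card : ℝ) * (C1 * X ^ sexp A)
        ≤ (2 * (Q : ℝ) ^ 2) * (C1 * X ^ sexp A) :=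
          mul_le_mul_of_nonneg_right hc (by positivity)
      _ ≤ (2 * (√Q * (5 ^ (3 / 2 : ℝ) * N ^ (3 / 4 : ℝ)))) * (C1 * X ^ sexp A) := by
          apply mul_le_mul_of_nonneg_right _ (by positivity)
          linarith
      _ = 2 * C1 * 5 ^ (3 / 2 : ℝ) * √Q * (N ^ (3 / 4 : ℝ) * N ^ (sexp A / 4)) := by
          rw [hXs]; ring
      _ ≤ 2 * C1 * 5 ^ (3 / 2 : ℝ) * √Q * P := mul_le_mul_of_nonneg_left hNN (by positivity)
      _ = 2 * C1 * 5 ^ (3 / 2 : ℝ) * P * √Q * 1 := by ring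
      _ ≤ 2 * C1 * 5 ^ (3 / 2 : ℝ) * P * √Q * H ^ (3 / 2 : ℝ) :=
          mul_le_mul_of_nonneg_left hH32 (by positivity)
  calc ∑ p ∈ farey Q, ‖Ssum A 2 n (frac p + β)‖
      ≤ 2 * C1 * 5 ^ (3 / 2 : ℝ) * P * √Q * H ^ (3 / 2 : ℝ) +
        16 * C2 * P * √Q * H ^ (3 / 2 : ℝ) := hsum.trans (add_le_add hfirst hint)
    _ = _ := by ring

end Pool.Agent.W_f50700_h13
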