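import Pool.Agent.W_f50700_h13.MbA1b
import Pool.Agent.W_f50700_h13.MbB1c
import Pool.Agent.W_f50700_h13.MbF3c

/-!
MbA2c: region II.
-/

open MeasureTheory

namespace Pool.Agent.W_f50700_h13

open Pool.Agent.W_f50700_h3

private theorem MbA2c_one {f : ℝ → ℝ} (hf : Continuous f) (hf0 : ∀ t, 0 ≤ f t) {K c h : ℝ}
    (hh : 0 ≤ h) (hK : 0 ≤ K) {S : Set ℝ} (hS : MeasurableSet S)
    (hSb : ∀ t ∈ S, |t - c| ≤ h) (hfK : ∀ t ∈ S, f t ≤ K) :
    ∫ t in S, f t ^ 2 ≤ K * ∫ b in (-h)..h, f (c + b) := by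
  have hsub : S ⊆ Set.Icc (c - h) (c + h) := by
    intro t ht
    obtain ⟨h3, h4⟩ := abs_le.1 (hSb t ht)
    exact ⟨by linarith, by linarith⟩
  have hi1 : IntegrableOn (fun t => K * f t) (Set.Icc (c - h) (c + h)) :=
    (continuous_const.mul hf).continuousOn.integrableOn_Icc
  have hi2 : IntegrableOn (fun t => f t ^ 2) (Set.Icc (c - h) (c + h)) :=
    (hf.pow 2).continuousOn.integrableOn_Icc
  calc ∫ t in S, f t ^ 2 ≤ ∫ t in S, K * f t := by
        refine setIntegral_mono_on (hi2.mono_set hsub) (hi1.mono_set hsub) hS fun t ht => ?_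
        rw [sq]
        exact mul_le_mul_of_nonneg_right (hfK t ht) (hf0 t)
    _ ≤ ∫ t in Set.Icc (c - h) (c + h), K * f t := by
        refine setIntegral_mono_set hi1 ?_ (Filter.Eventually.of_forall hsub)
        exact Filter.Eventually.of_forall fun t => mul_nonneg hK (hf0 t)
    _ = K * ∫ b in (-h)..h, f (c + b) := by
        rw [integral_Icc_eq_integral_Ioc, ← intervalIntegral.integral_of_le (by linarith),
          intervalIntegral.integral_const_mul, intervalIntegral.integral_comp_add_left]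
        rfl

/-- on `arcII` one factor is at most `C N^(s/2+1)/q` (`sup_bound`, `q < 2Q ≤ 10 √N`), the sum over
`p` of the other factor is bounded by `Ssum_mean` for every `β = θ - frac p`, `|β| ≤ H/N` -/
theorem regionII {A : ℕ} (hA : 2 ≤ A) : ∃ C : ℝ, 0 < C ∧ ∀ n : ℕ, 1 ≤ n → ∀ H : ℝ, 1 ≤ H →
    ∀ Q : ℕ, 1 ≤ Q → (Q : ℝ) ≤ 5 * √(2 * n) →
    ∑ p ∈ farey Q, ∫ θ in arcII n H p, ‖Ssum A 2 n θ‖ ^ 2 ≤
      C * (2 * n : ℝ) ^ (sexp A + 1) * H ^ (5 / 2 : ℝ) / √Q := by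
  obtain ⟨C1, hC1, hsup⟩ := sup_bound hA
  obtain ⟨C2, hC2, hmean⟩ := Ssum_mean hA
  refine ⟨2 * C1 * C2, by positivity, ?_⟩
  intro n hn H hH Q hQ hQN
  have hn' : (1 : ℝ) ≤ n := by exact_mod_cast hn
  have hQ' : (1 : ℝ) ≤ Q := by exact_mod_cast hQ
  have hQ0 : (0 : ℝ) < Q := by linarith
  have hH0 : 0 < H := by linarith
  have hmean' := hmean n hn Q hQ hQN H hH
  have hsup' := hsup n hn
  obtain ⟨N, hN⟩ : ∃ N : ℝ, N = 2 * (n : ℝ) := ⟨_, rfl⟩
  have hN0 : 0 < N := by linarith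
  have hs : 0 < √N := Real.sqrt_pos.2 hN0
  rw [← hN] at hmean' hsup' hQN ⊢
  have hcont : Continuous fun θ => ‖Ssum A 2 n θ‖ := (continuous_Ssum A 2 n).norm
  have h1 : ∀ p ∈ farey Q, ∫ θ in arcII n H p, ‖Ssum A 2 n θ‖ ^ 2 ≤
      C1 * N ^ (sexp A / 2 + 1) / Q * ∫ b in (-(H / N))..(H / N), ‖Ssum A 2 n (frac p + b)‖ := by
    intro p hp
    obtain ⟨hp1, hp2, hp3, hp4⟩ := mem_farey.1 hp
    have hq1 : 1 ≤ p.1 := by omega
    have hq' : (0 : ℝ) < p.1 := by exact_mod_cast hq1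
    have hqQ : (Q : ℝ) ≤ p.1 := by exact_mod_cast hp1
    have hq2 : (p.1 : ℝ) ≤ 10 * √N := by
      have h2 : (p.1 : ℝ) < 2 * Q := by exact_mod_cast hp2
      linarith
    refine MbA2c_one (f := fun θ => ‖Ssum A 2 n θ‖) hcont (fun _ => norm_nonneg _)
      (by positivity) (by positivity) (measurableSet_arcII n H p) ?_ ?_
    · intro θ hθ
      have h2 : |θ - frac p| ≤ H / (2 * n) ∧ |θ - frac p| ≤ 1 / (4 * p.1 * √(2 * n)) := hθ
      rw [← hN] at h2
      exact h2.1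
    · intro θ hθ
      have h2 : |θ - frac p| ≤ H / (2 * n) ∧ |θ - frac p| ≤ 1 / (4 * p.1 * √(2 * n)) := hθ
      rw [← hN] at h2
      have h3 := hsup' (p.2 : ℤ) p.1 hq1 (Nat.isCoprime_iff_coprime.2 hp4) hq2 (θ - frac p) h2.2
      have e1 : ((p.2 : ℤ) : ℝ) / (p.1 : ℝ) + (θ - frac p) = θ := by
        unfold frac
        rw [Int.cast_natCast]
        ring
      rw [e1] at h3
      refine h3.trans (div_le_div_of_nonneg_left (by positivity) hQ0 ?_)
      have h4 : 0 ≤ N * |θ - frac p| := by positivity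
      calc (Q : ℝ) ≤ p.1 * 1 := by rw [mul_one]; exact hqQ
        _ ≤ p.1 * (1 + N * |θ - frac p|) := mul_le_mul_of_nonneg_left (by linarith) hq'.le
  have h2 : ∑ p ∈ farey Q, ∫ b in (-(H / N))..(H / N), ‖Ssum A 2 n (frac p + b)‖ ≤
      2 * (H / N) * (C2 * N ^ (sexp A / 2 + 1) * √Q * H ^ (3 / 2 : ℝ)) := by
    have hci : ∀ p ∈ farey Q, IntervalIntegrable (fun b => ‖Ssum A 2 n (frac p + b)‖) volume
        (-(H / N)) (H / N) := fun p _ =>
      (hcont.comp (continuous_const.add continuous_id)).intervalIntegrable _ _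
    rw [← intervalIntegral.integral_finsetSum hci]
    have hcs : Continuous fun b => ∑ p ∈ farey Q, ‖Ssum A 2 n (frac p + b)‖ :=
      continuous_finsetSum _ fun p _ => hcont.comp (continuous_const.add continuous_id)
    have hle : -(H / N) ≤ H / N := by
      have : 0 ≤ H / N := by positivity
      linarith
    calc ∫ b in (-(H / N))..(H / N), ∑ p ∈ farey Q, ‖Ssum A 2 n (frac p + b)‖ ≤
        ∫ _b in (-(H / N))..(H / N), C2 * N ^ (sexp A / 2 + 1) * √Q * H ^ (3 / 2 : ℝ) := by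
          refine intervalIntegral.integral_mono_on hle
            (hcs.intervalIntegrable _ _) intervalIntegrable_const fun b hb => ?_
          exact hmean' b (abs_le.2 ⟨hb.1, hb.2⟩)
      _ = _ := by
          rw [intervalIntegral.integral_const, smul_eq_mul]
          ring
  have e1 : N ^ (sexp A / 2 + 1) * N ^ (sexp A / 2 + 1) = N ^ (sexp A + 1) * N := by
    rw [← Real.rpow_add hN0]
    have e2 : N ^ (sexp A + 1) * N = N ^ (sexp A + 1 + 1) := by
      rw [Real.rpow_add hN0 (sexp A + 1) 1, Real.rpow_one]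
    rw [e2]
    congr 1
    ring
  have e3 : H ^ (5 / 2 : ℝ) = H * H ^ (3 / 2 : ℝ) := by
    rw [show (5 / 2 : ℝ) = 1 + 3 / 2 by norm_num, Real.rpow_add hH0, Real.rpow_one]
  have e4 : √(Q : ℝ) * √(Q : ℝ) = Q := Real.mul_self_sqrt hQ0.le
  have hsQ : 0 < √(Q : ℝ) := Real.sqrt_pos.2 hQ0
  calc ∑ p ∈ farey Q, ∫ θ in arcII n H p, ‖Ssum A 2 n θ‖ ^ 2 ≤
      ∑ p ∈ farey Q, C1 * N ^ (sexp A / 2 + 1) / Q *
        ∫ b in (-(H / N))..(H / N), ‖Ssum A 2 n (frac p + b)‖ := Finset.sum_le_sum h1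
    _ = C1 * N ^ (sexp A / 2 + 1) / Q *
        ∑ p ∈ farey Q, ∫ b in (-(H / N))..(H / N), ‖Ssum A 2 n (frac p + b)‖ := by
        rw [Finset.mul_sum]
    _ ≤ C1 * N ^ (sexp A / 2 + 1) / Q *
        (2 * (H / N) * (C2 * N ^ (sexp A / 2 + 1) * √Q * H ^ (3 / 2 : ℝ))) :=
        mul_le_mul_of_nonneg_left h2 (by positivity)
    _ = 2 * C1 * C2 * (N ^ (sexp A / 2 + 1) * N ^ (sexp A / 2 + 1)) / N *
        (H * H ^ (3 / 2 : ℝ)) * (√Q / Q) := by ring
    _ = 2 * C1 * C2 * N ^ (sexp A + 1) * H ^ (5 / 2 : ℝ) / √Q := by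
        rw [e1, e3]
        have e5 : √(Q : ℝ) / Q = 1 / √(Q : ℝ) := by
          rw [div_eq_div_iff hQ0.ne' hsQ.ne', e4, one_mul]
        rw [e5]
        field_simp

end Pool.Agent.W_f50700_h13
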