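import Pool.Agent.W_f50700_h13.MbA2b
import Pool.Agent.W_f50700_h13.MbA2c

/-!
MbA3: the minor arc theorem.
-/

open MeasureTheory

namespace Pool.Agent.W_f50700_h13

open Pool.Agent.W_f50700_h3

/-- the covering inequality for the two families of arcs -/
theorem MbA3_cover {A : ℕ} {kap : ℝ} (hk : 0 < kap) {n : ℕ} (hn : 1 ≤ n) {H : ℝ} (hH1 : 1 ≤ H)
    (hH : H ≤ (2 * n : ℝ) ^ kap) :
    ∫ θ in minorSet kap n, ‖Ssum A 2 n θ‖ ^ 2 ≤
      (∑ p ∈ allFr n, ∫ θ in arcI n H p, ‖Ssum A 2 n θ‖ ^ 2) +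
      ∑ j ∈ dyad kap n, ∑ p ∈ farey (2 ^ j), ∫ θ in arcII n H p, ‖Ssum A 2 n θ‖ ^ 2 := by
  classical
  let T : Finset ((ℕ × ℕ) ⊕ (Σ _ : ℕ, ℕ × ℕ)) :=
    (allFr n).disjSum ((dyad kap n).sigma (fun j => farey (2 ^ j)))
  let E : (ℕ × ℕ) ⊕ (Σ _ : ℕ, ℕ × ℕ) → Set ℝ :=
    Sum.elim (fun p => arcI n H p) (fun x => arcII n H x.2)
  have h := setIntegral_le_sum (f := fun θ => ‖Ssum A 2 n θ‖ ^ 2)
    ((continuous_Ssum A 2 n).norm.pow 2) (fun x => by positivity)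
    (measurableSet_minorSet kap n) T E ?_ ?_ ?_
  · refine h.trans (le_of_eq ?_)
    simp only [T]
    rw [Finset.sum_disjSum, Finset.sum_sigma]
    rfl
  · rintro (p | x) _
    · exact measurableSet_arcI n H p
    · exact measurableSet_arcII n H x.2
  · rintro (p | x) _
    · exact isBounded_arcI n H p
    · exact isBounded_arcII n H x.2
  · intro θ hθ
    rcases minor_cover hk hn hH1 hH hθ with h1 | h1
    · simp only [Set.mem_iUnion] at h1
      obtain ⟨p, hp, hθp⟩ := h1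
      simp only [Set.mem_iUnion]
      exact ⟨Sum.inl p, Finset.inl_mem_disjSum.mpr hp, hθp⟩
    · simp only [Set.mem_iUnion] at h1
      obtain ⟨j, hj, p, hp, hθp⟩ := h1
      simp only [Set.mem_iUnion]
      exact ⟨Sum.inr ⟨j, p⟩, Finset.inr_mem_disjSum.mpr (Finset.mem_sigma.mpr ⟨hj, hp⟩), hθp⟩

/-- total of the two regions -/
theorem minor_total {A : ℕ} (hA : 2 ≤ A) : ∃ C : ℝ, 0 < C ∧ ∀ kap : ℝ, 0 < kap → ∀ n : ℕ, 1 ≤ n →
    ∀ H : ℝ, 1 ≤ H → H ≤ (2 * n : ℝ) ^ kap →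
    ∫ θ in minorSet kap n, ‖Ssum A 2 n θ‖ ^ 2 ≤
      C * (2 * n : ℝ) ^ (sexp A + 1) * (1 + Real.log (2 * n)) *
        (1 / H + H ^ (5 / 2 : ℝ) * (2 * n : ℝ) ^ (-(kap / 2))) := by
  obtain ⟨C1, hC1, h1⟩ := regionI_sum hA
  obtain ⟨C2, hC2, h2⟩ := regionII hA
  refine ⟨C1 + 20 * C2, by positivity, fun kap hk n hn H hH1 hH => ?_⟩
  have hn' : (1 : ℝ) ≤ n := by exact_mod_cast hn
  set N : ℝ := 2 * n with hN
  have hN2 : 2 ≤ N := by rw [hN]; linarith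
  have hN0 : 0 < N := by linarith
  have hlog : 0 ≤ Real.log N := Real.log_nonneg (by linarith)
  have hH0 : 0 < H := by linarith
  set X : ℝ := N ^ (sexp A + 1) with hX
  have hX0 : 0 < X := Real.rpow_pos_of_pos hN0 _
  have hHp : 0 < H ^ (5 / 2 : ℝ) := Real.rpow_pos_of_pos hH0 _
  have hNk : 0 < N ^ (-(kap / 2)) := Real.rpow_pos_of_pos hN0 _
  refine (MbA3_cover hk hn hH1 hH).trans ?_
  have a1 := h1 n hn H hH1
  have a2 : ∀ j ∈ dyad kap n, ∑ p ∈ farey (2 ^ j), ∫ θ in arcII n H p, ‖Ssum A 2 n θ‖ ^ 2 ≤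
      2 * (C2 * X * H ^ (5 / 2 : ℝ) * N ^ (-(kap / 2))) := by
    intro j hj
    obtain ⟨k1, k2⟩ := (mem_dyad hn).mp hj
    have k3 := h2 n hn H hH1 (2 ^ j) Nat.one_le_two_pow (by push_cast; exact k2)
    refine k3.trans ?_
    have k4 : N ^ (kap / 2) ≤ 2 * √((2 ^ j : ℕ) : ℝ) := by
      have k5 : N ^ kap ≤ 4 * ((2 ^ j : ℕ) : ℝ) := by
        push_cast
        have : (2 : ℝ) ^ (j + 1) = 2 * 2 ^ j := by ring
        rw [this] at k1
        have : (0 : ℝ) < 2 ^ j := by positivity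
        linarith
      have k6 : N ^ (kap / 2) = √(N ^ kap) := by
        rw [Real.sqrt_eq_rpow, ← Real.rpow_mul hN0.le]
        congr 1
        ring
      rw [k6]
      refine (Real.sqrt_le_sqrt k5).trans (le_of_eq ?_)
      rw [Real.sqrt_mul (by norm_num)]
      congr 1
      rw [show (4 : ℝ) = 2 ^ 2 by norm_num]
      exact Real.sqrt_sq (by norm_num)
    have k7 : 0 < √((2 ^ j : ℕ) : ℝ) := Real.sqrt_pos.mpr (by positivity)
    rw [div_le_iff₀ k7]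
    have k8 : N ^ (-(kap / 2)) * N ^ (kap / 2) = 1 := by
      rw [← Real.rpow_add hN0]; simp
    have k9 : (1 : ℝ) ≤ N ^ (-(kap / 2)) * (2 * √((2 ^ j : ℕ) : ℝ)) := by
      rw [← k8]
      exact mul_le_mul_of_nonneg_left k4 hNk.le
    have k10 : 0 ≤ C2 * X * H ^ (5 / 2 : ℝ) := by positivity
    calc C2 * X * H ^ (5 / 2 : ℝ) = C2 * X * H ^ (5 / 2 : ℝ) * 1 := (mul_one _).symm
      _ ≤ C2 * X * H ^ (5 / 2 : ℝ) * (N ^ (-(kap / 2)) * (2 * √((2 ^ j : ℕ) : ℝ))) :=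
        mul_le_mul_of_nonneg_left k9 k10
      _ = 2 * (C2 * X * H ^ (5 / 2 : ℝ) * N ^ (-(kap / 2))) * √((2 ^ j : ℕ) : ℝ) := by ring
  have a3 := Finset.sum_le_sum a2
  rw [Finset.sum_const, nsmul_eq_mul] at a3
  have a4 : ((dyad kap n).card : ℝ) ≤ 10 * (1 + Real.log N) := card_dyad_le hn
  have a5 : 0 ≤ 2 * (C2 * X * H ^ (5 / 2 : ℝ) * N ^ (-(kap / 2))) := by positivity
  have a6 := mul_le_mul_of_nonneg_right a4 a5
  have a7 : C1 * X * (1 + Real.log N) / H ≤ (C1 + 20 * C2) * X * (1 + Real.log N) * (1 / H) := by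
    rw [mul_one_div]
    refine div_le_div_of_nonneg_right ?_ hH0.le
    have : 0 ≤ 20 * C2 * X * (1 + Real.log N) := by positivity
    nlinarith
  have a8 : 10 * (1 + Real.log N) * (2 * (C2 * X * H ^ (5 / 2 : ℝ) * N ^ (-(kap / 2)))) ≤
      (C1 + 20 * C2) * X * (1 + Real.log N) * (H ^ (5 / 2 : ℝ) * N ^ (-(kap / 2))) := by
    have : 0 ≤ C1 * X * (1 + Real.log N) * (H ^ (5 / 2 : ℝ) * N ^ (-(kap / 2))) := by positivity
    linarith
  calc _ ≤ C1 * X * (1 + Real.log N) / H +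
        10 * (1 + Real.log N) * (2 * (C2 * X * H ^ (5 / 2 : ℝ) * N ^ (-(kap / 2)))) :=
      add_le_add a1 (a3.trans a6)
    _ ≤ (C1 + 20 * C2) * X * (1 + Real.log N) * (1 / H) +
        (C1 + 20 * C2) * X * (1 + Real.log N) * (H ^ (5 / 2 : ℝ) * N ^ (-(kap / 2))) :=
      add_le_add a7 a8
    _ = _ := by ring

/-- Theorem B.  `H = N^(kap/10)`, `2 - s ≤ kap/20`, `c = kap/40`. -/
theorem minor_arcs (kap : ℝ) (hk : 0 < kap) : ∃ ε : ℝ, 0 < ε ∧ ∀ A : ℕ, 2 ≤ A →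
    2 - ε ≤ sexp A → ∃ C c : ℝ, 0 < C ∧ 0 < c ∧ ∀ n : ℕ, 1 ≤ n →
    ∫ θ in minorSet kap n, ‖Ssum A 2 n θ‖ ^ 2 ≤ C * (2 * n : ℝ) ^ (2 * sexp A - 1 - c) := by
  refine ⟨kap / 20, by positivity, fun A hA hs => ?_⟩
  obtain ⟨C, hC, h⟩ := minor_total (A := A) (by omega)
  refine ⟨C * (1 + 1 / (kap / 40)) * 2, kap / 40, by positivity, by positivity, fun n hn => ?_⟩
  have hn' : (1 : ℝ) ≤ n := by exact_mod_cast hn
  have hN2 : (2 : ℝ) ≤ 2 * n := by linarith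
  have k0 := h kap hk n hn ((2 * n : ℝ) ^ (kap / 10))
    (Real.one_le_rpow (by linarith) (by positivity))
    (Real.rpow_le_rpow_of_exponent_le (by linarith) (by linarith))
  set N : ℝ := 2 * n with hN
  have hN0 : 0 < N := by linarith
  have hN1 : 1 ≤ N := by linarith
  refine k0.trans ?_
  have e1 : 1 / N ^ (kap / 10) = N ^ (-(kap / 10)) := by
    rw [Real.rpow_neg hN0.le, one_div]
  have e2 : (N ^ (kap / 10)) ^ (5 / 2 : ℝ) * N ^ (-(kap / 2)) ≤ N ^ (-(kap / 10)) := by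
    rw [← Real.rpow_mul hN0.le, ← Real.rpow_add hN0]
    exact Real.rpow_le_rpow_of_exponent_le hN1 (by linarith)
  have e3 : 1 + Real.log N ≤ (1 + 1 / (kap / 40)) * N ^ (kap / 40) := by
    have h1 := Real.log_le_rpow_div hN0.le (show (0 : ℝ) < kap / 40 by positivity)
    have h2 : 1 ≤ N ^ (kap / 40) := Real.one_le_rpow hN1 (by positivity)
    have h3 : (1 + 1 / (kap / 40)) * N ^ (kap / 40) =
        N ^ (kap / 40) + N ^ (kap / 40) / (kap / 40) := by ring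
    rw [h3]
    exact add_le_add h2 h1
  have hlog : 0 ≤ 1 + Real.log N := by
    have := Real.log_nonneg hN1
    linarith
  have hX : 0 < N ^ (sexp A + 1) := Real.rpow_pos_of_pos hN0 _
  have hY : 0 < N ^ (-(kap / 10)) := Real.rpow_pos_of_pos hN0 _
  have e4 : N ^ (sexp A + 1) * N ^ (kap / 40) * N ^ (-(kap / 10)) ≤
      N ^ (2 * sexp A - 1 - kap / 40) := by
    rw [← Real.rpow_add hN0, ← Real.rpow_add hN0]
    exact Real.rpow_le_rpow_of_exponent_le hN1 (by linarith)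
  calc C * N ^ (sexp A + 1) * (1 + Real.log N) *
        (1 / N ^ (kap / 10) + (N ^ (kap / 10)) ^ (5 / 2 : ℝ) * N ^ (-(kap / 2)))
      ≤ C * N ^ (sexp A + 1) * (1 + Real.log N) * (N ^ (-(kap / 10)) + N ^ (-(kap / 10))) := by
        refine mul_le_mul_of_nonneg_left (add_le_add e1.le e2) (by positivity)
    _ ≤ C * N ^ (sexp A + 1) * ((1 + 1 / (kap / 40)) * N ^ (kap / 40)) *
          (N ^ (-(kap / 10)) + N ^ (-(kap / 10))) := by
        refine mul_le_mul_of_nonneg_right ?_ (by positivity)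
        exact mul_le_mul_of_nonneg_left e3 (by positivity)
    _ = C * (1 + 1 / (kap / 40)) * 2 *
          (N ^ (sexp A + 1) * N ^ (kap / 40) * N ^ (-(kap / 10))) := by ring
    _ ≤ C * (1 + 1 / (kap / 40)) * 2 * N ^ (2 * sexp A - 1 - kap / 40) :=
        mul_le_mul_of_nonneg_left e4 (by positivity)

end Pool.Agent.W_f50700_h13
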