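import Pool.Agent.W_f50700_h13.Mb0

/-!
MbC1: counting integers `m` with `φ m` close to an integer.
-/

namespace Pool.Agent.W_f50700_h13

open Pool.Agent.W_f50700_h3

/-- integers `m ∈ [u, v]` with `φ m` within `δ` of an integer -/
noncomputable def nearSet (u v : ℤ) (φ δ : ℝ) : Finset ℤ := by
  classical
  exact (Finset.Icc u v).filter (fun m => dist1 (φ * m) ≤ δ)

theorem mem_nearSet {u v : ℤ} {φ δ : ℝ} {m : ℤ} :
    m ∈ nearSet u v φ δ ↔ (u ≤ m ∧ m ≤ v) ∧ dist1 (φ * m) ≤ δ := by
  classical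
  unfold nearSet
  rw [Finset.mem_filter, Finset.mem_Icc]

/-- integers in an interval in a fixed class mod `q`: at most `(v-u)/q + 1` -/
theorem MbC1_card_class {q : ℕ} (hq : 1 ≤ q) (S : Finset ℤ) (x y : ℝ)
    (hxy : x ≤ y) (hS : ∀ m ∈ S, x ≤ (m : ℝ) ∧ (m : ℝ) ≤ y)
    (hc : ∀ m ∈ S, ∀ m' ∈ S, (q : ℤ) ∣ m - m') : (S.card : ℝ) ≤ (y - x) / q + 1 := by
  have hq' : (0 : ℝ) < q := by exact_mod_cast hq
  rcases S.eq_empty_or_nonempty with rfl | hne
  · simp only [Finset.card_empty, Nat.cast_zero]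
    have : 0 ≤ (y - x) / q := div_nonneg (by linarith) hq'.le
    linarith
  set a := S.min' hne with ha
  have haS : a ∈ S := S.min'_mem hne
  -- map m to (m - a) / q
  have hmap : ∀ m ∈ S, ((m - a) / (q : ℤ)).toNat ∈ Finset.range (⌊(y - x) / q⌋₊ + 1) := by
    intro m hm
    rw [Finset.mem_range, Nat.lt_succ_iff]
    have h1 : a ≤ m := S.min'_le m hm
    obtain ⟨k, hk⟩ := hc m hm a haS
    have hq0 : (q : ℤ) ≠ 0 := by omega
    have hk0 : 0 ≤ k := by
      by_contra hneg
      have : (q : ℤ) * k < 0 := by nlinarith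
      omega
    rw [hk, Int.mul_ediv_cancel_left _ hq0]
    apply Nat.le_floor
    rw [le_div_iff₀ hq']
    have h2 : ((k.toNat : ℕ) : ℝ) = (k : ℝ) := by
      have : ((k.toNat : ℤ) : ℝ) = (k : ℝ) := by rw [Int.toNat_of_nonneg hk0]
      exact_mod_cast this
    rw [h2]
    have h3 : ((m : ℝ) - a) = q * k := by exact_mod_cast hk
    have h4 := (hS m hm).2
    have h5 := (hS a haS).1
    linarith
  have hinj : Set.InjOn (fun m : ℤ => ((m - a) / (q : ℤ)).toNat) S := by
    intro m hm m' hm' h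
    simp only at h
    have hq0 : (q : ℤ) ≠ 0 := by omega
    obtain ⟨k, hk⟩ := hc m hm a haS
    obtain ⟨k', hk'⟩ := hc m' hm' a haS
    have h1 : a ≤ m := S.min'_le m hm
    have h1' : a ≤ m' := S.min'_le m' hm'
    have hk0 : 0 ≤ k := by
      by_contra hneg
      have : (q : ℤ) * k < 0 := by nlinarith
      omega
    have hk0' : 0 ≤ k' := by
      by_contra hneg
      have : (q : ℤ) * k' < 0 := by nlinarith
      omega
    rw [hk, hk', Int.mul_ediv_cancel_left _ hq0, Int.mul_ediv_cancel_left _ hq0] at h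
    have : k = k' := by omega
    rw [this] at hk
    omega
  have hcard := Finset.card_le_card_of_injOn _ hmap hinj
  rw [Finset.card_range] at hcard
  calc (S.card : ℝ) ≤ ((⌊(y - x) / q⌋₊ + 1 : ℕ) : ℝ) := by exact_mod_cast hcard
    _ = (⌊(y - x) / q⌋₊ : ℝ) + 1 := by push_cast; ring
    _ ≤ (y - x) / q + 1 := by
        have := Nat.floor_le (div_nonneg (by linarith : 0 ≤ y - x) hq'.le)
        linarith

/-- integers of absolute value at most `x`: at most `2 x + 1` -/
theorem MbC1_card_abs {x : ℝ} (hx : 0 ≤ x) (S : Finset ℤ) (hS : ∀ m ∈ S, |(m : ℝ)| ≤ x) :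
    (S.card : ℝ) ≤ 2 * x + 1 := by
  have h := MbC1_card_class (q := 1) le_rfl S (-x) x (by linarith)
    (fun m hm => abs_le.mp (hS m hm)) (fun m _ m' _ => by simp)
  calc (S.card : ℝ) ≤ (x - -x) / ((1 : ℕ) : ℝ) + 1 := h
    _ = 2 * x + 1 := by push_cast; ring

/-- general counting: `S` a finite set of integers, `g : ℤ → ℤ` with at most `K` values on `S`, at
most `L` elements in each fibre -/
theorem MbC1_card_fib {α β : Type*} [DecidableEq β] (S : Finset α) (T : Finset β) (g : α → β)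
    (hg : ∀ m ∈ S, g m ∈ T) {K L : ℝ} (hL : 0 ≤ L) (hT : (T.card : ℝ) ≤ K)
    (hfib : ∀ j ∈ T, (((S.filter (fun m => g m = j)).card : ℕ) : ℝ) ≤ L) :
    (S.card : ℝ) ≤ K * L := by
  have h1 : S.card = ∑ j ∈ T, (S.filter (fun m => g m = j)).card :=
    Finset.card_eq_sum_card_fiberwise hg
  calc (S.card : ℝ) = ∑ j ∈ T, (((S.filter (fun m => g m = j)).card : ℕ) : ℝ) := by
        rw [h1]; push_cast; rfl
    _ ≤ ∑ _j ∈ T, L := Finset.sum_le_sum hfib
    _ = T.card * L := by rw [Finset.sum_const, nsmul_eq_mul]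
    _ ≤ K * L := mul_le_mul_of_nonneg_right hT hL

/-- `m ∈ [u,v]`: at most `(v-u+1)/q + 1` blocks of `q` consecutive integers; in each block `a m`
runs over all residues mod `q` exactly once, and `dist1 (j/q) ≤ δ` for at most `2 q δ + 1`
residues `j`. -/
theorem count_frac {a : ℤ} {q : ℕ} (hq : 1 ≤ q) (hc : IsCoprime a (q : ℤ)) (u v : ℤ)
    (huv : u ≤ v + 1) {δ : ℝ} (hδ : 0 ≤ δ) :
    ((nearSet u v ((a : ℝ) / q) δ).card : ℝ) ≤ (((v : ℝ) - u + 1) / q + 1) * (2 * q * δ + 1) := by
  classical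
  have hq' : (0 : ℝ) < q := by exact_mod_cast hq
  rcases eq_or_lt_of_le huv with huv1 | huv1
  · -- empty range
    have : nearSet u v ((a : ℝ) / q) δ = ∅ := by
      apply Finset.eq_empty_of_forall_notMem
      intro m hm
      rw [mem_nearSet] at hm
      omega
    rw [this]
    have h1 : (v : ℝ) - u + 1 = 0 := by
      have : (u : ℝ) = v + 1 := by exact_mod_cast huv1
      rw [this]; ring
    rw [h1]
    simp only [Finset.card_empty, Nat.cast_zero, zero_div]
    positivity
  have huv2 : (u : ℝ) ≤ v := by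
    have : u ≤ v := by omega
    exact_mod_cast this
  -- j(m) = a m - q round(a m / q)
  set g : ℤ → ℤ := fun m => a * m - q * round ((a : ℝ) / q * m) with hg
  have hgabs : ∀ m ∈ nearSet u v ((a : ℝ) / q) δ, |(g m : ℝ)| ≤ q * δ := by
    intro m hm
    rw [mem_nearSet] at hm
    have h1 := hm.2
    unfold dist1 at h1
    have h2 : (g m : ℝ) = q * ((a : ℝ) / q * m - round ((a : ℝ) / q * m)) := by
      rw [hg]; push_cast; field_simp
    rw [h2, abs_mul, abs_of_pos hq']
    exact mul_le_mul_of_nonneg_left h1 hq'.le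
  have hT : (((nearSet u v ((a : ℝ) / q) δ).image g).card : ℝ) ≤ 2 * q * δ + 1 := by
    have := MbC1_card_abs (x := q * δ) (by positivity) ((nearSet u v ((a : ℝ) / q) δ).image g)
      (by
        intro j hj
        obtain ⟨m, hm, rfl⟩ := Finset.mem_image.mp hj
        exact hgabs m hm)
    linarith
  have hfib : ∀ j ∈ (nearSet u v ((a : ℝ) / q) δ).image g,
      ((((nearSet u v ((a : ℝ) / q) δ).filter (fun m => g m = j)).card : ℕ) : ℝ) ≤
        ((v : ℝ) - u + 1) / q + 1 := by
    intro j _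
    have h1 := MbC1_card_class hq ((nearSet u v ((a : ℝ) / q) δ).filter (fun m => g m = j))
      (u : ℝ) (v : ℝ) huv2
      (by
        intro m hm
        rw [Finset.mem_filter, mem_nearSet] at hm
        exact ⟨by exact_mod_cast hm.1.1.1, by exact_mod_cast hm.1.1.2⟩)
      (by
        intro m hm m' hm'
        rw [Finset.mem_filter] at hm hm'
        have h2 : g m = g m' := by rw [hm.2, hm'.2]
        have h3 : (q : ℤ) ∣ a * (m - m') := by
          refine ⟨round ((a : ℝ) / q * m) - round ((a : ℝ) / q * m'), ?_⟩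
          have : a * m - q * round ((a : ℝ) / q * m) = a * m' - q * round ((a : ℝ) / q * m') := h2
          linear_combination this
        exact (hc.symm.dvd_of_dvd_mul_left h3))
    refine h1.trans ?_
    have : (v - u : ℝ) / q ≤ (v - u + 1) / q := by
      apply div_le_div_of_nonneg_right _ hq'.le
      linarith
    linarith
  have h := MbC1_card_fib (nearSet u v ((a : ℝ) / q) δ) _ g
    (fun m hm => Finset.mem_image_of_mem g hm)
    (by
      have : 0 ≤ ((v : ℝ) - u + 1) / q := div_nonneg (by linarith) hq'.le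
      linarith : (0 : ℝ) ≤ ((v : ℝ) - u + 1) / q + 1) hT hfib
  linarith

end Pool.Agent.W_f50700_h13
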