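import Pool.Agent.W_f50700_h13.MbLS2
import Pool.Agent.W_f50700_h13.MbC1

/-!
MbB1a: counting pairs of columns.
-/

open MeasureTheory

namespace Pool.Agent.W_f50700_h13

open Pool.Agent.W_f50700_h3

/-- the number of pairs of columns: for `P` a finite set of words with `F v ≤ M` the number of
pairs `(v, v')` with `φ (F v - F v')`, `φ (m21 v - m21 v')` both within `δ` of integers is at
most `card P * (card (nearSet (-M) M φ δ))^2` (`col_injective`, `m21_lt`) -/
theorem closePairs_cols {A : ℕ} (P : Finset (List (Lt A))) {M : ℕ} (hM : ∀ v ∈ P, F v ≤ M)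
    (φ δ : ℝ) :
    (closePairs P (fun v => φ * (F v : ℝ)) (fun v => φ * (m21 v : ℝ)) δ).card ≤
      P.card * (nearSet (-(M : ℤ)) M φ δ).card ^ 2 := by
  classical
  set G := nearSet (-(M : ℤ)) M φ δ with hG
  have hmap : ∀ p ∈ closePairs P (fun v => φ * (F v : ℝ)) (fun v => φ * (m21 v : ℝ)) δ,
      (p.1, ((F p.1 : ℤ) - F p.2, (m21 p.1 : ℤ) - m21 p.2)) ∈ P ×ˢ (G ×ˢ G) := by
    intro p hp
    rw [mem_closePairs] at hp
    obtain ⟨h1, h2, h3, h4⟩ := hp
    rw [Finset.mem_product, Finset.mem_product]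
    have b1 := hM _ h1
    have b2 := hM _ h2
    have c1 := m21_lt p.1
    have c2 := m21_lt p.2
    refine ⟨h1, ?_, ?_⟩
    · rw [hG, mem_nearSet]
      simp only
      refine ⟨⟨by omega, by omega⟩, ?_⟩
      push_cast
      rw [mul_sub]; exact h3
    · rw [hG, mem_nearSet]
      simp only
      refine ⟨⟨by omega, by omega⟩, ?_⟩
      push_cast
      rw [mul_sub]; exact h4
  have hinj : Set.InjOn (fun p : List (Lt A) × List (Lt A) =>
      (p.1, ((F p.1 : ℤ) - F p.2, (m21 p.1 : ℤ) - m21 p.2)))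
      (closePairs P (fun v => φ * (F v : ℝ)) (fun v => φ * (m21 v : ℝ)) δ) := by
    intro p _ p' _ h
    simp only [Prod.mk.injEq] at h
    obtain ⟨h1, h2, h3⟩ := h
    apply Prod.ext h1
    rw [h1] at h2 h3
    apply col_injective
    · have : (F p.2 : ℤ) = F p'.2 := by omega
      exact_mod_cast this
    · have : (m21 p.2 : ℤ) = m21 p'.2 := by omega
      exact_mod_cast this
  have := Finset.card_le_card_of_injOn _ hmap hinj
  rw [Finset.card_product, Finset.card_product] at this
  rw [sq]
  exact this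

end Pool.Agent.W_f50700_h13
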