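import Pool.Agent.W_f50700_h13.MbK3
import Pool.Agent.W_f50700_h3.Expo2

/-!
MbBil: the bilinear form and its relation to the exponential sum.
-/

open MeasureTheory

namespace Pool.Agent.W_f50700_h13

open Pool.Agent.W_f50700_h3

/-- the bilinear form of `W_X` and words with `F v ≤ N / X` -/
noncomputable def So (A : ℕ) (N X : ℝ) (θ : ℝ) : ℂ :=
  ∑ u ∈ passF A X, ∑ v ∈ wordsF A (N / X), e (θ * (F (u ++ v) : ℝ))

theorem So_add_int (A : ℕ) (N X θ : ℝ) (k : ℤ) : So A N X (θ + k) = So A N X θ := by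
  unfold So
  apply Finset.sum_congr rfl
  intro u _
  apply Finset.sum_congr rfl
  intro v _
  have : (θ + k) * (F (u ++ v) : ℝ) = θ * (F (u ++ v) : ℝ) + ((k * (F (u ++ v) : ℤ) : ℤ) : ℝ) := by
    push_cast; ring
  rw [this, e_add_int]

theorem continuous_So (A : ℕ) (N X : ℝ) : Continuous (So A N X) := by
  unfold So
  apply continuous_finsetSum
  intro u _
  apply continuous_finsetSum
  intro v _
  exact continuous_e.comp (by fun_prop)

theorem norm_So_le (A : ℕ) (N X θ : ℝ) :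
    ‖So A N X θ‖ ≤ ((passF A X).card : ℝ) * ((wordsF A (N / X)).card : ℝ) := by
  unfold So
  calc ‖∑ u ∈ passF A X, ∑ v ∈ wordsF A (N / X), e (θ * (F (u ++ v) : ℝ))‖
      ≤ ∑ u ∈ passF A X, ‖∑ v ∈ wordsF A (N / X), e (θ * (F (u ++ v) : ℝ))‖ := norm_sum_le _ _
    _ ≤ ∑ _u ∈ passF A X, ((wordsF A (N / X)).card : ℝ) := by
        apply Finset.sum_le_sum
        intro u _
        calc ‖∑ v ∈ wordsF A (N / X), e (θ * (F (u ++ v) : ℝ))‖
            ≤ ∑ v ∈ wordsF A (N / X), ‖e (θ * (F (u ++ v) : ℝ))‖ := norm_sum_le _ _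
          _ = ((wordsF A (N / X)).card : ℝ) := by simp [norm_e]
    _ = _ := by rw [Finset.sum_const, nsmul_eq_mul]

/-- `sum_pass` (with the bound `2 n`), `int_kern_e`; the words `v` with `F v ≤ N / X` but
`F (u ++ v) > N = 2n` do not contribute because `wt 2 n` vanishes there; conversely
`F u * F v ≤ F (u ++ v) ≤ N` and `X ≤ F u` give `F v ≤ N / X`. -/
theorem bilinear {A : ℕ} {n : ℕ} (hn : 1 ≤ n) {X : ℝ} (hX : 1 < X) (θ : ℝ) :
    ∑ w ∈ (wordsF A ((2 * n : ℕ) : ℝ)).filter (fun w => X ≤ (F w : ℝ)),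
        (wt 2 n (F w : ℤ) : ℂ) * e (θ * (F w : ℝ)) =
      ∫ t in (0 : ℝ)..1, (kern 2 n t : ℂ) * So A (2 * n) X (θ - t) := by
  have hX0 : 0 < X := by linarith
  rw [sum_pass hX]
  -- right side
  have h1 : (∫ t in (0 : ℝ)..1, (kern 2 n t : ℂ) * So A (2 * n) X (θ - t)) =
      ∑ u ∈ passF A X, ∑ v ∈ wordsF A (2 * n / X),
        (wt 2 n (F (u ++ v) : ℤ) : ℂ) * e (θ * (F (u ++ v) : ℝ)) := by
    have h2 : ∀ t : ℝ, (kern 2 n t : ℂ) * So A (2 * n) X (θ - t) =
        ∑ u ∈ passF A X, ∑ v ∈ wordsF A (2 * n / X),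
          (kern 2 n t : ℂ) * e ((θ - t) * (F (u ++ v) : ℝ)) := by
      intro t
      unfold So
      rw [Finset.mul_sum]
      apply Finset.sum_congr rfl
      intro u _
      rw [Finset.mul_sum]
    simp_rw [h2]
    rw [intervalIntegral.integral_finsetSum]
    · apply Finset.sum_congr rfl
      intro u _
      rw [intervalIntegral.integral_finsetSum]
      · apply Finset.sum_congr rfl
        intro v _
        have := int_kern_e hn (F (u ++ v) : ℤ) θ
        push_cast at this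
        exact this
      · intro v _
        apply Continuous.intervalIntegrable
        exact (Complex.continuous_ofReal.comp (continuous_kern 2 n)).mul
          (continuous_e.comp (by fun_prop))
    · intro u _
      apply Continuous.intervalIntegrable
      apply continuous_finsetSum
      intro v _
      exact (Complex.continuous_ofReal.comp (continuous_kern 2 n)).mul
        (continuous_e.comp (by fun_prop))
  rw [h1]
  apply Finset.sum_congr rfl
  intro u hu
  have hFu : X ≤ (F u : ℝ) := (mem_passF.mp hu).2.1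
  apply Finset.sum_subset_zero_on_sdiff
  · intro v hv
    rw [Finset.mem_filter, mem_wordsF] at hv
    rw [mem_wordsF, le_div_iff₀ hX0]
    have h3 : ((F u * F v : ℕ) : ℝ) ≤ ((F (u ++ v) : ℕ) : ℝ) := by exact_mod_cast F_mul_le u v
    push_cast at h3
    have h4 := hv.2
    push_cast at h4
    have h5 : (0 : ℝ) ≤ (F v : ℝ) := Nat.cast_nonneg _
    nlinarith
  · intro v hv
    rw [Finset.mem_sdiff, Finset.mem_filter, mem_wordsF, mem_wordsF, not_and_or] at hv
    have h3 : ((2 * n : ℕ) : ℝ) < (F (u ++ v) : ℝ) := by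
      rcases hv.2 with h | h
      · rw [not_le] at h
        have h4 : (F v : ℝ) ≤ (F (u ++ v) : ℝ) := by
          have h6 : 1 * F v ≤ F u * F v := Nat.mul_le_mul_right _ (F_pos u)
          have := F_mul_le u v
          rw [one_mul] at h6
          exact_mod_cast h6.trans this
        linarith
      · exact not_le.mp h
    have h4 : 2 * n < F (u ++ v) := by exact_mod_cast h3
    rw [wt2_eq_zero hn]
    · simp
    · rw [abs_of_nonneg (by positivity)]
      exact_mod_cast h4.le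
  · intro v _; rfl

/-- the remaining words have `F w < X`: at most `C X^s` of them, weights at most `1` -/
theorem Ssum_le {A : ℕ} (hA : 2 ≤ A) : ∃ C : ℝ, 0 < C ∧ ∀ n : ℕ, 1 ≤ n → ∀ X : ℝ, 1 < X → ∀ θ : ℝ,
    ‖Ssum A 2 n θ‖ ≤
      C * X ^ (sexp A) + ∫ t in (0 : ℝ)..1, kern 2 n t * ‖So A (2 * n) X (θ - t)‖ := by
  obtain ⟨c, C, hc, hC, hcard⟩ := card_wordsF_bounds hA
  refine ⟨C, hC, ?_⟩
  intro n hn X hX θ
  have h1 : Ssum A 2 n θ =
      ∑ w ∈ (wordsF A ((2 * n : ℕ) : ℝ)).filter (fun w => ¬ X ≤ (F w : ℝ)),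
        (wt 2 n (F w : ℤ) : ℂ) * e (θ * (F w : ℝ)) +
      ∑ w ∈ (wordsF A ((2 * n : ℕ) : ℝ)).filter (fun w => X ≤ (F w : ℝ)),
        (wt 2 n (F w : ℤ) : ℂ) * e (θ * (F w : ℝ)) := by
    unfold Ssum
    rw [add_comm, Finset.sum_filter_add_sum_filter_not]
  rw [h1]
  refine (norm_add_le _ _).trans (add_le_add ?_ ?_)
  · calc ‖∑ w ∈ (wordsF A ((2 * n : ℕ) : ℝ)).filter (fun w => ¬ X ≤ (F w : ℝ)),
        (wt 2 n (F w : ℤ) : ℂ) * e (θ * (F w : ℝ))‖
        ≤ ∑ w ∈ (wordsF A ((2 * n : ℕ) : ℝ)).filter (fun w => ¬ X ≤ (F w : ℝ)),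
          ‖(wt 2 n (F w : ℤ) : ℂ) * e (θ * (F w : ℝ))‖ := norm_sum_le _ _
      _ ≤ ∑ w ∈ (wordsF A ((2 * n : ℕ) : ℝ)).filter (fun w => ¬ X ≤ (F w : ℝ)), (1 : ℝ) := by
          apply Finset.sum_le_sum
          intro w _
          rw [norm_mul, norm_e, mul_one, Complex.norm_real, Real.norm_eq_abs,
            abs_of_nonneg (wt2_nonneg hn _)]
          exact wt2_le_one hn _
      _ = (((wordsF A ((2 * n : ℕ) : ℝ)).filter (fun w => ¬ X ≤ (F w : ℝ))).card : ℝ) := by
          simp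
      _ ≤ ((wordsF A X).card : ℝ) := by
          have : (wordsF A ((2 * n : ℕ) : ℝ)).filter (fun w => ¬ X ≤ (F w : ℝ)) ⊆ wordsF A X := by
            intro w hw
            rw [Finset.mem_filter] at hw
            rw [mem_wordsF]
            exact (not_le.mp hw.2).le
          exact_mod_cast Finset.card_le_card this
      _ ≤ C * X ^ (sexp A) := (hcard X hX.le).2
  · rw [bilinear hn hX]
    refine (intervalIntegral.norm_integral_le_integral_norm (by norm_num)).trans ?_
    apply le_of_eq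
    congr 1
    ext t
    rw [norm_mul, Complex.norm_real, Real.norm_eq_abs, abs_of_nonneg (kern_nonneg 2 n t)]

theorem continuous_Ssum (A k n : ℕ) : Continuous (Ssum A k n) := by
  unfold Ssum
  apply continuous_finsetSum
  intro w _
  exact continuous_const.mul (continuous_e.comp (by fun_prop))

theorem Ssum_add_int (A k n : ℕ) (θ : ℝ) (j : ℤ) : Ssum A k n (θ + j) = Ssum A k n θ := by
  unfold Ssum
  apply Finset.sum_congr rfl
  intro w _
  have : (θ + j) * (F w : ℝ) = θ * (F w : ℝ) + ((j * (F w : ℤ) : ℤ) : ℝ) := by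
    push_cast; ring
  rw [this, e_add_int]

end Pool.Agent.W_f50700_h13
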