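import Pool.Agent.W_f50700_h13.MbC1b

/-!
MbC2: the counting bound used for the pointwise bound on the minor arcs.
-/

namespace Pool.Agent.W_f50700_h13

open Pool.Agent.W_f50700_h3

/-- Put `ρ = 1 + N dist1 t`.  If `w` is counted then
`dist1 ((a/q+β) w) ≤ δ + |w| dist1 t ≤ ρ / √N =: δ'`.  `2 q δ' + 2 ≤ 22 ρ`.  If `N |β| ≤ 1` use
`count_beta1`, `2 M ≤ 2 √N ≤ 4 ρ √N / (1 + N |β|)`; otherwise `count_beta2`,
`2 δ' / |β| = 2 ρ √N / (N |β|) ≤ 4 ρ √N / (1 + N |β|)`.  Finally
`q (1 + N |β|) ≤ 11 √N` gives `1 ≤ 11 √N / (q (1 + N |β|))`, total `22 ρ (4 ρ + 11)`. -/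
theorem count_sup {N : ℝ} (hN : 1 ≤ N) {a : ℤ} {q : ℕ} (hq : 1 ≤ q) (hc : IsCoprime a (q : ℤ))
    (hqN : (q : ℝ) ≤ 10 * √N) {β : ℝ} (hβ : |β| ≤ 1 / (4 * q * √N)) (t : ℝ) {δ : ℝ}
    (hδ0 : 0 ≤ δ) (hδ : δ ≤ 1 / (2 * √N)) {M : ℕ} (hM : (M : ℝ) ≤ √N) :
    ((nearSet (-(M : ℤ)) M ((a : ℝ) / q + β - t) δ).card : ℝ) ≤
      330 * (1 + N * dist1 t) ^ 2 * √N / (q * (1 + N * |β|)) := by
  have hN0 : 0 < N := by linarith
  have hs : 0 < √N := Real.sqrt_pos.mpr hN0
  have hss : √N * √N = N := Real.mul_self_sqrt hN0.le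
  have hqr : (0 : ℝ) < q := by exact_mod_cast hq
  set ρ := 1 + N * dist1 t with hρ
  have hρ1 : 1 ≤ ρ := by
    have := mul_nonneg hN0.le (dist1_nonneg t)
    linarith
  set δ' := ρ / √N with hδ'
  have hδ'0 : 0 ≤ δ' := by positivity
  have hb0 : 0 ≤ |β| := abs_nonneg β
  -- inclusion
  have hsub : nearSet (-(M : ℤ)) M ((a : ℝ) / q + β - t) δ ⊆
      nearSet (-(M : ℤ)) M ((a : ℝ) / q + β) δ' := by
    intro w hw
    rw [mem_nearSet] at hw ⊢
    refine ⟨hw.1, ?_⟩
    have h1 : ((a : ℝ) / q + β) * w = ((a : ℝ) / q + β - t) * w + w * t := by ring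
    rw [h1]
    refine (dist1_add_le _ _).trans ?_
    have h2 := dist1_int_mul_le w t
    have h3 : |(w : ℝ)| ≤ √N := by
      have : |w| ≤ (M : ℤ) := abs_le.mpr hw.1
      have h4 : |(w : ℝ)| ≤ M := by exact_mod_cast this
      exact h4.trans hM
    have h5 : |(w : ℝ)| * dist1 t ≤ √N * dist1 t :=
      mul_le_mul_of_nonneg_right h3 (dist1_nonneg t)
    have h6 : δ' = 1 / √N + √N * dist1 t := by
      rw [hδ', hρ, add_div]
      congr 1
      rw [div_eq_iff hs.ne']
      calc N * dist1 t = (√N * √N) * dist1 t := by rw [hss]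
        _ = √N * dist1 t * √N := by ring
    have h7 : 1 / (2 * √N) ≤ 1 / √N := by
      apply one_div_le_one_div_of_le hs
      linarith
    rw [h6]
    linarith [hw.2]
  have hcard : ((nearSet (-(M : ℤ)) M ((a : ℝ) / q + β - t) δ).card : ℝ) ≤
      ((nearSet (-(M : ℤ)) M ((a : ℝ) / q + β) δ').card : ℝ) := by
    exact_mod_cast Finset.card_le_card hsub
  refine hcard.trans ?_
  have hβM : |β| * M ≤ 1 / (4 * q) := by
    calc |β| * M ≤ 1 / (4 * q * √N) * √N :=
          mul_le_mul hβ hM (Nat.cast_nonneg _) (by positivity)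
      _ = 1 / (4 * q) := by field_simp
  -- first factor
  have hfac : 2 * (q : ℝ) * δ' + 2 ≤ 22 * ρ := by
    have : 2 * (q : ℝ) * δ' ≤ 20 * ρ := by
      rw [hδ']
      calc 2 * (q : ℝ) * (ρ / √N) ≤ 2 * (10 * √N) * (ρ / √N) := by
            apply mul_le_mul_of_nonneg_right _ (by positivity)
            linarith
        _ = 20 * ρ := by field_simp; norm_num
    linarith
  set D := 1 + N * |β| with hD
  have hD1 : 1 ≤ D := by
    have := mul_nonneg hN0.le hb0
    linarith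
  have hqD : (q : ℝ) * D ≤ 11 * √N := by
    have h1 : (q : ℝ) * (N * |β|) ≤ √N / 4 := by
      calc (q : ℝ) * (N * |β|) ≤ q * (N * (1 / (4 * q * √N))) := by
            apply mul_le_mul_of_nonneg_left _ hqr.le
            exact mul_le_mul_of_nonneg_left hβ hN0.le
        _ = (√N * √N) / (4 * √N) := by rw [hss]; field_simp
        _ = √N / 4 := by field_simp
    rw [hD, mul_add, mul_one]
    linarith
  -- second factor
  have hsec : ∃ L : ℝ, ((nearSet (-(M : ℤ)) M ((a : ℝ) / q + β) δ').card : ℝ) ≤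
      (2 * q * δ' + 2) * (L / q + 1) ∧ 0 ≤ L ∧ L ≤ 4 * ρ * √N / D := by
    rcases le_or_gt (N * |β|) 1 with h | h
    · refine ⟨2 * M, count_beta1 hq hc hβM hδ'0, by positivity, ?_⟩
      rw [le_div_iff₀ (by linarith)]
      have h1 : D ≤ 2 := by rw [hD]; linarith
      have h2 : (0 : ℝ) ≤ M := Nat.cast_nonneg _
      calc 2 * (M : ℝ) * D ≤ 2 * √N * 2 := by
            apply mul_le_mul _ h1 (by linarith) (by positivity)
            linarith
        _ = 4 * 1 * √N := by ring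
        _ ≤ 4 * ρ * √N := by
            apply mul_le_mul_of_nonneg_right _ hs.le
            linarith
    · have hβ0 : β ≠ 0 := by
        intro h0
        rw [h0, abs_zero, mul_zero] at h
        linarith
      have hbpos : 0 < |β| := abs_pos.mpr hβ0
      refine ⟨2 * δ' / |β|, ?_, by positivity, ?_⟩
      · have := count_beta2 hq hc hβ0 hβM hδ'0
        calc ((nearSet (-(M : ℤ)) M ((a : ℝ) / q + β) δ').card : ℝ)
            ≤ (2 * q * δ' + 2) * (2 * δ' / (q * |β|) + 1) := this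
          _ = _ := by congr 2; field_simp
      · rw [hδ', div_le_div_iff₀ hbpos (by linarith)]
        have h1 : D ≤ 2 * (N * |β|) := by rw [hD]; linarith
        calc 2 * (ρ / √N) * D ≤ 2 * (ρ / √N) * (2 * (N * |β|)) :=
              mul_le_mul_of_nonneg_left h1 (by positivity)
          _ = 4 * ρ * ((√N * √N) / √N) * |β| := by rw [hss]; ring
          _ = 4 * ρ * √N * |β| := by rw [mul_div_assoc, div_self hs.ne', mul_one]
  obtain ⟨L, hL1, hL0, hL2⟩ := hsec
  have hqD0 : 0 < (q : ℝ) * D := by positivity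
  calc ((nearSet (-(M : ℤ)) M ((a : ℝ) / q + β) δ').card : ℝ)
      ≤ (2 * q * δ' + 2) * (L / q + 1) := hL1
    _ ≤ 22 * ρ * (4 * ρ * √N / D / q + 11 * √N / (q * D)) := by
        apply mul_le_mul hfac _ (by positivity) (by positivity)
        apply add_le_add
        · exact div_le_div_of_nonneg_right hL2 hqr.le
        · rw [le_div_iff₀ hqD0, one_mul]; exact hqD
    _ = 22 * ρ * (4 * ρ + 11) * √N / (q * D) := by field_simp
    _ ≤ 330 * ρ ^ 2 * √N / (q * D) := by
        apply div_le_div_of_nonneg_right _ hqD0.le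
        apply mul_le_mul_of_nonneg_right _ hs.le
        nlinarith

end Pool.Agent.W_f50700_h13
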