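import Pool.Agent.W_f50700_h13.MbB1a
import Pool.Agent.W_f50700_h13.MbC2
import Pool.Agent.W_f50700_h13.MbBil

/-!
MbB1b: pointwise bound for the bilinear form.
-/

open MeasureTheory

namespace Pool.Agent.W_f50700_h13

open Pool.Agent.W_f50700_h3

/-- the words over the one letter alphabet -/
private theorem MbB1b_card_one {X : ℝ} (hX : 1 ≤ X) : ((wordsF 1 X).card : ℝ) ≤ 2 * X := by
  have h1 : (wordsF 1 X).card ≤ (Finset.range (⌊X⌋₊ + 1)).card := by
    refine Finset.card_le_card_of_injOn List.length ?_ ?_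
    · intro w hw
      have h2 := mem_wordsF.1 (Finset.mem_coe.1 hw)
      have h3 : F w ≤ ⌊X⌋₊ := Nat.le_floor h2
      have h4 := two_pow_le_F w
      have h5 : w.length < 2 ^ w.length := Nat.lt_two_pow_self
      refine Finset.mem_coe.2 (Finset.mem_range.2 ?_)
      omega
    · intro w _ w' _ h
      exact List.ext_get h fun n _ _ => Subsingleton.elim _ _
  rw [Finset.card_range] at h1
  have h2 : ((wordsF 1 X).card : ℝ) ≤ (⌊X⌋₊ : ℝ) + 1 := by exact_mod_cast h1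
  have h3 := Nat.floor_le (show 0 ≤ X by linarith)
  linarith

private theorem MbB1b_D {N : ℝ} (hN : 2 ≤ N) {q : ℕ} (hq : 1 ≤ q) (hqN : (q : ℝ) ≤ 10 * √N)
    {β : ℝ} (hβ : |β| ≤ 1 / (4 * q * √N)) : (q : ℝ) * (1 + N * |β|) ≤ 11 * √N := by
  have hq' : (0 : ℝ) < q := by exact_mod_cast hq
  have hN0 : 0 < N := by linarith
  have hs : 0 < √N := Real.sqrt_pos.2 hN0
  have hsq : √N * √N = N := Real.mul_self_sqrt hN0.le
  rw [le_div_iff₀ (by positivity)] at hβ
  have h1 : (q : ℝ) * (N * |β|) ≤ √N / 4 := by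
    have h2 : (q : ℝ) * (N * |β|) = (|β| * (4 * q * √N)) * (√N / 4) := by
      linear_combination (-(q : ℝ) * |β|) * hsq
    rw [h2]
    calc (|β| * (4 * q * √N)) * (√N / 4) ≤ 1 * (√N / 4) :=
          mul_le_mul_of_nonneg_right hβ (by positivity)
      _ = √N / 4 := one_mul _
  calc (q : ℝ) * (1 + N * |β|) = q + q * (N * |β|) := by ring
    _ ≤ 10 * √N + √N / 4 := add_le_add hqN h1
    _ ≤ 11 * √N := by linarith

/-- the square of the bilinear form -/
private theorem MbB1b_sq {A : ℕ} {N : ℝ} (hN : 2 ≤ N) {a : ℤ} {q : ℕ} (hq : 1 ≤ q)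
    (hc : IsCoprime a (q : ℤ)) (hqN : (q : ℝ) ≤ 10 * √N) {β : ℝ} (hβ : |β| ≤ 1 / (4 * q * √N))
    (t : ℝ) :
    ‖So A N (√N) ((a : ℝ) / q + β - t)‖ ^ 2 ≤
      ((passF A (√N)).card : ℝ) * ((wordsF A (√N)).card : ℝ) *
        (1650 * (CA A + 1) * (1 + N * dist1 t) ^ 2 * N / (q * (1 + N * |β|))) ^ 2 := by
  have hN0 : 0 < N := by linarith
  have hs1 : 1 ≤ √N := Real.one_le_sqrt.2 (by linarith)
  have hs : 0 < √N := by linarith
  have hsq : √N * √N = N := Real.mul_self_sqrt hN0.le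
  have hdiv : N / √N = √N := by
    rw [div_eq_iff hs.ne', hsq]
  have hq' : (0 : ℝ) < q := by exact_mod_cast hq
  have hCA := base3_CA_ge A
  obtain ⟨φ, hφ⟩ : ∃ φ : ℝ, φ = (a : ℝ) / q + β - t := ⟨_, rfl⟩
  set P := passF A (√N) with hP
  set V := wordsF A (√N) with hV
  set B : ℕ := ⌊CA A * √N⌋₊ + 1 with hB
  have hB1 : 1 ≤ B := by omega
  have hBP : ∀ u ∈ P, F u < B := by
    intro u hu
    have h1 := (passF_bounds hu).2
    have h2 : F u ≤ ⌊CA A * √N⌋₊ := Nat.le_floor h1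
    omega
  have hBlow : CA A * √N < B := by
    rw [hB]
    push_cast
    exact Nat.lt_floor_add_one _
  have hBup : (B : ℝ) ≤ (CA A + 1) * √N := by
    rw [hB]
    push_cast
    have h1 := Nat.floor_le (show 0 ≤ CA A * √N by positivity)
    linarith
  have h2s : √N ≤ B := by
    have h1 : 2 * √N ≤ CA A * √N := mul_le_mul_of_nonneg_right hCA hs.le
    linarith
  have hB0 : (0 : ℝ) < B := by linarith
  -- the large sieve
  have hLS := ls_rows P hBP hB1 V (fun _ => (1 : ℂ)) (fun _ _ => by simp)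
    (fun v => φ * (F v : ℝ)) (fun v => φ * (m21 v : ℝ))
  set M : ℕ := ⌊√N⌋₊ with hM
  have hMV : ∀ v ∈ V, F v ≤ M := fun v hv => Nat.le_floor (mem_wordsF.1 hv)
  have hcols := closePairs_cols V hMV φ (1 / (2 * B))
  have hδ : (1 : ℝ) / (2 * B) ≤ 1 / (2 * √N) :=
    div_le_div_of_nonneg_left (by norm_num) (by positivity) (by linarith)
  have hnear := count_sup (show 1 ≤ N by linarith) hq hc hqN hβ t (δ := 1 / (2 * B))
    (by positivity) hδ (M := M) (Nat.floor_le hs.le)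
  rw [← hφ] at hnear
  rw [← hφ]
  set R : ℝ := 330 * (1 + N * dist1 t) ^ 2 * √N / (q * (1 + N * |β|)) with hR
  -- Cauchy Schwarz
  have hSo : ‖So A N (√N) φ‖ ≤ ∑ u ∈ P, ‖∑ v ∈ V, (1 : ℂ) *
      e ((F u : ℝ) * (φ * (F v : ℝ)) + (m12 u : ℝ) * (φ * (m21 v : ℝ)))‖ := by
    unfold So
    rw [hdiv]
    refine (norm_sum_le _ _).trans (le_of_eq ?_)
    refine Finset.sum_congr rfl fun u _ => ?_
    congr 1
    refine Finset.sum_congr rfl fun v _ => ?_
    rw [one_mul]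
    congr 1
    rw [F_append]
    push_cast
    ring
  have hCS : ‖So A N (√N) φ‖ ^ 2 ≤ (P.card : ℝ) * ∑ u ∈ P, ‖∑ v ∈ V, (1 : ℂ) *
      e ((F u : ℝ) * (φ * (F v : ℝ)) + (m12 u : ℝ) * (φ * (m21 v : ℝ)))‖ ^ 2 :=
    (pow_le_pow_left₀ (norm_nonneg _) hSo 2).trans sq_sum_le_card_mul_sum_sq
  have hcard : ((closePairs V (fun v => φ * (F v : ℝ)) (fun v => φ * (m21 v : ℝ))
      (1 / (2 * B))).card : ℝ) ≤ (V.card : ℝ) * R ^ 2 := by
    have h1 : ((closePairs V (fun v => φ * (F v : ℝ)) (fun v => φ * (m21 v : ℝ))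
        (1 / (2 * B))).card : ℝ) ≤
        (V.card : ℝ) * ((nearSet (-(M : ℤ)) M φ (1 / (2 * B))).card : ℝ) ^ 2 := by
      exact_mod_cast hcols
    refine h1.trans (mul_le_mul_of_nonneg_left ?_ (Nat.cast_nonneg _))
    exact pow_le_pow_left₀ (Nat.cast_nonneg _) hnear 2
  have hB2 : (B : ℝ) ^ 2 ≤ ((CA A + 1) * √N) ^ 2 := pow_le_pow_left₀ hB0.le hBup 2
  calc ‖So A N (√N) φ‖ ^ 2 ≤ (P.card : ℝ) * (25 * (B : ℝ) ^ 2 *
        ((closePairs V (fun v => φ * (F v : ℝ)) (fun v => φ * (m21 v : ℝ))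
          (1 / (2 * B))).card : ℝ)) :=
        hCS.trans (mul_le_mul_of_nonneg_left hLS (Nat.cast_nonneg _))
    _ ≤ (P.card : ℝ) * (25 * ((CA A + 1) * √N) ^ 2 * ((V.card : ℝ) * R ^ 2)) := by
        gcongr
    _ = (P.card : ℝ) * (V.card : ℝ) * (5 * (CA A + 1) * √N * R) ^ 2 := by ring
    _ = _ := by
        congr 2
        rw [hR]
        calc 5 * (CA A + 1) * √N * (330 * (1 + N * dist1 t) ^ 2 * √N / (q * (1 + N * |β|))) =
            1650 * (CA A + 1) * (1 + N * dist1 t) ^ 2 * (√N * √N) / (q * (1 + N * |β|)) := by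
              ring
          _ = _ := by rw [hsq]

private theorem MbB1b_sqrt_rpow {N : ℝ} (hN : 0 ≤ N) (s : ℝ) : √N ^ s = N ^ (s / 2) := by
  rw [Real.sqrt_eq_rpow, ← Real.rpow_mul hN]
  congr 1
  ring

/-- Cauchy over `u ∈ passF A √N`, `F (u ++ v) = F u * F v + m12 u * m21 v`, `ls_rows` with
`B = ⌊CA A √N⌋ + 1`, `closePairs_cols`, `count_sup` with `δ = 1/(2B)`, `M = ⌊√N⌋`,
`card_passF_bounds`, `card_wordsF_bounds`. -/
theorem so_sup {A : ℕ} (hA : 1 ≤ A) : ∃ C : ℝ, 0 < C ∧ ∀ N : ℝ, 2 ≤ N → ∀ (a : ℤ) (q : ℕ),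
    1 ≤ q → IsCoprime a (q : ℤ) → (q : ℝ) ≤ 10 * √N → ∀ β : ℝ, |β| ≤ 1 / (4 * q * √N) →
    ∀ t : ℝ, ‖So A N (√N) ((a : ℝ) / q + β - t)‖ ≤
      C * (1 + N * dist1 t) ^ 2 * N ^ (sexp A / 2 + 1) / (q * (1 + N * |β|)) := by
  obtain ⟨c1, C1, hc1, hC1, hP⟩ := card_passF_bounds hA
  have hCA := base3_CA_ge A
  rcases Nat.lt_or_ge 1 A with hA2 | hA1
  · obtain ⟨c2, C2, hc2, hC2, hV⟩ := card_wordsF_bounds (show 2 ≤ A by omega)
    refine ⟨1650 * (CA A + 1) * √(C1 * C2), by positivity, ?_⟩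
    intro N hN a q hq hc hqN β hβ t
    have hN0 : 0 < N := by linarith
    have hs1 : 1 < √N := by
      rw [Real.lt_sqrt (by norm_num)]
      linarith
    have hq' : (0 : ℝ) < q := by exact_mod_cast hq
    have hd := dist1_nonneg t
    have h1 := MbB1b_sq (A := A) hN hq hc hqN hβ t
    have h2 := (hP (√N) hs1).2
    have h3 := (hV (√N) hs1.le).2
    have h4 : ((passF A (√N)).card : ℝ) * ((wordsF A (√N)).card : ℝ) ≤
        (C1 * C2) * (N ^ (sexp A / 2)) ^ 2 := by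
      rw [MbB1b_sqrt_rpow hN0.le] at h2 h3
      calc ((passF A (√N)).card : ℝ) * ((wordsF A (√N)).card : ℝ) ≤
          (C1 * N ^ (sexp A / 2)) * (C2 * N ^ (sexp A / 2)) :=
            mul_le_mul h2 h3 (Nat.cast_nonneg _) (by positivity)
        _ = _ := by ring
    have h5 : ‖So A N (√N) ((a : ℝ) / q + β - t)‖ ^ 2 ≤
        (1650 * (CA A + 1) * √(C1 * C2) * (1 + N * dist1 t) ^ 2 * N ^ (sexp A / 2 + 1) /
          (q * (1 + N * |β|))) ^ 2 := by
      refine h1.trans ((mul_le_mul_of_nonneg_right h4 (sq_nonneg _)).trans (le_of_eq ?_))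
      have h6 : √(C1 * C2) ^ 2 = C1 * C2 := Real.sq_sqrt (by positivity)
      have h7 : N ^ (sexp A / 2 + 1) = N ^ (sexp A / 2) * N := by
        rw [Real.rpow_add hN0, Real.rpow_one]
      rw [h7]
      linear_combination (-(N ^ (sexp A / 2)) ^ 2 *
        (1650 * (CA A + 1) * (1 + N * dist1 t) ^ 2 * N / (q * (1 + N * |β|))) ^ 2) * h6
    exact (pow_le_pow_iff_left₀ (norm_nonneg _) (by positivity) two_ne_zero).1 h5
  · have hA' : A = 1 := by omega
    subst hA'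
    refine ⟨22 * C1, by positivity, ?_⟩
    intro N hN a q hq hc hqN β hβ t
    have hN0 : 0 < N := by linarith
    have hs1 : 1 < √N := by
      rw [Real.lt_sqrt (by norm_num)]
      linarith
    have hs : 0 < √N := by linarith
    have hsq : √N * √N = N := Real.mul_self_sqrt hN0.le
    have hdiv : N / √N = √N := by
      rw [div_eq_iff hs.ne', hsq]
    have hq' : (0 : ℝ) < q := by exact_mod_cast hq
    have hd := dist1_nonneg t
    have h1 := norm_So_le 1 N (√N) ((a : ℝ) / q + β - t)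
    rw [hdiv] at h1
    have h2 := (hP (√N) hs1).2
    rw [MbB1b_sqrt_rpow hN0.le] at h2
    have h3 := MbB1b_card_one hs1.le
    have hD := MbB1b_D hN hq hqN hβ
    have hDpos : 0 < (q : ℝ) * (1 + N * |β|) := by positivity
    have h4 : (1 : ℝ) ≤ (1 + N * dist1 t) ^ 2 := by
      have : 0 ≤ N * dist1 t := by positivity
      nlinarith
    have h7 : N ^ (sexp 1 / 2 + 1) = N ^ (sexp 1 / 2) * N := by
      rw [Real.rpow_add hN0, Real.rpow_one]
    have hK : 0 < N ^ (sexp 1 / 2) := Real.rpow_pos_of_pos hN0 _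
    calc ‖So 1 N (√N) ((a : ℝ) / q + β - t)‖ ≤ (C1 * N ^ (sexp 1 / 2)) * (2 * √N) :=
          h1.trans (mul_le_mul h2 h3 (Nat.cast_nonneg _) (by positivity))
      _ ≤ 22 * C1 * (1 + N * dist1 t) ^ 2 * N ^ (sexp 1 / 2 + 1) / (q * (1 + N * |β|)) := by
          rw [le_div_iff₀ hDpos, h7]
          calc (C1 * N ^ (sexp 1 / 2)) * (2 * √N) * (q * (1 + N * |β|)) ≤
              (C1 * N ^ (sexp 1 / 2)) * (2 * √N) * (11 * √N) :=
                mul_le_mul_of_nonneg_left hD (by positivity)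
            _ = 22 * C1 * 1 * (N ^ (sexp 1 / 2) * (√N * √N)) := by ring
            _ = 22 * C1 * 1 * (N ^ (sexp 1 / 2) * N) := by rw [hsq]
            _ ≤ 22 * C1 * (1 + N * dist1 t) ^ 2 * (N ^ (sexp 1 / 2) * N) := by
                gcongr

end Pool.Agent.W_f50700_h13
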