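import Pool.Agent.W_f50700_h13.Mb0
import Pool.Agent.W_f50700_h13.MbC1

/-!
MbF1: reduced fractions with denominators in `[Q, 2Q)`.
-/

namespace Pool.Agent.W_f50700_h13

open Pool.Agent.W_f50700_h3

/-- pairs `(q, a)`, `Q ≤ q < 2Q`, `0 ≤ a < q`, coprime -/
def farey (Q : ℕ) : Finset (ℕ × ℕ) :=
  ((Finset.Ico Q (2 * Q)) ×ˢ (Finset.range (2 * Q))).filter
    (fun p => p.2 < p.1 ∧ Nat.Coprime p.2 p.1)

/-- the fraction `a / q` -/
noncomputable def frac (p : ℕ × ℕ) : ℝ := (p.2 : ℝ) / p.1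

theorem mem_farey {Q : ℕ} {p : ℕ × ℕ} :
    p ∈ farey Q ↔ Q ≤ p.1 ∧ p.1 < 2 * Q ∧ p.2 < p.1 ∧ Nat.Coprime p.2 p.1 := by
  unfold farey
  rw [Finset.mem_filter, Finset.mem_product, Finset.mem_Ico, Finset.mem_range]
  constructor
  · rintro ⟨⟨⟨h1, h2⟩, _⟩, h4, h5⟩
    exact ⟨h1, h2, h4, h5⟩
  · rintro ⟨h1, h2, h4, h5⟩
    exact ⟨⟨⟨h1, h2⟩, by omega⟩, h4, h5⟩

theorem card_farey_le (Q : ℕ) : ((farey Q).card : ℝ) ≤ 2 * (Q : ℝ) ^ 2 := by
  have h : (farey Q).card ≤ Q * (2 * Q) := by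
    unfold farey
    refine (Finset.card_filter_le _ _).trans ?_
    rw [Finset.card_product, Nat.card_Ico, Finset.card_range]
    apply Nat.mul_le_mul_right
    omega
  calc ((farey Q).card : ℝ) ≤ ((Q * (2 * Q) : ℕ) : ℝ) := by exact_mod_cast h
    _ = 2 * (Q : ℝ) ^ 2 := by push_cast; ring

/-- two different reduced fractions are at distance at least `1/(q q')` mod 1 -/
theorem farey_sep {Q : ℕ} {p p' : ℕ × ℕ} (hp : p ∈ farey Q) (hp' : p' ∈ farey Q) (h : p ≠ p') :
    1 / (4 * (Q : ℝ) ^ 2) ≤ dist1 (frac p - frac p') := by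
  rw [mem_farey] at hp hp'
  obtain ⟨h1, h2, h3, h4⟩ := hp
  obtain ⟨h1', h2', h3', h4'⟩ := hp'
  obtain ⟨q, a⟩ := p
  obtain ⟨q', a'⟩ := p'
  simp only at *
  have hq : 0 < q := by omega
  have hq' : 0 < q' := by omega
  have hQ : 0 < Q := by omega
  have hqr : (0 : ℝ) < q := by exact_mod_cast hq
  have hqr' : (0 : ℝ) < q' := by exact_mod_cast hq'
  have hQr : (0 : ℝ) < Q := by exact_mod_cast hQ
  obtain ⟨k, hk⟩ := exists_int_dist1 (frac (q, a) - frac (q', a'))
  rw [← hk]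
  unfold frac
  simp only
  have e1 : (a : ℝ) / q - a' / q' - k = ((a * q' - a' * q - k * q * q' : ℤ) : ℝ) / (q * q') := by
    push_cast; field_simp
  rw [e1, abs_div, abs_of_pos (by positivity : (0 : ℝ) < q * q')]
  have hne : (a * q' - a' * q - k * q * q' : ℤ) ≠ 0 := by
    intro h0
    -- q ∣ q' and q' ∣ q
    have d1 : (q : ℤ) ∣ a * q' := ⟨a' + k * q', by linear_combination h0⟩
    have d2 : (q' : ℤ) ∣ a' * q := ⟨a - k * q, by linear_combination -h0⟩
    have c1 : IsCoprime (q : ℤ) (a : ℤ) := (Nat.isCoprime_iff_coprime.mpr h4).symm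
    have c2 : IsCoprime (q' : ℤ) (a' : ℤ) := (Nat.isCoprime_iff_coprime.mpr h4').symm
    have d3 : (q : ℤ) ∣ q' := c1.dvd_of_dvd_mul_left d1
    have d4 : (q' : ℤ) ∣ q := c2.dvd_of_dvd_mul_left d2
    have hqq : q = q' := Nat.dvd_antisymm (by exact_mod_cast d3) (by exact_mod_cast d4)
    subst hqq
    have h5 : (q : ℤ) * (a - a' - k * q) = 0 := by linear_combination h0
    have hq0 : (q : ℤ) ≠ 0 := by omega
    have h6 : (a : ℤ) - a' - k * q = 0 := by
      rcases mul_eq_zero.mp h5 with h | h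
      · exact absurd h hq0
      · exact h
    have h7 : k = 0 := by
      by_contra hk0
      rcases lt_or_gt_of_ne hk0 with hk1 | hk1
      · have : k * q ≤ -1 * q := by nlinarith
        omega
      · have : 1 * (q : ℤ) ≤ k * q := by nlinarith
        omega
    rw [h7] at h6
    apply h
    have : a = a' := by omega
    rw [this]
  have h8 : (1 : ℝ) ≤ |((a * q' - a' * q - k * q * q' : ℤ) : ℝ)| := by
    exact_mod_cast Int.one_le_abs hne
  have h9 : (q : ℝ) * q' ≤ 4 * (Q : ℝ) ^ 2 := by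
    have b1 : (q : ℝ) ≤ 2 * Q := by exact_mod_cast h2.le
    have b2 : (q' : ℝ) ≤ 2 * Q := by exact_mod_cast h2'.le
    nlinarith
  calc 1 / (4 * (Q : ℝ) ^ 2) ≤ 1 / (q * q') := one_div_le_one_div_of_le (by positivity) h9
    _ ≤ _ := div_le_div_of_nonneg_right h8 (by positivity)

/-- separated real points in an interval -/
theorem MbF1_card_sep {S : Finset ℝ} {x y d : ℝ} (hd : 0 < d) (hxy : x ≤ y)
    (hS : ∀ s ∈ S, x ≤ s ∧ s ≤ y) (hsep : ∀ s ∈ S, ∀ t ∈ S, s ≠ t → d ≤ |s - t|) :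
    (S.card : ℝ) ≤ (y - x) / d + 1 := by
  have hmap : ∀ s ∈ S, ⌊(s - x) / d⌋₊ ∈ Finset.range (⌊(y - x) / d⌋₊ + 1) := by
    intro s hs
    rw [Finset.mem_range, Nat.lt_succ_iff]
    apply Nat.floor_le_floor
    apply div_le_div_of_nonneg_right _ hd.le
    linarith [(hS s hs).2]
  have hinj : Set.InjOn (fun s : ℝ => ⌊(s - x) / d⌋₊) S := by
    intro s hs t ht h
    simp only at h
    by_contra hne
    have h1 := hsep s hs t ht hne
    have hs0 : 0 ≤ (s - x) / d := div_nonneg (by linarith [(hS s hs).1]) hd.le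
    have ht0 : 0 ≤ (t - x) / d := div_nonneg (by linarith [(hS t ht).1]) hd.le
    have a1 := Nat.floor_le hs0
    have a2 := Nat.lt_floor_add_one ((s - x) / d)
    have b1 := Nat.floor_le ht0
    have b2 := Nat.lt_floor_add_one ((t - x) / d)
    rw [h] at a1 a2
    have h2 : |(s - x) / d - (t - x) / d| < 1 := by
      rw [abs_lt]; constructor <;> linarith
    rw [← sub_div, abs_div, abs_of_pos hd, div_lt_one hd] at h2
    rw [show s - x - (t - x) = s - t by ring] at h2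
    linarith
  have hcard := Finset.card_le_card_of_injOn _ hmap hinj
  rw [Finset.card_range] at hcard
  calc (S.card : ℝ) ≤ ((⌊(y - x) / d⌋₊ + 1 : ℕ) : ℝ) := by exact_mod_cast hcard
    _ = (⌊(y - x) / d⌋₊ : ℝ) + 1 := by push_cast; ring
    _ ≤ (y - x) / d + 1 := by
        have := Nat.floor_le (div_nonneg (by linarith : 0 ≤ y - x) hd.le)
        linarith

/-- points which are pairwise within `ℓ` mod 1: relative to one of them they have
representatives in `[-ℓ, ℓ]`, separated by `1/(4 Q^2)` -/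
theorem farey_arc_count {Q : ℕ} {S : Finset (ℕ × ℕ)} (hS : S ⊆ farey Q) {ℓ : ℝ} (hℓ : 0 ≤ ℓ)
    (h : ∀ p ∈ S, ∀ p' ∈ S, dist1 (frac p - frac p') ≤ ℓ) :
    (S.card : ℝ) ≤ 1 + 8 * (Q : ℝ) ^ 2 * ℓ := by
  classical
  rcases S.eq_empty_or_nonempty with rfl | ⟨p0, hp0⟩
  · simp only [Finset.card_empty, Nat.cast_zero]; positivity
  have hQ : 0 < Q := by
    have := (mem_farey.mp (hS hp0))
    omega
  have hQr : (0 : ℝ) < Q := by exact_mod_cast hQ
  -- representatives
  set g : ℕ × ℕ → ℝ := fun p => frac p - frac p0 - round (frac p - frac p0) with hg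
  have hgle : ∀ p ∈ S, |g p| ≤ ℓ := fun p hp => h p hp p0 hp0
  have hsep : ∀ p ∈ S, ∀ p' ∈ S, p ≠ p' → 1 / (4 * (Q : ℝ) ^ 2) ≤ |g p - g p'| := by
    intro p hp p' hp' hne
    refine (farey_sep (hS hp) (hS hp') hne).trans ?_
    have := dist1_le_abs_sub (frac p - frac p')
      (round (frac p - frac p0) - round (frac p' - frac p0))
    refine this.trans (le_of_eq ?_)
    rw [hg]
    push_cast
    congr 1
    ring
  have hd : 0 < 1 / (4 * (Q : ℝ) ^ 2) := by positivity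
  have hinj : Set.InjOn g S := by
    intro p hp p' hp' hpp
    by_contra hne
    have := hsep p hp p' hp' hne
    rw [hpp, sub_self, abs_zero] at this
    linarith
  have hcard : (S.image g).card = S.card := Finset.card_image_of_injOn hinj
  have := MbF1_card_sep (S := S.image g) (x := -ℓ) (y := ℓ) hd (by linarith)
    (by
      intro s hs
      obtain ⟨p, hp, rfl⟩ := Finset.mem_image.mp hs
      exact abs_le.mp (hgle p hp))
    (by
      intro s hs t ht hne
      obtain ⟨p, hp, rfl⟩ := Finset.mem_image.mp hs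
      obtain ⟨p', hp', rfl⟩ := Finset.mem_image.mp ht
      exact hsep p hp p' hp' (fun h => hne (by rw [h])))
  rw [hcard] at this
  calc (S.card : ℝ) ≤ (ℓ - -ℓ) / (1 / (4 * (Q : ℝ) ^ 2)) + 1 := this
    _ = 1 + 8 * (Q : ℝ) ^ 2 * ℓ := by field_simp; ring

end Pool.Agent.W_f50700_h13
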