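import Pool.Agent.W_f50700_h13.Mb0

/-!
MbF1b: two elementary lemmas on distances to integers.
-/

namespace Pool.Agent.W_f50700_h13

open Pool.Agent.W_f50700_h3

/-- `γ x = k1 + ε1`, `γ y = k2 + ε2`: `|k1 y - k2 x| ≤ Δ (x + y) < 1` so `k1 y = k2 x`, `x ∣ k1`,
`γ - k1 / x = ε1 / x` -/
theorem arc_close {x y : ℕ} (hx : 1 ≤ x) (hc : Nat.Coprime x y) {γ Δ : ℝ}
    (h1 : dist1 (γ * x) ≤ Δ) (h2 : dist1 (γ * y) ≤ Δ) (hΔ : Δ * ((x : ℝ) + y) < 1) :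
    dist1 γ ≤ Δ / x := by
  have hx' : (0 : ℝ) < x := by exact_mod_cast hx
  obtain ⟨k1, hk1⟩ := exists_int_dist1 (γ * x)
  obtain ⟨k2, hk2⟩ := exists_int_dist1 (γ * y)
  rw [← hk1] at h1
  rw [← hk2] at h2
  have h3 : |((k1 * y - k2 * x : ℤ) : ℝ)| < 1 := by
    have h4 : ((k1 * y - k2 * x : ℤ) : ℝ) = (γ * y - k2) * x - (γ * x - k1) * y := by
      push_cast; ring
    rw [h4]
    calc |(γ * y - k2) * x - (γ * x - k1) * y|
        ≤ |(γ * y - k2) * x| + |(γ * x - k1) * y| := abs_sub _ _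
      _ = |γ * y - k2| * x + |γ * x - k1| * y := by
          rw [abs_mul, abs_mul, abs_of_pos hx', abs_of_nonneg (Nat.cast_nonneg y : (0 : ℝ) ≤ y)]
      _ ≤ Δ * x + Δ * y :=
          add_le_add (mul_le_mul_of_nonneg_right h2 hx'.le)
            (mul_le_mul_of_nonneg_right h1 (Nat.cast_nonneg y))
      _ = Δ * ((x : ℝ) + y) := by ring
      _ < 1 := hΔ
  have h5 : k1 * y - k2 * x = 0 := by
    have : |k1 * y - k2 * x| < 1 := by exact_mod_cast h3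
    exact Int.abs_lt_one_iff.mp this
  have h6 : (x : ℤ) ∣ k1 := by
    have h7 : (x : ℤ) ∣ k1 * y := ⟨k2, by linear_combination h5⟩
    have h8 : IsCoprime (x : ℤ) (y : ℤ) := Nat.isCoprime_iff_coprime.mpr hc
    exact h8.dvd_of_dvd_mul_right h7
  obtain ⟨l, hl⟩ := h6
  calc dist1 γ ≤ |γ - l| := dist1_le_abs_sub γ l
    _ = |γ * x - k1| / x := by
        rw [hl]
        push_cast
        rw [show γ * (x : ℝ) - x * l = (γ - l) * x by ring, abs_mul, abs_of_pos hx']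
        field_simp
    _ ≤ Δ / x := div_le_div_of_nonneg_right h1 hx'.le

/-- `α r1 = α' s1 + k1 + ε1`, `α r2 = α' s2 + k2 + ε2` imply that `α (r1 s2 - r2 s1)` is within
`(s1 + s2) Δ` of an integer -/
theorem det_near {r1 r2 s1 s2 : ℕ} {α α' Δ : ℝ}
    (h1 : dist1 (α * r1 - α' * s1) ≤ Δ) (h2 : dist1 (α * r2 - α' * s2) ≤ Δ) :
    dist1 (α * (((r1 : ℤ) * s2 - r2 * s1 : ℤ) : ℝ)) ≤ ((s1 : ℝ) + s2) * Δ := by
  obtain ⟨k1, hk1⟩ := exists_int_dist1 (α * r1 - α' * s1)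
  obtain ⟨k2, hk2⟩ := exists_int_dist1 (α * r2 - α' * s2)
  rw [← hk1] at h1
  rw [← hk2] at h2
  calc dist1 (α * (((r1 : ℤ) * s2 - r2 * s1 : ℤ) : ℝ))
      ≤ |α * (((r1 : ℤ) * s2 - r2 * s1 : ℤ) : ℝ) - ((k1 * s2 - k2 * s1 : ℤ) : ℝ)| :=
        dist1_le_abs_sub _ _
    _ = |(α * r1 - α' * s1 - k1) * s2 - (α * r2 - α' * s2 - k2) * s1| := by
        push_cast; congr 1; ring
    _ ≤ |(α * r1 - α' * s1 - k1) * s2| + |(α * r2 - α' * s2 - k2) * s1| := abs_sub _ _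
    _ = |α * r1 - α' * s1 - k1| * s2 + |α * r2 - α' * s2 - k2| * s1 := by
        rw [abs_mul, abs_mul, abs_of_nonneg (Nat.cast_nonneg s1 : (0 : ℝ) ≤ s1),
          abs_of_nonneg (Nat.cast_nonneg s2 : (0 : ℝ) ≤ s2)]
    _ ≤ Δ * s2 + Δ * s1 :=
        add_le_add (mul_le_mul_of_nonneg_right h1 (Nat.cast_nonneg _))
          (mul_le_mul_of_nonneg_right h2 (Nat.cast_nonneg _))
    _ = ((s1 : ℝ) + s2) * Δ := by ring

end Pool.Agent.W_f50700_h13
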