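import Pool.Agent.W_f50700_h3.Base3
import Pool.Agent.W_f50700_h13.MbC1

/-!
MbF2a: rows with given determinant against a fixed row.
-/

namespace Pool.Agent.W_f50700_h13

open Pool.Agent.W_f50700_h3

/-- number of rows with given determinant against a fixed row: `F u'` is determined mod `F u`
(`F u`, `m12 u` coprime), lies in `[X, K X]`, and `m12 u'` is determined by `F u'` -/
theorem count_det {A : ℕ} {X K : ℝ} (hX : 0 < X) (P : Finset (List (Lt A)))
    (hP : ∀ u ∈ P, X ≤ (F u : ℝ) ∧ (F u : ℝ) ≤ K * X) {u : List (Lt A)} (hu : u ∈ P) (m : ℤ) :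
    (((P.filter (fun u' => (F u : ℤ) * m12 u' - m12 u * F u' = m)).card : ℕ) : ℝ) ≤ K + 1 := by
  classical
  set S := P.filter (fun u' => (F u : ℤ) * m12 u' - m12 u * F u' = m) with hS
  have hFu : 0 < F u := F_pos u
  have hcop : IsCoprime (F u : ℤ) (m12 u : ℤ) := Nat.isCoprime_iff_coprime.mpr (coprime_row u)
  have hinj : Set.InjOn (fun u' : List (Lt A) => (F u' : ℤ)) S := by
    intro v hv v' hv' h
    rw [Finset.mem_coe, hS, Finset.mem_filter] at hv hv'
    simp only at h
    have h1 : F v = F v' := by exact_mod_cast h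
    apply row_injective h1
    have h2 : (F u : ℤ) * m12 v = F u * m12 v' := by
      have := hv.2.trans hv'.2.symm
      rw [h] at this
      linarith
    have h3 : (F u : ℤ) ≠ 0 := by exact_mod_cast hFu.ne'
    have := mul_left_cancel₀ h3 h2
    exact_mod_cast this
  have hcard : (S.image (fun u' : List (Lt A) => (F u' : ℤ))).card = S.card :=
    Finset.card_image_of_injOn hinj
  have hPu := hP u hu
  have hK : X ≤ K * X := hPu.1.trans hPu.2
  have h := MbC1_card_class (q := F u) hFu (S.image (fun u' : List (Lt A) => (F u' : ℤ))) X (K * X)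
    hK
    (by
      intro j hj
      obtain ⟨v, hv, rfl⟩ := Finset.mem_image.mp hj
      rw [hS, Finset.mem_filter] at hv
      have := hP v hv.1
      push_cast
      exact this)
    (by
      intro j hj j' hj'
      obtain ⟨v, hv, rfl⟩ := Finset.mem_image.mp hj
      obtain ⟨v', hv', rfl⟩ := Finset.mem_image.mp hj'
      rw [hS, Finset.mem_filter] at hv hv'
      have h1 : (F u : ℤ) ∣ m12 u * ((F v : ℤ) - F v') := by
        refine ⟨(m12 v : ℤ) - m12 v', ?_⟩
        have h2 := hv.2
        have h3 := hv'.2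
        linear_combination h3 - h2
      exact hcop.dvd_of_dvd_mul_left h1)
  rw [hcard] at h
  have hFu' : (0 : ℝ) < F u := by exact_mod_cast hFu
  have h1 : (K * X - X) / (F u : ℝ) ≤ K - 1 := by
    rw [div_le_iff₀ hFu']
    have hK1 : 0 ≤ K - 1 := by nlinarith
    nlinarith [hPu.1]
  linarith

end Pool.Agent.W_f50700_h13
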