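import Pool.Agent.W_f50700_h13.MbF1
import Pool.Agent.W_f50700_h13.MbF1b
import Pool.Agent.W_f50700_h13.MbF2a
import Pool.Agent.W_f50700_h13.MbC1

/-!
MbF2b: counting coincidences with a fixed point.
-/

namespace Pool.Agent.W_f50700_h13

open Pool.Agent.W_f50700_h3

/-- the pairs `(p', u')` close to a given `(p, u)` -/
noncomputable def closeTo {A : ℕ} (Q : ℕ) (P : Finset (List (Lt A))) (α : ℝ) (u : List (Lt A))
    (Δ : ℝ) : Finset ((ℕ × ℕ) × List (Lt A)) := by
  classical
  exact (farey Q ×ˢ P).filter (fun z => dist1 (α * F u - frac z.1 * F z.2) ≤ Δ ∧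
    dist1 (α * m12 u - frac z.1 * m12 z.2) ≤ Δ)

theorem mem_closeTo {A : ℕ} {Q : ℕ} {P : Finset (List (Lt A))} {α : ℝ} {u : List (Lt A)}
    {Δ : ℝ} {z : (ℕ × ℕ) × List (Lt A)} :
    z ∈ closeTo Q P α u Δ ↔ z.1 ∈ farey Q ∧ z.2 ∈ P ∧
      dist1 (α * F u - frac z.1 * F z.2) ≤ Δ ∧
      dist1 (α * m12 u - frac z.1 * m12 z.2) ≤ Δ := by
  classical
  unfold closeTo
  rw [Finset.mem_filter, Finset.mem_product, and_assoc]

/-- Proof.  `m = F u * m12 u' - m12 u * F u'` has `|m| ≤ (K X)^2` and `α m` is within `2 K X Δ` of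
an integer (`det_near`), `count_frac`; for given `m` at most `K + 1` rows (`count_det`); for given
`u'` the fractions `p'` are pairwise within `2 Δ / X` (`arc_close` with `2 Δ`, uses
`4 K X Δ < 1`), `farey_arc_count`. -/
theorem card_closeTo {A : ℕ} {Q : ℕ} {X K : ℝ} (hX : 1 ≤ X) (hK : 1 ≤ K)
    (P : Finset (List (Lt A)))
    (hP : ∀ u ∈ P, X ≤ (F u : ℝ) ∧ (F u : ℝ) ≤ K * X) {p : ℕ × ℕ} (hp : p ∈ farey Q)
    {u : List (Lt A)} (hu : u ∈ P) {Δ : ℝ} (hΔ : 0 ≤ Δ) (hΔ1 : 4 * K * X * Δ < 1) :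
    ((closeTo Q P (frac p) u Δ).card : ℝ) ≤
      ((2 * (K * X) ^ 2 + 1) / Q + 1) * (2 * (2 * Q) * (2 * K * X * Δ) + 1) * (K + 1) *
        (1 + 16 * (Q : ℝ) ^ 2 * Δ / X) := by
  classical
  have hX0 : 0 < X := by linarith
  have hK0 : 0 < K := by linarith
  obtain ⟨q1, q2, q3, q4⟩ := mem_farey.mp hp
  have hQ : 0 < Q := by omega
  have hQr : (0 : ℝ) < Q := by exact_mod_cast hQ
  have hq : 0 < p.1 := by omega
  have hqr : (0 : ℝ) < p.1 := by exact_mod_cast hq
  have hq1 : (Q : ℝ) ≤ p.1 := by exact_mod_cast q1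
  have hq2 : (p.1 : ℝ) ≤ 2 * Q := by exact_mod_cast q2.le
  set M : ℕ := ⌊(K * X) ^ 2⌋₊ with hM
  set g : (ℕ × ℕ) × List (Lt A) → ℤ := fun z => (F u : ℤ) * m12 z.2 - m12 u * F z.2 with hg
  set δ := 2 * K * X * Δ with hδ
  have hδ0 : 0 ≤ δ := by positivity
  set T := nearSet (-(M : ℤ)) M (((p.2 : ℤ) : ℝ) / p.1) δ with hT
  -- rows are bounded
  have hrow : ∀ v ∈ P, (F v : ℝ) ≤ K * X ∧ (m12 v : ℝ) ≤ K * X := by
    intro v hv
    refine ⟨(hP v hv).2, ?_⟩
    have : (m12 v : ℝ) ≤ F v := by exact_mod_cast (m12_lt v).le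
    exact this.trans (hP v hv).2
  have hmaps : ∀ z ∈ closeTo Q P (frac p) u Δ, g z ∈ T := by
    intro z hz
    rw [mem_closeTo] at hz
    obtain ⟨z1, z2, z3, z4⟩ := hz
    rw [hT, mem_nearSet]
    have hu1 := hrow u hu
    have hz1 := hrow z.2 z2
    constructor
    · have h1 : |((g z : ℤ) : ℝ)| ≤ (K * X) ^ 2 := by
        rw [hg]
        push_cast
        rw [abs_le]
        have a1 : (0 : ℝ) ≤ (F u : ℝ) * m12 z.2 := by positivity
        have a2 : (0 : ℝ) ≤ (m12 u : ℝ) * F z.2 := by positivity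
        have a3 : (F u : ℝ) * m12 z.2 ≤ (K * X) * (K * X) :=
          mul_le_mul hu1.1 hz1.2 (by positivity) (by positivity)
        have a4 : (m12 u : ℝ) * F z.2 ≤ (K * X) * (K * X) :=
          mul_le_mul hu1.2 hz1.1 (by positivity) (by positivity)
        constructor <;> nlinarith
      have h2 : ((g z).natAbs : ℝ) ≤ (K * X) ^ 2 := by
        rw [Nat.cast_natAbs]; push_cast; exact h1
      have h3 : (g z).natAbs ≤ M := Nat.le_floor h2
      constructor <;> omega
    · have h5 := det_near z3 z4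
      have h6 : ((F z.2 : ℝ) + m12 z.2) * Δ ≤ δ := by
        rw [hδ]
        have : (F z.2 : ℝ) + m12 z.2 ≤ 2 * K * X := by linarith [hz1.1, hz1.2]
        exact mul_le_mul_of_nonneg_right this hΔ
      refine le_trans (le_of_eq ?_) (h5.trans h6)
      rw [hg]
      unfold frac
      push_cast
      rfl
  have hTcard : (T.card : ℝ) ≤ ((2 * (K * X) ^ 2 + 1) / Q + 1) * (2 * (2 * Q) * δ + 1) := by
    have hcop : IsCoprime (p.2 : ℤ) (p.1 : ℤ) := Nat.isCoprime_iff_coprime.mpr q4
    have h1 := count_frac (a := (p.2 : ℤ)) hq hcop (-(M : ℤ)) M (by omega) hδ0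
    refine h1.trans ?_
    have h2 : (M : ℝ) ≤ (K * X) ^ 2 := Nat.floor_le (by positivity)
    apply mul_le_mul
    · have : (((M : ℤ) : ℝ) - ((-(M : ℤ) : ℤ) : ℝ) + 1) / p.1 ≤ (2 * (K * X) ^ 2 + 1) / Q := by
        apply div_le_div₀ (by positivity) _ hQr hq1
        push_cast
        linarith
      linarith
    · have : 2 * (p.1 : ℝ) * δ ≤ 2 * (2 * Q) * δ := by
        apply mul_le_mul_of_nonneg_right _ hδ0
        linarith
      linarith
    · positivity
    · positivity
  -- fibres
  set L := 1 + 16 * (Q : ℝ) ^ 2 * Δ / X with hL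
  have hL0 : 0 ≤ L := by rw [hL]; positivity
  have hfib : ∀ j ∈ T,
      ((((closeTo Q P (frac p) u Δ).filter (fun z => g z = j)).card : ℕ) : ℝ) ≤ (K + 1) * L := by
    intro j _
    apply MbC1_card_fib _ (P.filter (fun u' => (F u : ℤ) * m12 u' - m12 u * F u' = j))
      (fun z => z.2)
    · intro z hz
      rw [Finset.mem_filter, mem_closeTo] at hz
      rw [Finset.mem_filter]
      exact ⟨hz.1.2.1, hz.2⟩
    · exact hL0
    · exact count_det hX0 P hP hu j
    · intro u' hu'
      rw [Finset.mem_filter] at hu'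
      have hu'P := hu'.1
      set S := (((closeTo Q P (frac p) u Δ).filter (fun z => g z = j)).filter
        (fun z => z.2 = u')) with hS
      have hcard : (S.image (fun z => z.1)).card = S.card := by
        apply Finset.card_image_of_injOn
        intro z hz z' hz' h
        rw [Finset.mem_coe, hS, Finset.mem_filter] at hz hz'
        exact Prod.ext h (hz.2.trans hz'.2.symm)
      have hFpos : 1 ≤ F u' := F_pos u'
      have hFr : (0 : ℝ) < F u' := by exact_mod_cast hFpos
      have h1 := farey_arc_count (Q := Q) (S := S.image (fun z => z.1)) (ℓ := 2 * Δ / X)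
        (by
          intro p' hp'
          obtain ⟨z, hz, rfl⟩ := Finset.mem_image.mp hp'
          rw [hS, Finset.mem_filter, Finset.mem_filter, mem_closeTo] at hz
          exact hz.1.1.1)
        (by positivity)
        (by
          intro p' hp' p'' hp''
          obtain ⟨z, hz, rfl⟩ := Finset.mem_image.mp hp'
          obtain ⟨z', hz', rfl⟩ := Finset.mem_image.mp hp''
          rw [hS, Finset.mem_filter, Finset.mem_filter, mem_closeTo] at hz hz'
          obtain ⟨⟨⟨_, _, z3, z4⟩, _⟩, z5⟩ := hz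
          obtain ⟨⟨⟨_, _, z3', z4'⟩, _⟩, z5'⟩ := hz'
          rw [z5] at z3 z4
          rw [z5'] at z3' z4'
          have b1 : dist1 ((frac z.1 - frac z'.1) * F u') ≤ 2 * Δ := by
            have := dist1_sub_le (frac p * F u - frac z'.1 * F u') (frac p * F u - frac z.1 * F u')
            rw [show frac p * (F u : ℝ) - frac z'.1 * F u' - (frac p * F u - frac z.1 * F u') =
              (frac z.1 - frac z'.1) * F u' by ring] at this
            linarith
          have b2 : dist1 ((frac z.1 - frac z'.1) * m12 u') ≤ 2 * Δ := by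
            have := dist1_sub_le (frac p * m12 u - frac z'.1 * m12 u')
              (frac p * m12 u - frac z.1 * m12 u')
            rw [show frac p * (m12 u : ℝ) - frac z'.1 * m12 u' -
              (frac p * m12 u - frac z.1 * m12 u') =
              (frac z.1 - frac z'.1) * m12 u' by ring] at this
            linarith
          have hr := hrow u' hu'P
          have b3 : 2 * Δ * ((F u' : ℝ) + m12 u') < 1 := by
            calc 2 * Δ * ((F u' : ℝ) + m12 u') ≤ 2 * Δ * (2 * (K * X)) := by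
                  apply mul_le_mul_of_nonneg_left _ (by positivity)
                  linarith [hr.1, hr.2]
              _ = 4 * K * X * Δ := by ring
              _ < 1 := hΔ1
          have b4 := arc_close hFpos (coprime_row u') b1 b2 b3
          refine b4.trans ?_
          exact div_le_div_of_nonneg_left (by positivity) hX0 (hP u' hu'P).1)
      rw [hcard] at h1
      calc (S.card : ℝ) ≤ 1 + 8 * (Q : ℝ) ^ 2 * (2 * Δ / X) := h1
        _ = L := by rw [hL]; ring
  have hfinal := MbC1_card_fib (closeTo Q P (frac p) u Δ) T g hmaps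
    (by positivity : 0 ≤ (K + 1) * L) hTcard hfib
  calc ((closeTo Q P (frac p) u Δ).card : ℝ)
      ≤ ((2 * (K * X) ^ 2 + 1) / Q + 1) * (2 * (2 * Q) * δ + 1) * ((K + 1) * L) := hfinal
    _ = _ := by ring

end Pool.Agent.W_f50700_h13
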