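import Pool.Agent.W_f50700_h13.MbLS

/-!
MbLS2: the large sieve for rows and columns of words.
-/

open Complex

namespace Pool.Agent.W_f50700_h13

open Pool.Agent.W_f50700_h3

/-- the pairs counted by the large sieve -/
noncomputable def closePairs {ι : Type*} (J : Finset ι) (x y : ι → ℝ) (η : ℝ) :
    Finset (ι × ι) := by
  classical
  exact (J ×ˢ J).filter (fun p => dist1 (x p.1 - x p.2) ≤ η ∧ dist1 (y p.1 - y p.2) ≤ η)

theorem mem_closePairs {ι : Type*} {J : Finset ι} {x y : ι → ℝ} {η : ℝ} {p : ι × ι} :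
    p ∈ closePairs J x y η ↔ p.1 ∈ J ∧ p.2 ∈ J ∧
      dist1 (x p.1 - x p.2) ≤ η ∧ dist1 (y p.1 - y p.2) ≤ η := by
  classical
  unfold closePairs
  rw [Finset.mem_filter, Finset.mem_product, and_assoc]

theorem MbLS2_aux {ι : Type*} (J : Finset ι) (z : ι → ℂ) (hz : ∀ j ∈ J, ‖z j‖ ≤ 1)
    (x y : ι → ℝ) {B : ℕ} (hB : 1 ≤ B) :
    ∑ r ∈ Finset.range B, ∑ s ∈ Finset.range B,
        ‖∑ j ∈ J, z j * e ((r : ℝ) * x j + (s : ℝ) * y j)‖ ^ 2 ≤
      25 * (B : ℝ) ^ 2 * ((closePairs J x y (1 / (2 * B))).card : ℝ) := by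
  classical
  refine (large_sieve J z x y hB).trans ?_
  apply mul_le_mul_of_nonneg_left _ (by positivity)
  have h1 : ((closePairs J x y (1 / (2 * B))).card : ℝ) =
      ∑ j ∈ J, ∑ k ∈ J, (if dist1 (x j - x k) ≤ 1 / (2 * B) ∧ dist1 (y j - y k) ≤ 1 / (2 * B)
        then (1 : ℝ) else 0) := by
    unfold closePairs
    rw [Finset.card_filter]
    push_cast
    rw [Finset.sum_product]
  rw [h1]
  apply Finset.sum_le_sum
  intro j hj
  apply Finset.sum_le_sum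
  intro k hk
  have h2 : ‖z j‖ * ‖z k‖ ≤ 1 := by
    calc ‖z j‖ * ‖z k‖ ≤ 1 * 1 := mul_le_mul (hz j hj) (hz k hk) (norm_nonneg _) (by norm_num)
      _ = 1 := by norm_num
  split_ifs with h
  · linarith
  · simp

/-- rows: injective map `u ↦ (F u, m12 u)` into the box (`row_injective`, `m12_lt`) -/
theorem ls_rows {A : ℕ} (P : Finset (List (Lt A))) {B : ℕ} (hB : ∀ u ∈ P, F u < B)
    (hB1 : 1 ≤ B) {ι : Type*} (J : Finset ι) (z : ι → ℂ) (hz : ∀ j ∈ J, ‖z j‖ ≤ 1)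
    (x y : ι → ℝ) :
    ∑ u ∈ P, ‖∑ j ∈ J, z j * e ((F u : ℝ) * x j + (m12 u : ℝ) * y j)‖ ^ 2 ≤
      25 * (B : ℝ) ^ 2 * ((closePairs J x y (1 / (2 * B))).card : ℝ) := by
  classical
  refine le_trans ?_ (MbLS2_aux J z hz x y hB1)
  rw [← Finset.sum_product' (f := fun r s : ℕ => ‖∑ j ∈ J, z j * e ((r : ℝ) * x j + (s : ℝ) * y j)‖ ^ 2)]
  have hinj : Set.InjOn (fun u : List (Lt A) => (F u, m12 u)) P := by
    intro u _ v _ h
    rw [Prod.mk.injEq] at h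
    exact row_injective h.1 h.2
  rw [← Finset.sum_image (s := P) (g := fun u : List (Lt A) => (F u, m12 u))
    (f := fun p : ℕ × ℕ => ‖∑ j ∈ J, z j * e ((p.1 : ℝ) * x j + (p.2 : ℝ) * y j)‖ ^ 2) hinj]
  apply Finset.sum_le_sum_of_subset_of_nonneg
  · intro p hp
    obtain ⟨u, hu, rfl⟩ := Finset.mem_image.mp hp
    rw [Finset.mem_product, Finset.mem_range, Finset.mem_range]
    exact ⟨hB u hu, (m12_lt u).trans (hB u hu)⟩
  · intro p _ _
    positivity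

/-- columns: injective map `v ↦ (F v, m21 v)` into the box (`col_injective`, `m21_lt`) -/
theorem ls_cols {A : ℕ} (P : Finset (List (Lt A))) {B : ℕ} (hB : ∀ u ∈ P, F u < B)
    (hB1 : 1 ≤ B) {ι : Type*} (J : Finset ι) (z : ι → ℂ) (hz : ∀ j ∈ J, ‖z j‖ ≤ 1)
    (x y : ι → ℝ) :
    ∑ v ∈ P, ‖∑ j ∈ J, z j * e ((F v : ℝ) * x j + (m21 v : ℝ) * y j)‖ ^ 2 ≤
      25 * (B : ℝ) ^ 2 * ((closePairs J x y (1 / (2 * B))).card : ℝ) := by
  classical
  refine le_trans ?_ (MbLS2_aux J z hz x y hB1)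
  rw [← Finset.sum_product' (f := fun r s : ℕ => ‖∑ j ∈ J, z j * e ((r : ℝ) * x j + (s : ℝ) * y j)‖ ^ 2)]
  have hinj : Set.InjOn (fun u : List (Lt A) => (F u, m21 u)) P := by
    intro u _ v _ h
    rw [Prod.mk.injEq] at h
    exact col_injective h.1 h.2
  rw [← Finset.sum_image (s := P) (g := fun u : List (Lt A) => (F u, m21 u))
    (f := fun p : ℕ × ℕ => ‖∑ j ∈ J, z j * e ((p.1 : ℝ) * x j + (p.2 : ℝ) * y j)‖ ^ 2) hinj]
  apply Finset.sum_le_sum_of_subset_of_nonneg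
  · intro p hp
    obtain ⟨u, hu, rfl⟩ := Finset.mem_image.mp hp
    rw [Finset.mem_product, Finset.mem_range, Finset.mem_range]
    exact ⟨hB u hu, (m21_lt u).trans (hB u hu)⟩
  · intro p _ _
    positivity

end Pool.Agent.W_f50700_h13
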