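import Pool.Agent.W_f50700_h13.MbF2b
import Pool.Agent.W_f50700_h13.MbLS2

/-!
MbF3a: number of close pairs.
-/

open MeasureTheory

namespace Pool.Agent.W_f50700_h13

open Pool.Agent.W_f50700_h3

theorem MbF3a_pows {N : ℝ} (hN : 2 ≤ N) :
    1 ≤ N ^ (1 / 4 : ℝ) ∧ (N ^ (1 / 4 : ℝ)) ^ 4 = N ∧ √N = (N ^ (1 / 4 : ℝ)) ^ 2 ∧
      N ^ (3 / 4 : ℝ) = (N ^ (1 / 4 : ℝ)) ^ 3 := by
  have hN0 : 0 ≤ N := by linarith
  refine ⟨Real.one_le_rpow (by linarith) (by norm_num), ?_, ?_, ?_⟩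
  · rw [← Real.rpow_natCast, ← Real.rpow_mul hN0]
    norm_num
  · rw [← Real.rpow_natCast, ← Real.rpow_mul hN0, Real.sqrt_eq_rpow]
    norm_num
  · rw [← Real.rpow_natCast, ← Real.rpow_mul hN0]
    norm_num

/-- closeness passes from the shifted to the unshifted fractions -/
theorem MbF3a_dist {a b β f g η Δ : ℝ} (h : dist1 ((a + β) * f - (b + β) * g) ≤ η)
    (hΔ : η + |β| * |f - g| ≤ Δ) : dist1 (a * f - b * g) ≤ Δ := by
  have e1 : a * f - b * g = ((a + β) * f - (b + β) * g) + (-(β * (f - g))) := by ring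
  rw [e1]
  refine (dist1_add_le _ _).trans ?_
  have h2 : dist1 (-(β * (f - g))) ≤ |β| * |f - g| := by
    rw [dist1_neg]
    refine (dist1_le_abs _).trans ?_
    rw [abs_mul]
  linarith

theorem MbF3a_final {K X q H : ℝ} (hK : 2 ≤ K) (hX : 1 ≤ X) (hq : 1 ≤ q) (hqX : q ≤ 5 * X ^ 2)
    (hH : 1 ≤ H) :
    (2 * q ^ 2) * (((2 * (K * X) ^ 2 + 1) / q + 1) *
      (2 * (2 * q) * (2 * K * X * (2 * K * H / X ^ 3)) + 1) * (K + 1) *
        (1 + 16 * q ^ 2 * (2 * K * H / X ^ 3) / X)) ≤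
      (2 * ((2 * K ^ 2 + 6) * (80 * K ^ 2 + 1) * (K + 1) * (800 * K + 1))) * q * H ^ 2 * X ^ 2 := by
  have hX0 : 0 < X := by linarith
  have hq0 : 0 < q := by linarith
  have hX2 : 1 ≤ X ^ 2 := one_le_pow₀ hX
  have h1 : (2 * (K * X) ^ 2 + 1) / q + 1 ≤ (2 * K ^ 2 + 6) * (X ^ 2 / q) := by
    rw [mul_div_assoc', div_add_one hq0.ne']
    refine div_le_div_of_nonneg_right ?_ hq0.le
    nlinarith
  have h2 : 2 * (2 * q) * (2 * K * X * (2 * K * H / X ^ 3)) + 1 ≤ (80 * K ^ 2 + 1) * H := by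
    have e1 : 2 * (2 * q) * (2 * K * X * (2 * K * H / X ^ 3)) = 16 * K ^ 2 * H * (q / X ^ 2) := by
      field_simp
      ring
    rw [e1]
    have e2 : q / X ^ 2 ≤ 5 := by
      rw [div_le_iff₀ (by positivity)]
      exact hqX
    have e3 : 16 * K ^ 2 * H * (q / X ^ 2) ≤ 16 * K ^ 2 * H * 5 :=
      mul_le_mul_of_nonneg_left e2 (by positivity)
    nlinarith
  have h3 : 1 + 16 * q ^ 2 * (2 * K * H / X ^ 3) / X ≤ (800 * K + 1) * H := by
    have e1 : 16 * q ^ 2 * (2 * K * H / X ^ 3) / X = 32 * K * H * (q / X ^ 2) ^ 2 := by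
      field_simp
      ring
    rw [e1]
    have e2 : q / X ^ 2 ≤ 5 := by
      rw [div_le_iff₀ (by positivity)]
      exact hqX
    have e4 : (q / X ^ 2) ^ 2 ≤ 25 := by
      have : 0 ≤ q / X ^ 2 := by positivity
      nlinarith
    have e3 : 32 * K * H * (q / X ^ 2) ^ 2 ≤ 32 * K * H * 25 :=
      mul_le_mul_of_nonneg_left e4 (by positivity)
    nlinarith
  have hb1 : 0 ≤ (2 * (K * X) ^ 2 + 1) / q + 1 := by positivity
  have hb2 : 0 ≤ 2 * (2 * q) * (2 * K * X * (2 * K * H / X ^ 3)) + 1 := by positivity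
  have hb3 : 0 ≤ 1 + 16 * q ^ 2 * (2 * K * H / X ^ 3) / X := by positivity
  have hc1 : 0 ≤ (2 * K ^ 2 + 6) * (X ^ 2 / q) := by positivity
  have hc2 : 0 ≤ (80 * K ^ 2 + 1) * H := by positivity
  have hK1 : 0 ≤ K + 1 := by linarith
  calc (2 * q ^ 2) * (((2 * (K * X) ^ 2 + 1) / q + 1) *
      (2 * (2 * q) * (2 * K * X * (2 * K * H / X ^ 3)) + 1) * (K + 1) *
        (1 + 16 * q ^ 2 * (2 * K * H / X ^ 3) / X))
      ≤ (2 * q ^ 2) * (((2 * K ^ 2 + 6) * (X ^ 2 / q)) * ((80 * K ^ 2 + 1) * H) * (K + 1) *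
        ((800 * K + 1) * H)) := by
        refine mul_le_mul_of_nonneg_left ?_ (by positivity)
        refine mul_le_mul ?_ h3 hb3 (by positivity)
        refine mul_le_mul_of_nonneg_right ?_ hK1
        exact mul_le_mul h1 h2 hb2 hc1
    _ = _ := by
        field_simp

/-- number of close pairs.  `X = N^(1/4)`, `1/(2B) ≤ 1/(2 N^(3/4))`; a close pair satisfies
`dist1 (frac p F u - frac p' F u') ≤ 1/(2B) + |β| |F u - F u'| ≤ 2 CA H / N^(3/4) =: Δ`, and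
`card_closeTo` with `K = CA A` applies as `4 K X Δ = 8 K^2 H N^(-1/2) < 1`. -/
theorem card_close {A : ℕ} (hA : 1 ≤ A) : ∃ C : ℝ, 0 < C ∧ ∀ N : ℝ, 2 ≤ N → ∀ Q : ℕ, 1 ≤ Q →
    (Q : ℝ) ≤ 5 * √N → ∀ H : ℝ, 1 ≤ H → 8 * (CA A) ^ 2 * H < √N → ∀ β : ℝ, |β| ≤ H / N →
    ∀ B : ℕ, N ^ (3 / 4 : ℝ) ≤ B →
    ((closePairs (farey Q ×ˢ passF A (N ^ (1 / 4 : ℝ)))
        (fun z => (frac z.1 + β) * (F z.2 : ℝ)) (fun z => (frac z.1 + β) * (m12 z.2 : ℝ))
        (1 / (2 * B))).card : ℝ) ≤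
      C * Q * H ^ 2 * √N * ((passF A (N ^ (1 / 4 : ℝ))).card : ℝ) := by
  classical
  have hK2 : 2 ≤ CA A := base3_CA_ge A
  set K := CA A with hK
  refine ⟨2 * ((2 * K ^ 2 + 6) * (80 * K ^ 2 + 1) * (K + 1) * (800 * K + 1)), by positivity, ?_⟩
  intro N hN Q hQ hQN H hH hHN β hβ B hB
  obtain ⟨hX1, hX4, hX2, hX3⟩ := MbF3a_pows hN
  set X := N ^ (1 / 4 : ℝ) with hX
  rw [hX3] at hB
  rw [hX2] at hQN hHN ⊢
  have hX0 : 0 < X := by linarith
  have hB0 : (0 : ℝ) < B := lt_of_lt_of_le (by positivity) hB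
  have hq1 : (1 : ℝ) ≤ Q := by exact_mod_cast hQ
  set P := passF A X with hP
  set J := farey Q ×ˢ P with hJ
  set Δ : ℝ := 2 * K * H / X ^ 3 with hΔ
  have hPb : ∀ u ∈ P, X ≤ (F u : ℝ) ∧ (F u : ℝ) ≤ K * X := fun u hu => passF_bounds hu
  have hηΔ : ∀ d : ℝ, d ≤ K * X → 1 / (2 * (B : ℝ)) + |β| * d ≤ Δ := by
    intro d hd
    have h1 : 1 / (2 * (B : ℝ)) ≤ 1 / (2 * X ^ 3) :=
      one_div_le_one_div_of_le (by positivity) (by linarith)
    have h2 : |β| * d ≤ H / X ^ 4 * (K * X) := by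
      rw [hX4]
      calc |β| * d ≤ |β| * (K * X) := mul_le_mul_of_nonneg_left hd (abs_nonneg _)
        _ ≤ H / N * (K * X) := mul_le_mul_of_nonneg_right hβ (by positivity)
    have h3 : H / X ^ 4 * (K * X) = K * H / X ^ 3 := by
      field_simp
    have h4 : 1 / (2 * X ^ 3) ≤ K * H / X ^ 3 := by
      rw [div_le_div_iff₀ (by positivity) (by positivity)]
      have : 1 ≤ K * H := by nlinarith
      nlinarith [pow_pos hX0 3]
    have h5 : Δ = K * H / X ^ 3 + K * H / X ^ 3 := by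
      rw [hΔ]
      ring
    rw [h5]
    linarith
  set bd : ℝ := ((2 * (K * X) ^ 2 + 1) / (Q : ℝ) + 1) *
      (2 * (2 * (Q : ℝ)) * (2 * K * X * Δ) + 1) * (K + 1) *
        (1 + 16 * (Q : ℝ) ^ 2 * Δ / X) with hbd
  have hΔ0 : 0 ≤ Δ := by positivity
  have hbd0 : 0 ≤ bd := by positivity
  have hΔ1 : 4 * K * X * Δ < 1 := by
    have e1 : 4 * K * X * Δ = 8 * K ^ 2 * H / X ^ 2 := by
      rw [hΔ]
      field_simp
      ring
    rw [e1, div_lt_one (by positivity)]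
    exact hHN
  set S := closePairs J (fun z => (frac z.1 + β) * (F z.2 : ℝ))
    (fun z => (frac z.1 + β) * (m12 z.2 : ℝ)) (1 / (2 * (B : ℝ))) with hS
  have hSb : (S.card : ℝ) ≤ (J.card : ℝ) * bd := by
    refine MbC1_card_fib S J Prod.fst (fun p hp => (mem_closePairs.1 hp).1) hbd0 (le_refl _) ?_
    intro z hz
    obtain ⟨hz1, hz2⟩ := Finset.mem_product.1 hz
    have h1 : (S.filter (fun m => m.1 = z)).card ≤ (closeTo Q P (frac z.1) z.2 Δ).card := by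
      refine Finset.card_le_card_of_injOn Prod.snd ?_ ?_
      · intro p hp
        rw [Finset.mem_coe, Finset.mem_filter, hS, mem_closePairs] at hp
        obtain ⟨⟨h3, h4, h5, h6⟩, h7⟩ := hp
        subst h7
        obtain ⟨h8, h9⟩ := Finset.mem_product.1 h4
        obtain ⟨h10, h11⟩ := Finset.mem_product.1 h3
        have b1 := hPb _ h9
        have b2 := hPb _ h11
        have c1 := Base2_m12_le p.1.2
        have c2 := Base2_m12_le p.2.2
        have c3 : (0 : ℝ) ≤ (m12 p.1.2 : ℝ) := Nat.cast_nonneg _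
        have c4 : (0 : ℝ) ≤ (m12 p.2.2 : ℝ) := Nat.cast_nonneg _
        rw [Finset.mem_coe, mem_closeTo]
        refine ⟨h8, h9, MbF3a_dist h5 (hηΔ _ ?_), MbF3a_dist h6 (hηΔ _ ?_)⟩
        · rw [abs_le]
          constructor <;> linarith
        · rw [abs_le]
          constructor <;> linarith
      · intro p hp p' hp' h
        rw [Finset.mem_coe, Finset.mem_filter] at hp hp'
        exact Prod.ext (hp.2.trans hp'.2.symm) h
    have h2 := card_closeTo hX1 (by linarith : (1 : ℝ) ≤ K) P hPb hz1 hz2 hΔ0 hΔ1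
    calc (((S.filter (fun m => m.1 = z)).card : ℕ) : ℝ)
        ≤ ((closeTo Q P (frac z.1) z.2 Δ).card : ℝ) := by exact_mod_cast h1
      _ ≤ bd := h2
  have hJb : (J.card : ℝ) ≤ 2 * (Q : ℝ) ^ 2 * (P.card : ℝ) := by
    rw [hJ, Finset.card_product]
    push_cast
    exact mul_le_mul_of_nonneg_right (card_farey_le Q) (Nat.cast_nonneg _)
  have hfin := MbF3a_final hK2 hX1 hq1 hQN hH
  calc (S.card : ℝ) ≤ (J.card : ℝ) * bd := hSb
    _ ≤ (2 * (Q : ℝ) ^ 2 * (P.card : ℝ)) * bd := mul_le_mul_of_nonneg_right hJb hbd0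
    _ = ((2 * (Q : ℝ) ^ 2) * bd) * (P.card : ℝ) := by ring
    _ ≤ _ := mul_le_mul_of_nonneg_right hfin (Nat.cast_nonneg _)

end Pool.Agent.W_f50700_h13
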