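import Pool.Agent.W_f50700_h13.MbF3a
import Pool.Agent.W_f50700_h13.MbBil

/-!
MbF3b: mean value of the bilinear form over fractions.
-/

open MeasureTheory

namespace Pool.Agent.W_f50700_h13

open Pool.Agent.W_f50700_h3

theorem MbF3b_unit (z : ℂ) : ∃ ε : ℂ, ‖ε‖ ≤ 1 ∧ ε * z = ((‖z‖ : ℝ) : ℂ) := by
  by_cases hz : z = 0
  · exact ⟨0, by simp, by simp [hz]⟩
  · refine ⟨(starRingEnd ℂ) z / ((‖z‖ : ℝ) : ℂ), ?_, ?_⟩
    · rw [norm_div, Complex.norm_conj, Complex.norm_real, norm_norm,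
        div_self (norm_ne_zero_iff.2 hz)]
    · have h1 : (((‖z‖ : ℝ) : ℂ)) ≠ 0 := by
        exact_mod_cast norm_ne_zero_iff.2 hz
      rw [div_mul_eq_mul_div, div_eq_iff h1, mul_comm, Complex.mul_conj, Complex.normSq_eq_norm_sq]
      push_cast
      ring

/-- duality and Cauchy-Schwarz -/
theorem MbF3b_cauchy {A : ℕ} (N X β : ℝ) (Q : ℕ) : ∃ ε : ℕ × ℕ → ℂ, (∀ p, ‖ε p‖ ≤ 1) ∧
    (∑ p ∈ farey Q, ‖So A N X (frac p + β)‖) ^ 2 ≤ ((wordsF A (N / X)).card : ℝ) *
      ∑ v ∈ wordsF A (N / X), ‖∑ z ∈ farey Q ×ˢ passF A X, ε z.1 *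
        e ((F v : ℝ) * ((frac z.1 + β) * (F z.2 : ℝ)) +
          (m21 v : ℝ) * ((frac z.1 + β) * (m12 z.2 : ℝ)))‖ ^ 2 := by
  choose f hf1 hf2 using MbF3b_unit
  refine ⟨fun p => f (So A N X (frac p + β)), fun p => hf1 _, ?_⟩
  set G : List (Lt A) → ℂ := fun v => ∑ z ∈ farey Q ×ˢ passF A X,
    f (So A N X (frac z.1 + β)) * e ((F v : ℝ) * ((frac z.1 + β) * (F z.2 : ℝ)) +
          (m21 v : ℝ) * ((frac z.1 + β) * (m12 z.2 : ℝ))) with hG
  have h1 : ((∑ p ∈ farey Q, ‖So A N X (frac p + β)‖ : ℝ) : ℂ) = ∑ v ∈ wordsF A (N / X), G v := by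
    push_cast
    simp only [hG]
    rw [Finset.sum_comm, Finset.sum_product]
    refine Finset.sum_congr rfl fun p _ => ?_
    rw [← hf2]
    unfold So
    rw [Finset.mul_sum]
    refine Finset.sum_congr rfl fun u _ => ?_
    rw [Finset.mul_sum]
    refine Finset.sum_congr rfl fun v _ => ?_
    congr 2
    rw [F_append]
    push_cast
    ring
  have h2 : 0 ≤ ∑ p ∈ farey Q, ‖So A N X (frac p + β)‖ :=
    Finset.sum_nonneg fun p _ => norm_nonneg _
  have h3 : ∑ p ∈ farey Q, ‖So A N X (frac p + β)‖ ≤ ∑ v ∈ wordsF A (N / X), ‖G v‖ := by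
    calc ∑ p ∈ farey Q, ‖So A N X (frac p + β)‖
        = ‖((∑ p ∈ farey Q, ‖So A N X (frac p + β)‖ : ℝ) : ℂ)‖ := by
          rw [Complex.norm_real, Real.norm_of_nonneg h2]
      _ = ‖∑ v ∈ wordsF A (N / X), G v‖ := by rw [h1]
      _ ≤ _ := norm_sum_le _ _
  calc (∑ p ∈ farey Q, ‖So A N X (frac p + β)‖) ^ 2
      ≤ (∑ v ∈ wordsF A (N / X), ‖G v‖) ^ 2 := pow_le_pow_left₀ h2 h3 2
    _ ≤ ((wordsF A (N / X)).card : ℝ) * ∑ v ∈ wordsF A (N / X), ‖G v‖ ^ 2 :=
        sq_sum_le_card_mul_sum_sq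

/-- mean value.  If `8 CA^2 H < √N`: the sum `T` is
`sum_v sum_{p,u} ε_p e((frac p + β) (F u F v + m12 u m21 v))` with `|ε_p| = 1`; Cauchy over
`v ∈ wordsF A (N^(3/4))`, `ls_cols` with `B = ⌊N^(3/4)⌋ + 1`, `card_close`:
`T^2 ≤ C N^(3s/4) N^(3/2) Q H^2 √N N^(s/4)`.  Otherwise trivial bound (`norm_So_le`,
`card_farey_le`): `T ≤ C Q^2 N^s ≤ C N^(s/2+1) Q^(1/2) H^(3/2)` as `Q^(3/2) ≤ C N^(3/4)
≤ C H^(3/2)` and `s ≤ 2`. -/
theorem so_mean {A : ℕ} (hA : 2 ≤ A) : ∃ C : ℝ, 0 < C ∧ ∀ N : ℝ, 2 ≤ N → ∀ Q : ℕ, 1 ≤ Q →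
    (Q : ℝ) ≤ 5 * √N → ∀ H : ℝ, 1 ≤ H → ∀ β : ℝ, |β| ≤ H / N →
    ∑ p ∈ farey Q, ‖So A N (N ^ (1 / 4 : ℝ)) (frac p + β)‖ ≤
      C * N ^ (sexp A / 2 + 1) * √Q * H ^ (3 / 2 : ℝ) := by
  have hA1 : 1 ≤ A := by omega
  obtain ⟨C1, hC1, h1⟩ := card_close hA1
  obtain ⟨c2, C2, hc2, hC2, h2⟩ := card_wordsF_bounds hA
  obtain ⟨c3, C3, hc3, hC3, h3⟩ := card_passF_bounds hA1
  have hs2 : sexp A ≤ 2 := sexp_le_two hA1
  have hs0 : 0 ≤ sexp A := sexp_nonneg A
  set s := sexp A with hs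
  have hK2 : 2 ≤ CA A := base3_CA_ge A
  set K := CA A with hK
  set D := 100 * C1 * C2 * C3 with hD
  have hD0 : 0 < D := by positivity
  set E := 2 * C2 * C3 * (40 * K ^ 2) ^ (3 / 2 : ℝ) with hE
  have hE0 : 0 < E := by positivity
  refine ⟨√D + E, by positivity, ?_⟩
  intro N hN Q hQ hQN H hH β hβ
  obtain ⟨hX1, hX4, hX2, hX3⟩ := MbF3a_pows hN
  set X := N ^ (1 / 4 : ℝ) with hX
  have hN0 : 0 < N := by linarith
  have hX0 : 0 < X := by linarith
  have hX1' : 1 < X := by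
    rcases hX1.lt_or_eq with h | h
    · exact h
    · rw [← h] at hX4
      norm_num at hX4
      linarith
  have hNX : N / X = X ^ 3 := by
    rw [← hX4]
    field_simp
  have hq1 : (1 : ℝ) ≤ Q := by exact_mod_cast hQ
  have hq0 : (0 : ℝ) < Q := by linarith
  have hH0 : (0 : ℝ) < H := by linarith
  have hX31 : (1 : ℝ) ≤ X ^ 3 := one_le_pow₀ hX1
  have hV : ((wordsF A (N / X)).card : ℝ) ≤ C2 * (X ^ 3) ^ s := by
    rw [hNX]
    exact (h2 _ hX31).2
  have hP : ((passF A X).card : ℝ) ≤ C3 * X ^ s := (h3 X hX1').2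
  have hVP : (X ^ 3) ^ s * X ^ s = N ^ s := by
    rw [← Real.mul_rpow (by positivity) hX0.le, ← hX4]
    congr 1
  set T := ∑ p ∈ farey Q, ‖So A N X (frac p + β)‖ with hT
  have hT0 : 0 ≤ T := Finset.sum_nonneg fun p _ => norm_nonneg _
  set R := N ^ (s / 2 + 1) * √Q * H ^ (3 / 2 : ℝ) with hR
  have hR0 : 0 < R := by positivity
  have hNs : N ^ (s / 2 + 1) = N ^ (s / 2) * N := by
    rw [Real.rpow_add hN0, Real.rpow_one]
  have hNss : N ^ s = N ^ (s / 2) * N ^ (s / 2) := by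
    rw [← Real.rpow_add hN0, add_halves]
  have hgoal : T ≤ (√D + E) * R := by
    by_cases hcase : 8 * K ^ 2 * H < √N
    · -- the main case
      obtain ⟨ε, hε, hT2⟩ := MbF3b_cauchy (A := A) N X β Q
      set B := ⌊X ^ 3⌋₊ + 1 with hB
      have hB1 : 1 ≤ B := by omega
      have hBX : X ^ 3 ≤ (B : ℝ) := by
        rw [hB]
        push_cast
        exact (Nat.lt_floor_add_one _).le
      have hBX' : (B : ℝ) ≤ 2 * X ^ 3 := by
        rw [hB]
        push_cast
        have := Nat.floor_le (by positivity : (0 : ℝ) ≤ X ^ 3)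
        linarith
      have hBv : ∀ v ∈ wordsF A (N / X), F v < B := by
        intro v hv
        rw [mem_wordsF, hNX] at hv
        rw [hB, Nat.lt_succ_iff]
        exact Nat.le_floor hv
      have h5 := ls_cols (wordsF A (N / X)) hBv hB1 (farey Q ×ˢ passF A X) (fun z => ε z.1)
        (fun z _ => hε z.1) (fun z => (frac z.1 + β) * (F z.2 : ℝ))
        (fun z => (frac z.1 + β) * (m12 z.2 : ℝ))
      have h6 := h1 N hN Q hQ hQN H hH hcase β hβ B (by rw [hX3]; exact hBX)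
      rw [hX2] at h6
      set cp : ℝ := ((closePairs (farey Q ×ˢ passF A X)
        (fun z => (frac z.1 + β) * (F z.2 : ℝ)) (fun z => (frac z.1 + β) * (m12 z.2 : ℝ))
        (1 / (2 * (B : ℝ)))).card : ℝ) with hcp
      have hcp0 : 0 ≤ cp := Nat.cast_nonneg _
      have h7 : T ^ 2 ≤ D * R ^ 2 := by
        calc T ^ 2 ≤ ((wordsF A (N / X)).card : ℝ) * (25 * (B : ℝ) ^ 2 * cp) := by
              refine hT2.trans (mul_le_mul_of_nonneg_left ?_ (Nat.cast_nonneg _))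
              exact h5
          _ ≤ (C2 * (X ^ 3) ^ s) * (25 * (2 * X ^ 3) ^ 2 *
                (C1 * Q * H ^ 2 * X ^ 2 * (C3 * X ^ s))) := by
              refine mul_le_mul hV ?_ (by positivity) (by positivity)
              refine mul_le_mul ?_ ?_ hcp0 (by positivity)
              · have := pow_le_pow_left₀ (Nat.cast_nonneg B) hBX' 2
                linarith
              · refine h6.trans ?_
                exact mul_le_mul_of_nonneg_left hP (by positivity)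
          _ = D * (((X ^ 3) ^ s * X ^ s) * (X ^ 4) ^ 2 * Q * H ^ 2) := by
              rw [hD]
              ring
          _ = D * (N ^ s * N ^ 2 * Q * H ^ 2) := by rw [hVP, hX4]
          _ ≤ D * R ^ 2 := by
              refine mul_le_mul_of_nonneg_left ?_ hD0.le
              have e1 : R ^ 2 = N ^ s * N ^ 2 * Q * H ^ 3 := by
                rw [hR, mul_pow, mul_pow, hNs, Real.sq_sqrt hq0.le, mul_pow, hNss]
                have e2 : (H ^ (3 / 2 : ℝ)) ^ 2 = H ^ 3 := by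
                  rw [← Real.rpow_natCast, ← Real.rpow_mul hH0.le]
                  norm_num
                rw [e2]
                ring
              rw [e1]
              have e3 : H ^ 2 ≤ H ^ 3 := pow_le_pow_right₀ hH (by norm_num)
              exact mul_le_mul_of_nonneg_left e3 (by positivity)
      have h8 : T ≤ √D * R := by
        have e1 : √(D * R ^ 2) = √D * R := by
          rw [Real.sqrt_mul hD0.le, Real.sqrt_sq hR0.le]
        rw [← e1]
        exact Real.le_sqrt_of_sq_le h7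
      have h9 : 0 ≤ E * R := by positivity
      linarith
    · -- trivial bound
      rw [not_lt] at hcase
      have h5 : T ≤ 2 * (Q : ℝ) ^ 2 * (C3 * X ^ s * (C2 * (X ^ 3) ^ s)) := by
        calc T ≤ ∑ p ∈ farey Q, ((passF A X).card : ℝ) * ((wordsF A (N / X)).card : ℝ) :=
              Finset.sum_le_sum fun p _ => norm_So_le A N X _
          _ = ((farey Q).card : ℝ) * (((passF A X).card : ℝ) * ((wordsF A (N / X)).card : ℝ)) := by
              rw [Finset.sum_const, nsmul_eq_mul]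
          _ ≤ _ := by
              refine mul_le_mul (card_farey_le Q) ?_ (by positivity) (by positivity)
              exact mul_le_mul hP hV (by positivity) (by positivity)
      have h6 : 2 * (Q : ℝ) ^ 2 * (C3 * X ^ s * (C2 * (X ^ 3) ^ s)) =
          2 * C2 * C3 * ((Q : ℝ) ^ 2 * N ^ s) := by
        rw [← hVP]
        ring
      rw [h6] at h5
      have h7 : (Q : ℝ) ^ 2 = √Q * (Q : ℝ) ^ (3 / 2 : ℝ) := by
        rw [Real.sqrt_eq_rpow, ← Real.rpow_add hq0, ← Real.rpow_natCast]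
        norm_num
      have h8 : (Q : ℝ) ^ (3 / 2 : ℝ) ≤ (40 * K ^ 2) ^ (3 / 2 : ℝ) * H ^ (3 / 2 : ℝ) := by
        rw [← Real.mul_rpow (by positivity) hH0.le]
        refine Real.rpow_le_rpow hq0.le ?_ (by norm_num)
        calc (Q : ℝ) ≤ 5 * √N := hQN
          _ ≤ 5 * (8 * K ^ 2 * H) := by linarith
          _ = 40 * K ^ 2 * H := by ring
      have h9 : N ^ s ≤ N ^ (s / 2 + 1) :=
        Real.rpow_le_rpow_of_exponent_le (by linarith) (by linarith)
      have h10 : (Q : ℝ) ^ 2 * N ^ s ≤ (40 * K ^ 2) ^ (3 / 2 : ℝ) * R := by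
        rw [h7, hR]
        calc √Q * (Q : ℝ) ^ (3 / 2 : ℝ) * N ^ s
            ≤ √Q * ((40 * K ^ 2) ^ (3 / 2 : ℝ) * H ^ (3 / 2 : ℝ)) * N ^ (s / 2 + 1) := by
              refine mul_le_mul ?_ h9 (by positivity) (by positivity)
              exact mul_le_mul_of_nonneg_left h8 (by positivity)
          _ = _ := by ring
      calc T ≤ 2 * C2 * C3 * ((Q : ℝ) ^ 2 * N ^ s) := h5
        _ ≤ 2 * C2 * C3 * ((40 * K ^ 2) ^ (3 / 2 : ℝ) * R) :=
            mul_le_mul_of_nonneg_left h10 (by positivity)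
        _ = E * R := by rw [hE]; ring
        _ ≤ (√D + E) * R := by
            have : 0 ≤ √D * R := by positivity
            linarith
  calc T ≤ (√D + E) * R := hgoal
    _ = _ := by rw [hR]; ring

end Pool.Agent.W_f50700_h13
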