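import Pool.Agent.W_f50700_h13.Mb0

/-!
MbK1: the Fejer kernel and its square (`kern 2 n`).
-/

open Complex MeasureTheory

namespace Pool.Agent.W_f50700_h13

open Pool.Agent.W_f50700_h3

theorem fej_nonneg (n : ℕ) (t : ℝ) : 0 ≤ fej n t := by
  unfold fej; positivity

theorem fej_le (n : ℕ) (t : ℝ) : fej n t ≤ n := by
  unfold fej
  rcases Nat.eq_zero_or_pos n with rfl | hn
  · simp
  have hn' : (0 : ℝ) < n := by exact_mod_cast hn
  rw [div_le_iff₀ hn']
  have h1 : ‖∑ j ∈ Finset.range n, e ((j : ℝ) * t)‖ ≤ n := by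
    calc ‖∑ j ∈ Finset.range n, e ((j : ℝ) * t)‖
        ≤ ∑ j ∈ Finset.range n, ‖e ((j : ℝ) * t)‖ := norm_sum_le _ _
      _ = n := by simp [norm_e]
  nlinarith [norm_nonneg (∑ j ∈ Finset.range n, e ((j : ℝ) * t))]

/-- from `norm_geom_le` -/
theorem fej_le_inv {n : ℕ} (hn : 1 ≤ n) {t : ℝ} (ht : 0 < dist1 t) :
    fej n t ≤ 1 / (4 * n * dist1 t ^ 2) := by
  unfold fej
  have hn' : (0 : ℝ) < n := by exact_mod_cast hn
  have h := norm_geom_le n ht
  have h2 : ‖∑ j ∈ Finset.range n, e ((j : ℝ) * t)‖ ^ 2 ≤ (1 / (2 * dist1 t)) ^ 2 :=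
    pow_le_pow_left₀ (norm_nonneg _) h 2
  calc ‖∑ j ∈ Finset.range n, e ((j : ℝ) * t)‖ ^ 2 / n ≤ (1 / (2 * dist1 t)) ^ 2 / n :=
        div_le_div_of_nonneg_right h2 hn'.le
    _ = 1 / (4 * n * dist1 t ^ 2) := by field_simp; norm_num

theorem kern_nonneg (k n : ℕ) (t : ℝ) : 0 ≤ kern k n t := by
  unfold kern
  have := fej_nonneg n t
  positivity

theorem continuous_fej (n : ℕ) : Continuous (fej n) := by
  unfold fej
  apply Continuous.div_const
  apply Continuous.pow
  apply Continuous.norm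
  apply continuous_finsetSum
  intro j _
  exact continuous_e.comp (by fun_prop)

theorem continuous_kern (k n : ℕ) : Continuous (kern k n) := by
  unfold kern
  exact ((continuous_fej n).pow k).div_const _

theorem fej_periodic (n : ℕ) : Function.Periodic (fej n) 1 := by
  intro t
  unfold fej
  congr 2
  congr 1
  apply Finset.sum_congr rfl
  intro j _
  have : (j : ℝ) * (t + 1) = (j : ℝ) * t + ((j : ℤ) : ℝ) := by push_cast; ring
  rw [this, e_add_int]

theorem kern_periodic (k n : ℕ) : Function.Periodic (kern k n) 1 := by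
  intro t
  unfold kern
  rw [fej_periodic n t]

theorem fej_neg (n : ℕ) (t : ℝ) : fej n (-t) = fej n t := by
  unfold fej
  congr 2
  have : ∑ j ∈ Finset.range n, e ((j : ℝ) * (-t)) =
      (starRingEnd ℂ) (∑ j ∈ Finset.range n, e ((j : ℝ) * t)) := by
    rw [map_sum]
    apply Finset.sum_congr rfl
    intro j _
    rw [← e_neg]
    congr 1; ring
  rw [this]
  exact Complex.norm_conj _

theorem kern_neg (k n : ℕ) (t : ℝ) : kern k n (-t) = kern k n t := by
  unfold kern
  rw [fej_neg]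

/-- the triangle weights of the Fejer kernel -/
noncomputable def tri (n : ℕ) (i : ℤ) : ℝ := max 0 (1 - |(i : ℝ)| / n)

theorem MbK1_tri_mul {n : ℕ} (hn : 1 ≤ n) (i : ℤ) :
    (n : ℝ) * tri n i = (((Finset.range n ×ˢ Finset.range n).filter
      (fun p : ℕ × ℕ => (p.1 : ℤ) - p.2 = i)).card : ℝ) := by
  have hn' : (0 : ℝ) < n := by exact_mod_cast hn
  unfold tri
  rcases le_or_gt (n : ℤ) |i| with h | h
  · have h1 : (n : ℝ) ≤ |(i : ℝ)| := by exact_mod_cast h
    have h2 : 1 - |(i : ℝ)| / n ≤ 0 := by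
      rw [sub_nonpos, le_div_iff₀ hn']; linarith
    rw [max_eq_left h2, mul_zero]
    symm
    rw [Nat.cast_eq_zero, Finset.card_eq_zero]
    apply Finset.filter_eq_empty_iff.mpr
    rintro ⟨a, b⟩ hab
    rw [Finset.mem_product, Finset.mem_range, Finset.mem_range] at hab
    simp only at hab ⊢
    intro hi
    have : |i| < n := by rw [abs_lt]; omega
    omega
  · have h1 : |(i : ℝ)| < n := by exact_mod_cast h
    have h2 : 0 ≤ 1 - |(i : ℝ)| / n := by
      rw [sub_nonneg, div_le_one hn']; exact h1.le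
    rw [max_eq_right h2]
    have h3 : (n : ℝ) * (1 - |(i : ℝ)| / n) = ((n - i.natAbs : ℕ) : ℝ) := by
      have h4 : i.natAbs ≤ n := by
        rw [Int.abs_eq_natAbs] at h
        omega
      rw [Nat.cast_sub h4, Nat.cast_natAbs]
      push_cast
      field_simp
    rw [h3]
    congr 1
    symm
    rcases le_total 0 i with hi | hi
    · rw [← Finset.card_range (n - i.natAbs)]
      apply Finset.card_bij' (fun p _ => p.2) (fun b _ => (b + i.natAbs, b))
      · rintro ⟨a, b⟩ hab
        rw [Finset.mem_filter, Finset.mem_product, Finset.mem_range, Finset.mem_range] at hab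
        simp only at hab ⊢
        rw [Finset.mem_range]; omega
      · intro b hb
        rw [Finset.mem_range] at hb
        rw [Finset.mem_filter, Finset.mem_product, Finset.mem_range, Finset.mem_range]
        simp only
        omega
      · rintro ⟨a, b⟩ hab
        rw [Finset.mem_filter, Finset.mem_product, Finset.mem_range, Finset.mem_range] at hab
        simp only at hab ⊢
        rw [Prod.mk.injEq]
        omega
      · intro b _; rfl
    · rw [← Finset.card_range (n - i.natAbs)]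
      apply Finset.card_bij' (fun p _ => p.1) (fun b _ => (b, b + i.natAbs))
      · rintro ⟨a, b⟩ hab
        rw [Finset.mem_filter, Finset.mem_product, Finset.mem_range, Finset.mem_range] at hab
        simp only at hab ⊢
        rw [Finset.mem_range]; omega
      · intro b hb
        rw [Finset.mem_range] at hb
        rw [Finset.mem_filter, Finset.mem_product, Finset.mem_range, Finset.mem_range]
        simp only
        omega
      · rintro ⟨a, b⟩ hab
        rw [Finset.mem_filter, Finset.mem_product, Finset.mem_range, Finset.mem_range] at hab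
        simp only at hab ⊢
        rw [Prod.mk.injEq]
        omega
      · intro b _; rfl

/-- fibration of a double sum over differences -/
theorem MbK1_sum_fib {n : ℕ} (hn : 1 ≤ n) (g : ℤ → ℂ) :
    ∑ p ∈ Finset.range n ×ˢ Finset.range n, g ((p.1 : ℤ) - p.2) =
      (n : ℂ) * ∑ i ∈ Finset.Icc (-(n : ℤ)) n, (tri n i : ℂ) * g i := by
  have h1 : ∀ p ∈ Finset.range n ×ˢ Finset.range n,
      ((p.1 : ℤ) - p.2) ∈ Finset.Icc (-(n : ℤ)) n := by
    rintro ⟨a, b⟩ hab
    rw [Finset.mem_product, Finset.mem_range, Finset.mem_range] at hab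
    simp only at hab ⊢
    rw [Finset.mem_Icc]; omega
  rw [← Finset.sum_fiberwise_of_maps_to h1, Finset.mul_sum]
  apply Finset.sum_congr rfl
  intro i _
  rw [← mul_assoc]
  have h2 : ((n : ℂ) * (tri n i : ℂ)) = (((Finset.range n ×ˢ Finset.range n).filter
      (fun p : ℕ × ℕ => (p.1 : ℤ) - p.2 = i)).card : ℂ) := by
    have := MbK1_tri_mul hn i
    exact_mod_cast congrArg (fun x : ℝ => (x : ℂ)) this
  rw [h2, ← nsmul_eq_mul, ← Finset.sum_const]
  apply Finset.sum_congr rfl
  intro p hp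
  rw [(Finset.mem_filter.mp hp).2]

/-- `fej n t = sum_{|i| < n} (1 - |i|/n) e(i t)` -/
theorem fej_eq {n : ℕ} (hn : 1 ≤ n) (t : ℝ) :
    (fej n t : ℂ) = ∑ i ∈ Finset.Icc (-(n : ℤ)) n, (tri n i : ℂ) * e ((i : ℝ) * t) := by
  have hn' : (n : ℂ) ≠ 0 := by
    have : n ≠ 0 := by omega
    exact_mod_cast this
  have h1 := MbK1_sum_fib hn (fun i => e ((i : ℝ) * t))
  have h2 : ∑ p ∈ Finset.range n ×ˢ Finset.range n, e ((((p.1 : ℤ) - p.2 : ℤ) : ℝ) * t) =
      ((‖∑ j ∈ Finset.range n, e ((j : ℝ) * t)‖ ^ 2 : ℝ) : ℂ) := by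
    rw [Finset.sum_product]
    push_cast
    rw [← Complex.mul_conj', map_sum, Finset.sum_mul_sum]
    apply Finset.sum_congr rfl
    intro a _
    apply Finset.sum_congr rfl
    intro b _
    rw [sub_mul, e_sub]
  unfold fej
  push_cast
  push_cast at h2
  rw [← h2]
  have h3 : ∑ p ∈ Finset.range n ×ˢ Finset.range n, e (((p.1 : ℝ) - p.2) * t) =
    ∑ p ∈ Finset.range n ×ˢ Finset.range n, e ((((p.1 : ℤ) - p.2 : ℤ) : ℝ) * t) := by
    apply Finset.sum_congr rfl
    intro p _
    push_cast; rfl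
  rw [h3, h1, mul_div_cancel_left₀ _ hn']

theorem sum_tri {n : ℕ} (hn : 1 ≤ n) : ∑ i ∈ Finset.Icc (-(n : ℤ)) n, tri n i = n := by
  have h1 := MbK1_sum_fib hn (fun _ => 1)
  have hn' : (n : ℂ) ≠ 0 := by
    have : n ≠ 0 := by omega
    exact_mod_cast this
  simp only [Finset.sum_const, Finset.card_product, Finset.card_range, nsmul_eq_mul, mul_one] at h1
  push_cast at h1
  have h2 : (n : ℂ) = ∑ i ∈ Finset.Icc (-(n : ℤ)) n, (tri n i : ℂ) := mul_left_cancel₀ hn' h1
  have h3 : ((n : ℝ) : ℂ) = ((∑ i ∈ Finset.Icc (-(n : ℤ)) n, tri n i : ℝ) : ℂ) := by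
    push_cast; exact h2
  exact (Complex.ofReal_injective h3).symm

/-- `kern 2 n t (1 + 2 n dist1 t)^4 ≤ 16 n`: `kern ≤ n`, `kern ≤ n / (2 n dist1 t)^4` -/
theorem kern2_le {n : ℕ} (hn : 1 ≤ n) (t : ℝ) :
    kern 2 n t * (1 + 2 * n * dist1 t) ^ 4 ≤ 16 * n := by
  have hn' : (0 : ℝ) < n := by exact_mod_cast hn
  have hk : kern 2 n t = fej n t ^ 2 / n := by
    unfold kern; norm_num
  have hf0 := fej_nonneg n t
  have hd0 := dist1_nonneg t
  rcases le_or_gt (2 * n * dist1 t) 1 with h | h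
  · have h1 : kern 2 n t ≤ n := by
      rw [hk, div_le_iff₀ hn']
      have := fej_le n t
      nlinarith
    have h2 : (1 + 2 * n * dist1 t) ^ 4 ≤ 16 := by
      calc (1 + 2 * n * dist1 t) ^ 4 ≤ 2 ^ 4 :=
            pow_le_pow_left₀ (by positivity) (by linarith) 4
        _ = 16 := by norm_num
    calc kern 2 n t * (1 + 2 * n * dist1 t) ^ 4 ≤ n * 16 :=
          mul_le_mul h1 h2 (by positivity) hn'.le
      _ = _ := by ring
  · have hd : 0 < dist1 t := by
      by_contra hc
      have : dist1 t = 0 := le_antisymm (not_lt.mp hc) hd0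
      rw [this] at h; simp at h; linarith
    have h1 := fej_le_inv hn hd
    set y := 2 * n * dist1 t with hy
    have h2 : fej n t ≤ n / y ^ 2 := by
      calc fej n t ≤ 1 / (4 * n * dist1 t ^ 2) := h1
        _ = n / y ^ 2 := by rw [hy]; field_simp; norm_num
    have hy0 : 0 < y := by linarith
    have h3 : kern 2 n t ≤ n / y ^ 4 := by
      rw [hk, div_le_iff₀ hn']
      calc fej n t ^ 2 ≤ (n / y ^ 2) ^ 2 := pow_le_pow_left₀ hf0 h2 2
        _ = n / y ^ 4 * n := by field_simp
    have h4 : (1 + y) ^ 4 ≤ 16 * y ^ 4 := by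
      calc (1 + y) ^ 4 ≤ (2 * y) ^ 4 := pow_le_pow_left₀ (by positivity) (by linarith) 4
        _ = 16 * y ^ 4 := by ring
    calc kern 2 n t * (1 + y) ^ 4 ≤ n / y ^ 4 * (16 * y ^ 4) :=
          mul_le_mul h3 h4 (by positivity) (by positivity)
      _ = 16 * n := by field_simp

end Pool.Agent.W_f50700_h13
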