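import Pool.Agent.W_f50700_h13.MbK1

/-!
MbK2: the weights `wt 2 n j`.
-/

open Complex MeasureTheory

namespace Pool.Agent.W_f50700_h13

open Pool.Agent.W_f50700_h3

theorem MbK2_tri_nonneg (n : ℕ) (i : ℤ) : 0 ≤ tri n i := le_max_left _ _

theorem MbK2_tri_zero {n : ℕ} (hn : 1 ≤ n) {i : ℤ} (hi : (n : ℤ) ≤ |i|) : tri n i = 0 := by
  have hn' : (0 : ℝ) < n := by exact_mod_cast hn
  unfold tri
  have h1 : (n : ℝ) ≤ |(i : ℝ)| := by exact_mod_cast hi
  exact max_eq_left (by rw [sub_nonpos, le_div_iff₀ hn']; linarith)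

theorem MbK2_tri_le_one (n : ℕ) (i : ℤ) : tri n i ≤ 1 := by
  unfold tri
  apply max_le (by norm_num)
  have : 0 ≤ |(i : ℝ)| / n := by positivity
  linarith

theorem MbK2_tri_lip {n : ℕ} (hn : 1 ≤ n) (i l : ℤ) :
    |tri n i - tri n l| ≤ |(i : ℝ) - l| / n := by
  have hn' : (0 : ℝ) < n := by exact_mod_cast hn
  unfold tri
  have h1 : |max 0 (1 - |(i : ℝ)| / n) - max 0 (1 - |(l : ℝ)| / n)| ≤
      |(1 - |(i : ℝ)| / n) - (1 - |(l : ℝ)| / n)| := by
    rw [max_comm 0, max_comm 0]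
    exact abs_max_sub_max_le_abs _ _ _
  have h2 : (1 - |(i : ℝ)| / n) - (1 - |(l : ℝ)| / n) = (|(l : ℝ)| - |(i : ℝ)|) / n := by ring
  rw [h2, abs_div, abs_of_pos hn'] at h1
  refine h1.trans ?_
  apply div_le_div_of_nonneg_right _ hn'.le
  rw [abs_sub_comm (i : ℝ) l]
  exact abs_abs_sub_abs_le_abs_sub _ _

/-- explicit formula: `fej_eq` squared, divided by `n`, and `integral_e_int` -/
theorem wt2_int {n : ℕ} (hn : 1 ≤ n) (j : ℤ) :
    (∫ t in (0 : ℝ)..1, (kern 2 n t : ℂ) * e (-((j : ℝ) * t))) =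
      (((1 / n) * ∑ i ∈ Finset.Icc (-(n : ℤ)) n, tri n i * tri n (j - i) : ℝ) : ℂ) := by
  have h1 : ∀ t : ℝ, (kern 2 n t : ℂ) * e (-((j : ℝ) * t)) =
      ∑ i ∈ Finset.Icc (-(n : ℤ)) n, ∑ l ∈ Finset.Icc (-(n : ℤ)) n,
        (1 / (n : ℂ)) * ((tri n i : ℂ) * (tri n l : ℂ)) * e (((i + l - j : ℤ) : ℝ) * t) := by
    intro t
    have hk : (kern 2 n t : ℂ) = (1 / (n : ℂ)) * ((fej n t : ℂ) * (fej n t : ℂ)) := by
      unfold kern
      push_cast
      ring
    rw [hk, fej_eq hn, Finset.sum_mul_sum, Finset.mul_sum, Finset.sum_mul]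
    apply Finset.sum_congr rfl
    intro i _
    rw [Finset.mul_sum, Finset.sum_mul]
    apply Finset.sum_congr rfl
    intro l _
    have : e (((i + l - j : ℤ) : ℝ) * t) =
        e ((i : ℝ) * t) * e ((l : ℝ) * t) * e (-((j : ℝ) * t)) := by
      rw [← e_add, ← e_add]; push_cast; congr 1; ring
    rw [this]; ring
  simp_rw [h1]
  have hint : ∀ k : ℤ, ∀ c : ℂ, IntervalIntegrable (fun t : ℝ => c * e ((k : ℝ) * t))
      volume 0 1 := by
    intro k c
    apply Continuous.intervalIntegrable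
    exact continuous_const.mul (continuous_e.comp (by fun_prop))
  rw [intervalIntegral.integral_finsetSum]
  · have h2 : ∀ i ∈ Finset.Icc (-(n : ℤ)) n,
        (∫ t in (0 : ℝ)..1, ∑ l ∈ Finset.Icc (-(n : ℤ)) n,
          (1 / (n : ℂ)) * ((tri n i : ℂ) * (tri n l : ℂ)) * e (((i + l - j : ℤ) : ℝ) * t)) =
        (1 / (n : ℂ)) * ((tri n i : ℂ) * (tri n (j - i) : ℂ)) := by
      intro i _
      rw [intervalIntegral.integral_finsetSum]
      · have h3 : ∀ l ∈ Finset.Icc (-(n : ℤ)) n,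
            (∫ t in (0 : ℝ)..1, (1 / (n : ℂ)) * ((tri n i : ℂ) * (tri n l : ℂ)) *
              e (((i + l - j : ℤ) : ℝ) * t)) =
            if l = j - i then (1 / (n : ℂ)) * ((tri n i : ℂ) * (tri n (j - i) : ℂ)) else 0 := by
          intro l _
          rw [intervalIntegral.integral_const_mul, integral_e_int]
          by_cases hl : l = j - i
          · rw [if_pos hl, if_pos (by omega), hl, mul_one]
          · rw [if_neg hl, if_neg (by omega), mul_zero]
        rw [Finset.sum_congr rfl h3, Finset.sum_ite_eq']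
        split_ifs with h4
        · rfl
        · have h5 : tri n (j - i) = 0 := by
            apply MbK2_tri_zero hn
            rw [Finset.mem_Icc, not_and_or] at h4
            rcases h4 with h4 | h4
            · rw [abs_of_nonpos (by omega)]; omega
            · exact le_trans (by omega) (le_abs_self _)
          rw [h5]; simp
      · intro l _
        exact hint _ _
    rw [Finset.sum_congr rfl h2]
    push_cast
    rw [Finset.mul_sum]
  · intro i _
    apply Continuous.intervalIntegrable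
    apply continuous_finsetSum
    intro l _
    exact continuous_const.mul (continuous_e.comp (by fun_prop))

theorem wt2_eq {n : ℕ} (hn : 1 ≤ n) (j : ℤ) :
    wt 2 n j = (1 / n) * ∑ i ∈ Finset.Icc (-(n : ℤ)) n, tri n i * tri n (j - i) := by
  unfold wt
  rw [wt2_int hn j, Complex.ofReal_re]

theorem ofReal_wt2 {n : ℕ} (hn : 1 ≤ n) (j : ℤ) :
    (wt 2 n j : ℂ) = ∫ t in (0 : ℝ)..1, (kern 2 n t : ℂ) * e (-((j : ℝ) * t)) := by
  rw [wt2_int hn j, wt2_eq hn j]

/-- `int_0^1 kern(t) e(j (θ - t)) dt = wt(j) e(j θ)` -/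
theorem int_kern_e {n : ℕ} (hn : 1 ≤ n) (j : ℤ) (θ : ℝ) :
    (∫ t in (0 : ℝ)..1, (kern 2 n t : ℂ) * e ((θ - t) * (j : ℝ))) =
      (wt 2 n j : ℂ) * e (θ * (j : ℝ)) := by
  rw [ofReal_wt2 hn, ← intervalIntegral.integral_mul_const]
  congr 1
  ext t
  rw [mul_assoc, ← e_add]
  congr 2; ring

theorem wt2_nonneg {n : ℕ} (hn : 1 ≤ n) (j : ℤ) : 0 ≤ wt 2 n j := by
  rw [wt2_eq hn]
  apply mul_nonneg (by positivity)
  apply Finset.sum_nonneg
  intro i _
  exact mul_nonneg (MbK2_tri_nonneg n i) (MbK2_tri_nonneg n _)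

theorem wt2_le_one {n : ℕ} (hn : 1 ≤ n) (j : ℤ) : wt 2 n j ≤ 1 := by
  have hn' : (0 : ℝ) < n := by exact_mod_cast hn
  rw [wt2_eq hn]
  have h1 : ∑ i ∈ Finset.Icc (-(n : ℤ)) n, tri n i * tri n (j - i) ≤
      ∑ i ∈ Finset.Icc (-(n : ℤ)) n, tri n i := by
    apply Finset.sum_le_sum
    intro i _
    exact mul_le_of_le_one_right (MbK2_tri_nonneg n i) (MbK2_tri_le_one n _)
  rw [sum_tri hn] at h1
  calc (1 / (n : ℝ)) * ∑ i ∈ Finset.Icc (-(n : ℤ)) n, tri n i * tri n (j - i)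
      ≤ (1 / (n : ℝ)) * n := mul_le_mul_of_nonneg_left h1 (by positivity)
    _ = 1 := by field_simp

theorem wt2_eq_zero {n : ℕ} (hn : 1 ≤ n) {j : ℤ} (hj : 2 * (n : ℤ) ≤ |j|) : wt 2 n j = 0 := by
  rw [wt2_eq hn]
  have h1 : ∑ i ∈ Finset.Icc (-(n : ℤ)) n, tri n i * tri n (j - i) = 0 := by
    apply Finset.sum_eq_zero
    intro i _
    rcases le_or_gt (n : ℤ) |i| with h | h
    · rw [MbK2_tri_zero hn h, zero_mul]
    · have h2 : (n : ℤ) ≤ |j - i| := by
        have := abs_sub_abs_le_abs_sub j i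
        omega
      rw [MbK2_tri_zero hn h2, mul_zero]
  rw [h1, mul_zero]

theorem MbK2_tri_neg (n : ℕ) (i : ℤ) : tri n (-i) = tri n i := by
  unfold tri
  push_cast
  rw [abs_neg]

theorem wt2_neg {n : ℕ} (hn : 1 ≤ n) (j : ℤ) : wt 2 n (-j) = wt 2 n j := by
  rw [wt2_eq hn, wt2_eq hn]
  congr 1
  refine Finset.sum_bij' (fun i _ => -i) (fun i _ => -i) ?_ ?_ ?_ ?_ ?_
  · intro i hi; rw [Finset.mem_Icc] at hi ⊢; omega
  · intro i hi; rw [Finset.mem_Icc] at hi ⊢; omega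
  · intro i _; simp
  · intro i _; simp
  · intro i _
    rw [MbK2_tri_neg, show -j - i = -(j - -i) by ring, MbK2_tri_neg]

/-- Lipschitz constant `1/n`: `tri n` is `1/n`-Lipschitz and `sum_tri` -/
theorem wt2_lip {n : ℕ} (hn : 1 ≤ n) (j l : ℤ) :
    |wt 2 n j - wt 2 n l| ≤ |(j : ℝ) - l| / n := by
  have hn' : (0 : ℝ) < n := by exact_mod_cast hn
  rw [wt2_eq hn, wt2_eq hn, ← mul_sub, ← Finset.sum_sub_distrib, abs_mul,
    abs_of_nonneg (by positivity : (0 : ℝ) ≤ 1 / n)]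
  have h1 : |∑ i ∈ Finset.Icc (-(n : ℤ)) n,
      (tri n i * tri n (j - i) - tri n i * tri n (l - i))| ≤
      ∑ i ∈ Finset.Icc (-(n : ℤ)) n, tri n i * (|(j : ℝ) - l| / n) := by
    apply (Finset.abs_sum_le_sum_abs _ _).trans
    apply Finset.sum_le_sum
    intro i _
    rw [← mul_sub, abs_mul, abs_of_nonneg (MbK2_tri_nonneg n i)]
    apply mul_le_mul_of_nonneg_left _ (MbK2_tri_nonneg n i)
    have := MbK2_tri_lip hn (j - i) (l - i)
    push_cast at this
    rwa [show (j : ℝ) - i - (l - i) = j - l by ring] at this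
  rw [← Finset.sum_mul, sum_tri hn] at h1
  calc 1 / (n : ℝ) * |∑ i ∈ Finset.Icc (-(n : ℤ)) n,
      (tri n i * tri n (j - i) - tri n i * tri n (l - i))|
      ≤ 1 / (n : ℝ) * (n * (|(j : ℝ) - l| / n)) := mul_le_mul_of_nonneg_left h1 (by positivity)
    _ = |(j : ℝ) - l| / n := by field_simp

/-- `wt 2 n 0 ≥ 1/2`: Cauchy, `n^2 = (sum tri)^2 ≤ (2n-1) sum tri^2` -/
theorem wt2_zero_ge {n : ℕ} (hn : 1 ≤ n) : 1 / 2 ≤ wt 2 n 0 := by
  have hn' : (0 : ℝ) < n := by exact_mod_cast hn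
  rw [wt2_eq hn]
  have h1 : ∑ i ∈ Finset.Icc (-(n : ℤ)) n, tri n i * tri n (0 - i) =
      ∑ i ∈ Finset.Ioo (-(n : ℤ)) n, tri n i ^ 2 := by
    symm
    rw [← Finset.sum_subset (Finset.Ioo_subset_Icc_self)]
    · apply Finset.sum_congr rfl
      intro i _
      rw [zero_sub, MbK2_tri_neg]; ring
    · intro i hi hi'
      have : tri n i = 0 := by
        apply MbK2_tri_zero hn
        rw [Finset.mem_Icc] at hi
        rw [Finset.mem_Ioo, not_and_or] at hi'
        rcases hi' with h | h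
        · rw [abs_of_nonpos (by omega)]; omega
        · exact le_trans (by omega) (le_abs_self _)
      rw [this, zero_mul]
  have h2 : ∑ i ∈ Finset.Ioo (-(n : ℤ)) n, tri n i = n := by
    rw [← sum_tri hn]
    apply Finset.sum_subset (Finset.Ioo_subset_Icc_self)
    intro i hi hi'
    apply MbK2_tri_zero hn
    rw [Finset.mem_Icc] at hi
    rw [Finset.mem_Ioo, not_and_or] at hi'
    rcases hi' with h | h
    · rw [abs_of_nonpos (by omega)]; omega
    · exact le_trans (by omega) (le_abs_self _)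
  have h3 := sq_sum_le_card_mul_sum_sq (s := Finset.Ioo (-(n : ℤ)) n) (f := tri n)
  rw [h2] at h3
  have h4 : ((Finset.Ioo (-(n : ℤ)) n).card : ℝ) ≤ 2 * n := by
    rw [Int.card_Ioo]
    have : (n - -(n : ℤ) - 1).toNat ≤ 2 * n := by omega
    exact_mod_cast this
  rw [h1]
  have h5 : (n : ℝ) ^ 2 ≤ 2 * n * ∑ i ∈ Finset.Ioo (-(n : ℤ)) n, tri n i ^ 2 :=
    h3.trans (mul_le_mul_of_nonneg_right h4 (Finset.sum_nonneg fun i _ => sq_nonneg _))
  rw [one_div_mul_eq_div, le_div_iff₀ hn']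
  nlinarith

/-- lower bound near `0` -/
theorem wt2_ge {n : ℕ} (hn : 1 ≤ n) {j : ℤ} (hj : 4 * |j| ≤ n) : 1 / 4 ≤ wt 2 n j := by
  have hn' : (0 : ℝ) < n := by exact_mod_cast hn
  have h1 := wt2_lip hn j 0
  have h2 := wt2_zero_ge hn
  have h3 : |(j : ℝ) - ((0 : ℤ) : ℝ)| / n ≤ 1 / 4 := by
    rw [div_le_iff₀ hn']
    have : (4 : ℝ) * |(j : ℝ)| ≤ n := by exact_mod_cast hj
    push_cast
    rw [sub_zero]
    linarith
  have h4 := (abs_le.mp h1).1
  linarith

/-- `kern 2 n` is the trigonometric polynomial with coefficients `wt 2 n` -/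
theorem kern2_eq_sum {n : ℕ} (hn : 1 ≤ n) (t : ℝ) :
    (kern 2 n t : ℂ) = ∑ j ∈ Finset.Ioo (-(2 * n : ℤ)) (2 * n), (wt 2 n j : ℂ) * e ((j : ℝ) * t) := by
  have hk : (kern 2 n t : ℂ) = (1 / (n : ℂ)) * ((fej n t : ℂ) * (fej n t : ℂ)) := by
    unfold kern
    push_cast
    ring
  rw [hk, fej_eq hn, Finset.sum_mul_sum, ← Finset.sum_product']
  -- restrict to the open box
  set S := Finset.Icc (-(n : ℤ)) n ×ˢ Finset.Icc (-(n : ℤ)) n with hS
  set f : ℤ × ℤ → ℂ := fun p => (tri n p.1 : ℂ) * e ((p.1 : ℝ) * t) *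
    ((tri n p.2 : ℂ) * e ((p.2 : ℝ) * t)) with hf
  have h0 : ∑ p ∈ S, f p = ∑ p ∈ S.filter (fun p => p.1 + p.2 ∈ Finset.Ioo (-(2 * n : ℤ)) (2 * n)),
      f p := by
    symm
    apply Finset.sum_filter_of_ne
    intro p hp hne
    rw [hS, Finset.mem_product, Finset.mem_Icc, Finset.mem_Icc] at hp
    have h1 : tri n p.1 ≠ 0 := by
      intro h; apply hne; rw [hf]; simp [h]
    have h2 : tri n p.2 ≠ 0 := by
      intro h; apply hne; rw [hf]; simp [h]
    have h3 : |p.1| < n := by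
      by_contra hc; exact h1 (MbK2_tri_zero hn (not_lt.mp hc))
    have h4 : |p.2| < n := by
      by_contra hc; exact h2 (MbK2_tri_zero hn (not_lt.mp hc))
    rw [abs_lt] at h3 h4
    rw [Finset.mem_Ioo]; omega
  rw [h0]
  rw [← Finset.sum_fiberwise_of_maps_to (g := fun p : ℤ × ℤ => p.1 + p.2)
    (t := Finset.Ioo (-(2 * n : ℤ)) (2 * n)) (fun p hp => (Finset.mem_filter.mp hp).2),
    Finset.mul_sum]
  apply Finset.sum_congr rfl
  intro j hj
  rw [wt2_eq hn]
  push_cast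
  rw [mul_assoc, Finset.sum_mul]
  congr 1
  -- both sides as sums over i
  have h5 : ∑ i ∈ Finset.Icc (-(n : ℤ)) n, (tri n i : ℂ) * (tri n (j - i) : ℂ) * e ((j : ℝ) * t) =
      ∑ i ∈ (Finset.Icc (-(n : ℤ)) n).filter (fun i => j - i ∈ Finset.Icc (-(n : ℤ)) n),
        (tri n i : ℂ) * (tri n (j - i) : ℂ) * e ((j : ℝ) * t) := by
    symm
    apply Finset.sum_filter_of_ne
    intro i _ hne
    by_contra hc
    apply hne
    have : tri n (j - i) = 0 := by
      apply MbK2_tri_zero hn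
      rw [Finset.mem_Icc, not_and_or] at hc
      rcases hc with h4 | h4
      · rw [abs_of_nonpos (by omega)]; omega
      · exact le_trans (by omega) (le_abs_self _)
    rw [this]; simp
  rw [h5]
  refine Finset.sum_bij' (fun p _ => p.1) (fun i _ => (i, j - i)) ?_ ?_ ?_ ?_ ?_
  · intro p hp
    rw [Finset.mem_filter, Finset.mem_filter, hS, Finset.mem_product] at hp
    rw [Finset.mem_filter]
    refine ⟨hp.1.1.1, ?_⟩
    rw [← hp.2, add_sub_cancel_left]
    exact hp.1.1.2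
  · intro i hi
    rw [Finset.mem_filter] at hi
    rw [Finset.mem_filter, Finset.mem_filter, hS, Finset.mem_product]
    refine ⟨⟨⟨hi.1, hi.2⟩, ?_⟩, ?_⟩
    · simpa using hj
    · simp
  · intro p hp
    rw [Finset.mem_filter] at hp
    rw [← hp.2]; simp
  · intro i _; rfl
  · intro p hp
    rw [Finset.mem_filter] at hp
    rw [hf]
    simp only
    rw [← hp.2, add_sub_cancel_left]
    push_cast
    rw [add_mul, e_add]
    ring

end Pool.Agent.W_f50700_h13
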