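import Pool.Agent.W_f50700_h13.MbK2

/-!
MbK3: moments of the kernel.
-/

open Complex MeasureTheory

namespace Pool.Agent.W_f50700_h13

open Pool.Agent.W_f50700_h3

theorem dist1_one_sub (t : ℝ) : dist1 (1 - t) = dist1 t := by
  have h1 : (1 : ℝ) - t = -t + ((1 : ℤ) : ℝ) := by push_cast; ring
  rw [h1, dist1_add_int, dist1_neg]

theorem kern_one_sub (k n : ℕ) (t : ℝ) : kern k n (1 - t) = kern k n t := by
  have h1 : (1 : ℝ) - t = -t + 1 := by ring
  rw [h1, kern_periodic k n (-t), kern_neg]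

/-- an integrable function on `[0,1]` that is symmetric around `1/2` -/
theorem integral_symm_half {f : ℝ → ℝ} (hf : ∀ t, f (1 - t) = f t)
    (hi : IntervalIntegrable f volume 0 1) :
    ∫ t in (0 : ℝ)..1, f t = 2 * ∫ t in (0 : ℝ)..(1 / 2), f t := by
  have h1 : IntervalIntegrable f volume 0 (1 / 2) := hi.mono_set (by
    rw [Set.uIcc_of_le (by norm_num), Set.uIcc_of_le (by norm_num)]
    exact Set.Icc_subset_Icc le_rfl (by norm_num))
  have h2 : IntervalIntegrable f volume (1 / 2) 1 := hi.mono_set (by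
    rw [Set.uIcc_of_le (by norm_num), Set.uIcc_of_le (by norm_num)]
    exact Set.Icc_subset_Icc (by norm_num) le_rfl)
  rw [← intervalIntegral.integral_add_adjacent_intervals h1 h2]
  have h3 : ∫ t in (1 / 2 : ℝ)..1, f t = ∫ t in (0 : ℝ)..(1 / 2), f t := by
    have h4 := intervalIntegral.integral_comp_sub_left (a := (0 : ℝ)) (b := 1 / 2) f 1
    simp only [hf] at h4
    rw [h4]
    norm_num
  rw [h3]
  ring

/-- second moment.  By `kern2_le` the integrand is at most `16 n (1 + 2 n dist1 t)^(-2)`;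
`int_0^1 (1 + 2 n dist1 t)^(-2) dt = 2 int_0^(1/2) (1 + 2 n t)^(-2) dt ≤ 1/n`. -/
theorem kern2_moment {n : ℕ} (hn : 1 ≤ n) :
    ∫ t in (0 : ℝ)..1, kern 2 n t * (1 + 2 * n * dist1 t) ^ 2 ≤ 16 := by
  have hn' : (0 : ℝ) < n := by exact_mod_cast hn
  have hc : Continuous fun t => kern 2 n t * (1 + 2 * n * dist1 t) ^ 2 := by
    have h1 := continuous_kern 2 n
    have h2 := continuous_dist1
    fun_prop
  rw [integral_symm_half (fun t => by rw [kern_one_sub, dist1_one_sub]) (hc.intervalIntegrable _ _)]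
  have hder : ∀ t ∈ Set.uIcc (0 : ℝ) (1 / 2),
      HasDerivAt (fun t : ℝ => -8 / (1 + 2 * (n : ℝ) * t)) (16 * (n : ℝ) / (1 + 2 * (n : ℝ) * t) ^ 2) t := by
    intro t ht
    rw [Set.uIcc_of_le (by norm_num)] at ht
    have hpos : (0 : ℝ) < 1 + 2 * (n : ℝ) * t := by
      have := mul_nonneg (mul_nonneg (show (0 : ℝ) ≤ 2 by norm_num) hn'.le) ht.1
      linarith
    have h1 : HasDerivAt (fun t : ℝ => 1 + 2 * (n : ℝ) * t) (2 * (n : ℝ)) t := by
      simpa using ((hasDerivAt_id t).const_mul (2 * (n : ℝ))).const_add 1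
    have h2 := (h1.inv hpos.ne').const_mul (-8)
    refine (h2.congr_deriv ?_).congr_of_eventuallyEq ?_
    · field_simp
      ring
    · refine Filter.Eventually.of_forall fun t => ?_
      simp only [div_eq_mul_inv]
      rfl
  have hcont : ContinuousOn (fun t : ℝ => 16 * (n : ℝ) / (1 + 2 * (n : ℝ) * t) ^ 2)
      (Set.uIcc (0 : ℝ) (1 / 2)) := by
    refine ContinuousOn.div (by fun_prop) (by fun_prop) ?_
    intro t ht
    rw [Set.uIcc_of_le (by norm_num)] at ht
    have hpos : (0 : ℝ) < 1 + 2 * (n : ℝ) * t := by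
      have := mul_nonneg (mul_nonneg (show (0 : ℝ) ≤ 2 by norm_num) hn'.le) ht.1
      linarith
    positivity
  have hint := hcont.intervalIntegrable (μ := volume)
  have h1 : ∫ t in (0 : ℝ)..(1 / 2), kern 2 n t * (1 + 2 * (n : ℝ) * dist1 t) ^ 2 ≤
      ∫ t in (0 : ℝ)..(1 / 2), 16 * (n : ℝ) / (1 + 2 * (n : ℝ) * t) ^ 2 := by
    refine intervalIntegral.integral_mono_on (by norm_num) (hc.intervalIntegrable _ _) hint ?_
    intro t ht
    have hd : dist1 t = t := by
      rw [dist1_eq_abs (by rw [abs_of_nonneg ht.1]; exact ht.2), abs_of_nonneg ht.1]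
    have hpos : (0 : ℝ) < 1 + 2 * (n : ℝ) * t := by
      have := mul_nonneg (mul_nonneg (show (0 : ℝ) ≤ 2 by norm_num) hn'.le) ht.1
      linarith
    have h2 := kern2_le hn t
    rw [hd] at h2 ⊢
    rw [le_div_iff₀ (by positivity)]
    calc kern 2 n t * (1 + 2 * (n : ℝ) * t) ^ 2 * (1 + 2 * (n : ℝ) * t) ^ 2
        = kern 2 n t * (1 + 2 * (n : ℝ) * t) ^ 4 := by ring
      _ ≤ 16 * (n : ℝ) := h2
  have h2 : ∫ t in (0 : ℝ)..(1 / 2), 16 * (n : ℝ) / (1 + 2 * (n : ℝ) * t) ^ 2 =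
      -8 / (1 + 2 * (n : ℝ) * (1 / 2)) - -8 / (1 + 2 * (n : ℝ) * 0) :=
    intervalIntegral.integral_eq_sub_of_hasDerivAt hder hint
  have h3 : (-8 : ℝ) / (1 + 2 * (n : ℝ) * (1 / 2)) - -8 / (1 + 2 * (n : ℝ) * 0) ≤ 8 := by
    have : (0 : ℝ) ≤ 8 / (1 + 2 * (n : ℝ) * (1 / 2)) := by positivity
    have e : (-8 : ℝ) / (1 + 2 * (n : ℝ) * (1 / 2)) = -(8 / (1 + 2 * (n : ℝ) * (1 / 2))) := by ring
    rw [e]
    norm_num
    norm_num at this
    linarith
  linarith

theorem kern2_integral_le {n : ℕ} (hn : 1 ≤ n) : ∫ t in (0 : ℝ)..1, kern 2 n t ≤ 1 := by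
  have h1 := ofReal_wt2 hn 0
  have h2 : (∫ t in (0 : ℝ)..1, (kern 2 n t : ℂ) * e (-(((0 : ℤ) : ℝ) * t))) =
      ((∫ t in (0 : ℝ)..1, kern 2 n t : ℝ) : ℂ) := by
    rw [← intervalIntegral.integral_ofReal]
    congr 1
    funext t
    simp [e_zero]
  rw [h2] at h1
  have h3 : wt 2 n 0 = ∫ t in (0 : ℝ)..1, kern 2 n t := by exact_mod_cast h1
  rw [← h3]
  exact wt2_le_one hn 0

/-- tail: `int_{dist1 t ≥ y/n} kern ≤ 1/y^3` (here as an integral with an indicator) -/
theorem kern2_tail {n : ℕ} (hn : 1 ≤ n) {y : ℝ} (hy : 0 < y) :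
    ∫ t in (0 : ℝ)..1, (if y / n ≤ dist1 t then kern 2 n t else 0) ≤ 1 / y ^ 3 := by
  have hn' : (0 : ℝ) < n := by exact_mod_cast hn
  set c : ℝ := y / n with hc
  have hcpos : 0 < c := by positivity
  rcases lt_or_ge (1 / 2) c with hc2 | hc2
  · have : ∀ t : ℝ, (if c ≤ dist1 t then kern 2 n t else 0) = 0 := by
      intro t
      rw [if_neg]
      have := dist1_le_half t
      linarith
    simp only [this, intervalIntegral.integral_zero]
    positivity
  · have hcl : MeasurableSet {t : ℝ | c ≤ dist1 t} :=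
      (isClosed_le continuous_const continuous_dist1).measurableSet
    have hf : (fun t : ℝ => if c ≤ dist1 t then kern 2 n t else 0) =
        Set.indicator {t : ℝ | c ≤ dist1 t} (kern 2 n) := by
      funext t
      simp only [Set.indicator]
      rfl
    have hi : ∀ a b : ℝ, IntervalIntegrable
        (fun t : ℝ => if c ≤ dist1 t then kern 2 n t else 0) volume a b := by
      intro a b
      rw [hf]
      have h1 := (continuous_kern 2 n).intervalIntegrable (μ := volume) a b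
      exact ⟨h1.1.indicator hcl, h1.2.indicator hcl⟩
    rw [integral_symm_half (fun t => by rw [kern_one_sub, dist1_one_sub]) (hi _ _)]
    rw [← intervalIntegral.integral_add_adjacent_intervals (hi 0 c) (hi c (1 / 2))]
    have h1 : ∫ t in (0 : ℝ)..c, (if c ≤ dist1 t then kern 2 n t else 0) = 0 := by
      apply intervalIntegral.integral_zero_ae
      have hne : ∀ᵐ t : ℝ, t ≠ c := by
        rw [ae_iff]
        simp
      filter_upwards [hne] with t ht ht2
      rw [Set.uIoc_of_le hcpos.le] at ht2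
      rw [if_neg]
      have := dist1_le_abs t
      rw [abs_of_pos ht2.1] at this
      have h3 := lt_of_le_of_ne ht2.2 ht
      linarith
    have hder : ∀ t ∈ Set.uIcc c (1 / 2),
        HasDerivAt (fun t : ℝ => -(1 / (3 * (n : ℝ) ^ 3)) * (t ^ 3)⁻¹) (1 / ((n : ℝ) ^ 3 * t ^ 4)) t := by
      intro t ht
      rw [Set.uIcc_of_le hc2] at ht
      have hpos : 0 < t := lt_of_lt_of_le hcpos ht.1
      have h1 := ((hasDerivAt_pow 3 t).inv (pow_pos hpos 3).ne').const_mul (-(1 / (3 * (n : ℝ) ^ 3)))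
      refine h1.congr_deriv ?_
      field_simp
      norm_num
    have hcont : ContinuousOn (fun t : ℝ => 1 / ((n : ℝ) ^ 3 * t ^ 4)) (Set.uIcc c (1 / 2)) := by
      refine ContinuousOn.div (by fun_prop) (by fun_prop) ?_
      intro t ht
      rw [Set.uIcc_of_le hc2] at ht
      have hpos : 0 < t := lt_of_lt_of_le hcpos ht.1
      positivity
    have hint := hcont.intervalIntegrable (μ := volume)
    have h2 : ∫ t in c..(1 / 2), (if c ≤ dist1 t then kern 2 n t else 0) ≤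
        ∫ t in c..(1 / 2), 1 / ((n : ℝ) ^ 3 * t ^ 4) := by
      refine intervalIntegral.integral_mono_on hc2 (hi _ _) hint ?_
      intro t ht
      have hpos : 0 < t := lt_of_lt_of_le hcpos ht.1
      have hd : dist1 t = t := by
        rw [dist1_eq_abs (by rw [abs_of_pos hpos]; exact ht.2), abs_of_pos hpos]
      rw [hd, if_pos ht.1, le_div_iff₀ (by positivity)]
      have h3 := kern2_le hn t
      rw [hd] at h3
      have hk := kern_nonneg 2 n t
      have h4 : (2 * n * t) ^ 4 ≤ (1 + 2 * n * t) ^ 4 :=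
        pow_le_pow_left₀ (by positivity) (by linarith) 4
      have h5 := (mul_le_mul_of_nonneg_left h4 hk).trans h3
      have h6 : kern 2 n t * (2 * n * t) ^ 4 = (16 * n) * (kern 2 n t * ((n : ℝ) ^ 3 * t ^ 4)) := by
        ring
      rw [h6] at h5
      have h7 : (16 * (n : ℝ)) * (kern 2 n t * ((n : ℝ) ^ 3 * t ^ 4)) ≤ (16 * n) * 1 := by linarith
      exact le_of_mul_le_mul_left h7 (by positivity)
    have h3 : ∫ t in c..(1 / 2), 1 / ((n : ℝ) ^ 3 * t ^ 4) =
        -(1 / (3 * (n : ℝ) ^ 3)) * ((1 / 2 : ℝ) ^ 3)⁻¹ - -(1 / (3 * (n : ℝ) ^ 3)) * (c ^ 3)⁻¹ :=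
      intervalIntegral.integral_eq_sub_of_hasDerivAt hder hint
    have h4 : (1 / (3 * (n : ℝ) ^ 3)) * (c ^ 3)⁻¹ = 1 / (3 * y ^ 3) := by
      rw [hc]
      field_simp
    have h5 : 0 ≤ (1 / (3 * (n : ℝ) ^ 3)) * ((1 / 2 : ℝ) ^ 3)⁻¹ := by positivity
    have h6 : 1 / (3 * y ^ 3) = (1 / 3) * (1 / y ^ 3) := by field_simp
    have h7 : 0 < 1 / y ^ 3 := by positivity
    rw [h1, zero_add]
    linarith

end Pool.Agent.W_f50700_h13
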