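import Pool.Agent.W_f50700_h13.MbT
import Pool.Agent.W_f50700_h3.Base3

/-!
MbLS: two dimensional large sieve inequality in counting form.
-/

open Complex

namespace Pool.Agent.W_f50700_h13

open Pool.Agent.W_f50700_h3

private theorem MbLS_expand {ι : Type*} (J : Finset ι) (z : ι → ℂ) (x y : ι → ℝ) (r s : ℝ) :
    ((‖∑ j ∈ J, z j * e (r * x j + s * y j)‖ ^ 2 : ℝ) : ℂ) =
      ∑ j ∈ J, ∑ k ∈ J, (z j * (starRingEnd ℂ) (z k)) *
        (e (r * (x j - x k)) * e (s * (y j - y k))) := by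
  have h1 : ((‖∑ j ∈ J, z j * e (r * x j + s * y j)‖ ^ 2 : ℝ) : ℂ) =
      (∑ j ∈ J, z j * e (r * x j + s * y j)) *
        (starRingEnd ℂ) (∑ j ∈ J, z j * e (r * x j + s * y j)) := by
    rw [Complex.mul_conj']
    push_cast
    rfl
  rw [h1, map_sum, Finset.sum_mul_sum]
  refine Finset.sum_congr rfl fun j _ => Finset.sum_congr rfl fun k _ => ?_
  rw [map_mul, mul_sub, mul_sub, e_sub, e_sub, e_add, e_add, map_mul]
  ring

private theorem MbLS_hasSum {η : ℝ} (hη : 0 < η) (hη' : η ≤ 1 / 2) (X Y : ℝ) :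
    HasSum (fun p : ℤ × ℤ => ((tcoef η p.1 : ℂ) * e ((p.1 : ℝ) * X)) *
      ((tcoef η p.2 : ℂ) * e ((p.2 : ℝ) * Y)))
      (((max 0 (η - dist1 X) : ℝ) : ℂ) * ((max 0 (η - dist1 Y) : ℝ) : ℂ)) := by
  have hs : ∀ X : ℝ, Summable fun r : ℤ => ‖(tcoef η r : ℂ) * e ((r : ℝ) * X)‖ := by
    intro X
    have h : (fun r : ℤ => ‖(tcoef η r : ℂ) * e ((r : ℝ) * X)‖) = fun r : ℤ => tcoef η r := by
      funext r
      rw [norm_mul, norm_e, mul_one, Complex.norm_real, Real.norm_of_nonneg (tcoef_nonneg η r)]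
    rw [h]
    exact summable_tcoef hη hη'
  have h := summable_mul_of_summable_norm (f := fun r : ℤ => (tcoef η r : ℂ) * e ((r : ℝ) * X))
    (g := fun r : ℤ => (tcoef η r : ℂ) * e ((r : ℝ) * Y)) (hs X) (hs Y)
  have h2 := HasSum.mul (hasSum_tcoef hη hη' X) (hasSum_tcoef hη hη' Y) h
  exact h2

/-- Proof: `η = 1/(2B)`; `1 ≤ (pi B)^4 tcoef η r tcoef η s` on the box, all terms are nonnegative,
so the left side is at most `(pi B)^4` times the sum over all `r, s ∈ ℤ` of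
`tcoef η r * tcoef η s * |sum_j z_j e(r x_j + s y_j)|^2`, which equals
`sum_{j,k} z_j conj(z_k) tri(x_j - x_k) tri(y_j - y_k)` with `tri x = max 0 (η - dist1 x) ≤ η`
(`hasSum_tcoef` twice, finite sums, `HasSum.mul` or iterated sums).  `pi^4 / 4 ≤ 25`. -/
theorem large_sieve {ι : Type*} (J : Finset ι) (z : ι → ℂ) (x y : ι → ℝ) {B : ℕ} (hB : 1 ≤ B) :
    ∑ r ∈ Finset.range B, ∑ s ∈ Finset.range B,
        ‖∑ j ∈ J, z j * e ((r : ℝ) * x j + (s : ℝ) * y j)‖ ^ 2 ≤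
      25 * (B : ℝ) ^ 2 * ∑ j ∈ J, ∑ k ∈ J, ‖z j‖ * ‖z k‖ *
        (if dist1 (x j - x k) ≤ 1 / (2 * B) ∧ dist1 (y j - y k) ≤ 1 / (2 * B) then 1 else 0) := by
  classical
  have hB0 : (0 : ℝ) < B := by exact_mod_cast hB
  have hB1 : (1 : ℝ) ≤ B := by exact_mod_cast hB
  obtain ⟨η, hη⟩ : ∃ η : ℝ, η = 1 / (2 * B) := ⟨_, rfl⟩
  have hη0 : 0 < η := by rw [hη]; positivity
  have hη1 : η ≤ 1 / 2 := by
    rw [hη]
    exact div_le_div_of_nonneg_left (by norm_num) (by norm_num) (by linarith)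
  have hηT : ∀ u : ℝ, 0 ≤ max 0 (η - dist1 u) ∧
      max 0 (η - dist1 u) ≤ η * (if dist1 u ≤ η then 1 else 0) := by
    intro u
    refine ⟨le_max_left _ _, ?_⟩
    have hd := dist1_nonneg u
    split_ifs with h
    · rw [mul_one]
      exact max_le hη0.le (by linarith)
    · push Not at h
      rw [mul_zero]
      exact max_le le_rfl (by linarith)
  have hsum : HasSum (fun p : ℤ × ℤ => ((tcoef η p.1 * tcoef η p.2 *
      ‖∑ j ∈ J, z j * e ((p.1 : ℝ) * x j + (p.2 : ℝ) * y j)‖ ^ 2 : ℝ) : ℂ))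
      (∑ j ∈ J, ∑ k ∈ J, (z j * (starRingEnd ℂ) (z k)) *
        (((max 0 (η - dist1 (x j - x k)) : ℝ) : ℂ) *
          ((max 0 (η - dist1 (y j - y k)) : ℝ) : ℂ))) := by
    have h1 := hasSum_sum (s := J) (fun j _ => hasSum_sum (s := J) (fun k _ =>
      (MbLS_hasSum hη0 hη1 (x j - x k) (y j - y k)).mul_left
        (z j * (starRingEnd ℂ) (z k))))
    refine h1.congr_fun ?_
    intro p
    rw [Complex.ofReal_mul, MbLS_expand, Finset.mul_sum]
    refine Finset.sum_congr rfl fun j _ => ?_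
    rw [Finset.mul_sum]
    refine Finset.sum_congr rfl fun k _ => ?_
    push_cast
    ring
  have hre := Complex.reCLM.hasSum hsum
  simp only [Complex.reCLM_apply, Complex.ofReal_re] at hre
  -- bound of the right side
  have hR : (∑ j ∈ J, ∑ k ∈ J, (z j * (starRingEnd ℂ) (z k)) *
        (((max 0 (η - dist1 (x j - x k)) : ℝ) : ℂ) *
          ((max 0 (η - dist1 (y j - y k)) : ℝ) : ℂ))).re ≤
      η ^ 2 * ∑ j ∈ J, ∑ k ∈ J, ‖z j‖ * ‖z k‖ *
        (if dist1 (x j - x k) ≤ η ∧ dist1 (y j - y k) ≤ η then 1 else 0) := by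
    refine (Complex.re_le_norm _).trans ((norm_sum_le _ _).trans ?_)
    rw [Finset.mul_sum]
    refine Finset.sum_le_sum fun j _ => (norm_sum_le _ _).trans ?_
    rw [Finset.mul_sum]
    refine Finset.sum_le_sum fun k _ => ?_
    obtain ⟨a1, a2⟩ := hηT (x j - x k)
    obtain ⟨b1, b2⟩ := hηT (y j - y k)
    rw [norm_mul, norm_mul, norm_mul, RCLike.norm_conj, Complex.norm_real, Complex.norm_real,
      Real.norm_of_nonneg a1, Real.norm_of_nonneg b1]
    have h2 : max 0 (η - dist1 (x j - x k)) * max 0 (η - dist1 (y j - y k)) ≤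
        η ^ 2 * (if dist1 (x j - x k) ≤ η ∧ dist1 (y j - y k) ≤ η then 1 else 0) := by
      refine (mul_le_mul a2 b2 b1 (a1.trans a2)).trans (le_of_eq ?_)
      by_cases hx : dist1 (x j - x k) ≤ η
      · by_cases hy : dist1 (y j - y k) ≤ η
        · simp only [hx, hy, and_self, if_true]
          ring
        · simp only [hx, hy, and_false, if_false, if_true]
          ring
      · simp only [hx, false_and, if_false]
        ring
    calc ‖z j‖ * ‖z k‖ * (max 0 (η - dist1 (x j - x k)) * max 0 (η - dist1 (y j - y k))) ≤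
        ‖z j‖ * ‖z k‖ * (η ^ 2 *
          (if dist1 (x j - x k) ≤ η ∧ dist1 (y j - y k) ≤ η then 1 else 0)) :=
          mul_le_mul_of_nonneg_left h2 (by positivity)
      _ = _ := by ring
  -- the left side
  have hL := sum_le_hasSum ((Finset.range B ×ˢ Finset.range B).image
    (fun p : ℕ × ℕ => ((p.1 : ℤ), (p.2 : ℤ)))) (fun p _ => by
      have h1 := tcoef_nonneg η p.1
      have h2 := tcoef_nonneg η p.2
      positivity) hre
  rw [Finset.sum_image (by
    rintro ⟨a, b⟩ _ ⟨c, d⟩ _ h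
    simp only [Prod.mk.injEq, Nat.cast_inj] at h
    exact Prod.ext h.1 h.2), Finset.sum_product] at hL
  have hpi : (0 : ℝ) < Real.pi * B := mul_pos Real.pi_pos hB0
  have hlow : (1 / (Real.pi * B) ^ 2) ^ 2 * ∑ r ∈ Finset.range B, ∑ s ∈ Finset.range B,
        ‖∑ j ∈ J, z j * e ((r : ℝ) * x j + (s : ℝ) * y j)‖ ^ 2 ≤
      ∑ r ∈ Finset.range B, ∑ s ∈ Finset.range B, tcoef η (r : ℤ) * tcoef η (s : ℤ) *
        ‖∑ j ∈ J, z j * e ((((r : ℤ) : ℝ)) * x j + (((s : ℤ) : ℝ)) * y j)‖ ^ 2 := by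
    rw [Finset.mul_sum]
    refine Finset.sum_le_sum fun r hr => ?_
    rw [Finset.mul_sum]
    refine Finset.sum_le_sum fun s hs => ?_
    have hr' : |(r : ℤ)| ≤ (B : ℤ) := by
      rw [abs_of_nonneg (by positivity)]
      exact_mod_cast (Finset.mem_range.1 hr).le
    have hs' : |(s : ℤ)| ≤ (B : ℤ) := by
      rw [abs_of_nonneg (by positivity)]
      exact_mod_cast (Finset.mem_range.1 hs).le
    have h1 := tcoef_ge hB hr'
    have h2 := tcoef_ge hB hs'
    rw [← hη] at h1 h2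
    have h3 : (1 / (Real.pi * B) ^ 2) ^ 2 ≤ tcoef η (r : ℤ) * tcoef η (s : ℤ) := by
      rw [sq]
      exact mul_le_mul h1 h2 (by positivity) (tcoef_nonneg _ _)
    have h4 := mul_le_mul_of_nonneg_right h3
      (sq_nonneg ‖∑ j ∈ J, z j * e ((r : ℝ) * x j + (s : ℝ) * y j)‖)
    simpa only [Int.cast_natCast] using h4
  have hfin := hlow.trans (hL.trans hR)
  rw [← hη]
  set LS := ∑ r ∈ Finset.range B, ∑ s ∈ Finset.range B,
        ‖∑ j ∈ J, z j * e ((r : ℝ) * x j + (s : ℝ) * y j)‖ ^ 2 with hLS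
  set RS := ∑ j ∈ J, ∑ k ∈ J, ‖z j‖ * ‖z k‖ *
        (if dist1 (x j - x k) ≤ η ∧ dist1 (y j - y k) ≤ η then (1 : ℝ) else 0) with hRS
  have hRS0 : 0 ≤ RS := by
    rw [hRS]
    refine Finset.sum_nonneg fun j _ => Finset.sum_nonneg fun k _ => ?_
    split_ifs <;> positivity
  have h5 : LS ≤ (Real.pi * B) ^ 4 * (η ^ 2 * RS) := by
    have h6 : (Real.pi * B) ^ 4 * ((1 / (Real.pi * B) ^ 2) ^ 2 * LS) = LS := by
      field_simp
    rw [← h6]
    exact mul_le_mul_of_nonneg_left hfin (by positivity)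
  have h7 : (Real.pi * B) ^ 4 * (η ^ 2 * RS) = Real.pi ^ 4 / 4 * (B : ℝ) ^ 2 * RS := by
    rw [hη]
    field_simp
    ring
  have h8 : Real.pi ^ 4 / 4 ≤ 25 := by
    have h9 : Real.pi < 3.15 := Real.pi_lt_d2
    have h10 : Real.pi ^ 4 ≤ 3.15 ^ 4 := pow_le_pow_left₀ Real.pi_pos.le h9.le 4
    have h11 : (3.15 : ℝ) ^ 4 ≤ 100 := by norm_num
    linarith
  rw [h7] at h5
  refine h5.trans ?_
  exact mul_le_mul_of_nonneg_right (mul_le_mul_of_nonneg_right h8 (by positivity)) hRS0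

end Pool.Agent.W_f50700_h13
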