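import Pool.Agent.W_f50700_h13.Mb0

/-!
MbT: Fourier series of the periodic triangle of half width `eta`.
-/

open Complex

namespace Pool.Agent.W_f50700_h13

open Pool.Agent.W_f50700_h3

/-- the coefficient `sin(pi r eta)/(pi r)` squared, `eta^2` for `r = 0` -/
noncomputable def tcoef (η : ℝ) (r : ℤ) : ℝ :=
  if r = 0 then η ^ 2 else (Real.sin (Real.pi * r * η) / (Real.pi * r)) ^ 2

theorem tcoef_nonneg (η : ℝ) (r : ℤ) : 0 ≤ tcoef η r := by
  unfold tcoef; split_ifs <;> positivity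

theorem abs_sin_ge {x : ℝ} (hx : |x| ≤ Real.pi / 2) : 2 / Real.pi * |x| ≤ |Real.sin x| := by
  have h7 : |Real.sin x| = Real.sin |x| := by
    rcases le_total 0 x with h | h
    · rw [abs_of_nonneg h, abs_of_nonneg]
      rw [abs_of_nonneg h] at hx
      exact Real.sin_nonneg_of_nonneg_of_le_pi h (by linarith [Real.pi_pos])
    · rw [abs_of_nonpos h, Real.sin_neg, abs_of_nonpos]
      rw [abs_of_nonpos h] at hx
      have := Real.sin_nonneg_of_nonneg_of_le_pi (x := -x) (by linarith) (by linarith [Real.pi_pos])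
      rw [Real.sin_neg] at this
      linarith
  rw [h7]
  exact Real.mul_le_sin (abs_nonneg x) hx

/-- `tcoef (1/(2B)) r ≥ 1/(pi B)^2` for `|r| ≤ B` (`sin x ≥ (2/pi) x` on `[0, pi/2]`) -/
theorem tcoef_ge {B : ℕ} (hB : 1 ≤ B) {r : ℤ} (hr : |r| ≤ B) :
    1 / (Real.pi * B) ^ 2 ≤ tcoef (1 / (2 * B)) r := by
  have hB' : (0 : ℝ) < B := by exact_mod_cast hB
  have hpi := Real.pi_pos
  have hpi2 : (2 : ℝ) ≤ Real.pi := Real.two_le_pi
  unfold tcoef
  split_ifs with h
  · rw [div_pow, one_pow]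
    refine one_div_le_one_div_of_le (by positivity) ?_
    exact pow_le_pow_left₀ (by positivity) (mul_le_mul_of_nonneg_right hpi2 hB'.le) 2
  · have hr0 : (0 : ℝ) < |(r : ℝ)| := by
      rw [abs_pos]; exact_mod_cast h
    have hrB : |(r : ℝ)| ≤ B := by exact_mod_cast hr
    have e1 : |Real.pi * r * (1 / (2 * B))| = Real.pi / 2 * (|(r : ℝ)| / B) := by
      rw [abs_mul, abs_mul, abs_of_pos hpi, abs_of_pos (show (0 : ℝ) < 1 / (2 * B) by positivity)]
      field_simp
    have h1 : |Real.pi * r * (1 / (2 * B))| ≤ Real.pi / 2 := by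
      rw [e1]
      have : |(r : ℝ)| / B ≤ 1 := by rw [div_le_one hB']; exact hrB
      calc Real.pi / 2 * (|(r : ℝ)| / B) ≤ Real.pi / 2 * 1 :=
            mul_le_mul_of_nonneg_left this (by positivity)
        _ = Real.pi / 2 := mul_one _
    have h2 := abs_sin_ge h1
    rw [e1] at h2
    have h3 : 2 / Real.pi * (Real.pi / 2 * (|(r : ℝ)| / B)) = |(r : ℝ)| / B := by field_simp
    rw [h3] at h2
    rw [div_pow, ← sq_abs (Real.sin _), ← sq_abs (Real.pi * (r : ℝ)), abs_mul, abs_of_pos hpi]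
    have h4 : (|(r : ℝ)| / B) ^ 2 ≤ |Real.sin (Real.pi * r * (1 / (2 * B)))| ^ 2 :=
      pow_le_pow_left₀ (by positivity) h2 2
    rw [le_div_iff₀ (by positivity)]
    refine le_trans (le_of_eq ?_) h4
    field_simp

theorem summable_tcoef' (η : ℝ) : Summable (fun r : ℤ => tcoef η r) := by
  have h1 : Summable (fun r : ℤ => 1 / (r : ℝ) ^ 2) := Real.summable_one_div_int_pow.2 (by norm_num)
  have h2 : Summable (fun r : ℤ => if r = 0 then η ^ 2 else 0) := (hasSum_ite_eq 0 (η ^ 2)).summable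
  refine Summable.of_nonneg_of_le (tcoef_nonneg η) (fun r => ?_) (h2.add h1)
  unfold tcoef
  split_ifs with h
  · subst h; simp
  · rw [zero_add, div_pow]
    have hr0 : (0 : ℝ) < (r : ℝ) ^ 2 := by
      have : (r : ℝ) ≠ 0 := by exact_mod_cast h
      positivity
    have hs : Real.sin (Real.pi * r * η) ^ 2 ≤ 1 := Real.sin_sq_le_one _
    have hpi2 : (2 : ℝ) ≤ Real.pi := Real.two_le_pi
    refine div_le_div₀ (by norm_num) hs hr0 ?_
    rw [mul_pow]
    have h1 : (1 : ℝ) ≤ Real.pi ^ 2 := by nlinarith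
    have := mul_le_mul_of_nonneg_right h1 hr0.le
    linarith

theorem hasSum_bern {x : ℝ} (hx : x ∈ Set.Icc (0 : ℝ) 1) :
    HasSum (fun n : ℕ => 1 / (n : ℝ) ^ 2 * Real.cos (2 * Real.pi * n * x))
      (Real.pi ^ 2 * (x ^ 2 - x + 1 / 6)) := by
  have h := hasSum_one_div_nat_pow_mul_cos one_ne_zero hx
  rw [mul_one] at h
  convert h using 1
  rw [Polynomial.eval_map, Polynomial.bernoulli]
  simp only [Finset.sum_range_succ, Finset.sum_range_zero, Polynomial.eval₂_add,
    Polynomial.eval₂_monomial, zero_add, Nat.choose_zero_right, Nat.choose_one_right,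
    Nat.choose_self, Nat.sub_zero, Nat.sub_self]
  rw [show (2 - 1 : ℕ) = 1 from rfl, bernoulli_one, bernoulli_two, bernoulli_zero]
  simp only [Nat.factorial]
  push_cast
  norm_num
  ring

/-- Fourier series of the triangle, real version -/
theorem hasSum_tri_real {η : ℝ} (hη : 0 < η) (hη' : η ≤ 1 / 2) {x : ℝ} (hx : 0 ≤ x)
    (hx' : x ≤ 1 / 2) :
    HasSum (fun n : ℕ => 1 / (n : ℝ) ^ 2 * (2 * Real.sin (Real.pi * n * η) ^ 2 *
      Real.cos (2 * Real.pi * n * x))) (Real.pi ^ 2 * (max 0 (η - x) - η ^ 2)) := by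
  have h1 := hasSum_bern (x := x) ⟨hx, by linarith⟩
  have h2 := hasSum_bern (x := x + η) ⟨by linarith, by linarith⟩
  have h3 : HasSum (fun n : ℕ => 1 / (n : ℝ) ^ 2 * Real.cos (2 * Real.pi * n * (x - η)))
      (Real.pi ^ 2 * (|x - η| ^ 2 - |x - η| + 1 / 6)) := by
    have h4 := hasSum_bern (x := |x - η|) ⟨abs_nonneg _, by
      rw [abs_le]; constructor <;> linarith⟩
    refine h4.congr_fun ?_
    intro n
    congr 1
    rcases le_total 0 (x - η) with h | h
    · rw [abs_of_nonneg h]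
    · rw [abs_of_nonpos h, mul_neg, Real.cos_neg]
  have h4 := h1.sub ((h2.add h3).mul_left (1 / 2))
  have hval : Real.pi ^ 2 * (max 0 (η - x) - η ^ 2) =
      Real.pi ^ 2 * (x ^ 2 - x + 1 / 6) -
      1 / 2 * (Real.pi ^ 2 * ((x + η) ^ 2 - (x + η) + 1 / 6) +
        Real.pi ^ 2 * (|x - η| ^ 2 - |x - η| + 1 / 6)) := by
    rcases le_total 0 (x - η) with h | h
    · rw [abs_of_nonneg h, max_eq_left (by linarith)]; ring
    · rw [abs_of_nonpos h, max_eq_right (by linarith)]; ring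
  rw [hval]
  refine h4.congr_fun ?_
  intro n
  have e1 : Real.cos (2 * Real.pi * n * (x + η)) + Real.cos (2 * Real.pi * n * (x - η)) =
      2 * Real.cos (2 * Real.pi * n * x) * Real.cos (2 * Real.pi * n * η) := by
    rw [mul_add, mul_sub, Real.cos_add, Real.cos_sub]; ring
  have e2 : Real.cos (2 * Real.pi * n * η) = 1 - 2 * Real.sin (Real.pi * n * η) ^ 2 := by
    rw [show 2 * Real.pi * n * η = 2 * (Real.pi * n * η) by ring, Real.cos_two_mul,
      Real.cos_sq']
    ring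
  rw [← mul_add, e1, e2]
  ring

/-- Fourier series of the triangle for `x` in `[0, 1/2]` -/
theorem hasSum_tcoef_aux {η : ℝ} (hη : 0 < η) (hη' : η ≤ 1 / 2) {x : ℝ} (hx : 0 ≤ x)
    (hx' : x ≤ 1 / 2) :
    HasSum (fun r : ℤ => (tcoef η r : ℂ) * e ((r : ℝ) * x)) ((max 0 (η - x) : ℝ) : ℂ) := by
  have hs : Summable (fun r : ℤ => (tcoef η r : ℂ) * e ((r : ℝ) * x)) := by
    refine Summable.of_norm ?_
    have : (fun r : ℤ => ‖(tcoef η r : ℂ) * e ((r : ℝ) * x)‖) = fun r => tcoef η r := by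
      funext r
      rw [norm_mul, norm_e, mul_one, Complex.norm_real, Real.norm_eq_abs,
        abs_of_nonneg (tcoef_nonneg η r)]
    rw [this]
    exact summable_tcoef' η
  have h1 := hs.hasSum.nat_add_neg
  have h2 := (hasSum_tri_real hη hη' hx hx').mul_left (1 / Real.pi ^ 2)
  have h3 := h2.add (hasSum_ite_eq (0 : ℕ) (2 * η ^ 2))
  have h4 := (Complex.hasSum_ofReal).2 h3
  have hpi : (Real.pi : ℝ) ≠ 0 := Real.pi_ne_zero
  have h5 : HasSum (fun n : ℕ => (tcoef η (n : ℤ) : ℂ) * e (((n : ℤ) : ℝ) * x) +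
      (tcoef η (-(n : ℤ)) : ℂ) * e (((-(n : ℤ) : ℤ) : ℝ) * x))
      ((1 / Real.pi ^ 2 * (Real.pi ^ 2 * (max 0 (η - x) - η ^ 2)) + 2 * η ^ 2 : ℝ) : ℂ) := by
    refine h4.congr_fun ?_
    intro n
    have hee : e (((n : ℤ) : ℝ) * x) + e (((-(n : ℤ) : ℤ) : ℝ) * x) =
        ((2 * Real.cos (2 * Real.pi * n * x) : ℝ) : ℂ) := by
      unfold e
      push_cast
      rw [Complex.two_cos]
      congr 1 <;> · congr 1; ring
    have hneg : tcoef η (-(n : ℤ)) = tcoef η (n : ℤ) := by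
      unfold tcoef
      by_cases hn : (n : ℤ) = 0
      · rw [if_pos hn, if_pos (by omega)]
      · rw [if_neg hn, if_neg (by omega)]
        push_cast
        rw [mul_neg, neg_mul, Real.sin_neg, neg_div_neg_eq]
    rw [hneg, ← mul_add, hee, ← Complex.ofReal_mul]
    congr 1
    unfold tcoef
    by_cases hn : n = 0
    · subst hn
      simp
      ring
    · have hn' : (n : ℤ) ≠ 0 := by exact_mod_cast hn
      have hn'' : (n : ℝ) ≠ 0 := by exact_mod_cast hn
      rw [if_neg hn', if_neg hn]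
      push_cast
      field_simp
      ring
  have h6 := h1.unique h5
  have h7 : ((tcoef η 0 : ℝ) : ℂ) * e (((0 : ℤ) : ℝ) * x) = ((η ^ 2 : ℝ) : ℂ) := by
    simp [tcoef, e_zero]
  rw [h7] at h6
  have h8 : (∑' r : ℤ, (tcoef η r : ℂ) * e ((r : ℝ) * x)) = ((max 0 (η - x) : ℝ) : ℂ) := by
    rw [eq_sub_of_add_eq h6, ← Complex.ofReal_sub]
    congr 1
    field_simp
    ring
  rw [← h8]
  exact hs.hasSum

/-- Fourier series of the triangle: use `hasSum_one_div_nat_pow_mul_cos` with `k = 1`, i.e.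
`sum_{r ≥ 1} cos(2 pi r x)/r^2 = pi^2 (x^2 - x + 1/6)` on `[0,1]`, and
`2 sin(pi r eta)^2 cos(2 pi r x) = cos(2 pi r x) - (cos(2 pi r (x+eta)) + cos(2 pi r (x-eta)))/2`.
Reduce to `x` with `|x| ≤ 1/2` by periodicity. -/
theorem hasSum_tcoef {η : ℝ} (hη : 0 < η) (hη' : η ≤ 1 / 2) (x : ℝ) :
    HasSum (fun r : ℤ => (tcoef η r : ℂ) * e ((r : ℝ) * x)) ((max 0 (η - dist1 x) : ℝ) : ℂ) := by
  obtain ⟨k, hk⟩ := exists_int_dist1 x
  have hd0 := dist1_nonneg x
  have hd1 := dist1_le_half x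
  have h1 := hasSum_tcoef_aux hη hη' hd0 hd1
  have hint : ∀ r : ℤ, e ((r : ℝ) * x) = e ((r : ℝ) * (x - k)) := by
    intro r
    have : (r : ℝ) * x = (r : ℝ) * (x - k) + ((r * k : ℤ) : ℝ) := by push_cast; ring
    rw [this, e_add_int]
  rcases le_total 0 (x - k) with h | h
  · rw [abs_of_nonneg h] at hk
    refine h1.congr_fun ?_
    intro r
    rw [hint r, hk]
  · rw [abs_of_nonpos h] at hk
    have h2 := (Equiv.neg ℤ).hasSum_iff.2 h1
    refine h2.congr_fun ?_
    intro r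
    have hneg : tcoef η (-r) = tcoef η r := by
      unfold tcoef
      by_cases hn : r = 0
      · rw [if_pos hn, if_pos (by omega)]
      · rw [if_neg hn, if_neg (by omega)]
        push_cast
        rw [mul_neg, neg_mul, Real.sin_neg, neg_div_neg_eq]
    rw [hint r]
    simp only [Function.comp, Equiv.neg_apply]
    rw [hneg, ← hk]
    push_cast
    congr 2
    ring

theorem summable_tcoef {η : ℝ} (hη : 0 < η) (hη' : η ≤ 1 / 2) :
    Summable (fun r : ℤ => tcoef η r) :=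
  summable_tcoef' η

end Pool.Agent.W_f50700_h13
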