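import Pool.Agent.W_f50700_h13.MbC1
import Pool.Agent.W_f50700_h13.MbF1
import Pool.Agent.W_f50700_h3.Expo2

/-!
Zc1: counting words in a projective class mod `q`.
-/

namespace Pool.Agent.W_f50700_h13

open Pool.Agent.W_f50700_h3

/-- lattice points of a projective class in a small box.  Bezout `α c1 + β c2 = 1`; the residue
`λ = α x + β y` mod `q` determines `x = λ c1`, `y = λ c2` mod `q`; so at most `q` pairs of residues,
each with at most `4` points in the box `[0, M]^2`, `M ≤ q`. -/
theorem box_class {q M : ℕ} (hq : 1 ≤ q) (hM : M ≤ q) {c1 c2 : ℤ} (hc : IsCoprime c1 c2)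
    (S : Finset (ℕ × ℕ)) (hS : ∀ x ∈ S, x.1 ≤ M ∧ x.2 ≤ M ∧ (q : ℤ) ∣ c1 * x.2 - c2 * x.1) :
    S.card ≤ 4 * q := by
  classical
  obtain ⟨α, β, hαβ⟩ := hc
  have hq0 : (q : ℤ) ≠ 0 := by omega
  have hqpos : (0 : ℤ) < q := by omega
  -- encode by (λ mod q, x / q, y / q)
  set g : ℕ × ℕ → ℕ × (ℕ × ℕ) := fun x =>
    (((α * x.1 + β * x.2) % (q : ℤ)).toNat, (x.1 / q, x.2 / q)) with hg
  have hmap : ∀ x ∈ S, g x ∈ Finset.range q ×ˢ (Finset.range 2 ×ˢ Finset.range 2) := by
    intro x hx
    obtain ⟨h1, h2, _⟩ := hS x hx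
    rw [hg]
    rw [Finset.mem_product, Finset.mem_product, Finset.mem_range, Finset.mem_range,
      Finset.mem_range]
    refine ⟨?_, ?_, ?_⟩
    · have h3 := Int.emod_nonneg (α * x.1 + β * x.2) hq0
      have h4 := Int.emod_lt_of_pos (α * x.1 + β * x.2) hqpos
      simp only
      omega
    · simp only
      rw [Nat.div_lt_iff_lt_mul (by omega)]
      omega
    · simp only
      rw [Nat.div_lt_iff_lt_mul (by omega)]
      omega
  have hinj : Set.InjOn g S := by
    intro x hx x' hx' h
    obtain ⟨_, _, h3⟩ := hS x hx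
    obtain ⟨_, _, h3'⟩ := hS x' hx'
    rw [hg] at h
    simp only [Prod.mk.injEq] at h
    obtain ⟨e1, e2, e3⟩ := h
    have h4 : (α * x.1 + β * x.2) % (q : ℤ) = (α * x'.1 + β * x'.2) % (q : ℤ) := by
      have a1 := Int.emod_nonneg (α * x.1 + β * x.2) hq0
      have a2 := Int.emod_nonneg (α * x'.1 + β * x'.2) hq0
      omega
    have h5 : (q : ℤ) ∣ (α * x.1 + β * x.2) - (α * x'.1 + β * x'.2) :=
      Int.ModEq.dvd (Int.ModEq.symm h4)
    obtain ⟨u, hu⟩ := h5
    obtain ⟨v, hv⟩ := h3
    obtain ⟨w, hw⟩ := h3'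
    have d1 : (q : ℤ) ∣ (x.1 : ℤ) - x'.1 := by
      refine ⟨c1 * u - β * v + β * w, ?_⟩
      linear_combination c1 * hu - β * hv + β * hw + (-(x.1 : ℤ) + x'.1) * hαβ
    have d2 : (q : ℤ) ∣ (x.2 : ℤ) - x'.2 := by
      refine ⟨c2 * u + α * v - α * w, ?_⟩
      linear_combination c2 * hu + α * hv - α * hw + (-(x.2 : ℤ) + x'.2) * hαβ
    have m1 : x.1 % q = x'.1 % q := by
      have : (x'.1 : ℤ) ≡ x.1 [ZMOD q] := Int.modEq_iff_dvd.mpr d1
      have := Int.natCast_modEq_iff.mp this
      exact this.symm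
    have m2 : x.2 % q = x'.2 % q := by
      have : (x'.2 : ℤ) ≡ x.2 [ZMOD q] := Int.modEq_iff_dvd.mpr d2
      have := Int.natCast_modEq_iff.mp this
      exact this.symm
    apply Prod.ext
    · rw [← Nat.div_add_mod x.1 q, ← Nat.div_add_mod x'.1 q, e2, m1]
    · rw [← Nat.div_add_mod x.2 q, ← Nat.div_add_mod x'.2 q, e3, m2]
  have := Finset.card_le_card_of_injOn _ hmap hinj
  rw [Finset.card_product, Finset.card_product, Finset.card_range, Finset.card_range] at this
  omega

/-- stripping a prefix: `det(c, mat(w) c'') = det(c', c'')` with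
`c' = (c1 m22 w - c2 m12 w, c2 F w - c1 m21 w)`, again coprime -/
theorem strip_class {A : ℕ} (w v : List (Lt A)) (c1 c2 : ℤ) :
    c1 * (m21 (w ++ v) : ℤ) - c2 * F (w ++ v) =
      (c1 * m22 w - c2 * m12 w) * m21 v - (c2 * F w - c1 * m21 w) * F v := by
  rw [m21_append, F_append]
  push_cast
  ring

theorem strip_coprime {A : ℕ} (w : List (Lt A)) {c1 c2 : ℤ} (hc : IsCoprime c1 c2) :
    IsCoprime (c1 * m22 w - c2 * m12 w) (c2 * F w - c1 * m21 w) := by
  obtain ⟨α, β, hαβ⟩ := hc
  have hdet : (F w : ℤ) * m22 w = m12 w * m21 w + 1 := by exact_mod_cast det_one w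
  refine ⟨α * F w + β * m21 w, α * m12 w + β * m22 w, ?_⟩
  linear_combination hαβ + (α * c1 + β * c2) * hdet

/-- number of words with `F v ≤ Y` and first column in a given projective class mod `q`, `q ≤ Y`:
prefix in `passF A (Y/q)` (if `Y > q`; words with `F v < Y/q` are counted trivially), the rest has
`F ≤ q` (`strip_class`, `box_class`, `col_injective`, `m21_lt`) -/
theorem class_count {A : ℕ} (hA : 2 ≤ A) : ∃ C : ℝ, 0 < C ∧ ∀ (q : ℕ) (Y : ℝ), 1 ≤ q →
    (q : ℝ) ≤ Y → ∀ c1 c2 : ℤ, IsCoprime c1 c2 → ∀ S : Finset (List (Lt A)),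
    (∀ v ∈ S, (F v : ℝ) ≤ Y ∧ (q : ℤ) ∣ c1 * m21 v - c2 * F v) →
    (S.card : ℝ) ≤ C * Y ^ (sexp A) * (q : ℝ) ^ (1 - sexp A) := by
  classical
  obtain ⟨cp, Cp, hcp, hCp, hpass⟩ := card_passF_bounds (A := A) (by omega)
  obtain ⟨cw, Cw, hcw, hCw, hword⟩ := card_wordsF_bounds hA
  refine ⟨Cw + 4 * Cp + 4, by positivity, ?_⟩
  intro q Y hq hqY c1 c2 hc S hS
  have hq' : (0 : ℝ) < q := by exact_mod_cast hq
  have hq1 : (1 : ℝ) ≤ q := by exact_mod_cast hq
  have hY : 0 < Y := by linarith
  set M := Y / q with hM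
  have hM1 : 1 ≤ M := by rw [hM, le_div_iff₀ hq', one_mul]; exact hqY
  have hM0 : 0 < M := by linarith
  have hid : M ^ sexp A * q = Y ^ (sexp A) * (q : ℝ) ^ (1 - sexp A) := by
    rw [hM, Real.div_rpow hY.le hq'.le, Real.rpow_sub hq', Real.rpow_one]
    field_simp
  have hMs : 0 < M ^ sexp A := Real.rpow_pos_of_pos hM0 _
  -- small words
  have hbox : ∀ (d1 d2 : ℤ), IsCoprime d1 d2 → ∀ T : Finset (List (Lt A)),
      (∀ v ∈ T, (F v : ℝ) ≤ q ∧ (q : ℤ) ∣ d1 * m21 v - d2 * F v) → (T.card : ℝ) ≤ 4 * q := by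
    intro d1 d2 hd T hT
    have hinj : Set.InjOn (fun v : List (Lt A) => (F v, m21 v)) T := by
      intro v _ v' _ h
      rw [Prod.mk.injEq] at h
      exact col_injective h.1 h.2
    have h1 : (T.image (fun v : List (Lt A) => (F v, m21 v))).card = T.card :=
      Finset.card_image_of_injOn hinj
    have h2 := box_class hq le_rfl hd (T.image (fun v : List (Lt A) => (F v, m21 v)))
      (by
        intro x hx
        obtain ⟨v, hv, rfl⟩ := Finset.mem_image.mp hx
        obtain ⟨h3, h4⟩ := hT v hv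
        have h5 : F v ≤ q := by exact_mod_cast h3
        exact ⟨h5, (m21_lt v).le.trans h5, h4⟩)
    rw [h1] at h2
    exact_mod_cast h2
  rcases eq_or_lt_of_le hM1 with hMe | hMlt
  · -- M = 1
    have hYq : Y = q := by
      rw [hM, eq_div_iff hq'.ne', one_mul] at hMe
      exact hMe.symm
    have h1 := hbox c1 c2 hc S (by
      intro v hv
      obtain ⟨h3, h4⟩ := hS v hv
      exact ⟨by rw [← hYq]; exact h3, h4⟩)
    have h2 : (q : ℝ) ≤ M ^ sexp A * q := by
      rw [← hMe, Real.one_rpow, one_mul]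
    calc (S.card : ℝ) ≤ 4 * q := h1
      _ ≤ 4 * (M ^ sexp A * q) := by linarith
      _ ≤ (Cw + 4 * Cp + 4) * (M ^ sexp A * q) := by
          apply mul_le_mul_of_nonneg_right _ (by positivity)
          linarith
      _ = _ := by rw [hid, mul_assoc]
  · -- split
    set S1 := S.filter (fun v => (F v : ℝ) < M) with hS1
    set S2' := S.filter (fun v => ¬ (F v : ℝ) < M) with hS2
    have hsplit : S.card = S1.card + S2'.card := by
      rw [hS1, hS2]
      exact (Finset.card_filter_add_card_filter_not _).symm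
    have h1 : (S1.card : ℝ) ≤ Cw * M ^ sexp A := by
      have hsub : S1 ⊆ wordsF A M := by
        intro v hv
        rw [hS1, Finset.mem_filter] at hv
        rw [mem_wordsF]; exact hv.2.le
      have : (S1.card : ℝ) ≤ ((wordsF A M).card : ℝ) := by
        exact_mod_cast Finset.card_le_card hsub
      exact this.trans (hword M hM1).2
    -- prefix map
    have hpre : ∀ v ∈ S2', ∃ u ∈ passF A M, ∃ r, v = u ++ r := by
      intro v hv
      rw [hS2, Finset.mem_filter, not_lt] at hv
      exact exists_pass_prefix hMlt hv.2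
    choose! pr hpr using hpre
    have h2 : (S2'.card : ℝ) ≤ (Cp * M ^ sexp A) * (4 * q) := by
      apply MbC1_card_fib S2' (passF A M) pr (fun v hv => (hpr v hv).1) (by positivity)
        (hpass M hMlt).2
      intro u hu
      set T := S2'.filter (fun v => pr v = u) with hT
      have hrest : ∀ v ∈ T, ∃ r, v = u ++ r := by
        intro v hv
        rw [hT, Finset.mem_filter] at hv
        obtain ⟨_, r, hr⟩ := hpr v hv.1
        rw [hv.2] at hr
        exact ⟨r, hr⟩
      choose! re hre using hrest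
      have hinj : Set.InjOn re T := by
        intro v hv v' hv' h
        rw [hre v hv, hre v' hv', h]
      have hcard : (T.image re).card = T.card := Finset.card_image_of_injOn hinj
      have h3 := hbox (c1 * m22 u - c2 * m12 u) (c2 * F u - c1 * m21 u) (strip_coprime u hc)
        (T.image re) (by
          intro r hr
          obtain ⟨v, hv, rfl⟩ := Finset.mem_image.mp hr
          have hvS : v ∈ S := by
            rw [hT, Finset.mem_filter, hS2, Finset.mem_filter] at hv
            exact hv.1.1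
          obtain ⟨h4, h5⟩ := hS v hvS
          have hv' := hre v hv
          constructor
          · have h6 : ((F u * F (re v) : ℕ) : ℝ) ≤ ((F (u ++ re v) : ℕ) : ℝ) := by
              exact_mod_cast F_mul_le u (re v)
            push_cast at h6
            rw [← hv'] at h6
            have h7 : M ≤ (F u : ℝ) := (mem_passF.mp hu).2.1
            have h8 : M * (F (re v) : ℝ) ≤ Y := by
              have : M * (F (re v) : ℝ) ≤ F u * F (re v) :=
                mul_le_mul_of_nonneg_right h7 (Nat.cast_nonneg _)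
              linarith
            have h9 : (F (re v) : ℝ) ≤ Y / M := by
              rw [le_div_iff₀ hM0]; linarith
            have h10 : Y / M = q := by rw [hM]; field_simp
            rw [h10] at h9
            exact h9
          · rw [← strip_class, ← hv']
            exact h5)
      rw [hcard] at h3
      exact h3
    calc (S.card : ℝ) = (S1.card : ℝ) + S2'.card := by rw [hsplit]; push_cast; ring
      _ ≤ Cw * M ^ sexp A + (Cp * M ^ sexp A) * (4 * q) := add_le_add h1 h2
      _ ≤ Cw * (M ^ sexp A * q) + (Cp * M ^ sexp A) * (4 * q) := by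
          have : M ^ sexp A ≤ M ^ sexp A * q := le_mul_of_one_le_right hMs.le hq1
          have := mul_le_mul_of_nonneg_left this hCw.le
          linarith
      _ ≤ (Cw + 4 * Cp + 4) * (M ^ sexp A * q) := by
          have : 0 ≤ M ^ sexp A * q := by positivity
          nlinarith
      _ = _ := by rw [hid, mul_assoc]

/-- number of passage words with `eta` in an interval: `eta_sep` -/
theorem eta_prefix {A : ℕ} {P D : ℝ} (hP : 1 < P) (hD : 0 ≤ D) (η₀ : ℝ)
    (S : Finset (List (Lt A)))
    (hS : ∀ u ∈ S, u ∈ passF A P ∧ |eta u - η₀| ≤ D / P ^ 2) :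
    (S.card : ℝ) ≤ 2 * D * (CA A) ^ 2 + 1 := by
  classical
  have hP0 : 0 < P := by linarith
  have hCA : 0 < CA A := by unfold CA; positivity
  have hinj : Set.InjOn (fun u : List (Lt A) => eta u) S := by
    intro u _ u' _ h
    by_contra hne
    have h1 := eta_sep hne
    simp only at h
    rw [h, sub_self, abs_zero] at h1
    have : (0 : ℝ) < 1 / ((F u : ℝ) * F u') := by
      have a1 : (0 : ℝ) < F u := by exact_mod_cast F_pos u
      have a2 : (0 : ℝ) < F u' := by exact_mod_cast F_pos u'
      positivity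
    linarith
  have hcard : (S.image (fun u : List (Lt A) => eta u)).card = S.card :=
    Finset.card_image_of_injOn hinj
  have hd : 0 < 1 / (CA A * P) ^ 2 := by positivity
  have h := MbF1_card_sep (S := S.image (fun u : List (Lt A) => eta u)) (x := η₀ - D / P ^ 2)
    (y := η₀ + D / P ^ 2) hd
    (by
      have : 0 ≤ D / P ^ 2 := by positivity
      linarith)
    (by
      intro s hs
      obtain ⟨u, hu, rfl⟩ := Finset.mem_image.mp hs
      have := abs_le.mp (hS u hu).2
      constructor <;> linarith)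
    (by
      intro s hs t ht hne
      obtain ⟨u, hu, rfl⟩ := Finset.mem_image.mp hs
      obtain ⟨u', hu', rfl⟩ := Finset.mem_image.mp ht
      have hne' : u ≠ u' := fun h => hne (by rw [h])
      refine le_trans ?_ (eta_sep hne')
      have a1 : (0 : ℝ) < F u := by exact_mod_cast F_pos u
      have a2 : (0 : ℝ) < F u' := by exact_mod_cast F_pos u'
      apply one_div_le_one_div_of_le (by positivity)
      rw [sq]
      exact mul_le_mul (passF_bounds (hS u hu).1).2 (passF_bounds (hS u' hu').1).2 a2.le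
        (by positivity))
  rw [hcard] at h
  calc (S.card : ℝ) ≤ (η₀ + D / P ^ 2 - (η₀ - D / P ^ 2)) / (1 / (CA A * P) ^ 2) + 1 := h
    _ = 2 * D * (CA A) ^ 2 + 1 := by field_simp; ring

/-- as `class_count` with the additional condition `|eta v - η₀| ≤ D / P^2`, `1 ≤ P`,
`P q ≤ Y`: if `P > 1` take the prefix `u` of `v` in `passF A P` (`F v ≥ P`), then
`|eta u - η₀| ≤ (D+1)/P^2` (`eta_append`, `cact_sub_eta`), `eta_prefix`; the rest satisfies
`F ≤ Y/P` and a class condition (`strip_class`): `class_count` with `Y/P` -/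
theorem near_class_count {A : ℕ} (hA : 2 ≤ A) : ∃ C : ℝ, 0 < C ∧ ∀ (q : ℕ) (Y P D η₀ : ℝ), 1 ≤ q →
    1 ≤ P → 0 ≤ D → P * q ≤ Y → ∀ c1 c2 : ℤ, IsCoprime c1 c2 → ∀ S : Finset (List (Lt A)),
    (∀ v ∈ S, (F v : ℝ) ≤ Y ∧ P ≤ (F v : ℝ) ∧ |eta v - η₀| ≤ D / P ^ 2 ∧
      (q : ℤ) ∣ c1 * m21 v - c2 * F v) →
    (S.card : ℝ) ≤ C * (1 + D) * (Y / P) ^ (sexp A) * (q : ℝ) ^ (1 - sexp A) := by
  classical
  obtain ⟨C, hC, hcl⟩ := class_count hA
  have hCA : 0 < CA A := by unfold CA; positivity
  refine ⟨C * (2 * (CA A) ^ 2 + 1), by positivity, ?_⟩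
  intro q Y P D η₀ hq hP1 hD hPq c1 c2 hc S hS
  have hq' : (0 : ℝ) < q := by exact_mod_cast hq
  have hP0 : 0 < P := by linarith
  have hqYP : (q : ℝ) ≤ Y / P := by rw [le_div_iff₀ hP0]; linarith
  have hYP : 0 < Y / P := lt_of_lt_of_le hq' hqYP
  set B := (Y / P) ^ (sexp A) * (q : ℝ) ^ (1 - sexp A) with hB
  have hB0 : 0 < B := by rw [hB]; positivity
  rcases eq_or_lt_of_le hP1 with hPe | hPlt
  · have h1 := hcl q (Y / P) hq hqYP c1 c2 hc S (by
      intro v hv
      obtain ⟨h2, _, _, h5⟩ := hS v hv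
      rw [← hPe, div_one]
      exact ⟨h2, h5⟩)
    calc (S.card : ℝ) ≤ C * (Y / P) ^ (sexp A) * (q : ℝ) ^ (1 - sexp A) := h1
      _ = C * 1 * 1 * B := by rw [hB]; ring
      _ ≤ C * (2 * (CA A) ^ 2 + 1) * (1 + D) * B := by
          apply mul_le_mul_of_nonneg_right _ hB0.le
          apply mul_le_mul _ (by linarith) (by norm_num) (by positivity)
          apply mul_le_mul_of_nonneg_left _ hC.le
          have : 0 ≤ 2 * (CA A) ^ 2 := by positivity
          linarith
      _ = _ := by rw [hB]; ring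
  · have hpre : ∀ v ∈ S, ∃ u ∈ passF A P, ∃ r, v = u ++ r := by
      intro v hv
      exact exists_pass_prefix hPlt (hS v hv).2.1
    choose! pr hpr using hpre
    have himg : ((S.image pr).card : ℝ) ≤ 2 * (D + 1) * (CA A) ^ 2 + 1 := by
      apply eta_prefix hPlt (by linarith) η₀
      intro u hu
      obtain ⟨v, hv, rfl⟩ := Finset.mem_image.mp hu
      obtain ⟨h1, r, hr⟩ := hpr v hv
      refine ⟨h1, ?_⟩
      have h2 := (hS v hv).2.2.1
      have h3 : |eta v - eta (pr v)| ≤ 1 / P ^ 2 := by
        have h4 := cact_sub_eta (pr v) (eta_mem r)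
        rw [← eta_append, ← hr] at h4
        refine h4.trans ?_
        apply one_div_le_one_div_of_le (by positivity)
        exact pow_le_pow_left₀ hP0.le (mem_passF.mp h1).2.1 2
      calc |eta (pr v) - η₀| = |(eta v - η₀) - (eta v - eta (pr v))| := by ring_nf
        _ ≤ |eta v - η₀| + |eta v - eta (pr v)| := abs_sub _ _
        _ ≤ D / P ^ 2 + 1 / P ^ 2 := add_le_add h2 h3
        _ = (D + 1) / P ^ 2 := by ring
    have hmain : (S.card : ℝ) ≤ (2 * (D + 1) * (CA A) ^ 2 + 1) *
        (C * (Y / P) ^ (sexp A) * (q : ℝ) ^ (1 - sexp A)) := by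
      apply MbC1_card_fib S (S.image pr) pr (fun v hv => Finset.mem_image_of_mem pr hv)
        (by positivity) himg
      intro u hu
      obtain ⟨v0, hv0, hv0u⟩ := Finset.mem_image.mp hu
      have hupass : u ∈ passF A P := by rw [← hv0u]; exact (hpr v0 hv0).1
      set T := S.filter (fun v => pr v = u) with hT
      have hrest : ∀ v ∈ T, ∃ r, v = u ++ r := by
        intro v hv
        rw [hT, Finset.mem_filter] at hv
        obtain ⟨_, r, hr⟩ := hpr v hv.1
        rw [hv.2] at hr
        exact ⟨r, hr⟩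
      choose! re hre using hrest
      have hinj : Set.InjOn re T := by
        intro v hv v' hv' h
        rw [hre v hv, hre v' hv', h]
      have hcard : (T.image re).card = T.card := Finset.card_image_of_injOn hinj
      have h3 := hcl q (Y / P) hq hqYP (c1 * m22 u - c2 * m12 u) (c2 * F u - c1 * m21 u)
        (strip_coprime u hc) (T.image re) (by
          intro r hr
          obtain ⟨v, hv, rfl⟩ := Finset.mem_image.mp hr
          have hvS : v ∈ S := by
            rw [hT, Finset.mem_filter] at hv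
            exact hv.1
          obtain ⟨h4, _, _, h5⟩ := hS v hvS
          have hv' := hre v hv
          constructor
          · have h6 : ((F u * F (re v) : ℕ) : ℝ) ≤ ((F (u ++ re v) : ℕ) : ℝ) := by
              exact_mod_cast F_mul_le u (re v)
            push_cast at h6
            rw [← hv'] at h6
            have h7 : P ≤ (F u : ℝ) := (mem_passF.mp hupass).2.1
            have h8 : P * (F (re v) : ℝ) ≤ F u * F (re v) :=
              mul_le_mul_of_nonneg_right h7 (Nat.cast_nonneg _)
            rw [le_div_iff₀ hP0]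
            linarith
          · rw [← strip_class, ← hv']
            exact h5)
      rw [hcard] at h3
      exact h3
    calc (S.card : ℝ) ≤ (2 * (D + 1) * (CA A) ^ 2 + 1) *
          (C * (Y / P) ^ (sexp A) * (q : ℝ) ^ (1 - sexp A)) := hmain
      _ = (2 * (D + 1) * (CA A) ^ 2 + 1) * (C * B) := by rw [hB]; ring
      _ ≤ ((2 * (CA A) ^ 2 + 1) * (1 + D)) * (C * B) := by
          apply mul_le_mul_of_nonneg_right _ (by positivity)
          nlinarith
      _ = _ := by rw [hB]; ring

end Pool.Agent.W_f50700_h13
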