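import Pool.Agent.W_f50700_h13.MbF1
import Pool.Agent.W_f50700_h13.MbC1

/-!
Zc2: rigidity of close fractions, arc counting, counting the integers `k`.
-/

namespace Pool.Agent.W_f50700_h13

open Pool.Agent.W_f50700_h3

/-- two numbers `a m / q`, `a' m' / q'` with `q, q' < 2Q` are equal mod 1 or at distance at least
`1/(4Q^2)` mod 1 -/
theorem frac_gap {Q : ℕ} {p p' : ℕ × ℕ} (hp : p ∈ farey Q) (hp' : p' ∈ farey Q) (m m' : ℕ)
    (h : dist1 (frac p * m - frac p' * m') < 1 / (4 * (Q : ℝ) ^ 2)) :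
    ∃ k : ℤ, frac p * m - frac p' * m' = k := by
  rw [mem_farey] at hp hp'
  obtain ⟨h1, h2, h3, h4⟩ := hp
  obtain ⟨h1', h2', h3', h4'⟩ := hp'
  have hQ : 0 < Q := by omega
  have hq : 0 < p.1 := by omega
  have hq' : 0 < p'.1 := by omega
  have hqr : (0 : ℝ) < p.1 := by exact_mod_cast hq
  have hqr' : (0 : ℝ) < p'.1 := by exact_mod_cast hq'
  have hQr : (0 : ℝ) < Q := by exact_mod_cast hQ
  obtain ⟨k, hk⟩ := exists_int_dist1 (frac p * m - frac p' * m')
  rw [← hk] at h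
  refine ⟨k, ?_⟩
  have e1 : frac p * m - frac p' * m' - k =
      ((p.2 * m * p'.1 - p'.2 * m' * p.1 - k * p.1 * p'.1 : ℤ) : ℝ) / (p.1 * p'.1) := by
    unfold frac
    push_cast
    field_simp
  rw [e1, abs_div, abs_of_pos (by positivity : (0 : ℝ) < p.1 * p'.1),
    div_lt_iff₀ (by positivity)] at h
  have h9 : (p.1 : ℝ) * p'.1 ≤ 4 * (Q : ℝ) ^ 2 := by
    have b1 : (p.1 : ℝ) ≤ 2 * Q := by exact_mod_cast h2.le
    have b2 : (p'.1 : ℝ) ≤ 2 * Q := by exact_mod_cast h2'.le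
    nlinarith
  have h10 : |((p.2 * m * p'.1 - p'.2 * m' * p.1 - k * p.1 * p'.1 : ℤ) : ℝ)| < 1 := by
    refine h.trans_le ?_
    rw [one_div_mul_eq_div, div_le_one (by positivity)]
    exact h9
  have h11 : (p.2 * m * p'.1 - p'.2 * m' * p.1 - k * p.1 * p'.1 : ℤ) = 0 := by
    have : |(p.2 * m * p'.1 - p'.2 * m' * p.1 - k * p.1 * p'.1 : ℤ)| < 1 := by exact_mod_cast h10
    exact Int.abs_lt_one_iff.mp this
  rw [h11] at e1
  simp at e1
  linarith

/-- rigidity: `(a x/q, a y/q) = (a' x'/q', a' y'/q')` mod 1 with coprime `x, y` and coprime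
`x', y'` forces `q = q'`, `a x = a' x'`, `a y = a' y'` mod `q` and `q ∣ x y' - y x'` -/
theorem rigid {Q : ℕ} {p p' : ℕ × ℕ} (hp : p ∈ farey Q) (hp' : p' ∈ farey Q) {x y x' y' : ℕ}
    (hc : Nat.Coprime x y) (hc' : Nat.Coprime x' y')
    (h1 : dist1 (frac p * x - frac p' * x') < 1 / (4 * (Q : ℝ) ^ 2))
    (h2 : dist1 (frac p * y - frac p' * y') < 1 / (4 * (Q : ℝ) ^ 2)) :
    p.1 = p'.1 ∧ (p.1 : ℤ) ∣ (x : ℤ) * y' - y * x' ∧ (p.1 : ℤ) ∣ (p.2 : ℤ) * x - p'.2 * x' ∧
      (p.1 : ℤ) ∣ (p.2 : ℤ) * y - p'.2 * y' := by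
  obtain ⟨k, hk⟩ := frac_gap hp hp' x x' h1
  obtain ⟨l, hl⟩ := frac_gap hp hp' y y' h2
  rw [mem_farey] at hp hp'
  obtain ⟨a1, a2, a3, a4⟩ := hp
  obtain ⟨b1, b2, b3, b4⟩ := hp'
  have hq : 0 < p.1 := by omega
  have hq' : 0 < p'.1 := by omega
  have hqr : (0 : ℝ) < p.1 := by exact_mod_cast hq
  have hqr' : (0 : ℝ) < p'.1 := by exact_mod_cast hq'
  have ek : (p.2 * x * p'.1 - p'.2 * x' * p.1 : ℤ) = k * p.1 * p'.1 := by
    unfold frac at hk
    have : (p.2 * x * p'.1 - p'.2 * x' * p.1 : ℝ) = k * p.1 * p'.1 := by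
      field_simp at hk
      linarith
    exact_mod_cast this
  have el : (p.2 * y * p'.1 - p'.2 * y' * p.1 : ℤ) = l * p.1 * p'.1 := by
    unfold frac at hl
    have : (p.2 * y * p'.1 - p'.2 * y' * p.1 : ℝ) = l * p.1 * p'.1 := by
      field_simp at hl
      linarith
    exact_mod_cast this
  have c1 : IsCoprime (p.1 : ℤ) (p.2 : ℤ) := (Nat.isCoprime_iff_coprime.mpr a4).symm
  have c2 : IsCoprime (p'.1 : ℤ) (p'.2 : ℤ) := (Nat.isCoprime_iff_coprime.mpr b4).symm
  have hcz : IsCoprime (x : ℤ) (y : ℤ) := Nat.isCoprime_iff_coprime.mpr hc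
  have hcz' : IsCoprime (x' : ℤ) (y' : ℤ) := Nat.isCoprime_iff_coprime.mpr hc'
  -- q ∣ q'
  have d1 : (p.1 : ℤ) ∣ p'.1 := by
    have e1 : (p.1 : ℤ) ∣ p.2 * (x * p'.1) := ⟨p'.2 * x' + k * p'.1, by linear_combination ek⟩
    have e2 : (p.1 : ℤ) ∣ p.2 * (y * p'.1) := ⟨p'.2 * y' + l * p'.1, by linear_combination el⟩
    have f1 := c1.dvd_of_dvd_mul_left e1
    have f2 := c1.dvd_of_dvd_mul_left e2
    obtain ⟨u, v, huv⟩ := hcz
    have : (p'.1 : ℤ) = u * (x * p'.1) + v * (y * p'.1) := by linear_combination -(p'.1 : ℤ) * huv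
    rw [this]
    exact dvd_add (Dvd.dvd.mul_left f1 u) (Dvd.dvd.mul_left f2 v)
  have d2 : (p'.1 : ℤ) ∣ p.1 := by
    have e1 : (p'.1 : ℤ) ∣ p'.2 * (x' * p.1) := ⟨p.2 * x - k * p.1, by linear_combination -ek⟩
    have e2 : (p'.1 : ℤ) ∣ p'.2 * (y' * p.1) := ⟨p.2 * y - l * p.1, by linear_combination -el⟩
    have f1 := c2.dvd_of_dvd_mul_left e1
    have f2 := c2.dvd_of_dvd_mul_left e2
    obtain ⟨u, v, huv⟩ := hcz'
    have : (p.1 : ℤ) = u * (x' * p.1) + v * (y' * p.1) := by linear_combination -(p.1 : ℤ) * huv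
    rw [this]
    exact dvd_add (Dvd.dvd.mul_left f1 u) (Dvd.dvd.mul_left f2 v)
  have hqq : p.1 = p'.1 := Nat.dvd_antisymm (by exact_mod_cast d1) (by exact_mod_cast d2)
  have hq0 : (p.1 : ℤ) ≠ 0 := by omega
  have g1 : (p.1 : ℤ) ∣ (p.2 : ℤ) * x - p'.2 * x' := by
    refine ⟨k, ?_⟩
    rw [← hqq] at ek
    apply mul_left_cancel₀ hq0
    linear_combination ek
  have g2 : (p.1 : ℤ) ∣ (p.2 : ℤ) * y - p'.2 * y' := by
    refine ⟨l, ?_⟩
    rw [← hqq] at el
    apply mul_left_cancel₀ hq0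
    linear_combination el
  refine ⟨hqq, ?_, g1, g2⟩
  apply c1.dvd_of_dvd_mul_left
  obtain ⟨u, hu⟩ := g1
  obtain ⟨v, hv⟩ := g2
  refine ⟨u * y' - v * x', ?_⟩
  linear_combination (y' : ℤ) * hu - (x' : ℤ) * hv

/-- the numerator is determined by the class -/
theorem farey_unique {Q : ℕ} {p p' : ℕ × ℕ} (hp : p ∈ farey Q) (hp' : p' ∈ farey Q)
    (hq : p.1 = p'.1) {x y : ℕ} (hc : Nat.Coprime x y)
    (h1 : (p.1 : ℤ) ∣ (p.2 : ℤ) * x - p'.2 * x) (h2 : (p.1 : ℤ) ∣ (p.2 : ℤ) * y - p'.2 * y) :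
    p = p' := by
  rw [mem_farey] at hp hp'
  obtain ⟨a1, a2, a3, a4⟩ := hp
  obtain ⟨b1, b2, b3, b4⟩ := hp'
  have hcz : IsCoprime (x : ℤ) (y : ℤ) := Nat.isCoprime_iff_coprime.mpr hc
  have h3 : (p.1 : ℤ) ∣ (p.2 : ℤ) - p'.2 := by
    obtain ⟨u, v, huv⟩ := hcz
    have : (p.2 : ℤ) - p'.2 = u * ((p.2 : ℤ) * x - p'.2 * x) + v * ((p.2 : ℤ) * y - p'.2 * y) := by
      linear_combination -((p.2 : ℤ) - p'.2) * huv
    rw [this]
    exact dvd_add (Dvd.dvd.mul_left h1 u) (Dvd.dvd.mul_left h2 v)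
  have h4 : (p.2 : ℤ) - p'.2 = 0 := by
    apply Int.eq_zero_of_abs_lt_dvd h3
    rw [abs_lt]
    omega
  apply Prod.ext hq
  omega

/-- points near `φ` mod 1, separated mod 1 (as `farey_arc_count`) -/
theorem sep_arc_count {S : Finset ℝ} {φ ℓ d : ℝ} (hd : 0 < d) (hℓ : 0 ≤ ℓ)
    (h1 : ∀ s ∈ S, dist1 (s - φ) ≤ ℓ) (h2 : ∀ s ∈ S, ∀ t ∈ S, s ≠ t → d ≤ dist1 (s - t)) :
    (S.card : ℝ) ≤ 1 + 2 * ℓ / d := by
  classical
  set g : ℝ → ℝ := fun s => s - φ - round (s - φ) with hg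
  have hgle : ∀ s ∈ S, |g s| ≤ ℓ := fun s hs => h1 s hs
  have hsep : ∀ s ∈ S, ∀ t ∈ S, s ≠ t → d ≤ |g s - g t| := by
    intro s hs t ht hne
    refine (h2 s hs t ht hne).trans ?_
    have := dist1_le_abs_sub (s - t) (round (s - φ) - round (t - φ))
    refine this.trans (le_of_eq ?_)
    rw [hg]
    push_cast
    congr 1
    ring
  have hinj : Set.InjOn g S := by
    intro s hs t ht hst
    by_contra hne
    have := hsep s hs t ht hne
    rw [hst, sub_self, abs_zero] at this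
    linarith
  have hcard : (S.image g).card = S.card := Finset.card_image_of_injOn hinj
  have := MbF1_card_sep (S := S.image g) (x := -ℓ) (y := ℓ) hd (by linarith)
    (by
      intro s hs
      obtain ⟨p, hp, rfl⟩ := Finset.mem_image.mp hs
      exact abs_le.mp (hgle p hp))
    (by
      intro s hs t ht hne
      obtain ⟨p, hp, rfl⟩ := Finset.mem_image.mp hs
      obtain ⟨p', hp', rfl⟩ := Finset.mem_image.mp ht
      exact hsep p hp p' hp' (fun h => hne (by rw [h])))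
  rw [hcard] at this
  calc (S.card : ℝ) ≤ (ℓ - -ℓ) / d + 1 := this
    _ = 1 + 2 * ℓ / d := by ring

/-- number of integers `k`, `|k + σ| ≤ T2`, with `φ - (k + σ) c / N` within `η` of an integer:
at most `2 T2 c / N + 2` integers, for each of them `k` lies in an interval of length
`2 η N / c` -/
theorem kcount {φ σ c N T2 η : ℝ} (hc : 0 < c) (hN : 0 < N) (hT : 0 ≤ T2) (hη : 0 ≤ η)
    (S : Finset ℤ) (hS : ∀ k ∈ S, |(k : ℝ) + σ| ≤ T2 ∧ dist1 (φ - ((k : ℝ) + σ) / N * c) ≤ η)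
    (hη2 : η ≤ 1 / 2) :
    (S.card : ℝ) ≤ (2 * T2 * c / N + 2) * (2 * η * N / c + 1) := by
  classical
  set g : ℤ → ℤ := fun k => round (φ - ((k : ℝ) + σ) / N * c) with hg
  have hdist : ∀ k ∈ S, |φ - ((k : ℝ) + σ) / N * c - g k| ≤ η := fun k hk => (hS k hk).2
  have hTN : 0 ≤ T2 * c / N := by positivity
  -- image
  have himg : ((S.image g).card : ℝ) ≤ 2 * T2 * c / N + 2 := by
    have := MbC1_card_class (q := 1) le_rfl (S.image g) (φ - T2 * c / N - η) (φ + T2 * c / N + η)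
      (by linarith)
      (by
        intro l hl
        obtain ⟨k, hk, rfl⟩ := Finset.mem_image.mp hl
        have h1 := abs_le.mp (hdist k hk)
        have h2 := abs_le.mp (hS k hk).1
        have h3 : ((k : ℝ) + σ) / N * c ≤ T2 * c / N := by
          rw [div_mul_eq_mul_div]
          apply div_le_div_of_nonneg_right _ hN.le
          exact mul_le_mul_of_nonneg_right h2.2 hc.le
        have h4 : -(T2 * c / N) ≤ ((k : ℝ) + σ) / N * c := by
          rw [div_mul_eq_mul_div, ← neg_div]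
          apply div_le_div_of_nonneg_right _ hN.le
          rw [← neg_mul]
          exact mul_le_mul_of_nonneg_right h2.1 hc.le
        constructor <;> linarith)
      (fun m _ m' _ => by simp)
    refine this.trans ?_
    have e1 : (φ + T2 * c / N + η - (φ - T2 * c / N - η)) / ((1 : ℕ) : ℝ) + 1 =
        2 * T2 * c / N + (2 * η + 1) := by push_cast; ring
    rw [e1]
    linarith
  have hfib : ∀ l ∈ S.image g, (((S.filter (fun k => g k = l)).card : ℕ) : ℝ) ≤
      2 * η * N / c + 1 := by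
    intro l _
    have := MbC1_card_class (q := 1) le_rfl (S.filter (fun k => g k = l))
      ((φ - l - η) * N / c - σ) ((φ - l + η) * N / c - σ)
      (by
        have : (φ - l - η) * N / c ≤ (φ - l + η) * N / c := by
          apply div_le_div_of_nonneg_right _ hc.le
          apply mul_le_mul_of_nonneg_right _ hN.le
          linarith
        linarith)
      (by
        intro k hk
        rw [Finset.mem_filter] at hk
        have h1 := abs_le.mp (hdist k hk.1)
        rw [hk.2] at h1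
        have e2 : ((k : ℝ) + σ) / N * c = ((k : ℝ) + σ) * (c / N) := by ring
        rw [e2] at h1
        have hcN : 0 < c / N := by positivity
        constructor
        · have : (φ - l - η) * N / c ≤ (k : ℝ) + σ := by
            rw [div_le_iff₀ hc]
            have h5 : φ - l - η ≤ ((k : ℝ) + σ) * (c / N) := by linarith
            calc (φ - l - η) * N ≤ ((k : ℝ) + σ) * (c / N) * N :=
                  mul_le_mul_of_nonneg_right h5 hN.le
              _ = ((k : ℝ) + σ) * c := by field_simp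
          linarith
        · have : (k : ℝ) + σ ≤ (φ - l + η) * N / c := by
            rw [le_div_iff₀ hc]
            have h5 : ((k : ℝ) + σ) * (c / N) ≤ φ - l + η := by linarith
            calc ((k : ℝ) + σ) * c = ((k : ℝ) + σ) * (c / N) * N := by field_simp
              _ ≤ (φ - l + η) * N := mul_le_mul_of_nonneg_right h5 hN.le
          linarith)
      (fun m _ m' _ => by simp)
    refine this.trans (le_of_eq ?_)
    push_cast
    field_simp
    ring
  exact MbC1_card_fib S (S.image g) g (fun m hm => Finset.mem_image_of_mem g hm)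
    (by positivity) himg hfib

end Pool.Agent.W_f50700_h13
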