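import Pool.Agent.W_f50700_h13.Zs2

/-!
Zd1: discretization of integrals over arcs.
-/

open MeasureTheory

namespace Pool.Agent.W_f50700_h13

open Pool.Agent.W_f50700_h3

/-- grid points: fractions with denominators in `[Q, 2Q)` and integers `k` with
`T1 ≤ |k + σ| ≤ T2` -/
noncomputable def grid (Q : ℕ) (σ T1 T2 : ℝ) : Finset Gp := by
  classical
  exact farey Q ×ˢ (Finset.Icc (-(⌈T2⌉ + 2)) (⌈T2⌉ + 2)).filter
    (fun k : ℤ => T1 ≤ |(k : ℝ) + σ| ∧ |(k : ℝ) + σ| ≤ T2)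

/-- the point `a/q + (k + σ)/N` -/
noncomputable def gpt (N σ : ℝ) (z : Gp) : ℝ := frac z.1 + ((z.2 : ℝ) + σ) / N

theorem mem_grid {Q : ℕ} {σ T1 T2 : ℝ} (hσ : σ ∈ Set.Icc (0 : ℝ) 1) {z : Gp} :
    z ∈ grid Q σ T1 T2 ↔ z.1 ∈ farey Q ∧ T1 ≤ |(z.2 : ℝ) + σ| ∧ |(z.2 : ℝ) + σ| ≤ T2 := by
  classical
  unfold grid
  rw [Finset.mem_product, Finset.mem_filter, Finset.mem_Icc]
  constructor
  · rintro ⟨h1, -, h2⟩
    exact ⟨h1, h2⟩
  · rintro ⟨h1, h2, h3⟩
    refine ⟨h1, ⟨?_, ?_⟩, h2, h3⟩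
    · have h4 := (abs_le.1 h3).1
      have h5 := Int.le_ceil T2
      have h6 : (-((⌈T2⌉ : ℝ) + 2)) ≤ (z.2 : ℝ) := by linarith [hσ.2]
      exact_mod_cast h6
    · have h4 := (abs_le.1 h3).2
      have h5 := Int.le_ceil T2
      have h6 : (z.2 : ℝ) ≤ (⌈T2⌉ : ℝ) + 2 := by linarith [hσ.1]
      exact_mod_cast h6

/-- the set of `β` with `T1 ≤ N |β| ≤ T2` -/
def annu (N T1 T2 : ℝ) : Set ℝ := {β : ℝ | T1 ≤ N * |β| ∧ N * |β| ≤ T2}

theorem measurableSet_annu (N T1 T2 : ℝ) : MeasurableSet (annu N T1 T2) := by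
  have h1 : Measurable fun β : ℝ => N * |β| := by fun_prop
  exact (measurableSet_le measurable_const h1).inter (measurableSet_le h1 measurable_const)

theorem isBounded_annu {N : ℝ} (hN : 0 < N) (T1 T2 : ℝ) : Bornology.IsBounded (annu N T1 T2) := by
  refine (Metric.isBounded_closedBall (x := (0 : ℝ)) (r := T2 / N)).subset ?_
  rintro β ⟨-, h⟩
  rw [mem_closedBall_zero_iff, Real.norm_eq_abs, le_div_iff₀ hN]
  linarith

/-- the set `T1 ≤ |x| ≤ T2` -/
private def Zd1A (T1 T2 : ℝ) : Set ℝ := {x : ℝ | T1 ≤ |x| ∧ |x| ≤ T2}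

private theorem Zd1A_meas (T1 T2 : ℝ) : MeasurableSet (Zd1A T1 T2) := by
  have h1 : Measurable fun β : ℝ => |β| := by fun_prop
  exact (measurableSet_le measurable_const h1).inter (measurableSet_le h1 measurable_const)

private theorem Zd1_int (c : ℝ → ℝ) (hc : Continuous c) (T1 T2 : ℝ) {s : Set ℝ}
    (hs : Bornology.IsBounded s) : IntegrableOn ((Zd1A T1 T2).indicator c) s := by
  have h1 : IntegrableOn c s := by
    obtain ⟨r, hr⟩ := hs.subset_closedBall (0 : ℝ)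
    exact (hc.continuousOn.integrableOn_compact (isCompact_closedBall (0 : ℝ) r)).mono_set hr
  exact h1.indicator (Zd1A_meas T1 T2)

private theorem Zd1_shift (c : ℝ → ℝ) (hc : Continuous c) (T1 T2 : ℝ) (k : ℤ) :
    Integrable (fun σ : ℝ => (Zd1A T1 T2).indicator c ((k : ℝ) + σ))
      (volume.restrict (Set.Ioc (0 : ℝ) 1)) := by
  have h1 : IntegrableOn (fun σ : ℝ => c ((k : ℝ) + σ)) (Set.Ioc (0 : ℝ) 1) := by
    have h2 : Continuous fun σ : ℝ => c ((k : ℝ) + σ) := hc.comp (by fun_prop)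
    exact (h2.continuousOn.integrableOn_compact (isCompact_Icc (a := (0 : ℝ)) (b := 1))).mono_set
      Set.Ioc_subset_Icc_self
  have h3 : (fun σ : ℝ => (Zd1A T1 T2).indicator c ((k : ℝ) + σ)) =
      ((fun σ : ℝ => (k : ℝ) + σ) ⁻¹' (Zd1A T1 T2)).indicator (fun σ : ℝ => c ((k : ℝ) + σ)) := by
    funext σ
    by_cases h : (k : ℝ) + σ ∈ Zd1A T1 T2
    · rw [Set.indicator_of_mem h, Set.indicator_of_mem (show σ ∈ (fun σ : ℝ => (k : ℝ) + σ) ⁻¹'
        (Zd1A T1 T2) from h)]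
    · rw [Set.indicator_of_notMem h, Set.indicator_of_notMem (show σ ∉ (fun σ : ℝ => (k : ℝ) + σ)
        ⁻¹' (Zd1A T1 T2) from h)]
  rw [h3]
  exact h1.indicator ((measurable_const_add (k : ℝ)) (Zd1A_meas T1 T2))

/-- cutting the line at the integers -/
private theorem Zd1_cut (c : ℝ → ℝ) (hc : Continuous c) (T1 T2 : ℝ) (K : ℕ)
    (hK : T2 + 1 ≤ K) :
    ∫ x, (Zd1A T1 T2).indicator c x = ∑ k ∈ Finset.Icc (-(K : ℤ)) K,
      ∫ σ in Set.Ioc (0 : ℝ) 1, (Zd1A T1 T2).indicator c ((k : ℝ) + σ) := by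
  have h1 : ∫ x, (Zd1A T1 T2).indicator c x =
      ∫ x in ⋃ k ∈ Finset.Icc (-(K : ℤ)) K, Set.Ioc (k : ℝ) (k + 1),
        (Zd1A T1 T2).indicator c x := by
    refine (setIntegral_eq_integral_of_forall_compl_eq_zero fun x hx => ?_).symm
    rw [Set.indicator_of_notMem]
    rintro ⟨-, h2⟩
    apply hx
    have h3 := abs_le.1 h2
    have h4 := Int.le_ceil x
    have h5 := Int.ceil_lt_add_one x
    simp only [Set.mem_iUnion, Finset.mem_Icc, Set.mem_Ioc]
    refine ⟨⌈x⌉ - 1, ⟨?_, ?_⟩, ?_, ?_⟩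
    · have h6 : (-(K : ℝ)) ≤ (⌈x⌉ : ℝ) - 1 := by linarith
      exact_mod_cast h6
    · have h6 : (⌈x⌉ : ℝ) - 1 ≤ (K : ℝ) := by linarith
      exact_mod_cast h6
    · push_cast
      linarith
    · push_cast
      linarith
  rw [h1, integral_biUnion_finset _ (fun k _ => measurableSet_Ioc) _
    (fun k _ => Zd1_int c hc T1 T2 (Metric.isBounded_Ioc _ _))]
  · refine Finset.sum_congr rfl fun k _ => ?_
    rw [← intervalIntegral.integral_of_le (by linarith),
      ← intervalIntegral.integral_of_le (by norm_num),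
      intervalIntegral.integral_comp_add_left (fun x => (Zd1A T1 T2).indicator c x) (k : ℝ),
      add_zero]
  · intro i _ j _ hij
    change Disjoint (Set.Ioc (i : ℝ) (i + 1)) (Set.Ioc (j : ℝ) (j + 1))
    rw [Set.Ioc_disjoint_Ioc]
    rcases lt_or_gt_of_ne hij with h | h
    · have h2 : (i : ℝ) + 1 ≤ j := by exact_mod_cast h
      exact (min_le_left _ _).trans (h2.trans (le_max_right _ _))
    · have h2 : (j : ℝ) + 1 ≤ i := by exact_mod_cast h
      exact (min_le_right _ _).trans (h2.trans (le_max_left _ _))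

/-- `int_{annu} f(frac p + β) dβ = (1/N) int_0^1 sum_k 1[T1 ≤ |k+σ| ≤ T2] f(frac p + (k+σ)/N) dσ`
(substitution `β = x/N`, cut the line at the integers) -/
theorem discretize {f : ℝ → ℝ} (hf : Continuous f) (hf0 : ∀ x, 0 ≤ f x) (Q : ℕ) {N T1 T2 B : ℝ}
    (hN : 0 < N) (hB : ∀ σ ∈ Set.Icc (0 : ℝ) 1, ∑ z ∈ grid Q σ T1 T2, f (gpt N σ z) ≤ B) :
    ∑ p ∈ farey Q, ∫ β in annu N T1 T2, f (frac p + β) ≤ B / N := by
  classical
  set c : ℝ → ℝ := fun x => ∑ p ∈ farey Q, f (frac p + x / N) with hcdef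
  have hc : Continuous c := by
    refine continuous_finsetSum _ fun p _ => hf.comp (by fun_prop)
  have h1 : ∑ p ∈ farey Q, ∫ β in annu N T1 T2, f (frac p + β) =
      ∫ β in annu N T1 T2, ∑ p ∈ farey Q, f (frac p + β) := by
    rw [integral_finsetSum]
    intro p _
    obtain ⟨r, hr⟩ := (isBounded_annu hN T1 T2).subset_closedBall (0 : ℝ)
    have h2 : Continuous fun β => f (frac p + β) := hf.comp (by fun_prop)
    exact (h2.continuousOn.integrableOn_compact (isCompact_closedBall (0 : ℝ) r)).mono_set hr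
  have h2 : ∫ β in annu N T1 T2, ∑ p ∈ farey Q, f (frac p + β) =
      ∫ β, (Zd1A T1 T2).indicator c (N * β) := by
    rw [← integral_indicator (measurableSet_annu N T1 T2)]
    refine integral_congr_ae (Filter.Eventually.of_forall fun β => ?_)
    have h3 : N * β ∈ Zd1A T1 T2 ↔ β ∈ annu N T1 T2 := by
      simp only [Zd1A, annu, Set.mem_ofPred_eq, abs_mul, abs_of_pos hN]
    show (annu N T1 T2).indicator _ β = (Zd1A T1 T2).indicator c (N * β)
    by_cases h4 : β ∈ annu N T1 T2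
    · rw [Set.indicator_of_mem h4, Set.indicator_of_mem (h3.2 h4)]
      refine Finset.sum_congr rfl fun p _ => ?_
      rw [mul_div_cancel_left₀ _ hN.ne']
    · rw [Set.indicator_of_notMem h4, Set.indicator_of_notMem (fun h => h4 (h3.1 h))]
  rw [h1, h2, Measure.integral_comp_mul_left (fun x => (Zd1A T1 T2).indicator c x) N,
    abs_of_pos (inv_pos.2 hN), smul_eq_mul, div_eq_inv_mul]
  refine mul_le_mul_of_nonneg_left ?_ (inv_pos.2 hN).le
  obtain ⟨K, hK⟩ := exists_nat_ge (T2 + 1)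
  rw [Zd1_cut c hc T1 T2 K hK, ← integral_finsetSum]
  · have h5 : ∀ σ ∈ Set.Ioc (0 : ℝ) 1, ∑ k ∈ Finset.Icc (-(K : ℤ)) K,
        (Zd1A T1 T2).indicator c ((k : ℝ) + σ) ≤ B := by
      intro σ hσ
      have hσ' : σ ∈ Set.Icc (0 : ℝ) 1 := ⟨hσ.1.le, hσ.2⟩
      refine le_trans (le_of_eq ?_) (hB σ hσ')
      have h6 : grid Q σ T1 T2 = farey Q ×ˢ (Finset.Icc (-(K : ℤ)) K).filter
          (fun k : ℤ => T1 ≤ |(k : ℝ) + σ| ∧ |(k : ℝ) + σ| ≤ T2) := by
        ext z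
        rw [mem_grid hσ', Finset.mem_product, Finset.mem_filter, Finset.mem_Icc]
        constructor
        · rintro ⟨h7, h8, h9⟩
          refine ⟨h7, ⟨?_, ?_⟩, h8, h9⟩
          · have h10 := (abs_le.1 h9).1
            have h11 : (-(K : ℝ)) ≤ (z.2 : ℝ) := by linarith [hσ.2]
            exact_mod_cast h11
          · have h10 := (abs_le.1 h9).2
            have h11 : (z.2 : ℝ) ≤ (K : ℝ) := by linarith [hσ.1]
            exact_mod_cast h11
        · rintro ⟨h7, -, h8⟩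
          exact ⟨h7, h8⟩
      rw [h6, Finset.sum_product_right, Finset.sum_filter]
      refine Finset.sum_congr rfl fun k _ => ?_
      by_cases h7 : T1 ≤ |(k : ℝ) + σ| ∧ |(k : ℝ) + σ| ≤ T2
      · rw [if_pos h7, Set.indicator_of_mem (show (k : ℝ) + σ ∈ Zd1A T1 T2 from h7)]
        rfl
      · rw [if_neg h7, Set.indicator_of_notMem (show (k : ℝ) + σ ∉ Zd1A T1 T2 from h7)]
    have h6 : ∫ σ in Set.Ioc (0 : ℝ) 1, ∑ k ∈ Finset.Icc (-(K : ℤ)) K,
        (Zd1A T1 T2).indicator c ((k : ℝ) + σ) ≤ ∫ _σ in Set.Ioc (0 : ℝ) 1, B := by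
      refine setIntegral_mono_on ?_ ?_ measurableSet_Ioc h5
      · refine integrable_finsetSum _ fun k _ => ?_
        exact Zd1_shift c hc T1 T2 k
      · exact integrableOn_const (by simp)
    refine h6.trans (le_of_eq ?_)
    rw [setIntegral_const]
    simp
  · intro k _
    exact Zd1_shift c hc T1 T2 k

end Pool.Agent.W_f50700_h13
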