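import Pool.Agent.W_f50700_h13.Zc1
import Pool.Agent.W_f50700_h13.Zc2
import Pool.Agent.W_f50700_h13.Zd1

/-!
Zc3: regime 1 (`X = 40 Q^2 T`), near count.
-/

namespace Pool.Agent.W_f50700_h13

open Pool.Agent.W_f50700_h3

/-- lower end of the near range -/
noncomputable def tlow (T : ℝ) : ℝ := if T ≤ 4 then 0 else T / 2

/-- numerical facts for regime 1 -/
theorem Zc3_num {A : ℕ} (hA : 2 ≤ A) {Q : ℕ} {T X : ℝ} (hQ : 1 ≤ Q) (hT : 1 ≤ T)
    (hX : X = 40 * (Q : ℝ) ^ 2 * T) :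
    0 < X ∧ 1 < X ∧ CA A * X ≤ (Rb A X : ℝ) ∧ (0 : ℝ) < Rb A X ∧ 10 ≤ CA A ∧
      6 * T / X = 3 / (20 * (Q : ℝ) ^ 2) ∧
      1 / (2 * (Rb A X : ℝ)) ≤ 1 / (800 * (Q : ℝ) ^ 2) := by
  have hQr : (1 : ℝ) ≤ Q := by exact_mod_cast hQ
  have hQ2 : (1 : ℝ) ≤ (Q : ℝ) ^ 2 := one_le_pow₀ hQr
  have hT0 : 0 < T := by linarith
  have hX1 : 40 ≤ X := by
    rw [hX]
    nlinarith
  have hCA : 10 ≤ CA A := by
    unfold CA
    have h1 : (2 : ℝ) ≤ A := by exact_mod_cast hA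
    nlinarith
  have hR : CA A * X ≤ (Rb A X : ℝ) := by
    unfold Rb
    push_cast
    exact (Nat.lt_floor_add_one _).le
  have hR10 : 10 * X ≤ (Rb A X : ℝ) := le_trans (by nlinarith) hR
  have hR0 : (0 : ℝ) < Rb A X := by linarith
  refine ⟨by linarith, by linarith, hR, hR0, hCA, ?_, ?_⟩
  · rw [hX]
    field_simp
    norm_num
  · apply one_div_le_one_div_of_le (by positivity)
    have h2 : 40 * (Q : ℝ) ^ 2 ≤ X := by
      rw [hX]
      nlinarith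
    linarith

/-- size of the perturbation -/
theorem Zc3_beta {T X Y : ℝ} (hT : 0 ≤ T) (hX : 0 < X) (hY : 0 < Y) {x : ℝ} (hx : |x| ≤ 3 * T)
    {c : ℝ} (hc0 : 0 ≤ c) (hc : c ≤ Y) : |x / (X * Y) * c| ≤ 3 * T / X := by
  rw [abs_mul, abs_div, abs_of_pos (mul_pos hX hY), abs_of_nonneg hc0]
  calc |x| / (X * Y) * c ≤ (3 * T) / (X * Y) * Y := by
        apply mul_le_mul _ hc hc0 (by positivity)
        exact div_le_div_of_nonneg_right hx (by positivity)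
    _ = 3 * T / X := by field_simp

/-- one coordinate -/
theorem Zc3_coord {A : ℕ} (hA : 2 ≤ A) {Q : ℕ} {T X Y σ : ℝ} (hQ : 1 ≤ Q) (hT : 1 ≤ T)
    (hX : X = 40 * (Q : ℝ) ^ 2 * T) (hY : 1 ≤ Y)
    {j j' : Gp} (hj : j.1 ∈ farey Q) (hj' : j'.1 ∈ farey Q)
    (hb : |(j.2 : ℝ) + σ| ≤ 3 * T) (hb' : |(j'.2 : ℝ) + σ| ≤ 3 * T)
    {c c' : ℕ} (hc : (c : ℝ) ≤ Y) (hc' : (c' : ℝ) ≤ Y)
    (h1 : dist1 (gpt (X * Y) σ j * c - gpt (X * Y) σ j' * c') ≤ 1 / (2 * (Rb A X : ℝ))) :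
    dist1 (frac j.1 * c - frac j'.1 * c') < 1 / (4 * (Q : ℝ) ^ 2) ∧
      |((j.2 : ℝ) + σ) / (X * Y) * c - ((j'.2 : ℝ) + σ) / (X * Y) * c'| ≤
        1 / (2 * (Rb A X : ℝ)) := by
  obtain ⟨hX0, -, -, hR0, -, h6, hη⟩ := Zc3_num hA hQ hT hX
  have hQr : (1 : ℝ) ≤ Q := by exact_mod_cast hQ
  have hQ2 : (1 : ℝ) ≤ (Q : ℝ) ^ 2 := one_le_pow₀ hQr
  have hQ0 : (0 : ℝ) < (Q : ℝ) ^ 2 := by linarith
  have hY0 : 0 < Y := by linarith
  have hT0 : 0 ≤ T := by linarith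
  have e1 := Zc3_beta hT0 hX0 hY0 hb (Nat.cast_nonneg c) hc
  have e2 := Zc3_beta hT0 hX0 hY0 hb' (Nat.cast_nonneg c') hc'
  obtain ⟨b, hbd⟩ : ∃ b, b = ((j.2 : ℝ) + σ) / (X * Y) := ⟨_, rfl⟩
  obtain ⟨b', hbd'⟩ : ∃ b', b' = ((j'.2 : ℝ) + σ) / (X * Y) := ⟨_, rfl⟩
  rw [← hbd] at e1
  rw [← hbd'] at e2
  rw [← hbd, ← hbd']
  have e3 : |b * c - b' * c'| ≤ 3 / (20 * (Q : ℝ) ^ 2) := by
    rw [← h6]
    calc |b * c - b' * c'| ≤ |b * c| + |b' * c'| := abs_sub _ _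
      _ ≤ 3 * T / X + 3 * T / X := add_le_add e1 e2
      _ = 6 * T / X := by ring
  have hsplit : gpt (X * Y) σ j * c - gpt (X * Y) σ j' * c' =
      (frac j.1 * c - frac j'.1 * c') + (b * c - b' * c') := by
    unfold gpt
    rw [← hbd, ← hbd']
    ring
  have h2 : dist1 (frac j.1 * c - frac j'.1 * c') < 1 / (4 * (Q : ℝ) ^ 2) := by
    have h3 : frac j.1 * c - frac j'.1 * c' =
        (gpt (X * Y) σ j * c - gpt (X * Y) σ j' * c') - (b * c - b' * c') := by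
      rw [hsplit]
      ring
    rw [h3]
    have h4 := dist1_sub_le (gpt (X * Y) σ j * c - gpt (X * Y) σ j' * c') (b * c - b' * c')
    have h5 := dist1_le_abs (b * c - b' * c')
    have h7 : 1 / (800 * (Q : ℝ) ^ 2) + 3 / (20 * (Q : ℝ) ^ 2) < 1 / (4 * (Q : ℝ) ^ 2) := by
      have e4 : 1 / (800 * (Q : ℝ) ^ 2) + 3 / (20 * (Q : ℝ) ^ 2) =
          (121 / 200) * (1 / (4 * (Q : ℝ) ^ 2)) := by
        field_simp
        norm_num
      rw [e4]
      have e5 : 0 < 1 / (4 * (Q : ℝ) ^ 2) := by positivity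
      linarith
    linarith
  refine ⟨h2, ?_⟩
  obtain ⟨k, hk⟩ := frac_gap hj hj' c c' h2
  rw [hsplit, hk, add_comm, dist1_add_int] at h1
  rw [dist1_eq_abs] at h1
  · exact h1
  · refine e3.trans ?_
    rw [div_le_div_iff₀ (by positivity) (by norm_num)]
    linarith

/-- consequences of closeness: same denominator, class condition, small `|eta v - eta v'|`.
`N = X Y`, `|β c_i| ≤ 3 T / X`; `1/(2R) + 6T/X < 1/(4 Q^2)`, `rigid`; then
`|β c_i - β' c'_i| ≤ 1/(2R)`, `|β| |det| ≤ Y / R`, `|β| ≥ T/(2N)` for `T > 4`. -/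
theorem near1_struct {A : ℕ} (hA : 2 ≤ A) {Q : ℕ} {T X Y σ : ℝ} (hQ : 1 ≤ Q) (hT : 1 ≤ T)
    (hX : X = 40 * (Q : ℝ) ^ 2 * T) (hY : 1 ≤ Y) (hσ : σ ∈ Set.Icc (0 : ℝ) 1)
    {j j' : Gp} (hj : j ∈ grid Q σ (tlow T) (3 * T)) (hj' : j' ∈ grid Q σ (tlow T) (3 * T))
    {v v' : List (Lt A)} (hv : v ∈ Vc A Y) (hv' : v' ∈ Vc A Y)
    (h1 : dist1 (gpt (X * Y) σ j * F v - gpt (X * Y) σ j' * F v') ≤ 1 / (2 * (Rb A X : ℝ)))
    (h2 : dist1 (gpt (X * Y) σ j * m21 v - gpt (X * Y) σ j' * m21 v') ≤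
      1 / (2 * (Rb A X : ℝ))) :
    j.1.1 = j'.1.1 ∧ (j.1.1 : ℤ) ∣ (F v : ℤ) * m21 v' - m21 v * F v' ∧
      (j.1.1 : ℤ) ∣ (j.1.2 : ℤ) * F v - j'.1.2 * F v' ∧
      (j.1.1 : ℤ) ∣ (j.1.2 : ℤ) * m21 v - j'.1.2 * m21 v' ∧
      (4 < T → |eta v' - eta v| ≤ 16 * CA A / (T / 2)) := by
  obtain ⟨hX0, hX1, hR, hR0, hCA, h6, hη⟩ := Zc3_num hA hQ hT hX
  obtain ⟨hj1, hj2, hj3⟩ := (mem_grid hσ).1 hj
  obtain ⟨hj1', hj2', hj3'⟩ := (mem_grid hσ).1 hj'
  obtain ⟨hv1, hv2⟩ := mem_Vc.1 hv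
  obtain ⟨hv1', hv2'⟩ := mem_Vc.1 hv'
  have hm : (m21 v : ℝ) ≤ F v := by exact_mod_cast (m21_lt v).le
  have hm' : (m21 v' : ℝ) ≤ F v' := by exact_mod_cast (m21_lt v').le
  obtain ⟨a1, b1⟩ := Zc3_coord hA hQ hT hX hY hj1 hj1' hj3 hj3' hv1 hv1' h1
  obtain ⟨a2, b2⟩ := Zc3_coord hA hQ hT hX hY hj1 hj1' hj3 hj3' (hm.trans hv1) (hm'.trans hv1') h2
  obtain ⟨c1, c2, c3, c4⟩ := rigid hj1 hj1' (coprime_col v) (coprime_col v') a1 a2
  refine ⟨c1, c2, c3, c4, ?_⟩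
  intro hT4
  have hY0 : 0 < Y := by linarith
  have hT0 : 0 < T := by linarith
  have hFv : (0 : ℝ) < F v := by exact_mod_cast F_pos v
  have hFv' : (0 : ℝ) < F v' := by exact_mod_cast F_pos v'
  obtain ⟨b, hb⟩ : ∃ b, b = ((j.2 : ℝ) + σ) / (X * Y) := ⟨_, rfl⟩
  obtain ⟨b', hb'⟩ : ∃ b', b' = ((j'.2 : ℝ) + σ) / (X * Y) := ⟨_, rfl⟩
  rw [← hb, ← hb'] at b1 b2
  obtain ⟨R, hRd⟩ : ∃ R : ℝ, R = (Rb A X : ℝ) := ⟨_, rfl⟩
  rw [← hRd] at b1 b2 hR hR0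
  have hlow : T / 2 ≤ |(j.2 : ℝ) + σ| := by
    unfold tlow at hj2
    rw [if_neg (not_le.2 hT4)] at hj2
    exact hj2
  have hbl : T / 2 / (X * Y) ≤ |b| := by
    rw [hb, abs_div, abs_of_pos (mul_pos hX0 hY0)]
    exact div_le_div_of_nonneg_right hlow (by positivity)
  have hdet : |b| * |(F v : ℝ) * m21 v' - m21 v * F v'| ≤ Y / R := by
    rw [← abs_mul]
    have e1 : b * ((F v : ℝ) * m21 v' - m21 v * F v') =
        (b * F v - b' * F v') * m21 v' - (b * m21 v - b' * m21 v') * F v' := by ring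
    rw [e1]
    calc |(b * F v - b' * F v') * m21 v' - (b * m21 v - b' * m21 v') * F v'| ≤
        |(b * F v - b' * F v') * m21 v'| + |(b * m21 v - b' * m21 v') * F v'| := abs_sub _ _
      _ ≤ 1 / (2 * R) * Y + 1 / (2 * R) * Y := by
          apply add_le_add
          · rw [abs_mul, abs_of_nonneg (Nat.cast_nonneg (α := ℝ) (m21 v'))]
            exact mul_le_mul b1 (hm'.trans hv1') (Nat.cast_nonneg _) (by positivity)
          · rw [abs_mul, abs_of_nonneg (Nat.cast_nonneg (α := ℝ) (F v'))]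
            exact mul_le_mul b2 hv1' (Nat.cast_nonneg _) (by positivity)
      _ = Y / R := by field_simp; norm_num
  have heta : |eta v' - eta v| =
      |(F v : ℝ) * m21 v' - m21 v * F v'| / ((F v : ℝ) * F v') := by
    unfold eta
    rw [div_sub_div _ _ hFv'.ne' hFv.ne', abs_div, abs_of_pos (mul_pos hFv' hFv),
      mul_comm (F v' : ℝ) (F v : ℝ)]
    congr 2
    ring
  obtain ⟨D, hD⟩ : ∃ D, D = |(F v : ℝ) * m21 v' - m21 v * F v'| := ⟨_, rfl⟩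
  rw [heta, ← hD]
  rw [← hD] at hdet
  have hD0 : 0 ≤ D := by
    rw [hD]
    exact abs_nonneg _
  have hD1 : D ≤ 2 * X * Y ^ 2 / (T * R) := by
    have e1 : T / 2 / (X * Y) * D ≤ Y / R := (mul_le_mul_of_nonneg_right hbl hD0).trans hdet
    rw [le_div_iff₀ (by positivity)]
    rw [div_div, div_mul_eq_mul_div, div_le_div_iff₀ (by positivity) hR0] at e1
    nlinarith
  have hC0 : 0 < CA A := by linarith
  have hFF : Y ^ 2 / (16 * CA A ^ 2) ≤ (F v : ℝ) * F v' := by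
    have e1 : Y ^ 2 / (16 * CA A ^ 2) = Y / (4 * CA A) * (Y / (4 * CA A)) := by
      field_simp
      norm_num
    rw [e1]
    exact mul_le_mul hv2 hv2' (by positivity) hFv.le
  rw [div_le_div_iff₀ (by positivity) (by positivity)]
  have e2 : D * (T / 2) ≤ X * Y ^ 2 / R := by
    calc D * (T / 2) ≤ 2 * X * Y ^ 2 / (T * R) * (T / 2) :=
          mul_le_mul_of_nonneg_right hD1 (by positivity)
      _ = X * Y ^ 2 / R := by field_simp
  refine e2.trans ?_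
  have e3 : X * Y ^ 2 / R ≤ Y ^ 2 / CA A := by
    rw [div_le_div_iff₀ hR0 hC0]
    nlinarith [mul_le_mul_of_nonneg_right hR (sq_nonneg Y)]
  refine e3.trans ?_
  calc Y ^ 2 / CA A = 16 * CA A * (Y ^ 2 / (16 * CA A ^ 2)) := by field_simp
    _ ≤ 16 * CA A * ((F v : ℝ) * F v') := mul_le_mul_of_nonneg_left hFF (by positivity)

/-- few values of `k` for a given word and a given fraction -/
theorem Zc3_fib {A : ℕ} (hA : 2 ≤ A) {Q : ℕ} {T X Y σ : ℝ} (hQ : 1 ≤ Q) (hT : 1 ≤ T)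
    (hX : X = 40 * (Q : ℝ) ^ 2 * T) (hY : 1 ≤ Y) {v' : List (Lt A)} (hv' : v' ∈ Vc A Y)
    (φ : ℝ) (S : Finset ℤ)
    (hS : ∀ k ∈ S, |(k : ℝ) + σ| ≤ 3 * T ∧
      dist1 (φ - ((k : ℝ) + σ) / (X * Y) * (F v' : ℝ)) ≤ 1 / (2 * (Rb A X : ℝ))) :
    (S.card : ℝ) ≤ 15 := by
  obtain ⟨hX0, hX1, hR, hR0, hCA, h6, hη⟩ := Zc3_num hA hQ hT hX
  obtain ⟨hv1', hv2'⟩ := mem_Vc.1 hv'
  have hQr : (1 : ℝ) ≤ Q := by exact_mod_cast hQ
  have hQ2 : (1 : ℝ) ≤ (Q : ℝ) ^ 2 := one_le_pow₀ hQr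
  have hY0 : 0 < Y := by linarith
  have hT0 : 0 < T := by linarith
  have hc0 : (0 : ℝ) < F v' := by exact_mod_cast F_pos v'
  have hη2 : 1 / (2 * (Rb A X : ℝ)) ≤ 1 / 2 := by
    apply one_div_le_one_div_of_le (by norm_num)
    nlinarith
  have h := kcount hc0 (mul_pos hX0 hY0) (by positivity : 0 ≤ 3 * T)
    (by positivity : 0 ≤ 1 / (2 * (Rb A X : ℝ))) S hS hη2
  refine h.trans ?_
  have e1 : 2 * (3 * T) * (F v' : ℝ) / (X * Y) + 2 ≤ 3 := by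
    have e3 : 2 * (3 * T) * (F v' : ℝ) / (X * Y) ≤ 2 * (3 * T) * Y / (X * Y) := by
      apply div_le_div_of_nonneg_right _ (by positivity)
      exact mul_le_mul_of_nonneg_left hv1' (by positivity)
    have e4 : 2 * (3 * T) * Y / (X * Y) = 6 * T / X := by
      field_simp
      norm_num
    rw [e4, h6] at e3
    have e5 : 3 / (20 * (Q : ℝ) ^ 2) ≤ 1 := by
      rw [div_le_one (by positivity)]
      linarith
    linarith
  have e2 : 2 * (1 / (2 * (Rb A X : ℝ))) * (X * Y) / (F v' : ℝ) + 1 ≤ 5 := by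
    have hC0 : 0 < CA A := by linarith
    have e3 : 2 * (1 / (2 * (Rb A X : ℝ))) * (X * Y) / (F v' : ℝ) ≤ 4 := by
      rw [div_le_iff₀ hc0]
      have e4 : 2 * (1 / (2 * (Rb A X : ℝ))) * (X * Y) = X * Y / Rb A X := by
        field_simp
      rw [e4, div_le_iff₀ hR0]
      rw [div_le_iff₀ (by positivity)] at hv2'
      have e5 : X * Y ≤ X * ((F v' : ℝ) * (4 * CA A)) := mul_le_mul_of_nonneg_left hv2' hX0.le
      have e6 : 4 * (F v' : ℝ) * (CA A * X) ≤ 4 * (F v' : ℝ) * (Rb A X : ℝ) :=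
        mul_le_mul_of_nonneg_left hR (by positivity)
      nlinarith
    linarith
  calc (2 * (3 * T) * (F v' : ℝ) / (X * Y) + 2) *
        (2 * (1 / (2 * (Rb A X : ℝ))) * (X * Y) / (F v' : ℝ) + 1) ≤ 3 * 5 :=
        mul_le_mul e1 e2 (by positivity) (by norm_num)
    _ = 15 := by norm_num

/-- near count: the words `v'` are counted by `class_count` (`T ≤ 4`) or `near_class_count` with
`P = √(T/2)`, `D = 16 CA` (`T > 4`), `q ∈ [Q, 2Q)`; for given `v'` the fraction is unique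
(`farey_unique`) and `kcount` (`c = F v'`, `N = X Y`) gives at most `15` values of `k'`. -/
theorem near1 {A : ℕ} (hA : 2 ≤ A) (hs : 1 ≤ sexp A) : ∃ C C2 : ℝ, 0 < C ∧ 0 < C2 ∧
    ∀ (Q : ℕ) (T X Y σ : ℝ), 1 ≤ Q → 1 ≤ T → X = 40 * (Q : ℝ) ^ 2 * T → C2 * Q * √T ≤ Y →
    σ ∈ Set.Icc (0 : ℝ) 1 → ∀ j ∈ grid Q σ (tlow T) (3 * T), ∀ v ∈ Vc A Y,
    ((nearV (grid Q σ (tlow T) (3 * T)) (Vc A Y) (gpt (X * Y) σ) (gpt (X * Y) σ j) v
      (1 / (2 * (Rb A X : ℝ)))).card : ℝ) ≤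
      C * Y ^ (sexp A) * (Q : ℝ) ^ (1 - sexp A) * T ^ (-(sexp A / 2)) := by
  classical
  obtain ⟨Ca, hCa, hca⟩ := class_count hA
  obtain ⟨Cb, hCb, hcb⟩ := near_class_count hA
  have hCA2 := base3_CA_ge A
  have hCA0 : 0 < CA A := by linarith
  have hs0 : 0 < sexp A := by linarith
  have h2s : (0 : ℝ) < (2 : ℝ) ^ (sexp A) := Real.rpow_pos_of_pos (by norm_num) _
  refine ⟨(Ca + Cb * (1 + 16 * CA A)) * (2 : ℝ) ^ (sexp A) * 15, 4 * CA A, by positivity,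
    by positivity, ?_⟩
  intro Q T X Y σ hQ hT hX hCY hσ j hj v hv
  obtain ⟨hX0, hX1, hR, hR0, hCA, h6, hη⟩ := Zc3_num hA hQ hT hX
  have hQr : (1 : ℝ) ≤ Q := by exact_mod_cast hQ
  have hQ0 : (0 : ℝ) < Q := by linarith
  have hT0 : 0 < T := by linarith
  have hsT : 1 ≤ √T := Real.one_le_sqrt.2 hT
  have hQT : (Q : ℝ) * √T ≤ 1 / (4 * CA A) * Y := by
    rw [one_div, inv_mul_eq_div, le_div_iff₀ (by positivity)]
    linarith
  have hQTY : 8 * ((Q : ℝ) * √T) ≤ Y := by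
    have e1 : 8 * ((Q : ℝ) * √T) ≤ 4 * CA A * ((Q : ℝ) * √T) :=
      mul_le_mul_of_nonneg_right (by linarith) (by positivity)
    linarith
  have hQT1 : 1 ≤ (Q : ℝ) * √T := one_le_mul_of_one_le_of_one_le hQr hsT
  have hY : 1 ≤ Y := by linarith
  have hY0 : 0 < Y := by linarith
  obtain ⟨hj1, hj2, hj3⟩ := (mem_grid hσ).1 hj
  obtain ⟨hf1, hf2, hf3, hf4⟩ := mem_farey.1 hj1
  have hq1 : 1 ≤ j.1.1 := hQ.trans hf1
  have hq2 : (j.1.1 : ℝ) ≤ 2 * Q := by exact_mod_cast hf2.le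
  have hq3 : (Q : ℝ) ≤ j.1.1 := by exact_mod_cast hf1
  have hq0 : (0 : ℝ) < j.1.1 := by linarith
  obtain ⟨S, hS⟩ : ∃ S, S = nearV (grid Q σ (tlow T) (3 * T)) (Vc A Y) (gpt (X * Y) σ)
    (gpt (X * Y) σ j) v (1 / (2 * (Rb A X : ℝ))) := ⟨_, rfl⟩
  rw [← hS]
  have hmem : ∀ z ∈ S, z.1 ∈ grid Q σ (tlow T) (3 * T) ∧ z.2 ∈ Vc A Y ∧
      dist1 (gpt (X * Y) σ j * F v - gpt (X * Y) σ z.1 * F z.2) ≤ 1 / (2 * (Rb A X : ℝ)) ∧
      (j.1.1 = z.1.1.1 ∧ (j.1.1 : ℤ) ∣ (F v : ℤ) * m21 z.2 - m21 v * F z.2 ∧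
      (j.1.1 : ℤ) ∣ (j.1.2 : ℤ) * F v - z.1.1.2 * F z.2 ∧
      (j.1.1 : ℤ) ∣ (j.1.2 : ℤ) * m21 v - z.1.1.2 * m21 z.2 ∧
      (4 < T → |eta z.2 - eta v| ≤ 16 * CA A / (T / 2))) := by
    intro z hz
    rw [hS, mem_nearV] at hz
    obtain ⟨z1, z2, z3, z4⟩ := hz
    exact ⟨z1, z2, z3, near1_struct hA hQ hT hX hY hσ hj z1 hv z2 z3 z4⟩
  have hpow : (j.1.1 : ℝ) ^ (1 - sexp A) ≤ (Q : ℝ) ^ (1 - sexp A) :=
    Real.rpow_le_rpow_of_nonpos hQ0 hq3 (by linarith)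
  have hQp : (0 : ℝ) < (Q : ℝ) ^ (1 - sexp A) := Real.rpow_pos_of_pos hQ0 _
  have hYp : 0 < Y ^ (sexp A) := Real.rpow_pos_of_pos hY0 _
  have hTp : 0 < T ^ (-(sexp A / 2)) := Real.rpow_pos_of_pos hT0 _
  have hcop : IsCoprime (F v : ℤ) (m21 v : ℤ) := Nat.isCoprime_iff_coprime.mpr (coprime_col v)
  -- number of words
  have hwords : ((S.image (fun z => z.2)).card : ℝ) ≤
      (Ca + Cb * (1 + 16 * CA A)) * (2 : ℝ) ^ (sexp A) *
        (Y ^ (sexp A) * (Q : ℝ) ^ (1 - sexp A) * T ^ (-(sexp A / 2))) := by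
    by_cases hT4 : T ≤ 4
    · have h1 := hca j.1.1 Y hq1 (by
        refine hq2.trans ?_
        nlinarith) _ _ hcop (S.image (fun z => z.2)) (by
          intro w hw
          obtain ⟨z, hz, rfl⟩ := Finset.mem_image.1 hw
          obtain ⟨z1, z2, z3, z4, z5, z6⟩ := hmem z hz
          exact ⟨(mem_Vc.1 z2).1, z5⟩)
      have h2 : 1 ≤ (2 : ℝ) ^ (sexp A) * T ^ (-(sexp A / 2)) := by
        have e1 : (4 : ℝ) ^ (-(sexp A / 2)) ≤ T ^ (-(sexp A / 2)) :=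
          Real.rpow_le_rpow_of_nonpos hT0 hT4 (by linarith)
        have e2 : (4 : ℝ) ^ (-(sexp A / 2)) = (2 : ℝ) ^ (-(sexp A)) := by
          rw [show (4 : ℝ) = (2 : ℝ) ^ (2 : ℝ) by norm_num, ← Real.rpow_mul (by norm_num)]
          congr 1
          ring
        rw [e2] at e1
        calc (1 : ℝ) = (2 : ℝ) ^ (sexp A) * (2 : ℝ) ^ (-(sexp A)) := by
              rw [← Real.rpow_add (by norm_num), add_neg_cancel, Real.rpow_zero]
          _ ≤ _ := mul_le_mul_of_nonneg_left e1 h2s.le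
      calc ((S.image (fun z => z.2)).card : ℝ) ≤
          Ca * Y ^ (sexp A) * (j.1.1 : ℝ) ^ (1 - sexp A) := h1
        _ ≤ Ca * Y ^ (sexp A) * (Q : ℝ) ^ (1 - sexp A) :=
            mul_le_mul_of_nonneg_left hpow (by positivity)
        _ = Ca * (Y ^ (sexp A) * (Q : ℝ) ^ (1 - sexp A)) * 1 := by ring
        _ ≤ (Ca + Cb * (1 + 16 * CA A)) * (Y ^ (sexp A) * (Q : ℝ) ^ (1 - sexp A)) *
            ((2 : ℝ) ^ (sexp A) * T ^ (-(sexp A / 2))) := by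
              apply mul_le_mul _ h2 (by norm_num) (by positivity)
              apply mul_le_mul_of_nonneg_right _ (by positivity)
              have : 0 < Cb * (1 + 16 * CA A) := by positivity
              linarith
        _ = _ := by ring
    · rw [not_le] at hT4
      obtain ⟨P, hP⟩ : ∃ P, P = √(T / 2) := ⟨_, rfl⟩
      have hP2 : P ^ 2 = T / 2 := by
        rw [hP]
        exact Real.sq_sqrt (by positivity)
      have hP1 : 1 ≤ P := by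
        rw [hP]
        exact Real.one_le_sqrt.2 (by linarith)
      have hP0 : 0 < P := by linarith
      have hPT : P ≤ √T := by
        rw [hP]
        exact Real.sqrt_le_sqrt (by linarith)
      have h1 := hcb j.1.1 Y P (16 * CA A) (eta v) hq1 hP1 (by positivity) (by
        calc P * (j.1.1 : ℝ) ≤ √T * (2 * Q) := mul_le_mul hPT hq2 hq0.le (by positivity)
          _ = 2 * ((Q : ℝ) * √T) := by ring
          _ ≤ Y := by nlinarith) _ _ hcop (S.image (fun z => z.2)) (by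
          intro w hw
          obtain ⟨z, hz, rfl⟩ := Finset.mem_image.1 hw
          obtain ⟨z1, z2, z3, z4, z5, z6, z7, z8⟩ := hmem z hz
          refine ⟨(mem_Vc.1 z2).1, ?_, ?_, z5⟩
          · refine le_trans ?_ (mem_Vc.1 z2).2
            have e1 : Y / (4 * CA A) = 1 / (4 * CA A) * Y := by ring
            rw [e1]
            refine le_trans ?_ hQT
            refine hPT.trans ?_
            exact le_mul_of_one_le_left (by positivity) hQr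
          · rw [hP2]
            exact z8 hT4)
      have h2 : (Y / P) ^ (sexp A) ≤ Y ^ (sexp A) * ((2 : ℝ) ^ (sexp A) * T ^ (-(sexp A / 2))) := by
        have e1 : (Y / P) ^ (sexp A) = Y ^ (sexp A) * P ^ (-(sexp A)) := by
          rw [Real.div_rpow hY0.le hP0.le, Real.rpow_neg hP0.le]
          rfl
        have e2 : P ^ (-(sexp A)) = (T / 2) ^ (-(sexp A / 2)) := by
          rw [← hP2, ← Real.rpow_natCast P 2, ← Real.rpow_mul hP0.le]
          congr 1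
          push_cast
          ring
        have e3 : (T / 2) ^ (-(sexp A / 2)) = T ^ (-(sexp A / 2)) * (2 : ℝ) ^ (sexp A / 2) := by
          rw [Real.div_rpow hT0.le (by norm_num), Real.rpow_neg (by norm_num : (0 : ℝ) ≤ 2),
            div_inv_eq_mul]
        have e4 : (2 : ℝ) ^ (sexp A / 2) ≤ (2 : ℝ) ^ (sexp A) :=
          Real.rpow_le_rpow_of_exponent_le (by norm_num) (by linarith)
        rw [e1, e2, e3]
        apply mul_le_mul_of_nonneg_left _ hYp.le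
        rw [mul_comm]
        exact mul_le_mul_of_nonneg_right e4 hTp.le
      calc ((S.image (fun z => z.2)).card : ℝ) ≤
          Cb * (1 + 16 * CA A) * (Y / P) ^ (sexp A) * (j.1.1 : ℝ) ^ (1 - sexp A) := h1
        _ ≤ Cb * (1 + 16 * CA A) * (Y ^ (sexp A) * ((2 : ℝ) ^ (sexp A) * T ^ (-(sexp A / 2)))) *
            (Q : ℝ) ^ (1 - sexp A) := by
              apply mul_le_mul _ hpow (by positivity) (by positivity)
              exact mul_le_mul_of_nonneg_left h2 (by positivity)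
        _ = Cb * (1 + 16 * CA A) * ((2 : ℝ) ^ (sexp A) *
            (Y ^ (sexp A) * (Q : ℝ) ^ (1 - sexp A) * T ^ (-(sexp A / 2)))) := by ring
        _ ≤ (Ca + Cb * (1 + 16 * CA A)) * ((2 : ℝ) ^ (sexp A) *
            (Y ^ (sexp A) * (Q : ℝ) ^ (1 - sexp A) * T ^ (-(sexp A / 2)))) := by
              apply mul_le_mul_of_nonneg_right _ (by positivity)
              linarith
        _ = _ := by ring
  -- fibres
  have hfib : ∀ w ∈ S.image (fun z => z.2),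
      (((S.filter (fun z => z.2 = w)).card : ℕ) : ℝ) ≤ 15 := by
    intro w hw
    obtain ⟨z0, hz0, rfl⟩ := Finset.mem_image.1 hw
    obtain ⟨a1, a2, a3, a4, a5, a6, a7, -⟩ := hmem z0 hz0
    have ha1 := (mem_grid hσ).1 a1
    obtain ⟨U, hU⟩ : ∃ U, U = S.filter (fun z => z.2 = z0.2) := ⟨_, rfl⟩
    rw [← hU]
    have hUm : ∀ z ∈ U, z.1.1 = z0.1.1 ∧ z.2 = z0.2 ∧ |(z.1.2 : ℝ) + σ| ≤ 3 * T ∧
        dist1 ((gpt (X * Y) σ j * F v - frac z0.1.1 * F z0.2) -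
          ((z.1.2 : ℝ) + σ) / (X * Y) * (F z0.2 : ℝ)) ≤ 1 / (2 * (Rb A X : ℝ)) := by
      intro z hz
      rw [hU, Finset.mem_filter] at hz
      obtain ⟨hz1, hz2⟩ := hz
      obtain ⟨b1, b2, b3, b4, b5, b6, b7, -⟩ := hmem z hz1
      have hb1 := (mem_grid hσ).1 b1
      rw [hz2] at b3 b6 b7
      have hp : z.1.1 = z0.1.1 := by
        refine farey_unique hb1.1 ha1.1 (b4.symm.trans a4) (coprime_col z0.2) ?_ ?_
        · rw [← b4]
          have := dvd_sub a6 b6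
          have e1 : (j.1.2 : ℤ) * F v - z0.1.1.2 * F z0.2 - ((j.1.2 : ℤ) * F v - z.1.1.2 * F z0.2) =
              (z.1.1.2 : ℤ) * F z0.2 - z0.1.1.2 * F z0.2 := by ring
          rwa [e1] at this
        · rw [← b4]
          have := dvd_sub a7 b7
          have e1 : (j.1.2 : ℤ) * m21 v - z0.1.1.2 * m21 z0.2 -
              ((j.1.2 : ℤ) * m21 v - z.1.1.2 * m21 z0.2) =
              (z.1.1.2 : ℤ) * m21 z0.2 - z0.1.1.2 * m21 z0.2 := by ring
          rwa [e1] at this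
      refine ⟨hp, hz2, hb1.2.2, ?_⟩
      have e1 : (gpt (X * Y) σ j * F v - frac z0.1.1 * F z0.2) -
          ((z.1.2 : ℝ) + σ) / (X * Y) * (F z0.2 : ℝ) =
          gpt (X * Y) σ j * F v - gpt (X * Y) σ z.1 * F z0.2 := by
        have e2 : gpt (X * Y) σ z.1 = frac z0.1.1 + ((z.1.2 : ℝ) + σ) / (X * Y) := by
          unfold gpt
          rw [hp]
        rw [e2]
        ring
      rw [e1]
      exact b3
    have hcard : (U.image (fun z => z.1.2)).card = U.card := by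
      apply Finset.card_image_of_injOn
      intro z hz z' hz' h
      obtain ⟨c1, c2, -⟩ := hUm z hz
      obtain ⟨c1', c2', -⟩ := hUm z' hz'
      exact Prod.ext (Prod.ext (c1.trans c1'.symm) h) (c2.trans c2'.symm)
    rw [← hcard]
    apply Zc3_fib hA hQ hT hX hY a2 (gpt (X * Y) σ j * F v - frac z0.1.1 * F z0.2)
    intro k hk
    obtain ⟨z, hz, rfl⟩ := Finset.mem_image.1 hk
    obtain ⟨-, -, c3, c4⟩ := hUm z hz
    exact ⟨c3, c4⟩
  have hfin := MbC1_card_fib S (S.image (fun z => z.2)) (fun z => z.2)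
    (fun z hz => Finset.mem_image_of_mem _ hz) (by norm_num) hwords hfib
  refine hfin.trans (le_of_eq ?_)
  ring

end Pool.Agent.W_f50700_h13
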