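import Pool.Agent.W_f50700_h13.Zc1
import Pool.Agent.W_f50700_h13.Zc2
import Pool.Agent.W_f50700_h13.Zd1

/-!
Zc4: regime 1 (`X = 40 Q^2 T`), far count.
-/

namespace Pool.Agent.W_f50700_h13

open Pool.Agent.W_f50700_h3

theorem Zc4_dist1_int (k : ℤ) : dist1 (k : ℝ) = 0 := by
  have h := dist1_le_abs_sub (k : ℝ) k
  rw [sub_self, abs_zero] at h
  exact le_antisymm h (dist1_nonneg _)

theorem Zc4_dist1_fract (x φ : ℝ) : dist1 (Int.fract x - φ) = dist1 (x - φ) := by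
  have h : Int.fract x - φ = (x - φ) - (⌊x⌋ : ℤ) := by
    unfold Int.fract
    ring
  rw [h, dist1_sub_int]

/-- the values of one coordinate -/
theorem Zc4_coord {A Q : ℕ} {T X Y σ y : ℝ} (hQ : 1 ≤ Q) (hT : 1 ≤ T)
    (hX : X = 40 * (Q : ℝ) ^ 2 * T) (hY : 0 < Y) (hTy : T ≤ y) (W : Finset (Gp × List (Lt A)))
    (m : List (Lt A) → ℕ) (φ : ℝ)
    (hW : ∀ z ∈ W, z.1.1 ∈ farey Q ∧ |(z.1.2 : ℝ) + σ| ≤ y ∧ (m z.2 : ℝ) ≤ Y ∧
      dist1 (φ - gpt (X * Y) σ z.1 * m z.2) ≤ y / X) :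
    ((W.image fun z => Int.fract (frac z.1.1 * m z.2)).card : ℝ) ≤ 2 * y := by
  classical
  have hQ' : (1 : ℝ) ≤ Q := by exact_mod_cast hQ
  have hQ0 : (0 : ℝ) < Q := by linarith
  have hX0 : 0 < X := by rw [hX]; positivity
  have hy1 : 1 ≤ y := hT.trans hTy
  have h1 := sep_arc_count (S := W.image fun z => Int.fract (frac z.1.1 * m z.2)) (φ := φ)
    (ℓ := 2 * (y / X)) (d := 1 / (4 * (Q : ℝ) ^ 2)) (by positivity) (by positivity) (by
      intro s hs
      obtain ⟨z, hz, rfl⟩ := Finset.mem_image.1 hs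
      obtain ⟨-, h2, h3, h4⟩ := hW z hz
      rw [Zc4_dist1_fract, dist1_sub_comm]
      have h5 : φ - frac z.1.1 * m z.2 = (φ - gpt (X * Y) σ z.1 * m z.2) +
          (((z.1.2 : ℝ) + σ) / (X * Y)) * m z.2 := by
        unfold gpt
        ring
      rw [h5]
      refine (dist1_add_le _ _).trans ?_
      have h6 : dist1 ((((z.1.2 : ℝ) + σ) / (X * Y)) * m z.2) ≤ y / X := by
        refine (dist1_le_abs _).trans ?_
        rw [abs_mul, abs_div, abs_of_pos (mul_pos hX0 hY), Nat.abs_cast]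
        calc |(z.1.2 : ℝ) + σ| / (X * Y) * (m z.2 : ℝ) ≤ y / (X * Y) * Y := by gcongr
          _ = y / X := by field_simp
      linarith) (by
      intro s hs t ht hst
      obtain ⟨z, hz, rfl⟩ := Finset.mem_image.1 hs
      obtain ⟨z', hz', rfl⟩ := Finset.mem_image.1 ht
      by_contra hcon
      rw [not_le] at hcon
      apply hst
      have h2 : dist1 (frac z.1.1 * m z.2 - frac z'.1.1 * m z'.2) < 1 / (4 * (Q : ℝ) ^ 2) := by
        rw [Zc4_dist1_fract, dist1_sub_comm, Zc4_dist1_fract, dist1_sub_comm] at hcon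
        exact hcon
      obtain ⟨k, hk⟩ := frac_gap (hW z hz).1 (hW z' hz').1 _ _ h2
      exact Int.fract_eq_fract.2 ⟨k, hk⟩)
  refine h1.trans ?_
  have h2 : 2 * (2 * (y / X)) / (1 / (4 * (Q : ℝ) ^ 2)) = (2 / 5) * (y / T) := by
    rw [hX]
    field_simp
    ring
  have h3 : y / T ≤ y := div_le_self (by linarith) hT
  rw [h2]
  linarith

/-- far count.  Map `z = ((p', k'), v')` to
`(Int.fract (frac p' F v'), Int.fract (frac p' m21 v'))`: each coordinate is within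
`1/(2R) + y/X ≤ 2y/X` of a fixed number mod 1 and the values are `1/(4Q^2)`-separated mod 1
(`frac_gap`), so at most `(1 + y)^2` values (`sep_arc_count`).  In a fibre all `p'` have the same
denominator and all `v'` lie in one projective class (`rigid`), `class_count`; for given `v'` the
fraction is unique (`farey_unique`) and `kcount` gives at most `5 (2 y / X + 2)` values of `k'`. -/
theorem far1 {A : ℕ} (hA : 2 ≤ A) (hs : 1 ≤ sexp A) : ∃ C : ℝ, 0 < C ∧
    ∀ (Q : ℕ) (T X Y σ y : ℝ), 1 ≤ Q → 1 ≤ T → X = 40 * (Q : ℝ) ^ 2 * T → 2 * (Q : ℝ) ≤ Y →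
    σ ∈ Set.Icc (0 : ℝ) 1 → T ≤ y → ∀ j ∈ grid Q σ 0 y, ∀ v ∈ Vc A Y,
    ((nearV (grid Q σ 0 y) (Vc A Y) (gpt (X * Y) σ) (gpt (X * Y) σ j) v
      (1 / (2 * (Rb A X : ℝ)))).card : ℝ) ≤
      C * y ^ 3 * Y ^ (sexp A) * (Q : ℝ) ^ (1 - sexp A) := by
  classical
  obtain ⟨Cc, hCc, hclass⟩ := class_count hA
  refine ⟨16 * Cc, by positivity, ?_⟩
  intro Q T X Y σ y hQ hT hX hY hσ hTy j hj v hv
  have hQ' : (1 : ℝ) ≤ Q := by exact_mod_cast hQ
  have hQ0 : (0 : ℝ) < Q := by linarith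
  have hX0 : 0 < X := by rw [hX]; positivity
  have hy1 : 1 ≤ y := hT.trans hTy
  have hY0 : 0 < Y := by linarith
  have hR : 1 / (2 * (Rb A X : ℝ)) ≤ y / X := by
    have h1 : CA A * X < (Rb A X : ℝ) := by
      unfold Rb
      push_cast
      exact Nat.lt_floor_add_one _
    have h2 := base3_CA_ge A
    have h3 : 2 * X ≤ CA A * X := mul_le_mul_of_nonneg_right h2 hX0.le
    rw [div_le_div_iff₀ (by linarith) hX0]
    nlinarith
  have hW : ∀ z ∈ nearV (grid Q σ 0 y) (Vc A Y) (gpt (X * Y) σ) (gpt (X * Y) σ j) v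
      (1 / (2 * (Rb A X : ℝ))), z.1.1 ∈ farey Q ∧ |(z.1.2 : ℝ) + σ| ≤ y ∧ (F z.2 : ℝ) ≤ Y ∧
      (m21 z.2 : ℝ) ≤ Y ∧ dist1 (gpt (X * Y) σ j * F v - gpt (X * Y) σ z.1 * F z.2) ≤ y / X ∧
      dist1 (gpt (X * Y) σ j * m21 v - gpt (X * Y) σ z.1 * m21 z.2) ≤ y / X := by
    intro z hz
    rw [mem_nearV] at hz
    obtain ⟨h1, h2, h3, h4⟩ := hz
    rw [mem_grid hσ] at h1
    rw [mem_Vc] at h2
    have h5 : (m21 z.2 : ℝ) ≤ F z.2 := by exact_mod_cast (m21_lt z.2).le
    exact ⟨h1.1, h1.2.2, h2.1, h5.trans h2.1, h3.trans hR, h4.trans hR⟩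
  generalize nearV (grid Q σ 0 y) (Vc A Y) (gpt (X * Y) σ) (gpt (X * Y) σ j) v
      (1 / (2 * (Rb A X : ℝ))) = W at hW
  have hS1 := Zc4_coord hQ hT hX hY0 hTy W F (gpt (X * Y) σ j * F v) (fun z hz =>
    ⟨(hW z hz).1, (hW z hz).2.1, (hW z hz).2.2.1, (hW z hz).2.2.2.2.1⟩)
  have hS2 := Zc4_coord hQ hT hX hY0 hTy W m21 (gpt (X * Y) σ j * m21 v) (fun z hz =>
    ⟨(hW z hz).1, (hW z hz).2.1, (hW z hz).2.2.2.1, (hW z hz).2.2.2.2.2⟩)
  set f : Gp × List (Lt A) → ℝ × ℝ := fun z =>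
    (Int.fract (frac z.1.1 * F z.2), Int.fract (frac z.1.1 * m21 z.2)) with hf
  set M : ℝ := (2 * y + 2) * (Cc * Y ^ (sexp A) * (Q : ℝ) ^ (1 - sexp A)) with hM
  have hM0 : 0 ≤ M := by positivity
  -- fibres
  have hfib : ∀ b ∈ W.image f, ((W.filter fun z => f z = b).card : ℝ) ≤ M := by
    intro b hb
    obtain ⟨z0, hz0, rfl⟩ := Finset.mem_image.1 hb
    obtain ⟨a1, a2, a3, a4, a5, a6⟩ := hW z0 hz0
    have hrig : ∀ z ∈ W.filter (fun z => f z = f z0), ∀ z' ∈ W.filter (fun z => f z = f z0),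
        z.1.1.1 = z'.1.1.1 ∧ (z.1.1.1 : ℤ) ∣ (F z.2 : ℤ) * m21 z'.2 - m21 z.2 * F z'.2 ∧
        (z.1.1.1 : ℤ) ∣ (z.1.1.2 : ℤ) * F z.2 - z'.1.1.2 * F z'.2 ∧
        (z.1.1.1 : ℤ) ∣ (z.1.1.2 : ℤ) * m21 z.2 - z'.1.1.2 * m21 z'.2 := by
      intro z hz z' hz'
      rw [Finset.mem_filter] at hz hz'
      have h1 : f z = f z' := hz.2.trans hz'.2.symm
      rw [hf, Prod.mk.injEq] at h1
      obtain ⟨k, hk⟩ := Int.fract_eq_fract.1 h1.1
      obtain ⟨l, hl⟩ := Int.fract_eq_fract.1 h1.2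
      refine rigid (hW z hz.1).1 (hW z' hz'.1).1 (coprime_col z.2) (coprime_col z'.2) ?_ ?_
      · rw [hk, Zc4_dist1_int]
        positivity
      · rw [hl, Zc4_dist1_int]
        positivity
    have hz0f : z0 ∈ W.filter (fun z => f z = f z0) := by
      rw [Finset.mem_filter]
      exact ⟨hz0, rfl⟩
    have hq := mem_farey.1 a1
    have hVc : (((W.filter fun z => f z = f z0).image fun z => z.2).card : ℝ) ≤
        Cc * Y ^ (sexp A) * (Q : ℝ) ^ (1 - sexp A) := by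
      have h1 := hclass z0.1.1.1 Y (hQ.trans hq.1) (by
        have : (z0.1.1.1 : ℝ) < 2 * Q := by exact_mod_cast hq.2.1
        linarith) (F z0.2) (m21 z0.2) (Nat.isCoprime_iff_coprime.2 (coprime_col z0.2))
        ((W.filter fun z => f z = f z0).image fun z => z.2) (by
          intro v' hv'
          obtain ⟨z, hz, rfl⟩ := Finset.mem_image.1 hv'
          exact ⟨(hW z (Finset.mem_filter.1 hz).1).2.2.1, (hrig z0 hz0f z hz).2.1⟩)
      refine h1.trans ?_
      have h2 : (z0.1.1.1 : ℝ) ^ (1 - sexp A) ≤ (Q : ℝ) ^ (1 - sexp A) :=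
        Real.rpow_le_rpow_of_nonpos hQ0 (by exact_mod_cast hq.1) (by linarith)
      gcongr
    have hKc : ((Finset.Icc ⌈-y - 1⌉ ⌊y⌋).card : ℝ) ≤ 2 * y + 2 := by
      rw [Int.card_Icc]
      have h1 := Int.floor_le y
      have h2 := Int.le_ceil (-y - 1)
      have h3 : (((⌊y⌋ + 1 - ⌈-y - 1⌉).toNat : ℤ) : ℝ) ≤ 2 * y + 2 := by
        rw [Int.toNat_eq_max]
        push_cast
        refine max_le ?_ (by linarith)
        linarith
      exact_mod_cast h3
    have hcard : (W.filter fun z => f z = f z0).card ≤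
        (((W.filter fun z => f z = f z0).image fun z => z.2) ×ˢ
          (Finset.Icc ⌈-y - 1⌉ ⌊y⌋)).card := by
      refine Finset.card_le_card_of_injOn (fun z => (z.2, z.1.2)) ?_ ?_
      · intro z hz
        have hz' := Finset.mem_coe.1 hz
        have h1 := (hW z (Finset.mem_filter.1 hz').1).2.1
        have h2 := abs_le.1 h1
        rw [Finset.mem_coe, Finset.mem_product, Finset.mem_Icc]
        refine ⟨Finset.mem_image_of_mem _ hz', ?_, ?_⟩
        · rw [Int.ceil_le]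
          show -y - 1 ≤ (z.1.2 : ℝ)
          linarith [hσ.2]
        · rw [Int.le_floor]
          show (z.1.2 : ℝ) ≤ y
          linarith [hσ.1]
      · intro z hz z' hz' h
        have hz1 := Finset.mem_coe.1 hz
        have hz1' := Finset.mem_coe.1 hz'
        rw [Prod.mk.injEq] at h
        obtain ⟨h1, h2⟩ := h
        obtain ⟨r1, -, r3, r4⟩ := hrig z hz1 z' hz1'
        rw [← h1] at r3 r4
        have h3 := farey_unique (hW z (Finset.mem_filter.1 hz1).1).1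
          (hW z' (Finset.mem_filter.1 hz1').1).1 r1 (coprime_col z.2) r3 r4
        exact Prod.ext (Prod.ext h3 h2) h1
    rw [Finset.card_product] at hcard
    calc ((W.filter fun z => f z = f z0).card : ℝ) ≤
        ((((W.filter fun z => f z = f z0).image fun z => z.2).card *
          (Finset.Icc ⌈-y - 1⌉ ⌊y⌋).card : ℕ) : ℝ) := by exact_mod_cast hcard
      _ = (((W.filter fun z => f z = f z0).image fun z => z.2).card : ℝ) *
          ((Finset.Icc ⌈-y - 1⌉ ⌊y⌋).card : ℝ) := by push_cast; ring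
      _ ≤ (Cc * Y ^ (sexp A) * (Q : ℝ) ^ (1 - sexp A)) * (2 * y + 2) := by gcongr
      _ = M := by rw [hM]; ring
  have himg : ((W.image f).card : ℝ) ≤ (2 * y) * (2 * y) := by
    have h1 : W.image f ⊆ (W.image fun z => Int.fract (frac z.1.1 * F z.2)) ×ˢ
        (W.image fun z => Int.fract (frac z.1.1 * m21 z.2)) := by
      intro b hb
      obtain ⟨z, hz, rfl⟩ := Finset.mem_image.1 hb
      rw [Finset.mem_product]
      exact ⟨Finset.mem_image_of_mem (fun z : Gp × List (Lt A) =>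
        Int.fract (frac z.1.1 * F z.2)) hz, Finset.mem_image_of_mem
        (fun z : Gp × List (Lt A) => Int.fract (frac z.1.1 * m21 z.2)) hz⟩
    have h2 := Finset.card_le_card h1
    rw [Finset.card_product] at h2
    calc ((W.image f).card : ℝ) ≤
        (((W.image fun z => Int.fract (frac z.1.1 * F z.2)).card *
          (W.image fun z => Int.fract (frac z.1.1 * m21 z.2)).card : ℕ) : ℝ) := by
          exact_mod_cast h2
      _ = ((W.image fun z => Int.fract (frac z.1.1 * F z.2)).card : ℝ) *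
          ((W.image fun z => Int.fract (frac z.1.1 * m21 z.2)).card : ℝ) := by push_cast; ring
      _ ≤ (2 * y) * (2 * y) := by gcongr
  have htot : (W.card : ℝ) ≤ ((W.image f).card : ℝ) * M := by
    rw [Finset.card_eq_sum_card_image f W]
    push_cast
    calc ∑ b ∈ W.image f, ((W.filter fun z => f z = b).card : ℝ) ≤ ∑ _b ∈ W.image f, M :=
          Finset.sum_le_sum hfib
      _ = ((W.image f).card : ℝ) * M := by rw [Finset.sum_const, nsmul_eq_mul]
  calc (W.card : ℝ) ≤ ((W.image f).card : ℝ) * M := htot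
    _ ≤ ((2 * y) * (2 * y)) * M := by gcongr
    _ ≤ ((2 * y) * (2 * y)) * ((4 * y) * (Cc * Y ^ (sexp A) * (Q : ℝ) ^ (1 - sexp A))) := by
        rw [hM]
        gcongr
        linarith
    _ = 16 * Cc * y ^ 3 * Y ^ (sexp A) * (Q : ℝ) ^ (1 - sexp A) := by ring

end Pool.Agent.W_f50700_h13
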