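import Pool.Agent.W_f50700_h13.Zm1
import Pool.Agent.W_f50700_h13.Zc4

/-!
Ze1: estimate (I).
-/

open MeasureTheory

namespace Pool.Agent.W_f50700_h13

open Pool.Agent.W_f50700_h3

/-- the powers in estimate (I) -/
theorem Ze1_pow {s N Q T X Y : ℝ} (hN : 0 < N) (hQ : 0 < Q) (hT : 0 < T)
    (hX : X = 40 * Q ^ 2 * T) (hXY : X * Y = N) :
    X ^ (s + 2) * Y ^ s * (Y ^ s * Q ^ (1 - s)) / N * T ^ (-(s / 2)) =
      (40 : ℝ) ^ (2 - s) * (N ^ (2 * s - 1) * Q ^ (-(3 * s - 5)) * T ^ (-((3 * s - 4) / 2))) := by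
  have hX0 : 0 < X := by
    rw [hX]
    positivity
  have hY : Y = N / X := by
    rw [← hXY]
    field_simp
  have hY0 : 0 < Y := by
    rw [hY]
    positivity
  have lX : Real.log X = Real.log 40 + 2 * Real.log Q + Real.log T := by
    rw [hX, Real.log_mul (by positivity) hT.ne', Real.log_mul (by norm_num) (by positivity),
      Real.log_pow]
    norm_num
  have lY : Real.log Y = Real.log N - Real.log X := by
    rw [hY, Real.log_div hN.ne' hX0.ne']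
  have eN : N = Real.exp (Real.log N) := (Real.exp_log hN).symm
  have h1 : X ^ (s + 2) * Y ^ s * (Y ^ s * Q ^ (1 - s)) / N * T ^ (-(s / 2)) =
      Real.exp (Real.log X * (s + 2) + Real.log Y * s + (Real.log Y * s + Real.log Q * (1 - s)) -
        Real.log N + Real.log T * (-(s / 2))) := by
    rw [Real.exp_add, Real.exp_sub, Real.exp_add, Real.exp_add, Real.exp_add, ← eN,
      Real.rpow_def_of_pos hX0, Real.rpow_def_of_pos hY0, Real.rpow_def_of_pos hQ,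
      Real.rpow_def_of_pos hT]
  have h2 : (40 : ℝ) ^ (2 - s) * (N ^ (2 * s - 1) * Q ^ (-(3 * s - 5)) *
      T ^ (-((3 * s - 4) / 2))) = Real.exp (Real.log 40 * (2 - s) + (Real.log N * (2 * s - 1) +
        Real.log Q * (-(3 * s - 5)) + Real.log T * (-((3 * s - 4) / 2)))) := by
    rw [Real.exp_add, Real.exp_add, Real.exp_add, Real.rpow_def_of_pos (by norm_num : (0 : ℝ) < 40),
      Real.rpow_def_of_pos hN, Real.rpow_def_of_pos hQ, Real.rpow_def_of_pos hT]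
  rw [h1, h2]
  congr 1
  rw [lY, lX]
  ring

/-- (I).  `X = 40 Q^2 T`, `Y = 16 n / X`; `dual_ls` with `near1` resp. `far1`, `discretize`,
`smoothing`.  `N^(-1) X^(s+2) Y^(2s) Q^(1-s) T^(-s/2) = N^(2s-1) X^(2-s) Q^(1-s) T^(-s/2)`, and
`X^(2-s) ≤ 1600 Q^(4-2s) T^(2-s)`; far: `T^(2-s) y^3 ≤ y^4`; `T^(-3) ≤ T^(-(3s-4)/2)`. -/
theorem estimI {A : ℕ} (hA : 2 ≤ A) (hs : 5 / 3 < sexp A) : ∃ C c : ℝ, 0 < C ∧ 0 < c ∧
    ∀ n : ℕ, 1 ≤ n → ∀ (Q : ℕ) (T : ℝ), 1 ≤ Q → 1 ≤ T →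
    (Q : ℝ) ^ 3 * T ^ (3 / 2 : ℝ) ≤ c * (16 * n) →
    ∑ p ∈ farey Q, ∫ β in annu (16 * n) (tcl T) (2 * T), ‖S2 A n (frac p + β)‖ ^ 2 ≤
      C * (16 * n : ℝ) ^ (2 * sexp A - 1) * (Q : ℝ) ^ (-(3 * sexp A - 5)) *
        T ^ (-((3 * sexp A - 4) / 2)) := by
  obtain ⟨C1, hC1, hdual⟩ := dual_ls hA
  obtain ⟨Cn, C2, hCn, hC2, hnear⟩ := near1 hA (by linarith)
  obtain ⟨Cf, hCf, hfar⟩ := far1 hA (by linarith)
  obtain ⟨Cs, hCs, hsm⟩ := smoothing
  have hs2 := sexp_le_two (A := A) (by omega)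
  obtain ⟨s, hsd⟩ : ∃ s, s = sexp A := ⟨_, rfl⟩
  rw [← hsd] at hs hs2 hdual hnear hfar ⊢
  have h40 : 0 < (40 : ℝ) ^ (2 - s) := Real.rpow_pos_of_pos (by norm_num) _
  refine ⟨(C1 * Cn + Cs * (C1 * Cf)) * (40 : ℝ) ^ (2 - s), min (1 / 80) (1 / (40 * C2)),
    by positivity, by positivity, ?_⟩
  intro n hn Q T hQ hT hc
  have hQr : (1 : ℝ) ≤ Q := by exact_mod_cast hQ
  have hQ0 : (0 : ℝ) < Q := by linarith
  have hnr : (1 : ℝ) ≤ n := by exact_mod_cast hn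
  have hT0 : 0 < T := by linarith
  have hN0 : (0 : ℝ) < 16 * n := by linarith
  obtain ⟨N, hN⟩ : ∃ N : ℝ, N = 16 * n := ⟨_, rfl⟩
  have hsT : 1 ≤ √T := Real.one_le_sqrt.2 hT
  have hT32 : T ^ (3 / 2 : ℝ) = T * √T := by
    rw [Real.sqrt_eq_rpow, show (3 / 2 : ℝ) = 1 + 1 / 2 by norm_num, Real.rpow_add hT0,
      Real.rpow_one]
  rw [hT32] at hc
  obtain ⟨W, hW⟩ : ∃ W : ℝ, W = (Q : ℝ) ^ 3 * (T * √T) := ⟨_, rfl⟩
  rw [← hW] at hc
  have hW0 : 0 < W := by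
    rw [hW]
    positivity
  have hc1 : 80 * W ≤ 16 * n := by
    have h1 := hc.trans (mul_le_mul_of_nonneg_right (min_le_left _ _) hN0.le)
    linarith
  have hc2 : 40 * C2 * W ≤ 16 * n := by
    have h1 := hc.trans (mul_le_mul_of_nonneg_right (min_le_right _ _) hN0.le)
    have h2 := mul_le_mul_of_nonneg_left h1 (by positivity : 0 ≤ 40 * C2)
    have h3 : 40 * C2 * (1 / (40 * C2) * (16 * n)) = 16 * n := by
      field_simp
    linarith
  obtain ⟨X, hX⟩ : ∃ X : ℝ, X = 40 * (Q : ℝ) ^ 2 * T := ⟨_, rfl⟩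
  have hX0 : 0 < X := by
    rw [hX]
    positivity
  have hQ2 : (1 : ℝ) ≤ (Q : ℝ) ^ 2 := one_le_pow₀ hQr
  have hX1 : 1 < X := by
    rw [hX]
    nlinarith
  obtain ⟨Y, hY⟩ : ∃ Y : ℝ, Y = 16 * n / X := ⟨_, rfl⟩
  have hXY : X * Y = 16 * n := by
    rw [hY]
    field_simp
  have hY0 : 0 < Y := by
    rw [hY]
    positivity
  have hQT : (Q : ℝ) * (X) * √T = 40 * W := by
    rw [hX, hW]
    ring
  have hXn : X ≤ 8 * n := by
    have h1 : X * 1 ≤ X * (Q * √T) := by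
      refine mul_le_mul_of_nonneg_left ?_ hX0.le
      nlinarith
    have h2 : X * (Q * √T) = 40 * W := by
      rw [← hQT]
      ring
    linarith
  have hY2 : 2 * (Q : ℝ) ≤ Y := by
    rw [hY, le_div_iff₀ hX0]
    have h1 : 2 * (Q : ℝ) * X * 1 ≤ 2 * (Q : ℝ) * X * √T :=
      mul_le_mul_of_nonneg_left hsT (by positivity)
    have h2 : 2 * (Q : ℝ) * X * √T = 80 * W := by
      linarith [hQT]
    linarith
  have hYC : C2 * Q * √T ≤ Y := by
    rw [hY, le_div_iff₀ hX0]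
    have h1 : C2 * Q * √T * X = 40 * C2 * W := by
      have h2 : C2 * Q * √T * X = C2 * ((Q : ℝ) * X * √T) := by ring
      rw [h2, hQT]
      ring
    linarith
  have hY1 : 1 ≤ Y := by linarith
  have hfc : Continuous fun x : ℝ => ‖Sc A X Y x‖ ^ 2 := (continuous_Sc A X Y).norm.pow 2
  obtain ⟨E, hE⟩ : ∃ E : ℝ, E = X ^ (s + 2) * Y ^ s * (Y ^ s * (Q : ℝ) ^ (1 - s)) / N := ⟨_, rfl⟩
  have hNN : 0 < N := by
    rw [hN]
    exact hN0
  have hE0 : 0 < E := by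
    rw [hE]
    have h1 := Real.rpow_pos_of_pos hX0 (s + 2)
    have h2 := Real.rpow_pos_of_pos hY0 s
    have h3 := Real.rpow_pos_of_pos hQ0 (1 - s)
    positivity
  have hTs := Real.rpow_pos_of_pos hT0 (-(s / 2))
  have hXs := Real.rpow_pos_of_pos hX0 (s + 2)
  have hYs := Real.rpow_pos_of_pos hY0 s
  have hQs := Real.rpow_pos_of_pos hQ0 (1 - s)
  -- near part
  have hBn : ∑ p ∈ farey Q, ∫ β in annu (16 * n) (tlow T) (3 * T), ‖Sc A X Y (frac p + β)‖ ^ 2 ≤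
      C1 * Cn * E * T ^ (-(s / 2)) := by
    refine (discretize hfc (fun x => by positivity) Q hN0 (T1 := tlow T) (T2 := 3 * T)
      (B := C1 * X ^ (s + 2) * Y ^ s * (Cn * Y ^ s * (Q : ℝ) ^ (1 - s) * T ^ (-(s / 2)))) ?_).trans
      (le_of_eq ?_)
    · intro σ hσ
      refine hdual X Y hX1 hY1 (grid Q σ (tlow T) (3 * T)) (gpt (16 * n) σ)
        (Cn * Y ^ s * (Q : ℝ) ^ (1 - s) * T ^ (-(s / 2))) (by positivity) ?_
      intro j hj v hv
      have h1 := hnear Q T X Y σ hQ hT hX hYC hσ j hj v hv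
      rw [hXY] at h1
      exact h1
    · rw [hE, hN]
      ring
  -- far part
  have hBf : ∀ y : ℝ, T ≤ y → y ≤ 48 * n →
      ∑ p ∈ farey Q, ∫ β in annu (16 * n) 0 y, ‖Sc A X Y (frac p + β)‖ ^ 2 ≤
        C1 * Cf * E / T * y ^ 4 := by
    intro y hy _
    have hy0 : 0 < y := by linarith
    refine (discretize hfc (fun x => by positivity) Q hN0 (T1 := 0) (T2 := y)
      (B := C1 * X ^ (s + 2) * Y ^ s * (Cf * y ^ 3 * Y ^ s * (Q : ℝ) ^ (1 - s))) ?_).trans ?_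
    · intro σ hσ
      refine hdual X Y hX1 hY1 (grid Q σ 0 y) (gpt (16 * n) σ)
        (Cf * y ^ 3 * Y ^ s * (Q : ℝ) ^ (1 - s)) (by positivity) ?_
      intro j hj v hv
      have h1 := hfar Q T X Y σ y hQ hT hX hY2 hσ hy j hj v hv
      rw [hXY] at h1
      exact h1
    · have h2 : C1 * X ^ (s + 2) * Y ^ s * (Cf * y ^ 3 * Y ^ s * (Q : ℝ) ^ (1 - s)) / (16 * n) =
          C1 * Cf * E * y ^ 3 := by
        rw [hE, hN]
        ring
      rw [h2]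
      have h3 : C1 * Cf * E / T * y ^ 4 = C1 * Cf * E * y ^ 3 * (y / T) := by
        field_simp
      rw [h3]
      have h4 : 1 ≤ y / T := by
        rw [le_div_iff₀ hT0]
        linarith
      have h5 : 0 ≤ C1 * Cf * E * y ^ 3 := by positivity
      nlinarith
  refine (hsm A n hn X Y hX1 hXn hXY Q T (C1 * Cn * E * T ^ (-(s / 2))) (C1 * Cf * E / T) hT
    (by positivity) (by positivity) hBn hBf).trans ?_
  have hpow := Ze1_pow (s := s) hNN hQ0 hT0 hX (hXY.trans hN.symm)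
  rw [← hE, hN] at hpow
  have hT4 : 1 / T ^ 4 ≤ T ^ (-(s / 2)) := by
    have h1 : 1 / T ^ 4 = T ^ (-4 : ℝ) := by
      rw [Real.rpow_neg hT0.le, show (4 : ℝ) = ((4 : ℕ) : ℝ) by norm_num, Real.rpow_natCast,
        one_div]
    rw [h1]
    exact Real.rpow_le_rpow_of_exponent_le hT (by linarith)
  have h6 : Cs * (C1 * Cf * E / T) / T ^ 3 ≤ Cs * (C1 * Cf) * (E * T ^ (-(s / 2))) := by
    have h7 : Cs * (C1 * Cf * E / T) / T ^ 3 = Cs * (C1 * Cf) * (E * (1 / T ^ 4)) := by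
      field_simp
    rw [h7]
    exact mul_le_mul_of_nonneg_left (mul_le_mul_of_nonneg_left hT4 hE0.le) (by positivity)
  calc C1 * Cn * E * T ^ (-(s / 2)) + Cs * (C1 * Cf * E / T) / T ^ 3 ≤
      C1 * Cn * E * T ^ (-(s / 2)) + Cs * (C1 * Cf) * (E * T ^ (-(s / 2))) := by linarith
    _ = (C1 * Cn + Cs * (C1 * Cf)) * (E * T ^ (-(s / 2))) := by ring
    _ = _ := by
        rw [hpow]
        ring

end Pool.Agent.W_f50700_h13
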