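import Pool.Agent.W_f50700_h13.Zr2
import Pool.Agent.W_f50700_h13.Zc3

/-!
Zr3: regime 2, near and far counts.
-/

namespace Pool.Agent.W_f50700_h13

open Pool.Agent.W_f50700_h3

/-- common part: number of determinants times words times points -/
theorem Zr3_main {A : ℕ} (hA : 2 ≤ A) {Q : ℕ} {X Y σ T1 T2 K1 : ℝ} (hQ : 1 ≤ Q) (hY : 8 ≤ Y)
    (hYX : Y ^ 3 ≤ X) (hσ : σ ∈ Set.Icc (0 : ℝ) 1) (hT1 : 0 ≤ T1) (hT2 : 0 ≤ T2)
    (j : Gp) {v : List (Lt A)} (hv : v ∈ Vc A Y)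
    (hK1 : ((nearSet (-((⌊Y ^ 2⌋₊ : ℕ) : ℤ)) (⌊Y ^ 2⌋₊ : ℕ) (gpt (X * Y) σ j)
      (Y / (CA A * X))).card : ℝ) ≤ K1) :
    ((nearV (grid Q σ T1 T2) (Vc A Y) (gpt (X * Y) σ) (gpt (X * Y) σ j) v
      (1 / (2 * (Rb A X : ℝ)))).card : ℝ) ≤
      K1 * ((4 * CA A + 1) * ((1 + 8 * (Q : ℝ) ^ 2 * (4 + 2 * T2) / (X * Y)) *
      ((2 * T2 / (X * Y) + 2) * 9))) := by
  classical
  have hCA := Zr2_CA hA
  have hY0 : 0 < Y := by linarith
  have hXY1 : 64 * Y ≤ X := by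
    have : 64 * Y ≤ Y ^ 3 := by nlinarith [mul_pos hY0 hY0]
    linarith
  have hX0 : 0 < X := by linarith
  have hN0 : 0 < X * Y := by positivity
  set S := nearV (grid Q σ T1 T2) (Vc A Y) (gpt (X * Y) σ) (gpt (X * Y) σ j) v
      (1 / (2 * (Rb A X : ℝ))) with hS
  set T := nearSet (-((⌊Y ^ 2⌋₊ : ℕ) : ℤ)) (⌊Y ^ 2⌋₊ : ℕ) (gpt (X * Y) σ j) (Y / (CA A * X)) with hT
  apply MbC1_card_fib S T (fun z => (F v : ℤ) * m21 z.2 - m21 v * F z.2)
  · intro z hz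
    rw [hS, mem_nearV] at hz
    exact det_mem hA (by linarith) (by linarith) hv hz.2.1 hz.2.2.1 hz.2.2.2
  · positivity
  · exact hK1
  · intro m _
    apply MbC1_card_fib _ ((Vc A Y).filter (fun u' => (F v : ℤ) * m21 u' - m21 v * F u' = m))
      (fun z => z.2)
    · intro z hz
      rw [Finset.mem_filter, hS, mem_nearV] at hz
      rw [Finset.mem_filter]
      exact ⟨hz.1.2.1, hz.2⟩
    · positivity
    · apply count_det_col (X := Y / (4 * CA A)) (K := 4 * CA A) (by positivity) (Vc A Y) _ hv m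
      intro u hu
      rw [mem_Vc] at hu
      refine ⟨hu.2, ?_⟩
      have : 4 * CA A * (Y / (4 * CA A)) = Y := by
        have : CA A ≠ 0 := by linarith
        field_simp
      rw [this]; exact hu.1
    · intro v' hv'
      rw [Finset.mem_filter] at hv'
      set Sv := ((S.filter (fun z => (F v : ℤ) * m21 z.2 - m21 v * F z.2 = m)).filter
        (fun z => z.2 = v')) with hSv
      have hinj : Set.InjOn (fun z : Gp × List (Lt A) => z.1) Sv := by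
        intro z hz z' hz' h
        rw [Finset.mem_coe, hSv, Finset.mem_filter] at hz hz'
        exact Prod.ext h (hz.2.trans hz'.2.symm)
      have hcard : (Sv.image (fun z : Gp × List (Lt A) => z.1)).card = Sv.card :=
        Finset.card_image_of_injOn hinj
      have h1 := points_count hA hQ hY hYX hσ hT1 hT2 hv'.1 (gpt (X * Y) σ j * F v)
        (gpt (X * Y) σ j * m21 v) (Sv.image (fun z : Gp × List (Lt A) => z.1))
        (by
          intro z hz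
          obtain ⟨z0, hz0, rfl⟩ := Finset.mem_image.mp hz
          rw [hSv, Finset.mem_filter, Finset.mem_filter, hS, mem_nearV] at hz0
          obtain ⟨⟨⟨a1, a2, a3, a4⟩, _⟩, a5⟩ := hz0
          rw [a5] at a3 a4
          exact ⟨a1, a3, a4⟩)
      rw [hcard] at h1
      exact h1

theorem Zr3_pre {Q : ℕ} {T X Y : ℝ} (hQ : 1 ≤ Q) (hT : 1 ≤ T) (hY : 8 ≤ Y)
    (hY2 : Y ^ 2 = Q * T) (hYX : Y ^ 3 ≤ X) :
    0 < X ∧ 0 < X * Y ∧ (Q : ℝ) ≤ Y ^ 2 ∧ T ≤ Y ^ 2 ∧ Y ^ 2 ≤ X * Y ∧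
      (Q : ℝ) ^ 2 * T ≤ X * Y ∧ (Q : ℝ) ^ 2 ≤ X * Y := by
  have hQ1 : (1 : ℝ) ≤ Q := by exact_mod_cast hQ
  have hY0 : 0 < Y := by linarith
  have hX0 : 0 < X := lt_of_lt_of_le (by positivity) hYX
  have a1 : (Q : ℝ) ≤ Y ^ 2 := by rw [hY2]; nlinarith
  have a2 : T ≤ Y ^ 2 := by rw [hY2]; nlinarith
  have a3 : Y ^ 4 ≤ X * Y := by
    calc Y ^ 4 = Y ^ 3 * Y := by ring
      _ ≤ X * Y := mul_le_mul_of_nonneg_right hYX hY0.le
  have a4 : Y ^ 2 ≤ X * Y := by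
    have : Y ^ 2 ≤ Y ^ 4 := by
      have : 1 ≤ Y ^ 2 := by nlinarith
      nlinarith
    linarith
  have a5 : (Q : ℝ) ^ 2 * T ≤ Y ^ 4 := by
    have : Y ^ 4 = (Q : ℝ) ^ 2 * T * T := by
      calc Y ^ 4 = (Y ^ 2) ^ 2 := by ring
        _ = (Q * T) ^ 2 := by rw [hY2]
        _ = _ := by ring
    rw [this]
    have : 0 ≤ (Q : ℝ) ^ 2 * T := by positivity
    nlinarith
  have a6 : (Q : ℝ) ^ 2 ≤ (Q : ℝ) ^ 2 * T := by
    have : 0 ≤ (Q : ℝ) ^ 2 := by positivity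
    nlinarith
  exact ⟨hX0, by positivity, a1, a2, a4, by linarith, by linarith⟩

/-- facts on a grid point -/
theorem Zr3_gpt {Q : ℕ} {N σ T1 T2 : ℝ} (hN : 0 < N) (hσ : σ ∈ Set.Icc (0 : ℝ) 1) {j : Gp}
    (hj : j ∈ grid Q σ T1 T2) :
    1 ≤ j.1.1 ∧ (Q : ℝ) ≤ j.1.1 ∧ (j.1.1 : ℝ) ≤ 2 * Q ∧ IsCoprime (j.1.2 : ℤ) (j.1.1 : ℤ) ∧
      gpt N σ j = ((j.1.2 : ℤ) : ℝ) / j.1.1 + ((j.2 : ℝ) + σ) / N ∧
      |((j.2 : ℝ) + σ) / N| ≤ T2 / N ∧ T1 / N ≤ |((j.2 : ℝ) + σ) / N| := by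
  rw [mem_grid hσ] at hj
  obtain ⟨h1, h2, h3⟩ := hj
  rw [mem_farey] at h1
  obtain ⟨a1, a2, a3, a4⟩ := h1
  refine ⟨by omega, by exact_mod_cast a1, by exact_mod_cast a2.le,
    Nat.isCoprime_iff_coprime.mpr a4, ?_, ?_, ?_⟩
  · unfold gpt frac
    push_cast
    rfl
  · rw [abs_div, abs_of_pos hN]
    exact div_le_div_of_nonneg_right h3 hN.le
  · rw [abs_div, abs_of_pos hN]
    exact div_le_div_of_nonneg_right h2 hN.le

/-- near count, `Y^2 = Q T`, `Y^3 ≤ X`.  Number of determinants (`det_mem`): `count_beta1g`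
(`T ≤ 4`) or `count_beta2g` (`T > 4`, `|β| ≥ T/(2 X Y)`), bounded; for given determinant at most
`4 CA + 1` words (`count_det_col` with lower bound `Y/(4 CA)`, `K = 4 CA`); for given word
`points_count`, bounded (`Q^2 T ≤ Y^4 ≤ X Y`). -/
theorem near2 {A : ℕ} (hA : 2 ≤ A) : ∃ C : ℝ, 0 < C ∧
    ∀ (Q : ℕ) (T X Y σ : ℝ), 1 ≤ Q → 1 ≤ T → 8 ≤ Y → Y ^ 2 = Q * T → Y ^ 3 ≤ X →
    σ ∈ Set.Icc (0 : ℝ) 1 → ∀ j ∈ grid Q σ (tlow T) (3 * T), ∀ v ∈ Vc A Y,
    ((nearV (grid Q σ (tlow T) (3 * T)) (Vc A Y) (gpt (X * Y) σ) (gpt (X * Y) σ j) v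
      (1 / (2 * (Rb A X : ℝ)))).card : ℝ) ≤ C := by
  have hCA := Zr2_CA hA
  refine ⟨200 * ((4 * CA A + 1) * (81 * 72)), by positivity, ?_⟩
  intro Q T X Y σ hQ hT hY hY2 hYX hσ j hj v hv
  obtain ⟨hX0, hN0, q1, q2, q3, q4, q5⟩ := Zr3_pre hQ hT hY hY2 hYX
  have hY0 : 0 < Y := by linarith
  have hQ0 : (0 : ℝ) < Q := by exact_mod_cast hQ
  obtain ⟨g1, g2, g3, g4, g5, g6, g7⟩ := Zr3_gpt hN0 hσ hj
  set q := j.1.1 with hq
  set β := ((j.2 : ℝ) + σ) / (X * Y) with hβ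
  have hq0 : (0 : ℝ) < q := by linarith
  set M := ⌊Y ^ 2⌋₊ with hM
  have hMle : (M : ℝ) ≤ Y ^ 2 := Nat.floor_le (by positivity)
  set δ := Y / (CA A * X) with hδ
  have hCAX : 10 * X ≤ CA A * X := mul_le_mul_of_nonneg_right hCA hX0.le
  have hδ0 : 0 ≤ δ := by positivity
  have hδle : δ ≤ Y / (10 * X) := div_le_div_of_nonneg_left hY0.le (by positivity) hCAX
  have hY3 : Y ^ 3 / X ≤ 1 := by rw [div_le_one hX0]; exact hYX
  have f1 : 2 * (q : ℝ) * δ ≤ 1 := by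
    calc 2 * (q : ℝ) * δ ≤ 2 * (2 * Y ^ 2) * (Y / (10 * X)) := by
          apply mul_le_mul _ hδle hδ0 (by positivity)
          linarith
      _ = 2 / 5 * (Y ^ 3 / X) := by field_simp; ring
      _ ≤ 1 := by linarith
  have f2 : 2 * (q : ℝ) * (|β| * M) ≤ 12 := by
    have h1 : |β| * M ≤ (3 * T / (X * Y)) * Y ^ 2 :=
      mul_le_mul g6 hMle (Nat.cast_nonneg _) (by positivity)
    calc 2 * (q : ℝ) * (|β| * M) ≤ 2 * (2 * Q) * ((3 * T / (X * Y)) * Y ^ 2) := by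
          apply mul_le_mul _ h1 (by positivity) (by positivity)
          linarith
      _ = 12 * ((Q * T) * Y / X) := by field_simp; ring
      _ = 12 * (Y ^ 3 / X) := by rw [← hY2]; ring
      _ ≤ 12 := by linarith
  have hK1 : ((nearSet (-(M : ℤ)) M (gpt (X * Y) σ j) δ).card : ℝ) ≤ 200 := by
    rw [g5]
    rcases le_or_gt T 4 with hT4 | hT4
    · have h1 := count_beta1g g1 g4 β M hδ0
      refine h1.trans ?_
      have f3 : 2 * (M : ℝ) / q + 1 ≤ 9 := by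
        have : 2 * (M : ℝ) / q ≤ 2 * T := by
          rw [div_le_iff₀ hq0]
          calc 2 * (M : ℝ) ≤ 2 * Y ^ 2 := by linarith
            _ = 2 * T * Q := by rw [hY2]; ring
            _ ≤ 2 * T * q := mul_le_mul_of_nonneg_left g2 (by positivity)
        linarith
      calc (2 * (q : ℝ) * δ + 2 * q * (|β| * M) + 1) * (2 * M / q + 1) ≤ (1 + 12 + 1) * 9 := by
            apply mul_le_mul _ f3 (by positivity) (by norm_num)
            linarith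
        _ ≤ 200 := by norm_num
    · have htl : tlow T = T / 2 := by unfold tlow; rw [if_neg (not_le.mpr hT4)]
      rw [htl] at g7
      have hβpos : 0 < |β| := lt_of_lt_of_le (by positivity) g7
      have hβ0 : β ≠ 0 := abs_pos.mp hβpos
      have h1 := count_beta2g g1 g4 hβ0 M hδ0
      refine h1.trans ?_
      have f3 : 2 * δ / (q * |β|) + 1 ≤ 2 := by
        have : 2 * δ / (q * |β|) ≤ 1 := by
          rw [div_le_one (by positivity)]
          calc 2 * δ ≤ 2 * (Y / (10 * X)) := by linarith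
            _ ≤ Q * (T / 2 / (X * Y)) := by
                rw [mul_div_assoc', mul_div_assoc', div_le_div_iff₀ (by positivity) hN0]
                have : (Q : ℝ) * (T / 2) = Y ^ 2 / 2 := by rw [hY2]; ring
                rw [this]
                nlinarith [mul_pos (mul_pos hY0 hY0) hX0]
            _ ≤ q * |β| := mul_le_mul g2 g7 (by positivity) hq0.le
        linarith
      calc (2 * (q : ℝ) * δ + 2 * q * (|β| * M) + 1) * (2 * δ / (q * |β|) + 1) ≤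
          (1 + 12 + 1) * 2 := by
            apply mul_le_mul _ f3 (by positivity) (by norm_num)
            linarith
        _ ≤ 200 := by norm_num
  have htl0 : 0 ≤ tlow T := by
    unfold tlow; split_ifs
    · exact le_rfl
    · linarith
  have hmain := Zr3_main hA hQ hY hYX hσ htl0 (by positivity : 0 ≤ 3 * T) j hv hK1
  refine hmain.trans ?_
  have p1 : 1 + 8 * (Q : ℝ) ^ 2 * (4 + 2 * (3 * T)) / (X * Y) ≤ 81 := by
    have : 8 * (Q : ℝ) ^ 2 * (4 + 2 * (3 * T)) / (X * Y) ≤ 80 := by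
      rw [div_le_iff₀ hN0]
      nlinarith
    linarith
  have p2 : (2 * (3 * T) / (X * Y) + 2) * 9 ≤ 72 := by
    have : 2 * (3 * T) / (X * Y) ≤ 6 := by
      rw [div_le_iff₀ hN0]
      linarith
    linarith
  have p0 : 0 ≤ (2 * (3 * T) / (X * Y) + 2) * 9 := by positivity
  apply mul_le_mul_of_nonneg_left _ (by norm_num)
  apply mul_le_mul_of_nonneg_left _ (by positivity)
  exact mul_le_mul p1 p2 p0 (by norm_num)

/-- far count: determinants at most `(5 + 4 y)(2 T + 1)` (`count_beta1g`), words `4 CA + 1`,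
points at most `C y` (`y ≤ 3 X Y`) -/
theorem far2 {A : ℕ} (hA : 2 ≤ A) : ∃ C : ℝ, 0 < C ∧
    ∀ (Q : ℕ) (T X Y σ y : ℝ), 1 ≤ Q → 1 ≤ T → 8 ≤ Y → Y ^ 2 = Q * T → Y ^ 3 ≤ X →
    σ ∈ Set.Icc (0 : ℝ) 1 → T ≤ y → y ≤ 3 * (X * Y) → ∀ j ∈ grid Q σ 0 y, ∀ v ∈ Vc A Y,
    ((nearV (grid Q σ 0 y) (Vc A Y) (gpt (X * Y) σ) (gpt (X * Y) σ j) v
      (1 / (2 * (Rb A X : ℝ)))).card : ℝ) ≤ C * y ^ 3 := by
  have hCA := Zr2_CA hA
  refine ⟨18 * ((4 * CA A + 1) * (49 * 72)), by positivity, ?_⟩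
  intro Q T X Y σ y hQ hT hY hY2 hYX hσ hTy hyN j hj v hv
  obtain ⟨hX0, hN0, q1, q2, q3, q4, q5⟩ := Zr3_pre hQ hT hY hY2 hYX
  have hY0 : 0 < Y := by linarith
  have hy1 : 1 ≤ y := by linarith
  have hQ0 : (0 : ℝ) < Q := by exact_mod_cast hQ
  obtain ⟨g1, g2, g3, g4, g5, g6, g7⟩ := Zr3_gpt hN0 hσ hj
  set q := j.1.1 with hq
  set β := ((j.2 : ℝ) + σ) / (X * Y) with hβ
  have hq0 : (0 : ℝ) < q := by linarith
  set M := ⌊Y ^ 2⌋₊ with hM
  have hMle : (M : ℝ) ≤ Y ^ 2 := Nat.floor_le (by positivity)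
  set δ := Y / (CA A * X) with hδ
  have hCAX : 10 * X ≤ CA A * X := mul_le_mul_of_nonneg_right hCA hX0.le
  have hδ0 : 0 ≤ δ := by positivity
  have hδle : δ ≤ Y / (10 * X) := div_le_div_of_nonneg_left hY0.le (by positivity) hCAX
  have hY3 : Y ^ 3 / X ≤ 1 := by rw [div_le_one hX0]; exact hYX
  have f1 : 2 * (q : ℝ) * δ ≤ 1 := by
    calc 2 * (q : ℝ) * δ ≤ 2 * (2 * Y ^ 2) * (Y / (10 * X)) := by
          apply mul_le_mul _ hδle hδ0 (by positivity)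
          linarith
      _ = 2 / 5 * (Y ^ 3 / X) := by field_simp; ring
      _ ≤ 1 := by linarith
  have f2 : 2 * (q : ℝ) * (|β| * M) ≤ 4 * y := by
    have h1 : |β| * M ≤ (y / (X * Y)) * Y ^ 2 :=
      mul_le_mul g6 hMle (Nat.cast_nonneg _) (by positivity)
    calc 2 * (q : ℝ) * (|β| * M) ≤ 2 * (2 * Y ^ 2) * ((y / (X * Y)) * Y ^ 2) := by
          apply mul_le_mul _ h1 (by positivity) (by positivity)
          linarith
      _ = 4 * y * (Y ^ 3 / X) := by field_simp; ring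
      _ ≤ 4 * y * 1 := mul_le_mul_of_nonneg_left hY3 (by positivity)
      _ = 4 * y := by ring
  have hK1 : ((nearSet (-(M : ℤ)) M (gpt (X * Y) σ j) δ).card : ℝ) ≤ 18 * y ^ 2 := by
    rw [g5]
    have h1 := count_beta1g g1 g4 β M hδ0
    refine h1.trans ?_
    have f3 : 2 * (M : ℝ) / q + 1 ≤ 3 * y := by
      have : 2 * (M : ℝ) / q ≤ 2 * T := by
        rw [div_le_iff₀ hq0]
        calc 2 * (M : ℝ) ≤ 2 * Y ^ 2 := by linarith
          _ = 2 * T * Q := by rw [hY2]; ring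
          _ ≤ 2 * T * q := mul_le_mul_of_nonneg_left g2 (by positivity)
      linarith
    calc (2 * (q : ℝ) * δ + 2 * q * (|β| * M) + 1) * (2 * M / q + 1) ≤ (6 * y) * (3 * y) := by
          apply mul_le_mul _ f3 (by positivity) (by positivity)
          linarith
      _ = 18 * y ^ 2 := by ring
  have hmain := Zr3_main hA hQ hY hYX hσ le_rfl (by linarith : 0 ≤ y) j hv hK1
  refine hmain.trans ?_
  have p1 : 1 + 8 * (Q : ℝ) ^ 2 * (4 + 2 * y) / (X * Y) ≤ 49 * y := by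
    have : 8 * (Q : ℝ) ^ 2 * (4 + 2 * y) / (X * Y) ≤ 8 * (4 + 2 * y) := by
      rw [div_le_iff₀ hN0]
      nlinarith
    linarith
  have p2 : (2 * y / (X * Y) + 2) * 9 ≤ 72 := by
    have : 2 * y / (X * Y) ≤ 6 := by
      rw [div_le_iff₀ hN0]
      linarith
    linarith
  have p0 : 0 ≤ (2 * y / (X * Y) + 2) * 9 := by positivity
  calc 18 * y ^ 2 * ((4 * CA A + 1) * ((1 + 8 * (Q : ℝ) ^ 2 * (4 + 2 * y) / (X * Y)) *
      ((2 * y / (X * Y) + 2) * 9)))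
      ≤ 18 * y ^ 2 * ((4 * CA A + 1) * ((49 * y) * 72)) := by
        apply mul_le_mul_of_nonneg_left _ (by positivity)
        apply mul_le_mul_of_nonneg_left _ (by positivity)
        exact mul_le_mul p1 p2 p0 (by positivity)
    _ = 18 * ((4 * CA A + 1) * (49 * 72)) * y ^ 3 := by ring

end Pool.Agent.W_f50700_h13
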