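import Pool.Agent.W_f50700_h13.Zm1
import Pool.Agent.W_f50700_h13.Zr3

/-!
Ze2: estimate (II).
-/

open MeasureTheory

namespace Pool.Agent.W_f50700_h13

open Pool.Agent.W_f50700_h3

/-- the exponents: `X^(s+2) Y^s / N = N^(s+1) / Y^2` for `X Y = N` -/
private theorem Ze2_pow {X Y N P s : ℝ} (hX : 0 < X) (hY : 0 < Y) (hXY : X * Y = N)
    (hY2 : Y ^ 2 = P) : X ^ (s + 2) * Y ^ s / N = N ^ (s + 1) / P := by
  subst hXY
  subst hY2
  rw [Real.rpow_add hX, Real.rpow_add (mul_pos hX hY), Real.rpow_one, Real.mul_rpow hX.le hY.le]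
  rw [show (2 : ℝ) = ((2 : ℕ) : ℝ) by norm_num, Real.rpow_natCast]
  field_simp

/-- (II).  `Y = √(Q T)`, `X = 16 n / Y`; `dual_ls` with `near2` resp. `far2`, `discretize`,
`smoothing`.  `N^(-1) X^(s+2) Y^s = N^(s+1) / (Q T)`. -/
theorem estimII {A : ℕ} (hA : 2 ≤ A) : ∃ C : ℝ, 0 < C ∧
    ∀ n : ℕ, 1 ≤ n → ∀ (Q : ℕ) (T : ℝ), 1 ≤ Q → 1 ≤ T → 64 ≤ Q * T →
    ((Q : ℝ) * T) ^ 2 ≤ 16 * n →
    ∑ p ∈ farey Q, ∫ β in annu (16 * n) (tcl T) (2 * T), ‖S2 A n (frac p + β)‖ ^ 2 ≤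
      C * (16 * n : ℝ) ^ (sexp A + 1) / (Q * T) := by
  obtain ⟨C1, hC1, hdual⟩ := dual_ls hA
  obtain ⟨Cn, hCn, hnear⟩ := near2 hA
  obtain ⟨Cf, hCf, hfar⟩ := far2 hA
  obtain ⟨C3, hC3, hsm⟩ := smoothing
  refine ⟨C1 * (Cn + C3 * Cf), by positivity, ?_⟩
  intro n hn Q T hQ hT h64 hQT
  have hnR : (1 : ℝ) ≤ n := by exact_mod_cast hn
  have hN : (0 : ℝ) < 16 * n := by linarith
  have hQR : (1 : ℝ) ≤ Q := by exact_mod_cast hQ
  have hT0 : 0 < T := by linarith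
  have hQTpos : 0 < (Q : ℝ) * T := by positivity
  obtain ⟨Y, hYdef⟩ : ∃ Y : ℝ, Y = √(Q * T) := ⟨_, rfl⟩
  have hY2 : Y ^ 2 = Q * T := by rw [hYdef]; exact Real.sq_sqrt hQTpos.le
  have hY8 : 8 ≤ Y := by
    rw [hYdef]
    exact Real.le_sqrt_of_sq_le (by linarith)
  have hY0 : 0 < Y := by linarith
  obtain ⟨X, hXdef⟩ : ∃ X : ℝ, X = 16 * n / Y := ⟨_, rfl⟩
  have hXY : X * Y = 16 * n := by rw [hXdef]; exact div_mul_cancel₀ _ hY0.ne'
  have hY3 : Y ^ 3 ≤ X := by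
    rw [hXdef, le_div_iff₀ hY0]
    calc Y ^ 3 * Y = (Y ^ 2) ^ 2 := by ring
      _ = (Q * T) ^ 2 := by rw [hY2]
      _ ≤ _ := hQT
  have hX1 : 1 < X := by
    have h1 : (8 : ℝ) ^ 3 ≤ Y ^ 3 := pow_le_pow_left₀ (by norm_num) hY8 3
    norm_num at h1
    linarith
  have hX0 : 0 < X := by linarith
  have hX8 : X ≤ 8 * n := by
    rw [hXdef, div_le_iff₀ hY0]
    nlinarith
  obtain ⟨D, hD⟩ : ∃ D : ℝ, D = C1 * X ^ (sexp A + 2) * Y ^ (sexp A) := ⟨_, rfl⟩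
  have hD0 : 0 ≤ D := by rw [hD]; positivity
  have hcont : Continuous (fun x => ‖Sc A X Y x‖ ^ 2) := (continuous_Sc A X Y).norm.pow 2
  have hmain := hsm A n hn X Y hX1 hX8 hXY Q T (D * Cn / (16 * n)) (D * Cf / (16 * n)) hT
    (by positivity) (by positivity)
    (by
      refine discretize hcont (fun x => by positivity) Q hN (fun σ hσ => ?_)
      rw [hD]
      refine hdual X Y hX1 (by linarith) _ (gpt (16 * n) σ) Cn hCn.le ?_
      rw [← hXY]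
      exact hnear Q T X Y σ hQ hT hY8 hY2 hY3 hσ)
    (by
      intro y hTy hy
      have hy0 : 0 ≤ y := by linarith
      have hyN : y ≤ 3 * (X * Y) := by rw [hXY]; linarith
      have h1 := discretize hcont (fun x => by positivity) Q (T1 := 0) (T2 := y)
        (B := D * (Cf * y ^ 3)) hN (fun σ hσ => by
          rw [hD]
          refine hdual X Y hX1 (by linarith) _ (gpt (16 * n) σ) (Cf * y ^ 3) (by positivity) ?_
          rw [← hXY]
          exact hfar Q T X Y σ y hQ hT hY8 hY2 hY3 hσ hTy hyN)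
      refine h1.trans ?_
      have h2 : y ^ 3 ≤ y ^ 4 := pow_le_pow_right₀ (by linarith) (by norm_num)
      have h3 : D * (Cf * y ^ 3) / (16 * n) = D * Cf / (16 * n) * y ^ 3 := by ring
      rw [h3]
      exact mul_le_mul_of_nonneg_left h2 (by positivity))
  refine hmain.trans ?_
  have hT3 : 1 ≤ T ^ 3 := one_le_pow₀ hT
  have h4 : C3 * (D * Cf / (16 * n)) / T ^ 3 ≤ C3 * (D * Cf / (16 * n)) :=
    div_le_self (by positivity) hT3
  have h5 : D / (16 * n) = C1 * ((16 * n : ℝ) ^ (sexp A + 1) / (Q * T)) := by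
    rw [← Ze2_pow (s := sexp A) hX0 hY0 hXY hY2, hD]
    ring
  calc D * Cn / (16 * n) + C3 * (D * Cf / (16 * n)) / T ^ 3
      ≤ D * Cn / (16 * n) + C3 * (D * Cf / (16 * n)) := by linarith
    _ = D / (16 * n) * (Cn + C3 * Cf) := by ring
    _ = C1 * (Cn + C3 * Cf) * (16 * n : ℝ) ^ (sexp A + 1) / (Q * T) := by
        rw [h5]
        ring

end Pool.Agent.W_f50700_h13
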