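import Pool.Agent.W_f50700_h13.Zm1
import Pool.Agent.W_f50700_h13.MbA1

/-!
Zf1: covering of the minor arcs by dyadic classes.
-/

open MeasureTheory

namespace Pool.Agent.W_f50700_h13

open Pool.Agent.W_f50700_h3

/-- Dirichlet: `Real.exists_rat_abs_sub_le_and_den_le` with `⌊√N⌋` -/
theorem dirichlet2 {N : ℝ} (hN : 1 ≤ N) {θ : ℝ} (hθ : θ ∈ Set.Icc (0 : ℝ) 1) :
    ∃ q a : ℕ, 1 ≤ q ∧ (q : ℝ) ≤ √N ∧ a ≤ q ∧ Nat.Coprime a q ∧
      |θ - (a : ℝ) / q| ≤ 1 / (q * √N) := by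
  have hs : 1 ≤ √N := by
    rw [show (1 : ℝ) = √1 by simp]
    exact Real.sqrt_le_sqrt hN
  have hs0 : (0 : ℝ) < √N := by linarith
  set n : ℕ := ⌊√N⌋₊ with hn
  have hn1 : (n : ℝ) ≤ √N := Nat.floor_le hs0.le
  have hn2 : √N < (n : ℝ) + 1 := Nat.lt_floor_add_one _
  have hnpos : 0 < n := Nat.floor_pos.2 hs
  obtain ⟨r, hr1, hr2⟩ := Real.exists_rat_abs_sub_le_and_den_le θ hnpos
  have hden : (0 : ℝ) < r.den := by exact_mod_cast r.den_pos
  have hnr : (0 : ℝ) < (n : ℝ) + 1 := by positivity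
  have hrr : ((r : ℚ) : ℝ) = (r.num : ℝ) / r.den := Rat.cast_def r
  have h1 : |θ * r.den - r.num| < 1 := by
    have h2 : θ * r.den - r.num = (θ - (r : ℝ)) * r.den := by
      rw [hrr]; field_simp
    rw [h2, abs_mul, abs_of_pos hden]
    calc |θ - (r : ℝ)| * r.den ≤ 1 / (((n : ℝ) + 1) * r.den) * r.den :=
          mul_le_mul_of_nonneg_right hr1 hden.le
      _ = 1 / ((n : ℝ) + 1) := by field_simp
      _ < 1 := by
          rw [div_lt_one hnr]
          have : (1 : ℝ) ≤ n := by exact_mod_cast hnpos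
          linarith
  rw [abs_lt] at h1
  have hnum0 : 0 ≤ r.num := by
    have h3 : (-1 : ℝ) < r.num := by
      have : 0 ≤ θ * r.den := mul_nonneg hθ.1 hden.le
      linarith
    have h4 : (-1 : ℤ) < r.num := by exact_mod_cast h3
    omega
  have hnumle : r.num ≤ r.den := by
    have h3 : (r.num : ℝ) < r.den + 1 := by
      have : θ * r.den ≤ 1 * r.den := mul_le_mul_of_nonneg_right hθ.2 hden.le
      linarith
    have h4 : r.num < (r.den : ℤ) + 1 := by exact_mod_cast h3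
    omega
  refine ⟨r.den, r.num.toNat, r.den_pos, ?_, ?_, ?_, ?_⟩
  · have : (r.den : ℝ) ≤ n := by exact_mod_cast hr2
    linarith
  · omega
  · have := r.reduced
    rwa [← Int.natAbs_of_nonneg hnum0, Int.toNat_natCast]
  · have h5 : ((r.num.toNat : ℕ) : ℝ) = (r.num : ℝ) := by
      have : ((r.num.toNat : ℤ) : ℝ) = (r.num : ℝ) := by rw [Int.toNat_of_nonneg hnum0]
      exact_mod_cast this
    rw [h5, ← hrr]
    refine hr1.trans ?_
    apply one_div_le_one_div_of_le (by positivity)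
    calc (r.den : ℝ) * √N = √N * r.den := by ring
      _ ≤ ((n : ℝ) + 1) * r.den := mul_le_mul_of_nonneg_right hn2.le hden.le

/-- the minor arcs: more than `Q0/N` away from all fractions with denominators at most `Q0` -/
def minor2 (Q0 n : ℕ) : Set ℝ :=
  {θ : ℝ | θ ∈ Set.Icc (0 : ℝ) 1 ∧ ∀ q : ℕ, 1 ≤ q → q ≤ Q0 → ∀ a : ℤ,
    (Q0 : ℝ) / (16 * n) < |θ - (a : ℝ) / q|}

theorem measurableSet_minor2 (Q0 n : ℕ) : MeasurableSet (minor2 Q0 n) := by
  have h : minor2 Q0 n = Set.Icc (0 : ℝ) 1 ∩ ⋂ q : ℕ, ⋂ _ : 1 ≤ q, ⋂ _ : q ≤ Q0, ⋂ a : ℤ,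
      {θ : ℝ | (Q0 : ℝ) / (16 * n) < |θ - (a : ℝ) / q|} := by
    ext θ
    simp only [minor2, Set.mem_inter_iff, Set.mem_iInter]
    rfl
  rw [h]
  refine measurableSet_Icc.inter (MeasurableSet.iInter fun q => MeasurableSet.iInter fun _ =>
    MeasurableSet.iInter fun _ => MeasurableSet.iInter fun a => ?_)
  exact (isOpen_lt continuous_const (by fun_prop)).measurableSet

/-- dyadic classes `(i, j)`, `Q = 2^i`, `T = 2^j` -/
def cls (Q0 n : ℕ) : Finset (ℕ × ℕ) :=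
  ((Finset.range (n + 10)) ×ˢ (Finset.range (n + 10))).filter
    (fun z => Q0 < 2 * 2 ^ (z.1 + z.2) ∧ (2 ^ (z.1 + z.2)) ^ 2 ≤ 16 * n)

theorem mem_cls {Q0 n : ℕ} (hn : 1 ≤ n) {z : ℕ × ℕ} :
    z ∈ cls Q0 n ↔ Q0 < 2 * 2 ^ (z.1 + z.2) ∧ (2 ^ (z.1 + z.2)) ^ 2 ≤ 16 * n := by
  unfold cls
  rw [Finset.mem_filter, Finset.mem_product, Finset.mem_range, Finset.mem_range]
  refine ⟨fun h => h.2, fun h => ⟨?_, h⟩⟩
  have h1 : z.1 + z.2 < 2 ^ (z.1 + z.2) := Nat.lt_two_pow_self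
  set k := z.1 + z.2 with hk
  have h2 : k < n + 4 := by
    by_contra hcon
    have h3 : n + 4 ≤ k := not_lt.1 hcon
    have h4 := h.2
    zify at h1 h3 h4 ⊢
    nlinarith [sq_nonneg ((n : ℤ) - 4)]
  omega

theorem card_cls_le {Q0 n : ℕ} (hn : 1 ≤ n) :
    ((cls Q0 n).card : ℝ) ≤ 100 * (1 + Real.log (16 * n)) ^ 2 := by
  have hn1 : (1 : ℝ) ≤ (n : ℝ) := by exact_mod_cast hn
  have hlog : 0 ≤ Real.log (16 * n) := Real.log_nonneg (by linarith)
  set K := ⌊Real.log (16 * n)⌋₊ + 1 with hK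
  have hsub : cls Q0 n ⊆ (Finset.range K) ×ˢ (Finset.range K) := by
    intro z hz
    have h1 := ((mem_cls hn).1 hz).2
    have h2 : ((z.1 + z.2 : ℕ) : ℝ) ≤ Real.log (16 * n) := by
      have h3 : ((4 : ℝ) ^ (z.1 + z.2)) ≤ 16 * n := by
        have h4 : (4 : ℕ) ^ (z.1 + z.2) ≤ 16 * n := by
          calc (4 : ℕ) ^ (z.1 + z.2) = (2 ^ (z.1 + z.2)) ^ 2 := by
                rw [← pow_mul, mul_comm, pow_mul]
                norm_num
            _ ≤ _ := h1
        exact_mod_cast h4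
      have h5 := Real.log_le_log (by positivity) h3
      rw [Real.log_pow] at h5
      have h6 : 1 ≤ Real.log 4 := by
        rw [Real.le_log_iff_exp_le (by norm_num)]
        have := Real.exp_one_lt_d9
        linarith
      have h7 : (0 : ℝ) ≤ ((z.1 + z.2 : ℕ) : ℝ) := Nat.cast_nonneg _
      nlinarith
    have h8 : z.1 + z.2 ≤ ⌊Real.log (16 * n)⌋₊ := Nat.le_floor h2
    rw [Finset.mem_product, Finset.mem_range, Finset.mem_range]
    omega
  have h1 : (cls Q0 n).card ≤ K * K := by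
    refine (Finset.card_le_card hsub).trans ?_
    rw [Finset.card_product, Finset.card_range]
  have h2 : (K : ℝ) ≤ 1 + Real.log (16 * n) := by
    rw [hK]
    push_cast
    have := Nat.floor_le hlog
    linarith
  have h3 : (0 : ℝ) ≤ (K : ℝ) := Nat.cast_nonneg _
  calc ((cls Q0 n).card : ℝ) ≤ (K : ℝ) * K := by exact_mod_cast h1
    _ ≤ (1 + Real.log (16 * n)) * (1 + Real.log (16 * n)) := mul_le_mul h2 h2 h3 (by linarith)
    _ ≤ _ := by nlinarith

/-- translated arcs -/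
def arcT (n : ℕ) (p : ℕ × ℕ) (l : ℕ) (j : ℕ) : Set ℝ :=
  {θ : ℝ | θ - frac p - l ∈ annu (16 * n) (tcl (2 ^ j)) (2 * 2 ^ j)}

/-- covering: for `θ` in the minor arcs take `q, a` from `dirichlet2` (`N = 16 n`),
`2^i ≤ q < 2^(i+1)`; `j = 0` if `N |θ - a/q| < 2`, otherwise `2^j ≤ N |θ - a/q| < 2^(j+1)`;
`p = (q, a)`, `l = 0`, except for `q = a = 1` where `p = (1, 0)`, `l = 1` -/
theorem minor2_cover {Q0 n : ℕ} (hn : 1 ≤ n) (hQ0 : 1 ≤ Q0) :
    minor2 Q0 n ⊆ ⋃ z ∈ cls Q0 n, ⋃ p ∈ farey (2 ^ z.1), ⋃ l ∈ Finset.range 2,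
      arcT n p l z.2 := by
  rintro θ ⟨hθ, hmin⟩
  have hn1 : (1 : ℝ) ≤ (n : ℝ) := by exact_mod_cast hn
  have hN : (1 : ℝ) ≤ 16 * n := by linarith
  have hN0 : (0 : ℝ) < 16 * n := by linarith
  obtain ⟨q, a, hq, hqN, haq, hcop, hd⟩ := dirichlet2 hN hθ
  have hq0 : (0 : ℝ) < (q : ℝ) := by exact_mod_cast hq
  have hs0 : (0 : ℝ) < √(16 * n) := Real.sqrt_pos.2 hN0
  have hss : √(16 * n : ℝ) * √(16 * n : ℝ) = 16 * n := Real.mul_self_sqrt hN0.le
  set x : ℝ := 16 * n * |θ - (a : ℝ) / q| with hx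
  have hxq : x * q ≤ √(16 * n) := by
    calc x * q ≤ 16 * n * (1 / (q * √(16 * n))) * q := by
          refine mul_le_mul_of_nonneg_right (mul_le_mul_of_nonneg_left hd hN0.le) hq0.le
      _ = (√(16 * n) * √(16 * n)) / √(16 * n) := by
          rw [hss]
          field_simp
      _ = √(16 * n) := by field_simp
  -- the dyadic indices
  set i := Nat.log 2 q with hi
  have hi1 : 2 ^ i ≤ q := Nat.pow_log_le_self 2 (by omega)
  have hi2 : q < 2 * 2 ^ i := by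
    have h1 : q < 2 ^ (i + 1) := Nat.lt_pow_succ_log_self (by norm_num) q
    rw [pow_succ] at h1
    omega
  have hj : ∃ j : ℕ, (x < 2 * 2 ^ j) ∧ (tcl (2 ^ j) ≤ x) ∧ ((2 : ℝ) ^ j * q ≤ √(16 * n)) := by
    by_cases hx2 : x < 2
    · refine ⟨0, by simpa using hx2, ?_, by simpa using hqN⟩
      simp only [pow_zero, tcl, le_refl, if_true]
      positivity
    · rw [not_lt] at hx2
      set j := Nat.log 2 ⌊x⌋₊ with hj
      have hfl : 2 ≤ ⌊x⌋₊ := Nat.le_floor (by simpa using hx2)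
      have hj1 : 2 ^ j ≤ ⌊x⌋₊ := Nat.pow_log_le_self 2 (by omega)
      have hj2 : ⌊x⌋₊ < 2 ^ (j + 1) := Nat.lt_pow_succ_log_self (by norm_num) _
      have hj3 : ((2 : ℝ) ^ j) ≤ x := by
        have h1 : ((2 ^ j : ℕ) : ℝ) ≤ (⌊x⌋₊ : ℝ) := by exact_mod_cast hj1
        push_cast at h1
        exact h1.trans (Nat.floor_le (by linarith))
      have hj4 : x < 2 * 2 ^ j := by
        have h1 : ⌊x⌋₊ + 1 ≤ 2 ^ (j + 1) := hj2
        have h2 : ((⌊x⌋₊ : ℝ) + 1) ≤ (2 : ℝ) ^ (j + 1) := by exact_mod_cast h1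
        have h3 := Nat.lt_floor_add_one x
        rw [pow_succ] at h2
        linarith
      refine ⟨j, hj4, ?_, ?_⟩
      · unfold tcl
        split_ifs
        · linarith
        · exact hj3
      · exact (mul_le_mul_of_nonneg_right hj3 hq0.le).trans hxq
  obtain ⟨j, hj1, hj2, hj3⟩ := hj
  have hz : (i, j) ∈ cls Q0 n := by
    rw [mem_cls hn]
    constructor
    · show Q0 < 2 * 2 ^ (i + j)
      have hij : 2 ^ i ≤ 2 ^ (i + j) := Nat.pow_le_pow_right (by norm_num) (by omega)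
      have hij2 : 2 ^ j ≤ 2 ^ (i + j) := Nat.pow_le_pow_right (by norm_num) (by omega)
      by_cases hqQ : q ≤ Q0
      · have h1 := hmin q hq hqQ (a : ℤ)
        rw [div_lt_iff₀ hN0] at h1
        have h2 : (Q0 : ℝ) < 2 * 2 ^ j := by
          refine lt_of_lt_of_le (lt_of_lt_of_le h1 (le_of_eq ?_)) hj1.le
          rw [hx]
          push_cast
          ring
        have h3 : Q0 < 2 * 2 ^ j := by exact_mod_cast h2
        omega
      · omega
    · show (2 ^ (i + j)) ^ 2 ≤ 16 * n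
      have h1 : ((2 : ℝ) ^ (i + j)) ≤ √(16 * n) := by
        calc ((2 : ℝ) ^ (i + j)) = (2 : ℝ) ^ j * ((2 ^ i : ℕ) : ℝ) := by
              push_cast
              rw [pow_add]
              ring
          _ ≤ (2 : ℝ) ^ j * q := by
              refine mul_le_mul_of_nonneg_left ?_ (by positivity)
              exact_mod_cast hi1
          _ ≤ _ := hj3
      have h2 : ((2 : ℝ) ^ (i + j)) ^ 2 ≤ 16 * n := by
        calc ((2 : ℝ) ^ (i + j)) ^ 2 ≤ √(16 * n) ^ 2 :=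
              pow_le_pow_left₀ (by positivity) h1 2
          _ = 16 * n := by rw [pow_two, hss]
      exact_mod_cast h2
  simp only [Set.mem_iUnion]
  rcases Nat.lt_or_ge a q with haq' | haq'
  · refine ⟨(i, j), hz, (q, a), mem_farey.2 ⟨hi1, hi2, haq', hcop⟩, 0, by simp, ?_⟩
    show θ - frac (q, a) - ((0 : ℕ) : ℝ) ∈ annu (16 * n) (tcl (2 ^ j)) (2 * 2 ^ j)
    have h1 : θ - frac (q, a) - ((0 : ℕ) : ℝ) = θ - (a : ℝ) / q := by
      simp [frac]
    rw [h1]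
    exact ⟨hj2, hj1.le⟩
  · have hqa : a = q := le_antisymm haq haq'
    subst hqa
    have ha1 : a = 1 := by
      rw [Nat.Coprime, Nat.gcd_self] at hcop
      exact hcop
    have hi0 : i = 0 := by
      rw [hi, ha1]
      simp
    refine ⟨(i, j), hz, (1, 0), mem_farey.2 ?_, 1, by simp, ?_⟩
    · rw [hi0]
      simp
    · show θ - frac (1, 0) - ((1 : ℕ) : ℝ) ∈ annu (16 * n) (tcl (2 ^ j)) (2 * 2 ^ j)
      have h1 : θ - frac (1, 0) - ((1 : ℕ) : ℝ) = θ - (a : ℝ) / a := by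
        rw [div_self hq0.ne']
        simp [frac]
      rw [h1]
      exact ⟨hj2, hj1.le⟩

private theorem Zf1_translate (n : ℕ) (p : ℕ × ℕ) (l j : ℕ) (f : ℝ → ℝ) :
    ∫ θ in arcT n p l j, f θ =
      ∫ β in annu (16 * n) (tcl (2 ^ j)) (2 * 2 ^ j), f (frac p + β + l) := by
  have hm := measurableSet_annu (16 * n) (tcl (2 ^ j)) (2 * 2 ^ j)
  have hmT : MeasurableSet (arcT n p l j) := by
    have h1 : Measurable fun θ : ℝ => θ - frac p - l := by fun_prop
    exact h1 hm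
  rw [← integral_indicator hmT, ← integral_indicator hm]
  rw [← integral_sub_right_eq_self (fun β => (annu (16 * n) (tcl (2 ^ j)) (2 * 2 ^ j)).indicator
    (fun β => f (frac p + β + l)) β) (frac p + l)]
  congr 1
  ext θ
  by_cases h : θ ∈ arcT n p l j
  · have h' : θ - (frac p + l) ∈ annu (16 * n) (tcl (2 ^ j)) (2 * 2 ^ j) := by
      have h2 : θ - frac p - l ∈ annu (16 * n) (tcl (2 ^ j)) (2 * 2 ^ j) := h
      rwa [sub_sub] at h2
    rw [Set.indicator_of_mem h, Set.indicator_of_mem h']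
    congr 1
    ring
  · have h' : θ - (frac p + l) ∉ annu (16 * n) (tcl (2 ^ j)) (2 * 2 ^ j) := by
      intro h2
      apply h
      show θ - frac p - l ∈ annu (16 * n) (tcl (2 ^ j)) (2 * 2 ^ j)
      rwa [sub_sub]
    rw [Set.indicator_of_notMem h, Set.indicator_of_notMem h']

/-- `setIntegral_le_sum`, translation and `S2_add_int` -/
theorem minor2_le {A Q0 n : ℕ} (hn : 1 ≤ n) (hQ0 : 1 ≤ Q0) :
    ∫ θ in minor2 Q0 n, ‖S2 A n θ‖ ^ 2 ≤
      2 * ∑ z ∈ cls Q0 n, ∑ p ∈ farey (2 ^ z.1),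
        ∫ β in annu (16 * n) (tcl (2 ^ z.2)) (2 * 2 ^ z.2), ‖S2 A n (frac p + β)‖ ^ 2 := by
  have hn1 : (1 : ℝ) ≤ (n : ℝ) := by exact_mod_cast hn
  have hN0 : (0 : ℝ) < 16 * n := by linarith
  have hf : Continuous fun θ => ‖S2 A n θ‖ ^ 2 := (continuous_S2 A n).norm.pow 2
  have key := setIntegral_le_sum hf (fun x => by positivity) (measurableSet_minor2 Q0 n)
    ((cls Q0 n).sigma fun z => farey (2 ^ z.1) ×ˢ Finset.range 2)
    (fun y => arcT n y.2.1 y.2.2 y.1.2) ?_ ?_ ?_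
  · refine key.trans (le_of_eq ?_)
    rw [Finset.sum_sigma, Finset.mul_sum]
    refine Finset.sum_congr rfl fun z _ => ?_
    rw [Finset.sum_product, Finset.mul_sum]
    refine Finset.sum_congr rfl fun p _ => ?_
    have h1 : ∀ l : ℕ, ∫ θ in arcT n p l z.2, ‖S2 A n θ‖ ^ 2 =
        ∫ β in annu (16 * n) (tcl (2 ^ z.2)) (2 * 2 ^ z.2), ‖S2 A n (frac p + β)‖ ^ 2 := by
      intro l
      rw [Zf1_translate n p l z.2 (fun θ => ‖S2 A n θ‖ ^ 2)]
      refine setIntegral_congr_fun (measurableSet_annu _ _ _) fun β _ => ?_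
      have h2 := S2_add_int A n (frac p + β) (l : ℤ)
      rw [← h2]
      push_cast
      rfl
    simp only [h1]
    rw [Finset.sum_const, Finset.card_range, nsmul_eq_mul]
    norm_num
  · intro y _
    have h1 : Measurable fun θ : ℝ => θ - frac y.2.1 - y.2.2 := by fun_prop
    exact h1 (measurableSet_annu _ _ _)
  · intro y _
    have h2 := isBounded_annu hN0 (tcl (2 ^ y.1.2)) (2 * 2 ^ y.1.2)
    obtain ⟨R, hR⟩ := h2.subset_closedBall 0
    refine (Metric.isBounded_closedBall (x := frac y.2.1 + y.2.2) (r := R)).subset ?_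
    intro θ hθ
    have h3 := hR hθ
    rw [Metric.mem_closedBall, Real.dist_eq] at h3 ⊢
    rw [sub_zero, sub_sub] at h3
    exact h3
  · intro θ hθ
    have h1 := minor2_cover hn hQ0 hθ
    simp only [Set.mem_iUnion] at h1
    obtain ⟨z, hz, p, hp, l, hl, h2⟩ := h1
    simp only [Set.mem_iUnion]
    exact ⟨⟨z, (p, l)⟩, Finset.mem_sigma.2 ⟨hz, Finset.mem_product.2 ⟨hp, hl⟩⟩, h2⟩

end Pool.Agent.W_f50700_h13
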