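import Pool.Agent.W_f50700_h13.Zf1
import Pool.Agent.W_f50700_h13.Ze1
import Pool.Agent.W_f50700_h13.Ze2

/-!
Zf2: Theorem B2, the minor arcs for every exponent above 5/3.
-/

open MeasureTheory

namespace Pool.Agent.W_f50700_h13

open Pool.Agent.W_f50700_h3

theorem Zf2_geom_sum_le {r : ℝ} (h0 : 0 ≤ r) (h1 : r < 1) (m : ℕ) :
    ∑ i ∈ Finset.range m, r ^ i ≤ (1 - r)⁻¹ := by
  have hs : Summable (fun i : ℕ => r ^ i) := summable_geometric_of_lt_one h0 h1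
  have := hs.sum_le_tsum (Finset.range m) (fun i _ => pow_nonneg h0 i)
  rwa [tsum_geometric_of_lt_one h0 h1] at this

theorem Zf2_pow_rpow (i : ℕ) (g : ℝ) : ((2 : ℝ) ^ i) ^ (-g) = ((2 : ℝ) ^ (-g)) ^ i := by
  rw [← Real.rpow_natCast (2 : ℝ) i, ← Real.rpow_mul (by norm_num), mul_comm,
    Real.rpow_mul (by norm_num), Real.rpow_natCast]

/-- double geometric sum: `2^(-i α - j β) ≤ 2^(-(i+j) γ)`, `γ = min α β`, and `2^(i+j) > Q0/2` -/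
theorem geom_cls {α β : ℝ} (hα : 0 < α) (hβ : 0 < β) : ∃ C κ : ℝ, 0 < C ∧ 0 < κ ∧
    ∀ Q0 n : ℕ, 1 ≤ Q0 → 1 ≤ n →
    ∑ z ∈ cls Q0 n, ((2 ^ z.1 : ℕ) : ℝ) ^ (-α) * ((2 : ℝ) ^ z.2) ^ (-β) ≤
      C * (Q0 : ℝ) ^ (-κ) := by
  set γ : ℝ := min α β with hγ
  have hγ0 : 0 < γ := lt_min hα hβ
  set g : ℝ := γ / 2 with hg
  have hg0 : 0 < g := by positivity
  set r : ℝ := (2 : ℝ) ^ (-g) with hr
  have hr0 : 0 < r := by positivity
  have hr1 : r < 1 := by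
    rw [hr]
    exact Real.rpow_lt_one_of_one_lt_of_neg (by norm_num) (by linarith)
  have h1r : 0 < 1 - r := by linarith
  refine ⟨(2 : ℝ) ^ g * ((1 - r)⁻¹ * (1 - r)⁻¹), g, by positivity, hg0, ?_⟩
  intro Q0 n hQ0 hn
  have hQ : (0 : ℝ) < Q0 := by exact_mod_cast hQ0
  have key : ∀ z ∈ cls Q0 n, ((2 ^ z.1 : ℕ) : ℝ) ^ (-α) * ((2 : ℝ) ^ z.2) ^ (-β) ≤
      ((2 : ℝ) ^ g * (Q0 : ℝ) ^ (-g)) * (r ^ z.1 * r ^ z.2) := by
    intro z hz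
    have hz1 := ((mem_cls hn).1 hz).1
    have hz1' : (Q0 : ℝ) < 2 * 2 ^ (z.1 + z.2) := by exact_mod_cast hz1
    have e1 : ((2 ^ z.1 : ℕ) : ℝ) = (2 : ℝ) ^ z.1 := by push_cast; rfl
    rw [e1]
    have hi : (1 : ℝ) ≤ (2 : ℝ) ^ z.1 := one_le_pow₀ (by norm_num)
    have hj : (1 : ℝ) ≤ (2 : ℝ) ^ z.2 := one_le_pow₀ (by norm_num)
    have a1 : ((2 : ℝ) ^ z.1) ^ (-α) ≤ ((2 : ℝ) ^ z.1) ^ (-γ) :=
      Real.rpow_le_rpow_of_exponent_le hi (by linarith [min_le_left α β])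
    have a2 : ((2 : ℝ) ^ z.2) ^ (-β) ≤ ((2 : ℝ) ^ z.2) ^ (-γ) :=
      Real.rpow_le_rpow_of_exponent_le hj (by linarith [min_le_right α β])
    have a3 : ((2 : ℝ) ^ z.1) ^ (-γ) * ((2 : ℝ) ^ z.2) ^ (-γ) =
        ((2 : ℝ) ^ (z.1 + z.2)) ^ (-g) * (r ^ z.1 * r ^ z.2) := by
      have b1 : -γ = -g + -g := by rw [hg]; ring
      rw [b1, Real.rpow_add (by positivity), Real.rpow_add (by positivity), pow_add,
        Real.mul_rpow (by positivity) (by positivity), Zf2_pow_rpow, Zf2_pow_rpow, ← hr]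
      ring
    have a4 : ((2 : ℝ) ^ (z.1 + z.2)) ^ (-g) ≤ (2 : ℝ) ^ g * (Q0 : ℝ) ^ (-g) := by
      have b1 : (Q0 : ℝ) / 2 ≤ (2 : ℝ) ^ (z.1 + z.2) := by linarith
      have b2 := Real.rpow_le_rpow_of_nonpos (by positivity) b1 (by linarith : -g ≤ 0)
      refine b2.trans (le_of_eq ?_)
      rw [Real.div_rpow hQ.le (by norm_num), Real.rpow_neg (by norm_num : (0 : ℝ) ≤ 2)]
      rw [div_inv_eq_mul, mul_comm]
    calc ((2 : ℝ) ^ z.1) ^ (-α) * ((2 : ℝ) ^ z.2) ^ (-β)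
        ≤ ((2 : ℝ) ^ z.1) ^ (-γ) * ((2 : ℝ) ^ z.2) ^ (-γ) :=
          mul_le_mul a1 a2 (by positivity) (by positivity)
      _ = ((2 : ℝ) ^ (z.1 + z.2)) ^ (-g) * (r ^ z.1 * r ^ z.2) := a3
      _ ≤ _ := mul_le_mul_of_nonneg_right a4 (by positivity)
  calc ∑ z ∈ cls Q0 n, ((2 ^ z.1 : ℕ) : ℝ) ^ (-α) * ((2 : ℝ) ^ z.2) ^ (-β)
      ≤ ∑ z ∈ cls Q0 n, ((2 : ℝ) ^ g * (Q0 : ℝ) ^ (-g)) * (r ^ z.1 * r ^ z.2) :=
        Finset.sum_le_sum key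
    _ ≤ ∑ z ∈ (Finset.range (n + 10)) ×ˢ (Finset.range (n + 10)),
          ((2 : ℝ) ^ g * (Q0 : ℝ) ^ (-g)) * (r ^ z.1 * r ^ z.2) := by
        apply Finset.sum_le_sum_of_subset_of_nonneg
        · unfold cls
          exact Finset.filter_subset _ _
        · intro z _ _
          positivity
    _ = ((2 : ℝ) ^ g * (Q0 : ℝ) ^ (-g)) *
          ((∑ i ∈ Finset.range (n + 10), r ^ i) * ∑ j ∈ Finset.range (n + 10), r ^ j) := by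
        rw [← Finset.mul_sum, Finset.sum_mul_sum, Finset.sum_product]
    _ ≤ ((2 : ℝ) ^ g * (Q0 : ℝ) ^ (-g)) * ((1 - r)⁻¹ * (1 - r)⁻¹) := by
        apply mul_le_mul_of_nonneg_left _ (by positivity)
        exact mul_le_mul (Zf2_geom_sum_le hr0.le hr1 _) (Zf2_geom_sum_le hr0.le hr1 _)
          (Finset.sum_nonneg fun i _ => pow_nonneg hr0.le i) (inv_nonneg.2 h1r.le)
    _ = _ := by ring

/-- the logarithm against a power -/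
theorem Zf2_log {δ K M : ℝ} (hδ : 0 < δ) (hK : 0 ≤ K) (hM : 0 < M) : ∃ n1 : ℕ, 1 ≤ n1 ∧
    ∀ n : ℕ, n1 ≤ n → K * (1 + Real.log (16 * n)) ^ 2 ≤ M * (16 * n : ℝ) ^ δ := by
  set ε : ℝ := δ / 4 with hε
  have hε0 : 0 < ε := by positivity
  set D : ℝ := K * (1 + 1 / ε) ^ 2 with hD
  have hD0 : 0 ≤ D := by positivity
  have ht : Filter.Tendsto (fun n : ℕ => (16 * n : ℝ) ^ (δ / 2)) Filter.atTop Filter.atTop := by
    apply (tendsto_rpow_atTop (by positivity : 0 < δ / 2)).comp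
    exact Filter.Tendsto.const_mul_atTop (by norm_num) tendsto_natCast_atTop_atTop
  obtain ⟨m, hm⟩ := Filter.eventually_atTop.1 (ht.eventually_ge_atTop (D / M))
  refine ⟨max m 1, le_max_right _ _, ?_⟩
  intro n hn
  have hn1 : 1 ≤ n := (le_max_right _ _).trans hn
  have hnR : (1 : ℝ) ≤ n := by exact_mod_cast hn1
  have hN : (1 : ℝ) ≤ 16 * n := by linarith
  have hN0 : (0 : ℝ) < 16 * n := by linarith
  have h1 := hm n ((le_max_left _ _).trans hn)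
  have hlog : Real.log (16 * n) ≤ (16 * n : ℝ) ^ ε / ε := Real.log_le_rpow_div hN0.le hε0
  have hlog0 : 0 ≤ Real.log (16 * n) := Real.log_nonneg hN
  have hone : (1 : ℝ) ≤ (16 * n : ℝ) ^ ε := Real.one_le_rpow hN hε0.le
  have h2 : 1 + Real.log (16 * n) ≤ (1 + 1 / ε) * (16 * n : ℝ) ^ ε := by
    calc 1 + Real.log (16 * n) ≤ (16 * n : ℝ) ^ ε + (16 * n : ℝ) ^ ε / ε := add_le_add hone hlog
      _ = _ := by ring
  have h3 : (1 + Real.log (16 * n)) ^ 2 ≤ (1 + 1 / ε) ^ 2 * (16 * n : ℝ) ^ (δ / 2) := by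
    calc (1 + Real.log (16 * n)) ^ 2 ≤ ((1 + 1 / ε) * (16 * n : ℝ) ^ ε) ^ 2 :=
          pow_le_pow_left₀ (by linarith) h2 2
      _ = (1 + 1 / ε) ^ 2 * ((16 * n : ℝ) ^ ε) ^ 2 := by ring
      _ = (1 + 1 / ε) ^ 2 * (16 * n : ℝ) ^ (δ / 2) := by
          congr 1
          rw [← Real.rpow_natCast, ← Real.rpow_mul hN0.le]
          congr 1
          rw [hε]
          push_cast
          ring
  calc K * (1 + Real.log (16 * n)) ^ 2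
      ≤ K * ((1 + 1 / ε) ^ 2 * (16 * n : ℝ) ^ (δ / 2)) := mul_le_mul_of_nonneg_left h3 hK
    _ = D * (16 * n : ℝ) ^ (δ / 2) := by rw [hD]; ring
    _ ≤ (M * (16 * n : ℝ) ^ (δ / 2)) * (16 * n : ℝ) ^ (δ / 2) := by
        apply mul_le_mul_of_nonneg_right _ (by positivity)
        rw [div_le_iff₀ hM] at h1
        linarith
    _ = M * (16 * n : ℝ) ^ δ := by
        rw [mul_assoc, ← Real.rpow_add hN0]
        congr 2
        ring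

/-- Theorem B2.  Classes with `(2^(i+j))^3 ≤ c N`: `estimI` and `geom_cls` with `α = 3s-5`,
`β = (3s-4)/2`; the other classes: `estimII`, at most `C (log N)^2` of them, each at most
`C N^(s+1) / (c N)^(1/3)`, and `s + 2/3 < 2s - 1`. -/
theorem theoremB2 {A : ℕ} (hA : 2 ≤ A) (hs : 5 / 3 < sexp A) : ∃ C κ : ℝ, 0 < C ∧ 0 < κ ∧
    ∀ Q0 : ℕ, 1 ≤ Q0 → ∃ n1 : ℕ, ∀ n : ℕ, n1 ≤ n →
    ∫ θ in minor2 Q0 n, ‖S2 A n θ‖ ^ 2 ≤
      C * (Q0 : ℝ) ^ (-κ) * (16 * n : ℝ) ^ (2 * sexp A - 1) := by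
  obtain ⟨C1, c, hC1, hc, h1⟩ := estimI hA hs
  obtain ⟨C2, hC2, h2⟩ := estimII hA
  set s : ℝ := sexp A with hs'
  obtain ⟨C3, κ, hC3, hκ, h3⟩ := geom_cls (α := 3 * s - 5) (β := (3 * s - 4) / 2)
    (by linarith) (by linarith)
  refine ⟨2 * (C1 * C3 + 1), κ, by positivity, hκ, ?_⟩
  intro Q0 hQ0
  have hQ : (0 : ℝ) < Q0 := by exact_mod_cast hQ0
  have hδ : 0 < s - 5 / 3 := by linarith
  obtain ⟨m1, hm1, hm⟩ := Zf2_log (δ := s - 5 / 3) (K := 100 * (C2 * c ^ (-(1 / 3 : ℝ))))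
    (M := (Q0 : ℝ) ^ (-κ)) hδ (by positivity) (by positivity)
  obtain ⟨m2, hm2⟩ := exists_nat_ge (64 ^ 3 / c : ℝ)
  refine ⟨max m1 m2, ?_⟩
  intro n hn
  have hn1 : 1 ≤ n := hm1.trans ((le_max_left _ _).trans hn)
  have hnR : (1 : ℝ) ≤ n := by exact_mod_cast hn1
  have hN : (1 : ℝ) ≤ 16 * n := by linarith
  have hN0 : (0 : ℝ) < 16 * n := by linarith
  have hm' := hm n ((le_max_left _ _).trans hn)
  have hcN : (64 : ℝ) ^ 3 ≤ c * (16 * n) := by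
    have : (m2 : ℝ) ≤ n := by exact_mod_cast (le_max_right _ _).trans hn
    have h64 : (64 ^ 3 / c : ℝ) ≤ 16 * n := by linarith
    rw [div_le_iff₀ hc] at h64
    linarith
  have key : ∀ z ∈ cls Q0 n, ∑ p ∈ farey (2 ^ z.1),
        ∫ β in annu (16 * n) (tcl (2 ^ z.2)) (2 * 2 ^ z.2), ‖S2 A n (frac p + β)‖ ^ 2 ≤
      C1 * (16 * n : ℝ) ^ (2 * s - 1) *
        (((2 ^ z.1 : ℕ) : ℝ) ^ (-(3 * s - 5)) * ((2 : ℝ) ^ z.2) ^ (-((3 * s - 4) / 2))) +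
      C2 * (16 * n : ℝ) ^ (s + 1) * (c * (16 * n)) ^ (-(1 / 3 : ℝ)) := by
    intro z hz
    obtain ⟨hz1, hz2⟩ := (mem_cls hn1).1 hz
    have hi : (1 : ℝ) ≤ (2 : ℝ) ^ z.1 := one_le_pow₀ (by norm_num)
    have hj : (1 : ℝ) ≤ (2 : ℝ) ^ z.2 := one_le_pow₀ (by norm_num)
    have e1 : ((2 ^ z.1 : ℕ) : ℝ) = (2 : ℝ) ^ z.1 := by push_cast; rfl
    by_cases hcase : ((2 ^ z.1 : ℕ) : ℝ) ^ 3 * ((2 : ℝ) ^ z.2) ^ (3 / 2 : ℝ) ≤ c * (16 * n)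
    · have := h1 n hn1 (2 ^ z.1) (2 ^ z.2) Nat.one_le_two_pow hj hcase
      refine this.trans ?_
      have hpos : 0 ≤ C2 * (16 * n : ℝ) ^ (s + 1) * (c * (16 * n)) ^ (-(1 / 3 : ℝ)) := by
        positivity
      rw [← mul_assoc]
      linarith
    · push Not at hcase
      have hQT : (c * (16 * n) : ℝ) ≤ (((2 : ℝ) ^ z.1) * (2 : ℝ) ^ z.2) ^ 3 := by
        refine hcase.le.trans ?_
        rw [e1, mul_pow]
        apply mul_le_mul_of_nonneg_left _ (by positivity)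
        rw [← Real.rpow_natCast ((2 : ℝ) ^ z.2) 3]
        exact Real.rpow_le_rpow_of_exponent_le hj (by norm_num)
      have hqt0 : (0 : ℝ) < ((2 : ℝ) ^ z.1) * (2 : ℝ) ^ z.2 := by positivity
      have h64 : (64 : ℝ) ≤ ((2 : ℝ) ^ z.1) * (2 : ℝ) ^ z.2 := by
        have := hcN.trans hQT
        exact le_of_pow_le_pow_left₀ (by norm_num) hqt0.le this
      have hroot : (c * (16 * n) : ℝ) ^ (1 / 3 : ℝ) ≤ ((2 : ℝ) ^ z.1) * (2 : ℝ) ^ z.2 := by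
        have := Real.rpow_le_rpow (by positivity) hQT (by norm_num : (0 : ℝ) ≤ 1 / 3)
        refine this.trans (le_of_eq ?_)
        rw [← Real.rpow_natCast, ← Real.rpow_mul hqt0.le]
        norm_num
      have hsq : (((2 ^ z.1 : ℕ) : ℝ) * (2 : ℝ) ^ z.2) ^ 2 ≤ 16 * n := by
        rw [e1, ← pow_add]
        exact_mod_cast hz2
      have := h2 n hn1 (2 ^ z.1) (2 ^ z.2) Nat.one_le_two_pow hj (by rw [e1]; exact h64) hsq
      refine this.trans ?_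
      have hpos : 0 ≤ C1 * (16 * n : ℝ) ^ (2 * s - 1) *
        (((2 ^ z.1 : ℕ) : ℝ) ^ (-(3 * s - 5)) * ((2 : ℝ) ^ z.2) ^ (-((3 * s - 4) / 2))) := by
        positivity
      have hle : C2 * (16 * n : ℝ) ^ (s + 1) / (((2 ^ z.1 : ℕ) : ℝ) * (2 : ℝ) ^ z.2) ≤
          C2 * (16 * n : ℝ) ^ (s + 1) * (c * (16 * n)) ^ (-(1 / 3 : ℝ)) := by
        rw [div_eq_mul_inv, Real.rpow_neg (by positivity), e1]
        apply mul_le_mul_of_nonneg_left _ (by positivity)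
        exact inv_anti₀ (by positivity) hroot
      linarith
  have hcard := card_cls_le (Q0 := Q0) hn1
  have hb1 := h3 Q0 n hQ0 hn1
  have hlast : 100 * (1 + Real.log (16 * n)) ^ 2 *
      (C2 * (16 * n : ℝ) ^ (s + 1) * (c * (16 * n)) ^ (-(1 / 3 : ℝ))) ≤
      (Q0 : ℝ) ^ (-κ) * (16 * n : ℝ) ^ (2 * s - 1) := by
    have e2 : (16 * n : ℝ) ^ (2 * s - 1) = (16 * n : ℝ) ^ (s - 5 / 3) * (16 * n : ℝ) ^ (s + 2 / 3) := by
      rw [← Real.rpow_add hN0]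
      congr 1
      ring
    have e3 : (16 * n : ℝ) ^ (s + 1) * (c * (16 * n)) ^ (-(1 / 3 : ℝ)) =
        c ^ (-(1 / 3 : ℝ)) * (16 * n : ℝ) ^ (s + 2 / 3) := by
      rw [Real.mul_rpow hc.le hN0.le]
      rw [show (16 * n : ℝ) ^ (s + 2 / 3) = (16 * n : ℝ) ^ (s + 1) * (16 * n : ℝ) ^ (-(1 / 3 : ℝ)) by
        rw [← Real.rpow_add hN0]
        congr 1
        ring]
      ring
    calc 100 * (1 + Real.log (16 * n)) ^ 2 *
        (C2 * (16 * n : ℝ) ^ (s + 1) * (c * (16 * n)) ^ (-(1 / 3 : ℝ)))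
        = 100 * (1 + Real.log (16 * n)) ^ 2 *
          (C2 * ((16 * n : ℝ) ^ (s + 1) * (c * (16 * n)) ^ (-(1 / 3 : ℝ)))) := by ring
      _ = (100 * (C2 * c ^ (-(1 / 3 : ℝ))) * (1 + Real.log (16 * n)) ^ 2) *
          (16 * n : ℝ) ^ (s + 2 / 3) := by rw [e3]; ring
      _ ≤ ((Q0 : ℝ) ^ (-κ) * (16 * n : ℝ) ^ (s - 5 / 3)) * (16 * n : ℝ) ^ (s + 2 / 3) :=
          mul_le_mul_of_nonneg_right hm' (by positivity)
      _ = _ := by rw [e2]; ring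
  calc ∫ θ in minor2 Q0 n, ‖S2 A n θ‖ ^ 2
      ≤ 2 * ∑ z ∈ cls Q0 n, ∑ p ∈ farey (2 ^ z.1),
        ∫ β in annu (16 * n) (tcl (2 ^ z.2)) (2 * 2 ^ z.2), ‖S2 A n (frac p + β)‖ ^ 2 :=
        minor2_le hn1 hQ0
    _ ≤ 2 * ∑ z ∈ cls Q0 n, (C1 * (16 * n : ℝ) ^ (2 * s - 1) *
        (((2 ^ z.1 : ℕ) : ℝ) ^ (-(3 * s - 5)) * ((2 : ℝ) ^ z.2) ^ (-((3 * s - 4) / 2))) +
      C2 * (16 * n : ℝ) ^ (s + 1) * (c * (16 * n)) ^ (-(1 / 3 : ℝ))) :=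
        mul_le_mul_of_nonneg_left (Finset.sum_le_sum key) (by norm_num)
    _ = 2 * (C1 * (16 * n : ℝ) ^ (2 * s - 1) * (∑ z ∈ cls Q0 n,
        (((2 ^ z.1 : ℕ) : ℝ) ^ (-(3 * s - 5)) * ((2 : ℝ) ^ z.2) ^ (-((3 * s - 4) / 2)))) +
        ((cls Q0 n).card : ℝ) *
          (C2 * (16 * n : ℝ) ^ (s + 1) * (c * (16 * n)) ^ (-(1 / 3 : ℝ)))) := by
        rw [Finset.sum_add_distrib, ← Finset.mul_sum, Finset.sum_const, nsmul_eq_mul]
    _ ≤ 2 * (C1 * (16 * n : ℝ) ^ (2 * s - 1) * (C3 * (Q0 : ℝ) ^ (-κ)) +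
        100 * (1 + Real.log (16 * n)) ^ 2 *
          (C2 * (16 * n : ℝ) ^ (s + 1) * (c * (16 * n)) ^ (-(1 / 3 : ℝ)))) := by
        apply mul_le_mul_of_nonneg_left _ (by norm_num)
        apply add_le_add
        · exact mul_le_mul_of_nonneg_left hb1 (by positivity)
        · exact mul_le_mul_of_nonneg_right hcard (by positivity)
    _ ≤ 2 * (C1 * (16 * n : ℝ) ^ (2 * s - 1) * (C3 * (Q0 : ℝ) ^ (-κ)) +
        (Q0 : ℝ) ^ (-κ) * (16 * n : ℝ) ^ (2 * s - 1)) := by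
        apply mul_le_mul_of_nonneg_left _ (by norm_num)
        linarith
    _ = _ := by ring

end Pool.Agent.W_f50700_h13
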