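import Pool.Agent.W_f50700_h13.MbK3

/-!
Zk1: the kernel `kern 4 n` and its weights.
-/

open Complex MeasureTheory

namespace Pool.Agent.W_f50700_h13

open Pool.Agent.W_f50700_h3

theorem kern4_eq (n : ℕ) (t : ℝ) : kern 4 n t = kern 2 n t ^ 2 / n := by
  unfold kern
  rw [show 4 - 1 = 3 from rfl, show 2 - 1 = 1 from rfl, pow_one, div_pow, div_div, ← pow_mul,
    ← pow_succ]

/-- `wt 4 n j = (1/n) sum_i wt 2 n i * wt 2 n (j - i)`: `kern4_eq`, `kern2_eq_sum`,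
`integral_e_int`, as in `wt2_int` -/
theorem wt4_int {n : ℕ} (hn : 1 ≤ n) (j : ℤ) :
    (∫ t in (0 : ℝ)..1, (kern 4 n t : ℂ) * e (-((j : ℝ) * t))) =
      (((1 / n) * ∑ i ∈ Finset.Ioo (-(2 * n : ℤ)) (2 * n), wt 2 n i * wt 2 n (j - i) : ℝ) : ℂ) := by
  have h1 : ∀ t : ℝ, (kern 4 n t : ℂ) * e (-((j : ℝ) * t)) =
      ∑ i ∈ Finset.Ioo (-(2 * n : ℤ)) (2 * n), ∑ l ∈ Finset.Ioo (-(2 * n : ℤ)) (2 * n),
        (1 / (n : ℂ)) * ((wt 2 n i : ℂ) * (wt 2 n l : ℂ)) * e (((i + l - j : ℤ) : ℝ) * t) := by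
    intro t
    have hk : (kern 4 n t : ℂ) = (1 / (n : ℂ)) * ((kern 2 n t : ℂ) * (kern 2 n t : ℂ)) := by
      rw [kern4_eq]
      push_cast
      ring
    rw [hk, kern2_eq_sum hn, Finset.sum_mul_sum, Finset.mul_sum, Finset.sum_mul]
    apply Finset.sum_congr rfl
    intro i _
    rw [Finset.mul_sum, Finset.sum_mul]
    apply Finset.sum_congr rfl
    intro l _
    have : e (((i + l - j : ℤ) : ℝ) * t) =
        e ((i : ℝ) * t) * e ((l : ℝ) * t) * e (-((j : ℝ) * t)) := by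
      rw [← e_add, ← e_add]; push_cast; congr 1; ring
    rw [this]; ring
  simp_rw [h1]
  have hint : ∀ k : ℤ, ∀ c : ℂ, IntervalIntegrable (fun t : ℝ => c * e ((k : ℝ) * t))
      volume 0 1 := by
    intro k c
    apply Continuous.intervalIntegrable
    exact continuous_const.mul (continuous_e.comp (by fun_prop))
  rw [intervalIntegral.integral_finsetSum]
  · have h2 : ∀ i ∈ Finset.Ioo (-(2 * n : ℤ)) (2 * n),
        (∫ t in (0 : ℝ)..1, ∑ l ∈ Finset.Ioo (-(2 * n : ℤ)) (2 * n),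
          (1 / (n : ℂ)) * ((wt 2 n i : ℂ) * (wt 2 n l : ℂ)) * e (((i + l - j : ℤ) : ℝ) * t)) =
        (1 / (n : ℂ)) * ((wt 2 n i : ℂ) * (wt 2 n (j - i) : ℂ)) := by
      intro i _
      rw [intervalIntegral.integral_finsetSum]
      · have h3 : ∀ l ∈ Finset.Ioo (-(2 * n : ℤ)) (2 * n),
            (∫ t in (0 : ℝ)..1, (1 / (n : ℂ)) * ((wt 2 n i : ℂ) * (wt 2 n l : ℂ)) *
              e (((i + l - j : ℤ) : ℝ) * t)) =
            if l = j - i then (1 / (n : ℂ)) * ((wt 2 n i : ℂ) * (wt 2 n (j - i) : ℂ)) else 0 := by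
          intro l _
          rw [intervalIntegral.integral_const_mul, integral_e_int]
          by_cases hl : l = j - i
          · rw [if_pos hl, if_pos (by omega), hl, mul_one]
          · rw [if_neg hl, if_neg (by omega), mul_zero]
        rw [Finset.sum_congr rfl h3, Finset.sum_ite_eq']
        split_ifs with h4
        · rfl
        · have h5 : wt 2 n (j - i) = 0 := by
            apply wt2_eq_zero hn
            rw [Finset.mem_Ioo, not_and_or] at h4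
            rcases h4 with h4 | h4
            · rw [abs_of_nonpos (by omega)]; omega
            · exact le_trans (by omega) (le_abs_self _)
          rw [h5]; simp
      · intro l _
        exact hint _ _
    rw [Finset.sum_congr rfl h2]
    push_cast
    rw [Finset.mul_sum]
  · intro i _
    apply Continuous.intervalIntegrable
    apply continuous_finsetSum
    intro l _
    exact continuous_const.mul (continuous_e.comp (by fun_prop))

theorem wt4_eq {n : ℕ} (hn : 1 ≤ n) (j : ℤ) :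
    wt 4 n j = (1 / n) * ∑ i ∈ Finset.Ioo (-(2 * n : ℤ)) (2 * n), wt 2 n i * wt 2 n (j - i) := by
  unfold wt
  have h := wt4_int hn j
  unfold wt at h
  rw [h, Complex.ofReal_re]

theorem ofReal_wt4 {n : ℕ} (hn : 1 ≤ n) (j : ℤ) :
    (wt 4 n j : ℂ) = ∫ t in (0 : ℝ)..1, (kern 4 n t : ℂ) * e (-((j : ℝ) * t)) := by
  rw [wt4_int hn j, wt4_eq hn j]

/-- `kern 2 n 0 = n` -/
theorem sum_wt2 {n : ℕ} (hn : 1 ≤ n) :
    ∑ i ∈ Finset.Ioo (-(2 * n : ℤ)) (2 * n), wt 2 n i = n := by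
  have hn' : (0 : ℝ) < n := by exact_mod_cast hn
  have h1 := kern2_eq_sum hn 0
  have h2 : kern 2 n 0 = n := by
    have h3 : fej n 0 = n := by
      unfold fej
      have h4 : ∀ j ∈ Finset.range n, e ((j : ℝ) * 0) = 1 := fun j _ => by
        rw [mul_zero, e_zero]
      rw [Finset.sum_congr rfl h4, Finset.sum_const, Finset.card_range, nsmul_eq_mul, mul_one,
        Complex.norm_natCast]
      field_simp
    unfold kern
    rw [h3, show 2 - 1 = 1 from rfl, pow_one]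
    field_simp
  rw [h2] at h1
  have h5 : ∀ j ∈ Finset.Ioo (-(2 * n : ℤ)) (2 * n), (wt 2 n j : ℂ) * e ((j : ℝ) * 0) =
      (wt 2 n j : ℂ) := fun j _ => by
    rw [mul_zero, e_zero, mul_one]
  rw [Finset.sum_congr rfl h5] at h1
  have h6 : ((∑ i ∈ Finset.Ioo (-(2 * n : ℤ)) (2 * n), wt 2 n i : ℝ) : ℂ) = ((n : ℝ) : ℂ) := by
    rw [h1]
    push_cast
    rfl
  exact Complex.ofReal_injective h6

theorem wt4_nonneg {n : ℕ} (hn : 1 ≤ n) (j : ℤ) : 0 ≤ wt 4 n j := by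
  rw [wt4_eq hn]
  apply mul_nonneg (by positivity)
  apply Finset.sum_nonneg
  intro i _
  exact mul_nonneg (wt2_nonneg hn i) (wt2_nonneg hn _)

theorem wt4_le_one {n : ℕ} (hn : 1 ≤ n) (j : ℤ) : wt 4 n j ≤ 1 := by
  have hn' : (0 : ℝ) < n := by exact_mod_cast hn
  rw [wt4_eq hn]
  have h1 : ∑ i ∈ Finset.Ioo (-(2 * n : ℤ)) (2 * n), wt 2 n i * wt 2 n (j - i) ≤
      ∑ i ∈ Finset.Ioo (-(2 * n : ℤ)) (2 * n), wt 2 n i := by
    apply Finset.sum_le_sum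
    intro i _
    exact mul_le_of_le_one_right (wt2_nonneg hn i) (wt2_le_one hn _)
  rw [sum_wt2 hn] at h1
  calc (1 / (n : ℝ)) * ∑ i ∈ Finset.Ioo (-(2 * n : ℤ)) (2 * n), wt 2 n i * wt 2 n (j - i)
      ≤ (1 / (n : ℝ)) * n := mul_le_mul_of_nonneg_left h1 (by positivity)
    _ = 1 := by field_simp

theorem wt4_eq_zero {n : ℕ} (hn : 1 ≤ n) {j : ℤ} (hj : 4 * (n : ℤ) ≤ |j|) : wt 4 n j = 0 := by
  rw [wt4_eq hn]
  have h1 : ∑ i ∈ Finset.Ioo (-(2 * n : ℤ)) (2 * n), wt 2 n i * wt 2 n (j - i) = 0 := by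
    apply Finset.sum_eq_zero
    intro i hi
    rw [Finset.mem_Ioo] at hi
    have h2 : 2 * (n : ℤ) ≤ |j - i| := by
      have h3 := abs_sub_abs_le_abs_sub j i
      have h4 : |i| < 2 * n := abs_lt.2 ⟨by omega, by omega⟩
      omega
    rw [wt2_eq_zero hn h2, mul_zero]
  rw [h1, mul_zero]

theorem wt4_lip {n : ℕ} (hn : 1 ≤ n) (j l : ℤ) :
    |wt 4 n j - wt 4 n l| ≤ |(j : ℝ) - l| / n := by
  have hn' : (0 : ℝ) < n := by exact_mod_cast hn
  rw [wt4_eq hn, wt4_eq hn, ← mul_sub, ← Finset.sum_sub_distrib, abs_mul,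
    abs_of_nonneg (by positivity : (0 : ℝ) ≤ 1 / n)]
  have h1 : |∑ i ∈ Finset.Ioo (-(2 * n : ℤ)) (2 * n),
      (wt 2 n i * wt 2 n (j - i) - wt 2 n i * wt 2 n (l - i))| ≤
      ∑ i ∈ Finset.Ioo (-(2 * n : ℤ)) (2 * n), wt 2 n i * (|(j : ℝ) - l| / n) := by
    apply (Finset.abs_sum_le_sum_abs _ _).trans
    apply Finset.sum_le_sum
    intro i _
    rw [← mul_sub, abs_mul, abs_of_nonneg (wt2_nonneg hn i)]
    apply mul_le_mul_of_nonneg_left _ (wt2_nonneg hn i)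
    have := wt2_lip hn (j - i) (l - i)
    push_cast at this
    rwa [show (j : ℝ) - i - (l - i) = j - l by ring] at this
  rw [← Finset.sum_mul, sum_wt2 hn] at h1
  calc 1 / (n : ℝ) * |∑ i ∈ Finset.Ioo (-(2 * n : ℤ)) (2 * n),
      (wt 2 n i * wt 2 n (j - i) - wt 2 n i * wt 2 n (l - i))|
      ≤ 1 / (n : ℝ) * (n * (|(j : ℝ) - l| / n)) := mul_le_mul_of_nonneg_left h1 (by positivity)
    _ = |(j : ℝ) - l| / n := by field_simp

/-- Cauchy: `n^2 = (sum wt2)^2 ≤ 4 n sum wt2^2` -/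
theorem wt4_zero_ge {n : ℕ} (hn : 1 ≤ n) : 1 / 4 ≤ wt 4 n 0 := by
  have hn' : (0 : ℝ) < n := by exact_mod_cast hn
  rw [wt4_eq hn]
  have h1 : ∑ i ∈ Finset.Ioo (-(2 * n : ℤ)) (2 * n), wt 2 n i * wt 2 n (0 - i) =
      ∑ i ∈ Finset.Ioo (-(2 * n : ℤ)) (2 * n), wt 2 n i ^ 2 := by
    apply Finset.sum_congr rfl
    intro i _
    rw [zero_sub, wt2_neg hn]; ring
  have h3 := sq_sum_le_card_mul_sum_sq (s := Finset.Ioo (-(2 * n : ℤ)) (2 * n)) (f := wt 2 n)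
  rw [sum_wt2 hn] at h3
  have h4 : ((Finset.Ioo (-(2 * n : ℤ)) (2 * n)).card : ℝ) ≤ 4 * n := by
    rw [Int.card_Ioo]
    have : (2 * n - -(2 * n : ℤ) - 1).toNat ≤ 4 * n := by omega
    exact_mod_cast this
  rw [h1]
  have h5 : (n : ℝ) ^ 2 ≤ 4 * n * ∑ i ∈ Finset.Ioo (-(2 * n : ℤ)) (2 * n), wt 2 n i ^ 2 :=
    h3.trans (mul_le_mul_of_nonneg_right h4 (Finset.sum_nonneg fun i _ => sq_nonneg _))
  rw [one_div_mul_eq_div, le_div_iff₀ hn']
  nlinarith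

theorem wt4_ge {n : ℕ} (hn : 1 ≤ n) {j : ℤ} (hj : 8 * |j| ≤ n) : 1 / 8 ≤ wt 4 n j := by
  have hn' : (0 : ℝ) < n := by exact_mod_cast hn
  have h1 := wt4_lip hn j 0
  have h2 := wt4_zero_ge hn
  have h3 : |(j : ℝ) - ((0 : ℤ) : ℝ)| / n ≤ 1 / 8 := by
    rw [div_le_iff₀ hn']
    have : (8 : ℝ) * |(j : ℝ)| ≤ n := by exact_mod_cast hj
    push_cast
    rw [sub_zero]
    linarith
  have h4 := (abs_le.mp h1).1
  linarith

/-- `kern 4 n t (1 + 2 n dist1 t)^8 ≤ 256 n`: from `kern2_le` and `kern4_eq` -/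
theorem kern4_le {n : ℕ} (hn : 1 ≤ n) (t : ℝ) :
    kern 4 n t * (1 + 2 * n * dist1 t) ^ 8 ≤ 256 * n := by
  have hn' : (0 : ℝ) < n := by exact_mod_cast hn
  have h1 := kern2_le hn t
  have hk := kern_nonneg 2 n t
  have hd := dist1_nonneg t
  have h0 : 0 ≤ kern 2 n t * (1 + 2 * n * dist1 t) ^ 4 := by positivity
  have h2 : (kern 2 n t * (1 + 2 * n * dist1 t) ^ 4) ^ 2 ≤ (16 * n) ^ 2 :=
    pow_le_pow_left₀ h0 h1 2
  rw [kern4_eq]
  calc kern 2 n t ^ 2 / (n : ℝ) * (1 + 2 * (n : ℝ) * dist1 t) ^ 8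
      = (kern 2 n t * (1 + 2 * (n : ℝ) * dist1 t) ^ 4) ^ 2 / (n : ℝ) := by ring
    _ ≤ (16 * (n : ℝ)) ^ 2 / (n : ℝ) := div_le_div_of_nonneg_right h2 hn'.le
    _ = 256 * (n : ℝ) := by field_simp; norm_num

theorem kern4_integral_le {n : ℕ} (hn : 1 ≤ n) : ∫ t in (0 : ℝ)..1, kern 4 n t ≤ 1 := by
  have h1 := ofReal_wt4 hn 0
  have h2 : (∫ t in (0 : ℝ)..1, (kern 4 n t : ℂ) * e (-(((0 : ℤ) : ℝ) * t))) =
      ((∫ t in (0 : ℝ)..1, kern 4 n t : ℝ) : ℂ) := by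
    rw [← intervalIntegral.integral_ofReal]
    congr 1
    funext t
    simp [e_zero]
  rw [h2] at h1
  have h3 : wt 4 n 0 = ∫ t in (0 : ℝ)..1, kern 4 n t := by exact_mod_cast h1
  rw [← h3]
  exact wt4_le_one hn 0

end Pool.Agent.W_f50700_h13
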