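import Pool.Agent.W_f50700_h13.Zk1

/-!
Zk2: tail moment of the kernel `kern 4 n`, with `N = 16 n`.
-/

open MeasureTheory

namespace Pool.Agent.W_f50700_h13

open Pool.Agent.W_f50700_h3

/-- `int_{N dist1 t > T/2} kern4 (N dist1 t)^4 dt ≤ C T^(-3)`, `N = 16 n`.  By `kern4_le` the
integrand is at most `C n (N dist1 t)^(-4)`; by symmetry (`dist1 t = t` on `[0,1/2]`,
`dist1 t = 1 - t` on `[1/2,1]`). -/
theorem kern4_tail : ∃ C : ℝ, 0 < C ∧ ∀ n : ℕ, 1 ≤ n → ∀ T : ℝ, 1 ≤ T →
    ∫ t in (0 : ℝ)..1, (if T / 2 < 16 * n * dist1 t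
      then kern 4 n t * (16 * n * dist1 t) ^ 4 else 0) ≤ C / T ^ 3 := by
  refine ⟨65536 * 32768, by norm_num, fun n hn T hT => ?_⟩
  have hn' : (0 : ℝ) < n := by exact_mod_cast hn
  have hT' : 0 < T := by linarith
  obtain ⟨c, hc⟩ : ∃ c : ℝ, c = T / (32 * n) := ⟨_, rfl⟩
  have hcpos : 0 < c := by rw [hc]; positivity
  have hcT : 32 * n * c = T := by rw [hc]; field_simp
  obtain ⟨f, hf⟩ : ∃ f : ℝ → ℝ, ∀ t, f t = if T / 2 < 16 * n * dist1 t
      then kern 4 n t * (16 * n * dist1 t) ^ 4 else 0 := ⟨_, fun t => rfl⟩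
  have hgoal : ∫ t in (0 : ℝ)..1, f t ≤ 65536 * 32768 / T ^ 3 := by
    have hcond : ∀ t, T / 2 < 16 * n * dist1 t → c < dist1 t := by
      intro t ht
      have h1 : (16 * (n : ℝ)) * c < (16 * n) * dist1 t := by
        have : 16 * (n : ℝ) * c = T / 2 := by rw [← hcT]; ring
        linarith
      exact lt_of_mul_lt_mul_left h1 (by positivity)
    rcases le_or_gt (1 / 2) c with hc2 | hc2
    · have : ∀ t : ℝ, f t = 0 := by
        intro t
        rw [hf, if_neg]
        intro h
        have h1 := hcond t h
        have := dist1_le_half t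
        linarith
      simp only [this, intervalIntegral.integral_zero]
      positivity
    · have hcl : MeasurableSet {t : ℝ | T / 2 < 16 * n * dist1 t} :=
        (isOpen_lt continuous_const (continuous_const.mul continuous_dist1)).measurableSet
      have hind : f = Set.indicator {t : ℝ | T / 2 < 16 * n * dist1 t}
          (fun t => kern 4 n t * (16 * n * dist1 t) ^ 4) := by
        funext t
        rw [hf]
        simp only [Set.indicator]
        rfl
      have hi : ∀ a b : ℝ, IntervalIntegrable f volume a b := by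
        intro a b
        rw [hind]
        have hk := continuous_kern 4 n
        have hd := continuous_dist1
        have hcc : Continuous fun t => kern 4 n t * (16 * n * dist1 t) ^ 4 := by fun_prop
        have h1 := hcc.intervalIntegrable (μ := volume) a b
        exact ⟨h1.1.indicator hcl, h1.2.indicator hcl⟩
      rw [integral_symm_half (fun t => by rw [hf, hf, kern_one_sub, dist1_one_sub]) (hi _ _)]
      rw [← intervalIntegral.integral_add_adjacent_intervals (hi 0 c) (hi c (1 / 2))]
      have h1 : ∫ t in (0 : ℝ)..c, f t = 0 := by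
        apply intervalIntegral.integral_zero_ae
        refine Filter.Eventually.of_forall fun t ht => ?_
        rw [Set.uIoc_of_le hcpos.le] at ht
        rw [hf, if_neg]
        intro h
        have h2 := hcond t h
        have h3 := dist1_le_abs t
        rw [abs_of_pos ht.1] at h3
        linarith [ht.2]
      have hder : ∀ t ∈ Set.uIcc c (1 / 2),
          HasDerivAt (fun t : ℝ => -(65536 / (3 * (n : ℝ) ^ 3)) * (t ^ 3)⁻¹)
            (65536 / ((n : ℝ) ^ 3 * t ^ 4)) t := by
        intro t ht
        rw [Set.uIcc_of_le hc2.le] at ht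
        have hpos : 0 < t := lt_of_lt_of_le hcpos ht.1
        have h1 := ((hasDerivAt_pow 3 t).inv (pow_pos hpos 3).ne').const_mul
          (-(65536 / (3 * (n : ℝ) ^ 3)))
        refine h1.congr_deriv ?_
        field_simp
        norm_num
      have hcont : ContinuousOn (fun t : ℝ => 65536 / ((n : ℝ) ^ 3 * t ^ 4))
          (Set.uIcc c (1 / 2)) := by
        refine ContinuousOn.div (by fun_prop) (by fun_prop) ?_
        intro t ht
        rw [Set.uIcc_of_le hc2.le] at ht
        have hpos : 0 < t := lt_of_lt_of_le hcpos ht.1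
        positivity
      have hint := hcont.intervalIntegrable (μ := volume)
      have h2 : ∫ t in c..(1 / 2), f t ≤ ∫ t in c..(1 / 2), 65536 / ((n : ℝ) ^ 3 * t ^ 4) := by
        refine intervalIntegral.integral_mono_on hc2.le (hi _ _) hint ?_
        intro t ht
        have hpos : 0 < t := lt_of_lt_of_le hcpos ht.1
        have hd : dist1 t = t := by
          rw [dist1_eq_abs (by rw [abs_of_pos hpos]; exact ht.2), abs_of_pos hpos]
        rw [hf]
        split_ifs
        · rw [hd, le_div_iff₀ (by positivity)]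
          have h3 := kern4_le hn t
          rw [hd] at h3
          have hk := kern_nonneg 4 n t
          have h4 : (2 * n * t) ^ 8 ≤ (1 + 2 * n * t) ^ 8 :=
            pow_le_pow_left₀ (by positivity) (by linarith) 8
          have h5 := (mul_le_mul_of_nonneg_left h4 hk).trans h3
          have h6 : (n : ℝ) * (kern 4 n t * (16 * n * t) ^ 4 * ((n : ℝ) ^ 3 * t ^ 4)) =
              256 * (kern 4 n t * (2 * n * t) ^ 8) := by
            ring
          have h7 : (n : ℝ) * (kern 4 n t * (16 * n * t) ^ 4 * ((n : ℝ) ^ 3 * t ^ 4)) ≤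
              n * 65536 := by
            rw [h6]
            linarith
          exact le_of_mul_le_mul_left h7 hn'
        · positivity
      have h3 : ∫ t in c..(1 / 2), 65536 / ((n : ℝ) ^ 3 * t ^ 4) =
          -(65536 / (3 * (n : ℝ) ^ 3)) * ((1 / 2 : ℝ) ^ 3)⁻¹ -
            -(65536 / (3 * (n : ℝ) ^ 3)) * (c ^ 3)⁻¹ :=
        intervalIntegral.integral_eq_sub_of_hasDerivAt hder hint
      have h4 : (65536 / (3 * (n : ℝ) ^ 3)) * (c ^ 3)⁻¹ = 65536 * 32768 / 3 / T ^ 3 := by
        rw [hc]
        field_simp
        norm_num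
      have h5 : 0 ≤ (65536 / (3 * (n : ℝ) ^ 3)) * ((1 / 2 : ℝ) ^ 3)⁻¹ := by positivity
      have h6 : 0 < 65536 * 32768 / 3 / T ^ 3 := by positivity
      have h7 : 65536 * 32768 / T ^ 3 = 3 * (65536 * 32768 / 3 / T ^ 3) := by ring
      rw [h1, zero_add, h7]
      linarith
  refine le_trans (le_of_eq ?_) hgoal
  refine intervalIntegral.integral_congr fun t _ => ?_
  exact (hf t).symm

end Pool.Agent.W_f50700_h13
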