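import Pool.Agent.W_f50700_h13.Zk2
import Pool.Agent.W_f50700_h13.Zd1
import Pool.Agent.W_f50700_h13.Zc3

/-!
Zm1: smoothing: from the cut bilinear form to the exponential sum.
-/

open MeasureTheory

namespace Pool.Agent.W_f50700_h13

open Pool.Agent.W_f50700_h3

/-- lower end of the arcs of the class `T` -/
noncomputable def tcl (T : ℝ) : ℝ := if T ≤ 1 then 0 else T

/-- translation: `β ∈ annu N (tcl T) (2T)`, `τ = t - round t`; if `N |τ| ≤ T/2` then
`β - τ ∈ annu N (tlow T) (3T)`, otherwise `β - τ ∈ annu N 0 (5 N |τ|)` -/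
theorem annu_shift {N T β τ : ℝ} (hN : 0 < N) (hT : 1 ≤ T) (hβ : β ∈ annu N (tcl T) (2 * T)) :
    (N * |τ| ≤ T / 2 → β - τ ∈ annu N (tlow T) (3 * T)) ∧
    (T / 2 < N * |τ| → β - τ ∈ annu N 0 (5 * (N * |τ|))) := by
  have h0 : 0 ≤ N * |τ| := by positivity
  obtain ⟨hb1, hb2⟩ := hβ
  have hup : N * |β - τ| ≤ N * |β| + N * |τ| := by
    rw [← mul_add]
    exact mul_le_mul_of_nonneg_left (abs_sub _ _) hN.le
  have hlo : N * |β| - N * |τ| ≤ N * |β - τ| := by
    rw [← mul_sub]
    exact mul_le_mul_of_nonneg_left (abs_sub_abs_le_abs_sub _ _) hN.le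
  refine ⟨fun h => ⟨?_, ?_⟩, fun h => ⟨?_, ?_⟩⟩
  · unfold tlow
    split_ifs with h4
    · positivity
    · have hT1 : ¬ T ≤ 1 := by
        intro h
        apply h4
        linarith
      rw [tcl, if_neg hT1] at hb1
      linarith
  · linarith
  · positivity
  · linarith


/-- the measurability of the distance to the nearest integer -/
theorem measurable_dist1_zm : Measurable dist1 := by
  unfold dist1
  have h : (fun x : ℝ => |x - (round x : ℤ)|) = fun x : ℝ => |x - ((⌊x + 1 / 2⌋ : ℤ) : ℝ)| := by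
    funext x
    rw [round_eq]
  rw [h]
  have h2 : Measurable (fun x : ℝ => ((⌊x + 1 / 2⌋ : ℤ) : ℝ)) :=
    (measurable_from_top (f := fun z : ℤ => (z : ℝ))).comp
      (Int.measurable_floor.comp (measurable_id.add_const (1 / 2 : ℝ)))
  have h3 : Measurable (fun x : ℝ => x - ((⌊x + 1 / 2⌋ : ℤ) : ℝ)) := measurable_id.sub h2
  exact h3.abs

/-- translation of an integral over an annulus -/
theorem annu_trans_zm {G : ℝ → ℝ} (hG : Continuous G) (hG0 : ∀ x, 0 ≤ G x) {N : ℝ} (hN : 0 < N)
    {a b c d τ : ℝ} (h : ∀ β ∈ annu N a b, β - τ ∈ annu N c d) :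
    ∫ β in annu N a b, G (β - τ) ≤ ∫ β in annu N c d, G β := by
  have hint : Integrable ((annu N c d).indicator G) := by
    rw [integrable_indicator_iff (measurableSet_annu N c d)]
    obtain ⟨R, hR⟩ := (isBounded_annu hN c d).subset_closedBall 0
    exact (hG.continuousOn.integrableOn_compact (isCompact_closedBall (0 : ℝ) R)).mono_set hR
  rw [← integral_indicator (measurableSet_annu N a b),
    ← integral_indicator (measurableSet_annu N c d),
    ← integral_sub_right_eq_self ((annu N c d).indicator G) τ]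
  refine integral_mono_of_nonneg (Filter.Eventually.of_forall fun β => ?_)
    (hint.comp_sub_right τ) (Filter.Eventually.of_forall fun β => ?_)
  · exact Set.indicator_nonneg (fun x _ => hG0 _) β
  · show (annu N a b).indicator (fun β => G (β - τ)) β ≤ (annu N c d).indicator G (β - τ)
    by_cases hβ : β ∈ annu N a b
    · rw [Set.indicator_of_mem hβ, Set.indicator_of_mem (h β hβ)]
    · rw [Set.indicator_of_notMem hβ]
      exact Set.indicator_nonneg (fun x _ => hG0 _) _

/-- the general smoothing estimate -/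
theorem smooth_gen_zm {G : ℝ → ℝ} (hG : Continuous G) (hG0 : ∀ x, 0 ≤ G x)
    (hGp : ∀ (x : ℝ) (k : ℤ), G (x + k) = G x) {n : ℕ} (hn : 1 ≤ n) {T Bn Bf C : ℝ} (hT : 1 ≤ T)
    (hBn : 0 ≤ Bn) (hBf : 0 ≤ Bf)
    (hC : ∫ t in (0 : ℝ)..1, (if T / 2 < 16 * n * dist1 t
      then kern 4 n t * (16 * n * dist1 t) ^ 4 else 0) ≤ C / T ^ 3)
    (h1 : ∫ β in annu (16 * n) (tlow T) (3 * T), G β ≤ Bn)
    (h2 : ∀ y : ℝ, T ≤ y → y ≤ 48 * n → ∫ β in annu (16 * n) 0 y, G β ≤ Bf * y ^ 4) :
    ∫ β in annu (16 * n) (tcl T) (2 * T), ∫ t in (0 : ℝ)..1, kern 4 n t * G (β - t) ≤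
      Bn + 625 * C * Bf / T ^ 3 := by
  have hn' : (1 : ℝ) ≤ n := by exact_mod_cast hn
  have hN : (0 : ℝ) < 16 * n := by linarith
  have hTp : 0 < T := by linarith
  have hkc := continuous_kern 4 n
  -- boundedness
  obtain ⟨R, hR⟩ := (isBounded_annu hN (tcl T) (2 * T)).subset_closedBall 0
  -- Fubini
  have hswap : ∫ β in annu (16 * n) (tcl T) (2 * T), ∫ t in (0 : ℝ)..1, kern 4 n t * G (β - t) =
      ∫ t in (0 : ℝ)..1, ∫ β in annu (16 * n) (tcl T) (2 * T), kern 4 n t * G (β - t) := by
    simp_rw [intervalIntegral.integral_of_le (zero_le_one' ℝ)]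
    apply integral_integral_swap
    rw [Measure.prod_restrict]
    have hcont : Continuous (Function.uncurry fun (β t : ℝ) => kern 4 n t * G (β - t)) := by
      unfold Function.uncurry
      exact (hkc.comp continuous_snd).mul (hG.comp (continuous_fst.sub continuous_snd))
    have hK : IsCompact (Metric.closedBall (0 : ℝ) R ×ˢ Set.Icc (0 : ℝ) 1) :=
      (isCompact_closedBall (0 : ℝ) R).prod isCompact_Icc
    exact (hcont.continuousOn.integrableOn_compact hK).mono_set
      (Set.prod_mono hR Set.Ioc_subset_Icc_self)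
  rw [hswap]
  -- the pointwise estimate
  have hpt : ∀ t : ℝ, ∫ β in annu (16 * n) (tcl T) (2 * T), kern 4 n t * G (β - t) ≤
      kern 4 n t * Bn + 625 * Bf * (if T / 2 < 16 * n * dist1 t
        then kern 4 n t * (16 * n * dist1 t) ^ 4 else 0) := by
    intro t
    have hk0 : 0 ≤ kern 4 n t := kern_nonneg 4 n t
    rw [integral_const_mul]
    have hGt : ∀ β : ℝ, G (β - t) = G (β - (t - (round t : ℤ))) := by
      intro β
      have h := hGp (β - t) (round t)
      rw [← h]
      congr 1
      ring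
    simp_rw [hGt]
    have hd : |t - (round t : ℤ)| = dist1 t := rfl
    have hshift := fun β (hβ : β ∈ annu (16 * n) (tcl T) (2 * T)) =>
      annu_shift (τ := t - (round t : ℤ)) hN hT hβ
    rw [hd] at hshift
    by_cases hc : T / 2 < 16 * n * dist1 t
    · rw [if_pos hc]
      have hd2 := dist1_le_half t
      have hy1 : T ≤ 5 * (16 * n * dist1 t) := by linarith
      have hy2 : 5 * (16 * n * dist1 t) ≤ 48 * n := by nlinarith
      have hA := annu_trans_zm hG hG0 hN (τ := t - (round t : ℤ))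
        (fun β hβ => (hshift β hβ).2 hc)
      have hB := h2 _ hy1 hy2
      have hC1 : ∫ β in annu (16 * n) (tcl T) (2 * T), G (β - (t - (round t : ℤ))) ≤
          Bf * (5 * (16 * n * dist1 t)) ^ 4 := hA.trans hB
      have hD := mul_le_mul_of_nonneg_left hC1 hk0
      have hE : kern 4 n t * (Bf * (5 * (16 * n * dist1 t)) ^ 4) =
          625 * Bf * (kern 4 n t * (16 * n * dist1 t) ^ 4) := by ring
      have hF : 0 ≤ kern 4 n t * Bn := mul_nonneg hk0 hBn
      linarith
    · rw [if_neg hc, mul_zero, add_zero]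
      have hA := annu_trans_zm hG hG0 hN (τ := t - (round t : ℤ))
        (fun β hβ => (hshift β hβ).1 (not_lt.mp hc))
      exact mul_le_mul_of_nonneg_left (hA.trans h1) hk0
  -- integrability of the majorant
  have hI1 : IntervalIntegrable (fun t => kern 4 n t * Bn) volume 0 1 :=
    (hkc.mul continuous_const).intervalIntegrable 0 1
  have hI2 : IntervalIntegrable (fun t => 625 * Bf * (if T / 2 < 16 * n * dist1 t
        then kern 4 n t * (16 * n * dist1 t) ^ 4 else 0)) volume 0 1 := by
    apply IntervalIntegrable.const_mul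
    have hdom : IntervalIntegrable (fun t => kern 4 n t * (8 * n) ^ 4) volume 0 1 :=
      (hkc.mul continuous_const).intervalIntegrable 0 1
    refine hdom.mono_fun ?_ ?_
    · apply Measurable.aestronglyMeasurable
      have hm : Measurable (fun t : ℝ => 16 * (n : ℝ) * dist1 t) :=
        measurable_dist1_zm.const_mul _
      refine Measurable.ite ?_ ?_ measurable_const
      · exact measurableSet_lt measurable_const hm
      · exact hkc.measurable.mul (hm.pow_const 4)
    · refine Filter.Eventually.of_forall fun t => ?_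
      have hk0 : 0 ≤ kern 4 n t := kern_nonneg 4 n t
      have hd0 := dist1_nonneg t
      have hd2 := dist1_le_half t
      have hx : 16 * n * dist1 t ≤ 8 * n := by nlinarith
      have hx0 : 0 ≤ 16 * n * dist1 t := by positivity
      have hR0 : 0 ≤ kern 4 n t * (8 * (n : ℝ)) ^ 4 := by positivity
      show ‖(if T / 2 < 16 * n * dist1 t then kern 4 n t * (16 * n * dist1 t) ^ 4 else 0)‖ ≤
        ‖kern 4 n t * (8 * (n : ℝ)) ^ 4‖
      rw [Real.norm_of_nonneg hR0]
      split_ifs with hc
      · rw [Real.norm_of_nonneg (by positivity)]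
        exact mul_le_mul_of_nonneg_left (pow_le_pow_left₀ hx0 hx 4) hk0
      · rw [norm_zero]
        exact hR0
  have hmono : ∫ t in (0 : ℝ)..1, ∫ β in annu (16 * n) (tcl T) (2 * T), kern 4 n t * G (β - t) ≤
      ∫ t in (0 : ℝ)..1, (kern 4 n t * Bn + 625 * Bf * (if T / 2 < 16 * n * dist1 t
        then kern 4 n t * (16 * n * dist1 t) ^ 4 else 0)) := by
    rw [intervalIntegral.integral_of_le (zero_le_one' ℝ),
      intervalIntegral.integral_of_le (zero_le_one' ℝ)]
    refine integral_mono_of_nonneg (Filter.Eventually.of_forall fun t => ?_) ?_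
      (Filter.Eventually.of_forall fun t => hpt t)
    · exact integral_nonneg fun β => mul_nonneg (kern_nonneg 4 n t) (hG0 _)
    · exact (intervalIntegrable_iff_integrableOn_Ioc_of_le (zero_le_one' ℝ)).mp (hI1.add hI2)
  refine hmono.trans ?_
  rw [intervalIntegral.integral_add hI1 hI2, intervalIntegral.integral_mul_const,
    intervalIntegral.integral_const_mul]
  have hK := kern4_integral_le hn
  have hK1 := mul_le_mul_of_nonneg_right hK hBn
  have hK2 := mul_le_mul_of_nonneg_left hC (by positivity : 0 ≤ 625 * Bf)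
  have hE : 625 * Bf * (C / T ^ 3) = 625 * C * Bf / T ^ 3 := by ring
  rw [hE] at hK2
  linarith

/-- Proof: `S2_sq_le`, Fubini, `Sc_add_int` (replace `t` by `t - round t`), translation of the
integral over `β` and `annu_shift`: for `N dist1 t ≤ T/2` the inner integral is at most `Bn`,
otherwise at most `Bf (5 N dist1 t)^4`; `kern4_integral_le`, `kern4_tail`. -/
theorem smoothing : ∃ C : ℝ, 0 < C ∧ ∀ (A n : ℕ), 1 ≤ n → ∀ X Y : ℝ, 1 < X → X ≤ 8 * n →
    X * Y = 16 * n → ∀ (Q : ℕ) (T Bn Bf : ℝ), 1 ≤ T → 0 ≤ Bn → 0 ≤ Bf →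
    (∑ p ∈ farey Q, ∫ β in annu (16 * n) (tlow T) (3 * T), ‖Sc A X Y (frac p + β)‖ ^ 2 ≤ Bn) →
    (∀ y : ℝ, T ≤ y → y ≤ 48 * n →
      ∑ p ∈ farey Q, ∫ β in annu (16 * n) 0 y, ‖Sc A X Y (frac p + β)‖ ^ 2 ≤ Bf * y ^ 4) →
    ∑ p ∈ farey Q, ∫ β in annu (16 * n) (tcl T) (2 * T), ‖S2 A n (frac p + β)‖ ^ 2 ≤
      Bn + C * Bf / T ^ 3 := by
  obtain ⟨C, hC0, hC⟩ := kern4_tail
  refine ⟨625 * C, by positivity, ?_⟩
  intro A n hn X Y hX hXn hXY Q T Bn Bf hT hBn hBf h1 h2
  have hn' : (1 : ℝ) ≤ n := by exact_mod_cast hn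
  have hN : (0 : ℝ) < 16 * n := by linarith
  obtain ⟨G, hGdef⟩ : ∃ G : ℝ → ℝ, G = fun x => ∑ p ∈ farey Q, ‖Sc A X Y (frac p + x)‖ ^ 2 :=
    ⟨_, rfl⟩
  have hScc := continuous_Sc A X Y
  have hGc1 : ∀ p : ℕ × ℕ, Continuous fun x : ℝ => ‖Sc A X Y (frac p + x)‖ ^ 2 := fun p =>
    ((hScc.comp (continuous_const.add continuous_id)).norm).pow 2
  have hG : Continuous G := by
    rw [hGdef]
    exact continuous_finsetSum _ fun p _ => hGc1 p
  have hG0 : ∀ x, 0 ≤ G x := by
    intro x
    rw [hGdef]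
    exact Finset.sum_nonneg fun p _ => by positivity
  have hGp : ∀ (x : ℝ) (k : ℤ), G (x + k) = G x := by
    intro x k
    rw [hGdef]
    refine Finset.sum_congr rfl fun p _ => ?_
    rw [← add_assoc, Sc_add_int]
  have hsumG : ∀ a b : ℝ, ∑ p ∈ farey Q, ∫ β in annu (16 * n) a b, ‖Sc A X Y (frac p + β)‖ ^ 2 =
      ∫ β in annu (16 * n) a b, G β := by
    intro a b
    rw [hGdef]
    rw [integral_finsetSum]
    intro p _
    obtain ⟨R, hR⟩ := (isBounded_annu hN a b).subset_closedBall 0
    exact ((hGc1 p).continuousOn.integrableOn_compact (isCompact_closedBall (0 : ℝ) R)).mono_set hR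
  have hmain := smooth_gen_zm hG hG0 hGp hn hT hBn hBf (hC n hn T hT)
    (by rw [← hsumG]; exact h1) (fun y hy1 hy2 => by rw [← hsumG]; exact h2 y hy1 hy2)
  refine le_trans ?_ hmain
  -- the pointwise estimate
  have hS2c := continuous_S2 A n
  have hkc := continuous_kern 4 n
  obtain ⟨R, hR⟩ := (isBounded_annu hN (tcl T) (2 * T)).subset_closedBall 0
  have hc1 : ∀ p : ℕ × ℕ, Continuous fun x : ℝ => ‖S2 A n (frac p + x)‖ ^ 2 := fun p =>
    ((hS2c.comp (continuous_const.add continuous_id)).norm).pow 2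
  rw [← integral_finsetSum]
  · have hcJ : Continuous fun β : ℝ => ∫ t in (0 : ℝ)..1, kern 4 n t * G (β - t) := by
      apply intervalIntegral.continuous_parametric_intervalIntegral_of_continuous' 
      unfold Function.uncurry
      exact (hkc.comp continuous_snd).mul (hG.comp (continuous_fst.sub continuous_snd))
    refine setIntegral_mono_on ?_ ?_ (measurableSet_annu _ _ _) ?_
    · exact ((continuous_finsetSum _ fun p _ => hc1 p).continuousOn.integrableOn_compact
        (isCompact_closedBall (0 : ℝ) R)).mono_set hR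
    · exact (hcJ.continuousOn.integrableOn_compact (isCompact_closedBall (0 : ℝ) R)).mono_set hR
    · intro β _
      calc ∑ p ∈ farey Q, ‖S2 A n (frac p + β)‖ ^ 2
          ≤ ∑ p ∈ farey Q, ∫ t in (0 : ℝ)..1, kern 4 n t * ‖Sc A X Y (frac p + β - t)‖ ^ 2 :=
            Finset.sum_le_sum fun p _ => S2_sq_le hn hX hXn hXY _
        _ = ∫ t in (0 : ℝ)..1, ∑ p ∈ farey Q, kern 4 n t * ‖Sc A X Y (frac p + β - t)‖ ^ 2 := by
            rw [intervalIntegral.integral_finsetSum]
            intro p _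
            apply Continuous.intervalIntegrable
            exact hkc.mul (((hScc.comp (continuous_const.sub continuous_id)).norm).pow 2)
        _ = ∫ t in (0 : ℝ)..1, kern 4 n t * G (β - t) := by
            congr 1
            funext t
            rw [hGdef, Finset.mul_sum]
            refine Finset.sum_congr rfl fun p _ => ?_
            rw [add_sub_assoc]
  · intro p _
    exact ((hc1 p).continuousOn.integrableOn_compact (isCompact_closedBall (0 : ℝ) R)).mono_set hR

end Pool.Agent.W_f50700_h13
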