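import Pool.Agent.W_f50700_h13.MbC1b
import Pool.Agent.W_f50700_h13.MbF1b
import Pool.Agent.W_f50700_h13.Zc2
import Pool.Agent.W_f50700_h3.Expo2

/-!
Zr1: ingredients of the counts in regime 2.
-/

namespace Pool.Agent.W_f50700_h13

open Pool.Agent.W_f50700_h3

/-- number of columns with given determinant against a fixed column: `F u'` is determined mod `F u`
(`F u`, `m21 u` coprime), lies in `[X, K X]`, and `m21 u'` is determined by `F u'` -/
theorem count_det_col {A : ℕ} {X K : ℝ} (hX : 0 < X) (P : Finset (List (Lt A)))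
    (hP : ∀ u ∈ P, X ≤ (F u : ℝ) ∧ (F u : ℝ) ≤ K * X) {u : List (Lt A)} (hu : u ∈ P) (m : ℤ) :
    (((P.filter (fun u' => (F u : ℤ) * m21 u' - m21 u * F u' = m)).card : ℕ) : ℝ) ≤ K + 1 := by
  classical
  set S := P.filter (fun u' => (F u : ℤ) * m21 u' - m21 u * F u' = m) with hS
  have hFu : 0 < F u := F_pos u
  have hcop : IsCoprime (F u : ℤ) (m21 u : ℤ) := Nat.isCoprime_iff_coprime.mpr (coprime_col u)
  have hinj : Set.InjOn (fun u' : List (Lt A) => (F u' : ℤ)) S := by
    intro v hv v' hv' h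
    rw [Finset.mem_coe, hS, Finset.mem_filter] at hv hv'
    simp only at h
    have h1 : F v = F v' := by exact_mod_cast h
    apply col_injective h1
    have h2 : (F u : ℤ) * m21 v = F u * m21 v' := by
      have := hv.2.trans hv'.2.symm
      rw [h] at this
      linarith
    have h3 : (F u : ℤ) ≠ 0 := by exact_mod_cast hFu.ne'
    have := mul_left_cancel₀ h3 h2
    exact_mod_cast this
  have hcard : (S.image (fun u' : List (Lt A) => (F u' : ℤ))).card = S.card :=
    Finset.card_image_of_injOn hinj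
  have hPu := hP u hu
  have hK : X ≤ K * X := hPu.1.trans hPu.2
  have h := MbC1_card_class (q := F u) hFu (S.image (fun u' : List (Lt A) => (F u' : ℤ))) X (K * X)
    hK
    (by
      intro j hj
      obtain ⟨v, hv, rfl⟩ := Finset.mem_image.mp hj
      rw [hS, Finset.mem_filter] at hv
      have := hP v hv.1
      push_cast
      exact this)
    (by
      intro j hj j' hj'
      obtain ⟨v, hv, rfl⟩ := Finset.mem_image.mp hj
      obtain ⟨v', hv', rfl⟩ := Finset.mem_image.mp hj'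
      rw [hS, Finset.mem_filter] at hv hv'
      have h1 : (F u : ℤ) ∣ m21 u * ((F v : ℤ) - F v') := by
        refine ⟨(m21 v : ℤ) - m21 v', ?_⟩
        have h2 := hv.2
        have h3 := hv'.2
        linear_combination h3 - h2
      exact hcop.dvd_of_dvd_mul_left h1)
  rw [hcard] at h
  have hFu' : (0 : ℝ) < F u := by exact_mod_cast hFu
  have h1 : (K * X - X) / (F u : ℝ) ≤ K - 1 := by
    rw [div_le_iff₀ hFu']
    have hK1 : 0 ≤ K - 1 := by nlinarith
    nlinarith [hPu.1]
  linarith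

theorem Zr1_main {a : ℤ} {q : ℕ} (hq : 1 ≤ q) (hc : IsCoprime a (q : ℤ)) (β : ℝ) (M : ℕ)
    {δ : ℝ} (hδ : 0 ≤ δ) {L : ℝ} (hL : 0 ≤ L)
    (hfib : ∀ j : ℤ, ∃ X Y : ℝ, X ≤ Y ∧ Y - X ≤ L ∧ ∀ w : ℤ, -(M : ℤ) ≤ w → w ≤ M →
      |(j : ℝ) / q + β * w| ≤ δ → X ≤ w ∧ (w : ℝ) ≤ Y) :
    ((nearSet (-(M : ℤ)) M ((a : ℝ) / q + β) δ).card : ℝ) ≤
      (2 * q * δ + 2 * q * (|β| * M) + 1) * (L / q + 1) := by
  classical
  have hq' : (0 : ℝ) < q := by exact_mod_cast hq
  obtain ⟨φ, hφ⟩ : ∃ φ : ℝ, φ = (a : ℝ) / q + β := ⟨_, rfl⟩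
  rw [← hφ]
  set g : ℤ → ℤ := fun w => a * w - q * round (φ * w) with hg
  have hgr : ∀ w ∈ nearSet (-(M : ℤ)) M φ δ, |(g w : ℝ) / q + β * w| ≤ δ := by
    intro w hw
    rw [mem_nearSet] at hw
    have h1 := hw.2
    unfold dist1 at h1
    have h2 : (g w : ℝ) / q + β * w = φ * w - round (φ * w) := by
      rw [hg, hφ]
      push_cast
      field_simp
      ring
    rwa [h2]
  have hgabs : ∀ w ∈ nearSet (-(M : ℤ)) M φ δ, |(g w : ℝ)| ≤ q * δ + q * (|β| * M) := by
    intro w hw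
    have h1 := hgr w hw
    rw [mem_nearSet] at hw
    have h3 : |(w : ℝ)| ≤ M := by
      rw [abs_le]
      exact ⟨by exact_mod_cast hw.1.1, by exact_mod_cast hw.1.2⟩
    have h4 : |β * w| ≤ |β| * M := by
      rw [abs_mul]
      exact mul_le_mul_of_nonneg_left h3 (abs_nonneg β)
    have h5 : |(g w : ℝ) / q| ≤ δ + |β| * M := by
      have h6 : (g w : ℝ) / q = ((g w : ℝ) / q + β * w) - β * w := by ring
      rw [h6]
      exact (abs_sub _ _).trans (add_le_add h1 h4)
    rw [abs_div, abs_of_pos hq', div_le_iff₀ hq'] at h5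
    refine h5.trans (le_of_eq ?_)
    ring
  have hT : (((nearSet (-(M : ℤ)) M φ δ).image g).card : ℝ) ≤
      2 * q * δ + 2 * q * (|β| * M) + 1 := by
    have := MbC1_card_abs (x := q * δ + q * (|β| * M)) (by positivity)
      ((nearSet (-(M : ℤ)) M φ δ).image g)
      (by
        intro j hj
        obtain ⟨w, hw, rfl⟩ := Finset.mem_image.mp hj
        exact hgabs w hw)
    linarith
  have hfib' : ∀ j ∈ (nearSet (-(M : ℤ)) M φ δ).image g,
      ((((nearSet (-(M : ℤ)) M φ δ).filter (fun w => g w = j)).card : ℕ) : ℝ) ≤ L / q + 1 := by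
    intro j _
    obtain ⟨X, Y, hXY, hYL, hX⟩ := hfib j
    have h1 := MbC1_card_class hq ((nearSet (-(M : ℤ)) M φ δ).filter (fun w => g w = j))
      X Y hXY
      (by
        intro w hw
        rw [Finset.mem_filter] at hw
        have h2 := hgr w hw.1
        rw [hw.2] at h2
        have h3 := mem_nearSet.1 hw.1
        exact hX w h3.1.1 h3.1.2 h2)
      (by
        intro w hw w' hw'
        rw [Finset.mem_filter] at hw hw'
        have h2 : g w = g w' := by rw [hw.2, hw'.2]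
        have h3 : (q : ℤ) ∣ a * (w - w') := by
          refine ⟨round (φ * w) - round (φ * w'), ?_⟩
          have : a * w - q * round (φ * w) = a * w' - q * round (φ * w') := h2
          linear_combination this
        exact (hc.symm.dvd_of_dvd_mul_left h3))
    refine h1.trans ?_
    have : (Y - X) / q ≤ L / q := div_le_div_of_nonneg_right hYL hq'.le
    linarith
  exact MbC1_card_fib (nearSet (-(M : ℤ)) M φ δ) _ g
    (fun w hw => Finset.mem_image_of_mem g hw) (by positivity) hT hfib'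

/-- as `count_beta1` without the smallness of `β`: `j = a w - q round((a/q+β) w)` satisfies
`|j| ≤ q δ + q |β| M` -/
theorem count_beta1g {a : ℤ} {q : ℕ} (hq : 1 ≤ q) (hc : IsCoprime a (q : ℤ)) (β : ℝ) (M : ℕ)
    {δ : ℝ} (hδ : 0 ≤ δ) :
    ((nearSet (-(M : ℤ)) M ((a : ℝ) / q + β) δ).card : ℝ) ≤
      (2 * q * δ + 2 * q * (|β| * M) + 1) * (2 * M / q + 1) := by
  have hM : (0 : ℝ) ≤ M := Nat.cast_nonneg M
  refine Zr1_main hq hc β M hδ (L := 2 * M) (by positivity) fun j => ?_
  refine ⟨-(M : ℝ), M, by linarith, by linarith, fun w h1 h2 _ => ⟨?_, ?_⟩⟩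
  · exact_mod_cast h1
  · exact_mod_cast h2

theorem count_beta2g {a : ℤ} {q : ℕ} (hq : 1 ≤ q) (hc : IsCoprime a (q : ℤ)) {β : ℝ}
    (hβ0 : β ≠ 0) (M : ℕ) {δ : ℝ} (hδ : 0 ≤ δ) :
    ((nearSet (-(M : ℤ)) M ((a : ℝ) / q + β) δ).card : ℝ) ≤
      (2 * q * δ + 2 * q * (|β| * M) + 1) * (2 * δ / (q * |β|) + 1) := by
  have hb : 0 < |β| := abs_pos.2 hβ0
  have h := Zr1_main hq hc β M hδ (L := 2 * δ / |β|) (by positivity) (fun j => by
    refine ⟨-(j : ℝ) / q / β - δ / |β|, -(j : ℝ) / q / β + δ / |β|, ?_, ?_, ?_⟩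
    · have : 0 ≤ δ / |β| := by positivity
      linarith
    · refine le_of_eq ?_
      ring
    · intro w _ _ hw
      have h1 : (j : ℝ) / q + β * w = β * (w - -(j : ℝ) / q / β) := by
        field_simp
        ring
      rw [h1, abs_mul] at hw
      have h2 : |(w : ℝ) - -(j : ℝ) / q / β| ≤ δ / |β| := by
        rw [le_div_iff₀ hb, mul_comm]
        exact hw
      have h3 := abs_le.1 h2
      constructor
      · linarith [h3.1]
      · linarith [h3.2])
  have h4 : 2 * δ / |β| / q = 2 * δ / (q * |β|) := by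
    rw [div_div, mul_comm |β|]
  rw [h4] at h
  exact h

end Pool.Agent.W_f50700_h13
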