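import Pool.Agent.W_f50700_h13.Zr1
import Pool.Agent.W_f50700_h13.Zd1

/-!
Zr2: regime 2 (`Y = √(Q T)`, `Y^3 ≤ X`): number of grid points for a given word.
-/

namespace Pool.Agent.W_f50700_h13

open Pool.Agent.W_f50700_h3

theorem Zr2_CA {A : ℕ} (hA : 2 ≤ A) : 10 ≤ CA A := by
  unfold CA
  have : (2 : ℝ) ≤ A := by exact_mod_cast hA
  nlinarith

theorem Zr2_Rb {A : ℕ} (X : ℝ) : CA A * X < (Rb A X : ℝ) := by
  unfold Rb
  push_cast
  exact Nat.lt_floor_add_one _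

/-- for given `v'` two admissible grid points `θ', θ''` satisfy `dist1 (θ' - θ'') ≤ 4/(X Y)`
(`arc_close` with `Δ = 1/R`, `Δ (F v' + m21 v') ≤ 2 Y / (CA X) < 1`, `F v' ≥ Y/(4 CA)`); the
fractions are then pairwise within `(4 + 2 T2)/(X Y)`: `farey_arc_count`; for given fraction
`kcount` with `c = 1`, `η = 4/(X Y)`. -/
theorem points_count {A : ℕ} (hA : 2 ≤ A) {Q : ℕ} {X Y σ T1 T2 : ℝ} (hQ : 1 ≤ Q) (hY : 8 ≤ Y)
    (hYX : Y ^ 3 ≤ X) (hσ : σ ∈ Set.Icc (0 : ℝ) 1) (hT1 : 0 ≤ T1) (hT2 : 0 ≤ T2)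
    {v' : List (Lt A)} (hv' : v' ∈ Vc A Y) (φ ψ : ℝ) (S : Finset Gp)
    (hS : ∀ z ∈ S, z ∈ grid Q σ T1 T2 ∧
      dist1 (φ - gpt (X * Y) σ z * F v') ≤ 1 / (2 * (Rb A X : ℝ)) ∧
      dist1 (ψ - gpt (X * Y) σ z * m21 v') ≤ 1 / (2 * (Rb A X : ℝ))) :
    (S.card : ℝ) ≤ (1 + 8 * (Q : ℝ) ^ 2 * (4 + 2 * T2) / (X * Y)) *
      ((2 * T2 / (X * Y) + 2) * 9) := by
  classical
  have hCA := Zr2_CA hA
  have hR := Zr2_Rb (A := A) X
  have hY0 : 0 < Y := by linarith
  have hXY1 : 64 * Y ≤ X := by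
    have : 64 * Y ≤ Y ^ 3 := by nlinarith [mul_pos hY0 hY0]
    linarith
  have hX0 : 0 < X := by linarith
  have hN0 : 0 < X * Y := by positivity
  have hCAX : 0 < CA A * X := by positivity
  have hR0 : 0 < (Rb A X : ℝ) := lt_trans hCAX hR
  rw [mem_Vc] at hv'
  obtain ⟨hvY, hvY2⟩ := hv'
  have hFpos : 1 ≤ F v' := F_pos v'
  have hFr : (0 : ℝ) < F v' := by exact_mod_cast hFpos
  -- pairwise distance
  have hpair : ∀ z ∈ S, ∀ z' ∈ S, dist1 (gpt (X * Y) σ z - gpt (X * Y) σ z') ≤ 4 / (X * Y) := by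
    intro z hz z' hz'
    obtain ⟨_, h1, h2⟩ := hS z hz
    obtain ⟨_, h1', h2'⟩ := hS z' hz'
    have e0 : 1 / (2 * (Rb A X : ℝ)) + 1 / (2 * (Rb A X : ℝ)) = 1 / (Rb A X : ℝ) := by
      field_simp; norm_num
    have b1 : dist1 ((gpt (X * Y) σ z - gpt (X * Y) σ z') * F v') ≤ 1 / (Rb A X : ℝ) := by
      have := dist1_sub_le (φ - gpt (X * Y) σ z' * F v') (φ - gpt (X * Y) σ z * F v')
      rw [show φ - gpt (X * Y) σ z' * F v' - (φ - gpt (X * Y) σ z * F v') =
        (gpt (X * Y) σ z - gpt (X * Y) σ z') * F v' by ring] at this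
      rw [← e0]
      linarith
    have b2 : dist1 ((gpt (X * Y) σ z - gpt (X * Y) σ z') * m21 v') ≤ 1 / (Rb A X : ℝ) := by
      have := dist1_sub_le (ψ - gpt (X * Y) σ z' * m21 v') (ψ - gpt (X * Y) σ z * m21 v')
      rw [show ψ - gpt (X * Y) σ z' * m21 v' - (ψ - gpt (X * Y) σ z * m21 v') =
        (gpt (X * Y) σ z - gpt (X * Y) σ z') * m21 v' by ring] at this
      rw [← e0]
      linarith
    have hm : (m21 v' : ℝ) ≤ Y := by
      have : (m21 v' : ℝ) ≤ F v' := by exact_mod_cast (m21_lt v').le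
      linarith
    have b3 : 1 / (Rb A X : ℝ) * ((F v' : ℝ) + m21 v') < 1 := by
      rw [one_div_mul_eq_div, div_lt_one hR0]
      have : 10 * X ≤ CA A * X := mul_le_mul_of_nonneg_right hCA hX0.le
      linarith
    have b4 := arc_close hFpos (coprime_col v') b1 b2 b3
    refine b4.trans ?_
    rw [div_div]
    rw [div_le_div_iff₀ (by positivity) hN0, one_mul]
    have h5 : Y / (4 * CA A) * (CA A * X) ≤ (F v' : ℝ) * Rb A X :=
      mul_le_mul hvY2 hR.le hCAX.le hFr.le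
    have h6 : Y / (4 * CA A) * (CA A * X) = X * Y / 4 := by
      have : CA A ≠ 0 := by linarith
      field_simp
    rw [h6] at h5
    linarith
  -- fractions
  have himg : ((S.image (fun z => z.1)).card : ℝ) ≤
      1 + 8 * (Q : ℝ) ^ 2 * (4 + 2 * T2) / (X * Y) := by
    have h1 := farey_arc_count (Q := Q) (S := S.image (fun z => z.1)) (ℓ := (4 + 2 * T2) / (X * Y))
      (by
        intro p hp
        obtain ⟨z, hz, rfl⟩ := Finset.mem_image.mp hp
        exact ((mem_grid hσ).mp (hS z hz).1).1)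
      (by positivity)
      (by
        intro p hp p' hp'
        obtain ⟨z, hz, rfl⟩ := Finset.mem_image.mp hp
        obtain ⟨z', hz', rfl⟩ := Finset.mem_image.mp hp'
        have c1 := hpair z hz z' hz'
        have c2 := ((mem_grid hσ).mp (hS z hz).1).2.2
        have c3 := ((mem_grid hσ).mp (hS z' hz').1).2.2
        have e1 : frac z.1 - frac z'.1 = (gpt (X * Y) σ z - gpt (X * Y) σ z') +
            (((z'.2 : ℝ) + σ) / (X * Y) - ((z.2 : ℝ) + σ) / (X * Y)) := by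
          unfold gpt; ring
        rw [e1]
        refine (dist1_add_le _ _).trans ?_
        have c4 : dist1 (((z'.2 : ℝ) + σ) / (X * Y) - ((z.2 : ℝ) + σ) / (X * Y)) ≤
            2 * T2 / (X * Y) := by
          refine (dist1_le_abs _).trans ?_
          rw [← sub_div, abs_div, abs_of_pos hN0]
          apply div_le_div_of_nonneg_right _ hN0.le
          refine (abs_sub _ _).trans ?_
          linarith
        calc _ ≤ 4 / (X * Y) + 2 * T2 / (X * Y) := add_le_add c1 c4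
          _ = _ := by ring)
    calc ((S.image (fun z => z.1)).card : ℝ) ≤ 1 + 8 * (Q : ℝ) ^ 2 * ((4 + 2 * T2) / (X * Y)) := h1
      _ = _ := by ring
  refine MbC1_card_fib S (S.image (fun z => z.1)) (fun z => z.1)
    (fun z hz => Finset.mem_image_of_mem _ hz) (by positivity) himg ?_
  intro p hp
  obtain ⟨z0, hz0, hz0p⟩ := Finset.mem_image.mp hp
  set Sp := S.filter (fun z => z.1 = p) with hSp
  have hinj : Set.InjOn (fun z : Gp => z.2) Sp := by
    intro z hz z' hz' h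
    rw [Finset.mem_coe, hSp, Finset.mem_filter] at hz hz'
    exact Prod.ext (hz.2.trans hz'.2.symm) h
  have hcard : (Sp.image (fun z : Gp => z.2)).card = Sp.card := Finset.card_image_of_injOn hinj
  have hη : 4 / (X * Y) ≤ 1 / 2 := by
    rw [div_le_div_iff₀ hN0 (by norm_num)]
    nlinarith
  have h2 := kcount (φ := ((z0.2 : ℝ) + σ) / (X * Y)) (σ := σ) (c := 1) (N := X * Y) (T2 := T2)
    (η := 4 / (X * Y)) (by norm_num) hN0 hT2 (by positivity) (Sp.image (fun z : Gp => z.2))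
    (by
      intro k hk
      obtain ⟨z, hz, rfl⟩ := Finset.mem_image.mp hk
      rw [hSp, Finset.mem_filter] at hz
      refine ⟨((mem_grid hσ).mp (hS z hz.1).1).2.2, ?_⟩
      have c1 := hpair z0 hz0 z hz.1
      have e1 : gpt (X * Y) σ z0 - gpt (X * Y) σ z =
          ((z0.2 : ℝ) + σ) / (X * Y) - ((z.2 : ℝ) + σ) / (X * Y) * 1 := by
        unfold gpt
        rw [hz.2, hz0p]; ring
      rw [e1] at c1
      exact c1)
    hη
  rw [hcard] at h2
  refine h2.trans (le_of_eq ?_)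
  field_simp
  ring

/-- determinants: `m = F v m21 v' - m21 v F v'` of a close pair lies in
`nearSet (-M) M (gpt j) (Y/(CA X))`, `M = ⌊Y^2⌋` (`det_near`) -/
theorem det_mem {A : ℕ} (hA : 2 ≤ A) {X Y : ℝ} (hX : 1 ≤ X) (hY : 1 ≤ Y) {α α' : ℝ}
    {v v' : List (Lt A)} (hv : v ∈ Vc A Y) (hv' : v' ∈ Vc A Y)
    (h1 : dist1 (α * F v - α' * F v') ≤ 1 / (2 * (Rb A X : ℝ)))
    (h2 : dist1 (α * m21 v - α' * m21 v') ≤ 1 / (2 * (Rb A X : ℝ))) :
    ((F v : ℤ) * m21 v' - m21 v * F v') ∈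
      nearSet (-((⌊Y ^ 2⌋₊ : ℕ) : ℤ)) (⌊Y ^ 2⌋₊ : ℕ) α (Y / (CA A * X)) := by
  have hCA := Zr2_CA hA
  have hR := Zr2_Rb (A := A) X
  have hCAX : 0 < CA A * X := by positivity
  have hR0 : 0 < (Rb A X : ℝ) := lt_trans hCAX hR
  rw [mem_Vc] at hv hv'
  have hm : (m21 v : ℝ) ≤ Y := by
    have : (m21 v : ℝ) ≤ F v := by exact_mod_cast (m21_lt v).le
    linarith [hv.1]
  have hm' : (m21 v' : ℝ) ≤ Y := by
    have : (m21 v' : ℝ) ≤ F v' := by exact_mod_cast (m21_lt v').le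
    linarith [hv'.1]
  have hY0 : 0 < Y := by linarith
  rw [mem_nearSet]
  constructor
  · have h3 : |(((F v : ℤ) * m21 v' - m21 v * F v' : ℤ) : ℝ)| ≤ Y ^ 2 := by
      push_cast
      rw [abs_le]
      have a1 : (0 : ℝ) ≤ (F v : ℝ) * m21 v' := by positivity
      have a2 : (0 : ℝ) ≤ (m21 v : ℝ) * F v' := by positivity
      have a3 : (F v : ℝ) * m21 v' ≤ Y * Y := mul_le_mul hv.1 hm' (by positivity) hY0.le
      have a4 : (m21 v : ℝ) * F v' ≤ Y * Y := mul_le_mul hm hv'.1 (by positivity) hY0.le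
      constructor <;> nlinarith
    have h4 : (((F v : ℤ) * m21 v' - m21 v * F v').natAbs : ℝ) ≤ Y ^ 2 := by
      rw [Nat.cast_natAbs]; push_cast; push_cast at h3; exact h3
    have h5 : ((F v : ℤ) * m21 v' - m21 v * F v').natAbs ≤ ⌊Y ^ 2⌋₊ := Nat.le_floor h4
    constructor <;> omega
  · have h5 := det_near h1 h2
    refine h5.trans ?_
    calc ((F v' : ℝ) + m21 v') * (1 / (2 * (Rb A X : ℝ))) ≤ (2 * Y) * (1 / (2 * (Rb A X : ℝ))) := by
          apply mul_le_mul_of_nonneg_right _ (by positivity)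
          linarith [hv'.1]
      _ = Y / (Rb A X : ℝ) := by field_simp
      _ ≤ Y / (CA A * X) := div_le_div_of_nonneg_left hY0.le hCAX hR.le

end Pool.Agent.W_f50700_h13
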