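import Pool.Agent.W_f50700_h13.Zk1
import Pool.Agent.W_f50700_h3.Expo2

/-!
Zs1: the weighted sum over words with `F w` between `N/2` and `N`, `N = 16 n`, and the cut
bilinear form.
-/

open MeasureTheory

namespace Pool.Agent.W_f50700_h13

open Pool.Agent.W_f50700_h3

/-- the weight, centred at `12 n`, supported in `(8n, 16n)` -/
noncomputable def ps (n : ℕ) (j : ℤ) : ℝ := wt 4 n (j - 12 * n)

/-- the weighted exponential sum -/
noncomputable def S2 (A n : ℕ) (θ : ℝ) : ℂ :=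
  ∑ w ∈ wordsF A ((16 * n : ℕ) : ℝ), (ps n (F w : ℤ) : ℂ) * e (θ * (F w : ℝ))

/-- words with `F` in `[Y/(4 CA), Y]` -/
noncomputable def Vc (A : ℕ) (Y : ℝ) : Finset (List (Lt A)) := by
  classical
  exact (wordsF A Y).filter (fun v => Y / (4 * CA A) ≤ (F v : ℝ))

theorem mem_Vc {A : ℕ} {Y : ℝ} {v : List (Lt A)} :
    v ∈ Vc A Y ↔ (F v : ℝ) ≤ Y ∧ Y / (4 * CA A) ≤ (F v : ℝ) := by
  unfold Vc
  rw [Finset.mem_filter, mem_wordsF]

/-- the cut bilinear form -/
noncomputable def Sc (A : ℕ) (X Y : ℝ) (θ : ℝ) : ℂ :=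
  ∑ u ∈ passF A X, ∑ v ∈ Vc A Y, e (θ * (F (u ++ v) : ℝ))

theorem ps_nonneg {n : ℕ} (hn : 1 ≤ n) (j : ℤ) : 0 ≤ ps n j := by
  exact wt4_nonneg hn _

theorem ps_le_one {n : ℕ} (hn : 1 ≤ n) (j : ℤ) : ps n j ≤ 1 := by
  exact wt4_le_one hn _

theorem ps_lip {n : ℕ} (hn : 1 ≤ n) (j l : ℤ) : |ps n j - ps n l| ≤ |(j : ℝ) - l| / n := by
  have h := wt4_lip hn (j - 12 * n) (l - 12 * n)
  have e1 : (((j - 12 * n : ℤ) : ℝ) - ((l - 12 * n : ℤ) : ℝ)) = (j : ℝ) - l := by
    push_cast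
    ring
  rw [e1] at h
  exact h

theorem ps_eq_zero_low {n : ℕ} (hn : 1 ≤ n) {j : ℤ} (hj : j ≤ 8 * n) : ps n j = 0 := by
  apply wt4_eq_zero hn
  rw [abs_of_nonpos (by omega)]
  omega

theorem ps_eq_zero_high {n : ℕ} (hn : 1 ≤ n) {j : ℤ} (hj : 16 * n ≤ j) : ps n j = 0 := by
  apply wt4_eq_zero hn
  rw [abs_of_nonneg (by omega)]
  omega

theorem ps_ge {n : ℕ} (hn : 1 ≤ n) {j : ℤ} (hj : 8 * |j - 12 * n| ≤ n) : 1 / 8 ≤ ps n j := by
  exact wt4_ge hn hj

theorem continuous_S2 (A n : ℕ) : Continuous (S2 A n) := by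
  unfold S2
  apply continuous_finsetSum
  intro w _
  exact continuous_const.mul (continuous_e.comp (by fun_prop))

theorem S2_add_int (A n : ℕ) (θ : ℝ) (k : ℤ) : S2 A n (θ + k) = S2 A n θ := by
  unfold S2
  apply Finset.sum_congr rfl
  intro w _
  have : (θ + k) * (F w : ℝ) = θ * (F w : ℝ) + ((k * (F w : ℤ) : ℤ) : ℝ) := by
    push_cast; ring
  rw [this, e_add_int]

theorem continuous_Sc (A : ℕ) (X Y : ℝ) : Continuous (Sc A X Y) := by
  unfold Sc
  apply continuous_finsetSum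
  intro u _
  apply continuous_finsetSum
  intro v _
  exact continuous_e.comp (by fun_prop)

theorem Sc_add_int (A : ℕ) (X Y θ : ℝ) (k : ℤ) : Sc A X Y (θ + k) = Sc A X Y θ := by
  unfold Sc
  apply Finset.sum_congr rfl
  intro u _
  apply Finset.sum_congr rfl
  intro v _
  have : (θ + k) * (F (u ++ v) : ℝ) = θ * (F (u ++ v) : ℝ) + ((k * (F (u ++ v) : ℤ) : ℤ) : ℝ) := by
    push_cast; ring
  rw [this, e_add_int]

theorem Zs1_cont (n : ℕ) (x θ : ℝ) :
    Continuous fun t : ℝ => ((kern 4 n t : ℂ) * e (12 * n * t)) * e ((θ - t) * x) :=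
  ((Complex.continuous_ofReal.comp (continuous_kern 4 n)).mul
    (continuous_e.comp (by fun_prop))).mul (continuous_e.comp (by fun_prop))

theorem Zs1_int {n : ℕ} (hn : 1 ≤ n) (m : ℤ) (θ : ℝ) :
    (∫ t in (0 : ℝ)..1, ((kern 4 n t : ℂ) * e (12 * n * t)) * e ((θ - t) * (m : ℝ))) =
      (ps n m : ℂ) * e (θ * (m : ℝ)) := by
  unfold ps
  rw [ofReal_wt4 hn, ← intervalIntegral.integral_mul_const]
  congr 1
  ext t
  rw [mul_assoc (kern 4 n t : ℂ), mul_assoc (kern 4 n t : ℂ), ← e_add, ← e_add]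
  congr 2
  push_cast
  ring

/-- as `MbBil.bilinear`: words with nonzero weight have `8 n < F w < 16 n`, so a unique prefix `u`
in `passF A X` (`X ≤ 8 n`), and the rest `v` satisfies `F v ≤ F w / F u ≤ Y`,
`F v ≥ F w / (2 F u) ≥ 8 n / (2 CA X) = Y / (4 CA)`; `ofReal_wt4` -/
theorem S2_eq {A n : ℕ} (hn : 1 ≤ n) {X Y : ℝ} (hX : 1 < X) (hXn : X ≤ 8 * n)
    (hXY : X * Y = 16 * n) (θ : ℝ) :
    S2 A n θ = ∫ t in (0 : ℝ)..1, ((kern 4 n t : ℂ) * e (12 * n * t)) * Sc A X Y (θ - t) := by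
  have hX0 : 0 < X := by linarith
  have hC := base3_CA_ge A
  have h0 : S2 A n θ = ∑ w ∈ (wordsF A ((16 * n : ℕ) : ℝ)).filter (fun w => X ≤ (F w : ℝ)),
      (ps n (F w : ℤ) : ℂ) * e (θ * (F w : ℝ)) := by
    unfold S2
    rw [Finset.sum_filter]
    apply Finset.sum_congr rfl
    intro w _
    split_ifs with h
    · rfl
    · rw [not_le] at h
      have h2 : (F w : ℝ) < ((8 * n : ℕ) : ℝ) := by
        push_cast
        linarith
      have h3 : F w < 8 * n := by exact_mod_cast h2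
      rw [ps_eq_zero_low hn (by omega), Complex.ofReal_zero, zero_mul]
  rw [h0, sum_pass hX]
  have h1 : (∫ t in (0 : ℝ)..1, ((kern 4 n t : ℂ) * e (12 * n * t)) * Sc A X Y (θ - t)) =
      ∑ u ∈ passF A X, ∑ v ∈ Vc A Y,
        (ps n (F (u ++ v) : ℤ) : ℂ) * e (θ * (F (u ++ v) : ℝ)) := by
    have h2 : ∀ t : ℝ, ((kern 4 n t : ℂ) * e (12 * n * t)) * Sc A X Y (θ - t) =
        ∑ u ∈ passF A X, ∑ v ∈ Vc A Y,
          ((kern 4 n t : ℂ) * e (12 * n * t)) * e ((θ - t) * (F (u ++ v) : ℝ)) := by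
      intro t
      unfold Sc
      rw [Finset.mul_sum]
      apply Finset.sum_congr rfl
      intro u _
      rw [Finset.mul_sum]
    simp_rw [h2]
    rw [intervalIntegral.integral_finsetSum]
    · apply Finset.sum_congr rfl
      intro u _
      rw [intervalIntegral.integral_finsetSum]
      · apply Finset.sum_congr rfl
        intro v _
        have := Zs1_int hn (F (u ++ v) : ℤ) θ
        push_cast at this
        exact this
      · intro v _
        exact (Zs1_cont n (F (u ++ v) : ℝ) θ).intervalIntegrable _ _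
    · intro u _
      apply Continuous.intervalIntegrable
      apply continuous_finsetSum
      intro v _
      exact Zs1_cont n (F (u ++ v) : ℝ) θ
  rw [h1]
  apply Finset.sum_congr rfl
  intro u hu
  obtain ⟨hFu, hFu2⟩ := passF_bounds hu
  apply Finset.sum_congr_of_eq_on_inter
  · intro v hv hv2
    rw [Finset.mem_filter, mem_wordsF] at hv
    rw [mem_Vc, not_and_or, not_le, not_le] at hv2
    have h3 : ((F u * F v : ℕ) : ℝ) ≤ ((F (u ++ v) : ℕ) : ℝ) := by exact_mod_cast F_mul_le u v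
    push_cast at h3
    have h4 := hv.2
    push_cast at h4
    have h5 : (0 : ℝ) ≤ (F v : ℝ) := Nat.cast_nonneg _
    rcases hv2 with h | h
    · exfalso
      have h6 : X * Y < X * F v := mul_lt_mul_of_pos_left h hX0
      have h7 : X * (F v : ℝ) ≤ F u * F v := mul_le_mul_of_nonneg_right hFu h5
      linarith
    · have h6 : ((F (u ++ v) : ℕ) : ℝ) ≤ ((2 * (F u * F v) : ℕ) : ℝ) := by
        exact_mod_cast F_append_le u v
      push_cast at h6
      have h7 : (F u : ℝ) * F v ≤ (CA A * X) * (Y / (4 * CA A)) :=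
        mul_le_mul hFu2 h.le h5 (by positivity)
      have h8 : (CA A * X) * (Y / (4 * CA A)) = 4 * n := by
        have : (CA A * X) * (Y / (4 * CA A)) = X * Y / 4 := by
          have hC0 : CA A ≠ 0 := by positivity
          field_simp
        rw [this, hXY]
        ring
      have h9 : (F (u ++ v) : ℝ) ≤ ((8 * n : ℕ) : ℝ) := by
        push_cast
        linarith
      have h10 : F (u ++ v) ≤ 8 * n := by exact_mod_cast h9
      rw [ps_eq_zero_low hn (by omega), Complex.ofReal_zero, zero_mul]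
  · intro v _ hv
    rw [Finset.mem_filter, mem_wordsF, not_and_or, not_le, not_le] at hv
    have h3 : ((16 * n : ℕ) : ℝ) < (F (u ++ v) : ℝ) := by
      rcases hv with h | h
      · have h4 : (F v : ℝ) ≤ (F (u ++ v) : ℝ) := by
          have h6 : 1 * F v ≤ F u * F v := Nat.mul_le_mul_right _ (F_pos u)
          have := F_mul_le u v
          rw [one_mul] at h6
          exact_mod_cast h6.trans this
        linarith
      · exact h
    have h4 : 16 * n < F (u ++ v) := by exact_mod_cast h3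
    rw [ps_eq_zero_high hn (by omega), Complex.ofReal_zero, zero_mul]
  · intro v _ _
    rfl

/-- Cauchy-Schwarz, `kern4_integral_le` -/
theorem S2_sq_le {A n : ℕ} (hn : 1 ≤ n) {X Y : ℝ} (hX : 1 < X) (hXn : X ≤ 8 * n)
    (hXY : X * Y = 16 * n) (θ : ℝ) :
    ‖S2 A n θ‖ ^ 2 ≤ ∫ t in (0 : ℝ)..1, kern 4 n t * ‖Sc A X Y (θ - t)‖ ^ 2 := by
  rw [S2_eq hn hX hXn hXY θ]
  obtain ⟨f, hf⟩ : ∃ f : ℝ → ℝ, f = fun t => ‖Sc A X Y (θ - t)‖ := ⟨_, rfl⟩
  have hfc : Continuous f := by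
    rw [hf]
    exact ((continuous_Sc A X Y).comp (by fun_prop)).norm
  have hkc := continuous_kern 4 n
  have h1 : ‖∫ t in (0 : ℝ)..1, ((kern 4 n t : ℂ) * e (12 * n * t)) * Sc A X Y (θ - t)‖ ≤
      ∫ t in (0 : ℝ)..1, kern 4 n t * f t := by
    refine (intervalIntegral.norm_integral_le_integral_norm (by norm_num)).trans ?_
    apply le_of_eq
    congr 1
    ext t
    rw [norm_mul, norm_mul, norm_e, mul_one, Complex.norm_real, Real.norm_eq_abs,
      abs_of_nonneg (kern_nonneg 4 n t), hf]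
  obtain ⟨b, hb⟩ : ∃ b : ℝ, b = ∫ t in (0 : ℝ)..1, kern 4 n t * f t := ⟨_, rfl⟩
  have h2 : 0 ≤ ∫ t in (0 : ℝ)..1, kern 4 n t * (f t - b) ^ 2 :=
    intervalIntegral.integral_nonneg (by norm_num) fun t _ =>
      mul_nonneg (kern_nonneg 4 n t) (sq_nonneg _)
  have i1 : IntervalIntegrable (fun t => kern 4 n t * f t ^ 2) volume 0 1 :=
    (hkc.mul (hfc.pow 2)).intervalIntegrable _ _
  have i2 : IntervalIntegrable (fun t => kern 4 n t * f t) volume 0 1 :=
    (hkc.mul hfc).intervalIntegrable _ _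
  have i3 : IntervalIntegrable (fun t => kern 4 n t) volume 0 1 :=
    hkc.intervalIntegrable _ _
  have h3 : (∫ t in (0 : ℝ)..1, kern 4 n t * (f t - b) ^ 2) =
      (∫ t in (0 : ℝ)..1, kern 4 n t * f t ^ 2) - 2 * b * (∫ t in (0 : ℝ)..1, kern 4 n t * f t) +
        b ^ 2 * ∫ t in (0 : ℝ)..1, kern 4 n t := by
    rw [← intervalIntegral.integral_const_mul, ← intervalIntegral.integral_const_mul,
      ← intervalIntegral.integral_sub i1 (i2.const_mul _),
      ← intervalIntegral.integral_add (i1.sub (i2.const_mul _)) (i3.const_mul _)]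
    congr 1
    ext t
    ring
  have h4 := kern4_integral_le hn
  have h5 : b ^ 2 * (∫ t in (0 : ℝ)..1, kern 4 n t) ≤ b ^ 2 * 1 :=
    mul_le_mul_of_nonneg_left h4 (sq_nonneg b)
  rw [h3, ← hb] at h2
  rw [← hb] at h1
  have h6 : ‖∫ t in (0 : ℝ)..1, ((kern 4 n t : ℂ) * e (12 * n * t)) * Sc A X Y (θ - t)‖ ^ 2 ≤
      b ^ 2 := pow_le_pow_left₀ (norm_nonneg _) h1 2
  have h7 : (∫ t in (0 : ℝ)..1, kern 4 n t * ‖Sc A X Y (θ - t)‖ ^ 2) =
      ∫ t in (0 : ℝ)..1, kern 4 n t * f t ^ 2 := by rw [hf]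
  rw [h7]
  nlinarith

end Pool.Agent.W_f50700_h13
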