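import Pool.Agent.W_f50700_h13.Zs1
import Pool.Agent.W_f50700_h13.MbLS2
import Pool.Agent.W_f50700_h13.MbF1

/-!
Zs2: dual large sieve for the cut bilinear form.
-/

open MeasureTheory

namespace Pool.Agent.W_f50700_h13

open Pool.Agent.W_f50700_h3

/-- index set of the grid points: `((q, a), k)` -/
abbrev Gp := (ℕ × ℕ) × ℤ

/-- the natural number `R = ⌊CA X⌋ + 1` bounding the rows -/
noncomputable def Rb (A : ℕ) (X : ℝ) : ℕ := ⌊CA A * X⌋₊ + 1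

/-- pairs `(j', v')` close to `(α, v)` with precision `η` -/
noncomputable def nearV {A : ℕ} (J : Finset Gp) (V : Finset (List (Lt A))) (θ : Gp → ℝ)
    (α : ℝ) (v : List (Lt A)) (η : ℝ) : Finset (Gp × List (Lt A)) := by
  classical
  exact (J ×ˢ V).filter (fun z => dist1 (α * F v - θ z.1 * F z.2) ≤ η ∧
    dist1 (α * m21 v - θ z.1 * m21 z.2) ≤ η)

theorem mem_nearV {A : ℕ} {J : Finset Gp} {V : Finset (List (Lt A))} {θ : Gp → ℝ}
    {α : ℝ} {v : List (Lt A)} {η : ℝ} {z : Gp × List (Lt A)} :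
    z ∈ nearV J V θ α v η ↔ z.1 ∈ J ∧ z.2 ∈ V ∧
      dist1 (α * F v - θ z.1 * F z.2) ≤ η ∧ dist1 (α * m21 v - θ z.1 * m21 z.2) ≤ η := by
  classical
  unfold nearV
  rw [Finset.mem_filter, Finset.mem_product, and_assoc]

/-- weighted large sieve for rows -/
theorem Zs2_rows {A : ℕ} (P : Finset (List (Lt A))) {B : ℕ} (hB : ∀ u ∈ P, F u < B)
    (hB1 : 1 ≤ B) {ι : Type*} (J : Finset ι) (z : ι → ℂ) (x y : ι → ℝ) :
    ∑ u ∈ P, ‖∑ j ∈ J, z j * e ((F u : ℝ) * x j + (m12 u : ℝ) * y j)‖ ^ 2 ≤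
      25 * (B : ℝ) ^ 2 * ∑ j ∈ J, ∑ k ∈ J, ‖z j‖ * ‖z k‖ *
        (if dist1 (x j - x k) ≤ 1 / (2 * B) ∧ dist1 (y j - y k) ≤ 1 / (2 * B) then 1 else 0) := by
  classical
  refine le_trans ?_ (large_sieve J z x y hB1)
  rw [← Finset.sum_product' (f := fun r s : ℕ => ‖∑ j ∈ J, z j * e ((r : ℝ) * x j + (s : ℝ) * y j)‖ ^ 2)]
  have hinj : Set.InjOn (fun u : List (Lt A) => (F u, m12 u)) P := by
    intro u _ v _ h
    rw [Prod.mk.injEq] at h
    exact row_injective h.1 h.2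
  rw [← Finset.sum_image (s := P) (g := fun u : List (Lt A) => (F u, m12 u))
    (f := fun p : ℕ × ℕ => ‖∑ j ∈ J, z j * e ((p.1 : ℝ) * x j + (p.2 : ℝ) * y j)‖ ^ 2) hinj]
  apply Finset.sum_le_sum_of_subset_of_nonneg
  · intro p hp
    obtain ⟨u, hu, rfl⟩ := Finset.mem_image.mp hp
    rw [Finset.mem_product, Finset.mem_range, Finset.mem_range]
    exact ⟨hB u hu, (m12_lt u).trans (hB u hu)⟩
  · intro p _ _
    positivity

/-- Schur bound for a symmetric relation -/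
theorem Zs2_schur {ι : Type*} (J : Finset ι) (a : ι → ℝ) (R : ι → ι → ℝ)
    (hR0 : ∀ j k, 0 ≤ R j k) (hs : ∀ j k, R j k = R k j) {K : ℝ}
    (hK : ∀ j ∈ J, ∑ k ∈ J, R j k ≤ K) :
    ∑ j ∈ J, ∑ k ∈ J, a j * a k * R j k ≤ K * ∑ j ∈ J, a j ^ 2 := by
  have h1 : ∑ j ∈ J, ∑ k ∈ J, a j * a k * R j k ≤
      ∑ j ∈ J, ∑ k ∈ J, (a j ^ 2 * R j k / 2 + a k ^ 2 * R k j / 2) := by
    refine Finset.sum_le_sum fun j _ => Finset.sum_le_sum fun k _ => ?_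
    rw [hs k j]
    have h2 := mul_nonneg (sq_nonneg (a j - a k)) (hR0 j k)
    nlinarith
  have h2 : ∑ j ∈ J, ∑ k ∈ J, (a j ^ 2 * R j k / 2 + a k ^ 2 * R k j / 2) =
      ∑ j ∈ J, ∑ k ∈ J, a j ^ 2 * R j k := by
    simp only [Finset.sum_add_distrib]
    rw [Finset.sum_comm (s := J) (t := J) (f := fun j k => a k ^ 2 * R k j / 2)]
    rw [← Finset.sum_add_distrib]
    refine Finset.sum_congr rfl fun j _ => ?_
    rw [← Finset.sum_add_distrib]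
    refine Finset.sum_congr rfl fun k _ => ?_
    ring
  rw [h2] at h1
  refine h1.trans ?_
  rw [Finset.mul_sum]
  refine Finset.sum_le_sum fun j hj => ?_
  rw [← Finset.mul_sum, mul_comm K]
  exact mul_le_mul_of_nonneg_left (hK j hj) (sq_nonneg _)

/-- the raw form of the dual large sieve -/
theorem Zs2_raw {A : ℕ} {X Y : ℝ} (J : Finset Gp) (θ : Gp → ℝ) {K : ℝ}
    (hK0 : 0 ≤ K)
    (hK : ∀ j ∈ J, ∀ v ∈ Vc A Y,
      ((nearV J (Vc A Y) θ (θ j) v (1 / (2 * (Rb A X : ℝ)))).card : ℝ) ≤ K) :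
    ∑ j ∈ J, ‖Sc A X Y (θ j)‖ ^ 2 ≤
      ((passF A X).card : ℝ) * (25 * (Rb A X : ℝ) ^ 2 * (K * ((Vc A Y).card : ℝ))) := by
  classical
  obtain ⟨P, hP⟩ : ∃ P, P = passF A X := ⟨_, rfl⟩
  obtain ⟨V, hV⟩ : ∃ V, V = Vc A Y := ⟨_, rfl⟩
  obtain ⟨B, hB⟩ : ∃ B, B = Rb A X := ⟨_, rfl⟩
  obtain ⟨z, hz⟩ : ∃ z : Gp → ℂ, z = fun j => (starRingEnd ℂ) (Sc A X Y (θ j)) := ⟨_, rfl⟩
  obtain ⟨M, hM⟩ : ∃ M, M = ∑ j ∈ J, ‖Sc A X Y (θ j)‖ ^ 2 := ⟨_, rfl⟩
  have hM0 : 0 ≤ M := by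
    rw [hM]
    positivity
  have hzn : ∀ j, ‖z j‖ = ‖Sc A X Y (θ j)‖ := by
    intro j
    rw [hz]
    exact RCLike.norm_conj _
  have hB1 : 1 ≤ B := by
    rw [hB]
    unfold Rb
    omega
  have hBF : ∀ u ∈ P, F u < B := by
    intro u hu
    rw [hP] at hu
    have h1 := (passF_bounds hu).2
    have h2 := Nat.lt_floor_add_one (CA A * X)
    rw [hB]
    unfold Rb
    have h3 : (F u : ℝ) < ((⌊CA A * X⌋₊ + 1 : ℕ) : ℝ) := by
      push_cast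
      linarith
    exact_mod_cast h3
  -- expansion
  have hexp : ((M : ℝ) : ℂ) = ∑ u ∈ P, ∑ i ∈ J ×ˢ V,
      z i.1 * e ((F u : ℝ) * (θ i.1 * F i.2) + (m12 u : ℝ) * (θ i.1 * m21 i.2)) := by
    have h1 : ((M : ℝ) : ℂ) = ∑ j ∈ J, z j * Sc A X Y (θ j) := by
      rw [hM]
      push_cast
      refine Finset.sum_congr rfl fun j _ => ?_
      rw [hz, Complex.conj_mul']
    rw [h1]
    have h2 : ∀ j ∈ J, z j * Sc A X Y (θ j) = ∑ u ∈ P, ∑ v ∈ V,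
        z j * e ((F u : ℝ) * (θ j * F v) + (m12 u : ℝ) * (θ j * m21 v)) := by
      intro j _
      unfold Sc
      rw [Finset.mul_sum, ← hP, ← hV]
      refine Finset.sum_congr rfl fun u _ => ?_
      rw [Finset.mul_sum]
      refine Finset.sum_congr rfl fun v _ => ?_
      rw [F_append]
      push_cast
      congr 2
      ring
    rw [Finset.sum_congr rfl h2, Finset.sum_comm]
    refine Finset.sum_congr rfl fun u _ => ?_
    rw [Finset.sum_product]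
  have hle : M ≤ ∑ u ∈ P, ‖∑ i ∈ J ×ˢ V,
      z i.1 * e ((F u : ℝ) * (θ i.1 * F i.2) + (m12 u : ℝ) * (θ i.1 * m21 i.2))‖ := by
    have h1 : M = ‖((M : ℝ) : ℂ)‖ := by
      rw [Complex.norm_real, Real.norm_of_nonneg hM0]
    rw [h1, hexp]
    exact norm_sum_le _ _
  have hcs : M ^ 2 ≤ (P.card : ℝ) * ∑ u ∈ P, ‖∑ i ∈ J ×ˢ V,
      z i.1 * e ((F u : ℝ) * (θ i.1 * F i.2) + (m12 u : ℝ) * (θ i.1 * m21 i.2))‖ ^ 2 := by
    refine (pow_le_pow_left₀ hM0 hle 2).trans ?_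
    exact sq_sum_le_card_mul_sum_sq
  have hrows := Zs2_rows P hBF hB1 (J ×ˢ V) (fun i => z i.1) (fun i => θ i.1 * F i.2)
    (fun i => θ i.1 * m21 i.2)
  have hsch := Zs2_schur (J ×ˢ V) (fun i => ‖z i.1‖) (fun i k =>
    if dist1 (θ i.1 * F i.2 - θ k.1 * F k.2) ≤ 1 / (2 * (B : ℝ)) ∧
      dist1 (θ i.1 * m21 i.2 - θ k.1 * m21 k.2) ≤ 1 / (2 * (B : ℝ)) then 1 else 0)
    (fun i k => by
      split_ifs
      · norm_num
      · norm_num)
    (fun i k => by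
      rw [dist1_sub_comm (θ i.1 * F i.2), dist1_sub_comm (θ i.1 * m21 i.2)])
    (K := K) (by
      intro i hi
      obtain ⟨hi1, hi2⟩ := Finset.mem_product.1 hi
      rw [hV] at hi2
      have h1 := hK i.1 hi1 i.2 hi2
      refine le_trans (le_of_eq ?_) h1
      unfold nearV
      rw [Finset.card_filter]
      push_cast
      rw [hV, hB])
  have hsum : ∑ i ∈ J ×ˢ V, ‖z i.1‖ ^ 2 = (V.card : ℝ) * M := by
    rw [Finset.sum_product, hM, Finset.mul_sum]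
    refine Finset.sum_congr rfl fun j _ => ?_
    have h5 : ∑ y ∈ V, ‖z (j, y).1‖ ^ 2 = ∑ _y ∈ V, ‖z j‖ ^ 2 := rfl
    rw [h5, Finset.sum_const, nsmul_eq_mul, hzn]
  have hfin : M ^ 2 ≤ (P.card : ℝ) * (25 * (B : ℝ) ^ 2 * (K * (V.card : ℝ))) * M := by
    refine hcs.trans ?_
    have h1 := hrows.trans (mul_le_mul_of_nonneg_left hsch (by positivity))
    rw [hsum] at h1
    have h2 := mul_le_mul_of_nonneg_left h1 (Nat.cast_nonneg (α := ℝ) P.card)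
    refine h2.trans (le_of_eq ?_)
    ring
  rw [← hM, ← hP, ← hV, ← hB]
  by_cases h0 : M = 0
  · rw [h0]
    positivity
  · have hMp : 0 < M := lt_of_le_of_ne hM0 (Ne.symm h0)
    rw [sq] at hfin
    exact le_of_mul_le_mul_right hfin hMp

/-- Proof: `M2 = sum_j |Sc(θ_j)|^2 = sum_u G(u)`, `G(u) = sum_j sum_v z_j e(θ_j F(u ++ v))`,
`z_j = conj Sc(θ_j)`, `F (u ++ v) = F u F v + m12 u m21 v`; Cauchy over `u ∈ passF A X`, extend the
sum over rows to the box (`row_injective`, as in `MbLS2.ls_rows`), `large_sieve` (weighted form)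
with index set `J ×ˢ Vc A Y` and `B = Rb A X`, `|z z'| ≤ (|z|^2 + |z'|^2)/2`, symmetric relation:
`M2^2 ≤ card (passF A X) * 25 B^2 * card (Vc A Y) * K * M2`.  `card_passF_bounds`,
`card_wordsF_bounds`. -/
theorem dual_ls {A : ℕ} (hA : 2 ≤ A) : ∃ C : ℝ, 0 < C ∧ ∀ X Y : ℝ, 1 < X → 1 ≤ Y →
    ∀ (J : Finset Gp) (θ : Gp → ℝ) (K : ℝ), 0 ≤ K →
    (∀ j ∈ J, ∀ v ∈ Vc A Y,
      ((nearV J (Vc A Y) θ (θ j) v (1 / (2 * (Rb A X : ℝ)))).card : ℝ) ≤ K) →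
    ∑ j ∈ J, ‖Sc A X Y (θ j)‖ ^ 2 ≤ C * X ^ (sexp A + 2) * Y ^ (sexp A) * K := by
  obtain ⟨c1, C1, hc1, hC1, hb1⟩ := card_passF_bounds (A := A) (by omega)
  obtain ⟨c2, C2, hc2, hC2, hb2⟩ := card_wordsF_bounds (A := A) hA
  have hCA := base3_CA_ge A
  have hCA0 : 0 < CA A := by linarith
  refine ⟨C1 * (25 * (2 * CA A) ^ 2 * C2), by positivity, ?_⟩
  intro X Y hX hY J θ K hK0 hK
  have hX0 : 0 < X := by linarith
  have hY0 : 0 < Y := by linarith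
  refine (Zs2_raw J θ hK0 hK).trans ?_
  have h1 := (hb1 X hX).2
  have h2 := (hb2 Y hY).2
  have h3 : ((Vc A Y).card : ℝ) ≤ C2 * Y ^ (sexp A) := by
    refine le_trans ?_ h2
    have h4 : (Vc A Y).card ≤ (wordsF A Y).card := by
      classical
      unfold Vc
      exact Finset.card_filter_le _ _
    exact_mod_cast h4
  have h4 : (Rb A X : ℝ) ≤ 2 * CA A * X := by
    unfold Rb
    push_cast
    have h5 := Nat.floor_le (show 0 ≤ CA A * X by positivity)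
    have h6 : 1 ≤ CA A * X := by nlinarith
    linarith
  have hR0 : (0 : ℝ) ≤ Rb A X := Nat.cast_nonneg _
  have hXs : X ^ (sexp A + 2) = X ^ (sexp A) * X ^ 2 := by
    rw [Real.rpow_add hX0, Real.rpow_two]
  rw [hXs]
  have hXp := Real.rpow_pos_of_pos hX0 (sexp A)
  have hYp := Real.rpow_pos_of_pos hY0 (sexp A)
  calc ((passF A X).card : ℝ) * (25 * (Rb A X : ℝ) ^ 2 * (K * ((Vc A Y).card : ℝ))) ≤
      (C1 * X ^ (sexp A)) * (25 * (2 * CA A * X) ^ 2 * (K * (C2 * Y ^ (sexp A)))) := by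
        refine mul_le_mul h1 ?_ (by positivity) (by positivity)
        refine mul_le_mul ?_ ?_ (by positivity) (by positivity)
        · exact mul_le_mul_of_nonneg_left (pow_le_pow_left₀ hR0 h4 2) (by norm_num)
        · exact mul_le_mul_of_nonneg_left h3 hK0
    _ = C1 * (25 * (2 * CA A) ^ 2 * C2) * (X ^ (sexp A) * X ^ 2) * Y ^ (sexp A) * K := by ring

end Pool.Agent.W_f50700_h13
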